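import Pool.Agent.H49.KC.Defs

namespace H49KC

open H49KA H49KB

universe u v w

variable {k : Type} [Field k] [Finite k] {H H' : Type} [AddCommGroup H] [Module k H]
  [FiniteDimensional k H] [AddCommGroup H'] [Module k H'] [FiniteDimensional k H']
  {A L : Type} [AddCommGroup A] [Module k A] [FiniteDimensional k A] [AddCommGroup L]
  [Module k L] [FiniteDimensional k L] {Γ : Type} [Group Γ]

omit [Finite k] [FiniteDimensional k H] [FiniteDimensional k H'] in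
/-- a functional on `L₀` which is extended by `0` on `L₁` is represented -/
private theorem ai_repr (β : H →ₗ[k] H' →ₗ[k] k) (hβ : PerfP β) {L₀ L₁ : Submodule k H'}
    (hd : Disjoint L₀ L₁) (f : Module.Dual k L₀) :
    ∃ e : H, (∀ p : L₀, β e p = f p) ∧ ∀ ψ ∈ L₁, β e ψ = 0 := by
  have hker : LinearMap.ker (L₀.subtype.coprod L₁.subtype) = ⊥ := by
    rw [LinearMap.ker_coprod_of_disjoint_range]
    · simp
    · simpa using hd
  obtain ⟨r, hr⟩ := LinearMap.exists_leftInverse_of_injective _ hker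
  obtain ⟨e, he⟩ := hβ.1 ((f.comp (LinearMap.fst k L₀ L₁)).comp r)
  have h1 : ∀ (p : L₀) (q : L₁), r ((p : H') + (q : H')) = (p, q) := by
    intro p q
    have := LinearMap.congr_fun hr (p, q)
    simpa using this
  refine ⟨e, fun p => ?_, fun ψ hψ => ?_⟩
  · rw [he]
    have := h1 p 0
    simp only [ZeroMemClass.coe_zero, add_zero] at this
    simp [this]
  · rw [he]
    have := h1 0 ⟨ψ, hψ⟩
    simp only [ZeroMemClass.coe_zero, zero_add] at this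
    simp [this]

omit [Finite k] [FiniteDimensional k H] in
/-- the conjugations -/
private theorem ai_conj (β : H →ₗ[k] H' →ₗ[k] k) (hβ : PerfP β) (T : H → H' → Γ)
    (hT : TSys β T) (u : H) (L₀ L₁ : Submodule k H')
    (hd : Disjoint L₀ L₁) (h0 : ∀ φ ∈ L₀, β u φ = 0)
    (h1 : ∀ φ ∈ L₁, β u φ = 0) (v : L₀ →ₗ[k] L₁) :
    ∃ g : Γ, ∀ (p : L₀), ∀ ψ ∈ L₁,
      g * T u ((p : H') + ψ) * g⁻¹ = T u ((p : H') + ψ - (v p : H')) := by
  classical
  have hadd : ∀ v w : L₀ →ₗ[k] L₁,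
      (∃ g : Γ, ∀ (p : L₀), ∀ ψ ∈ L₁,
        g * T u ((p : H') + ψ) * g⁻¹ = T u ((p : H') + ψ - (v p : H'))) →
      (∃ g : Γ, ∀ (p : L₀), ∀ ψ ∈ L₁,
        g * T u ((p : H') + ψ) * g⁻¹ = T u ((p : H') + ψ - (w p : H'))) →
      (∃ g : Γ, ∀ (p : L₀), ∀ ψ ∈ L₁,
        g * T u ((p : H') + ψ) * g⁻¹ = T u ((p : H') + ψ - ((v + w) p : H'))) := by
    rintro v w ⟨g, hg⟩ ⟨g', hg'⟩
    refine ⟨g * g', fun p ψ hψ => ?_⟩
    have e1 : g * g' * T u ((p : H') + ψ) * (g * g')⁻¹ =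
        g * (g' * T u ((p : H') + ψ) * g'⁻¹) * g⁻¹ := by group
    rw [e1, hg' p ψ hψ]
    have e2 : (p : H') + ψ - (w p : H') = (p : H') + (ψ - (w p : H')) := by abel
    rw [e2, hg p _ (L₁.sub_mem hψ (w p).2)]
    congr 1
    rw [LinearMap.add_apply, Submodule.coe_add]
    abel
  have hone : ∀ (f : Module.Dual k L₀) (χ : L₁), ∃ g : Γ, ∀ (p : L₀), ∀ ψ ∈ L₁,
        g * T u ((p : H') + ψ) * g⁻¹ =
          T u ((p : H') + ψ - ((f.smulRight χ : L₀ →ₗ[k] L₁) p : H')) := by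
    intro f χ
    obtain ⟨e, he0, he1⟩ := ai_repr β hβ hd f
    refine ⟨T e (χ : H'), fun p ψ hψ => ?_⟩
    have hz : β u ((p : H') + ψ) = 0 := by
      rw [map_add, h0 _ p.2, h1 _ hψ, add_zero]
    rw [hT.conj e χ u _ (he1 _ χ.2) hz, h1 _ χ.2, zero_smul, add_zero, map_add, he0, he1 _ hψ,
      add_zero]
    rfl
  have hzero : ∃ g : Γ, ∀ (p : L₀), ∀ ψ ∈ L₁,
        g * T u ((p : H') + ψ) * g⁻¹ =
          T u ((p : H') + ψ - ((0 : L₀ →ₗ[k] L₁) p : H')) := by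
    refine ⟨1, fun p ψ hψ => ?_⟩
    simp
  let b := Module.finBasis k L₀
  have hv : v = ∑ n, (b.coord n).smulRight (v (b n)) := by
    refine b.ext fun i => ?_
    rw [LinearMap.sum_apply, Finset.sum_eq_single i]
    · simp
    · intro j _ hj
      simp [Finsupp.single_eq_of_ne hj]
    · simp
  rw [hv]
  refine Finset.sum_induction (fun n => (b.coord n).smulRight (v (b n)))
    (fun w : L₀ →ₗ[k] L₁ => ∃ g : Γ, ∀ (p : L₀), ∀ ψ ∈ L₁,
      g * T u ((p : H') + ψ) * g⁻¹ = T u ((p : H') + ψ - (w p : H'))) hadd hzero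
    fun n _ => hone _ _

theorem asl_index (β : H →ₗ[k] H' →ₗ[k] k) (hβ : PerfP β) (T : H → H' → Γ)
    (hT : TSys β T) (u : H) (P : Finset H') (L₀ L₁ : Submodule k H')
    (hP : ∀ p ∈ P, p ≠ 0 ∧ p ∈ L₀) (hd : Disjoint L₀ L₁) (h0 : ∀ φ ∈ L₀, β u φ = 0)
    (h1 : ∀ φ ∈ L₁, β u φ = 0) (𝒰 : Subgroup Γ)
    (h𝒰 : ∀ g : Γ, ∃ p ∈ P, g * T u p * g⁻¹ ∈ 𝒰) :
    SmallIdx P.card (fun φ => T u φ ∈ 𝒰) L₁ := by
  classical
  intro φ hφ
  by_contra hcon
  push Not at hcon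
  have hfin : Finite (L₀ →ₗ[k] L₁) := Module.finite_of_finite k
  have : Fintype (L₀ →ₗ[k] L₁) := Fintype.ofFinite _
  let Bad : H' → Finset (L₀ →ₗ[k] L₁) := fun p =>
    Finset.univ.filter (fun v => ∃ h : p ∈ L₀, T u (p - (v ⟨p, h⟩ : H')) ∈ 𝒰)
  have hsub : ∀ χ χ' : H', β u χ = 0 → β u χ' = 0 → T u (χ - χ') = T u χ * (T u χ')⁻¹ := by
    intro χ χ' h h'
    have h2 := hT.add_right u (χ - χ') χ' (by rw [map_sub, h, h', sub_zero]) h'
    rw [sub_add_cancel] at h2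
    rw [h2, mul_inv_cancel_right]
  have hBad : ∀ p ∈ P, (P.card + 1) * (Bad p).card ≤ Fintype.card (L₀ →ₗ[k] L₁) := by
    intro p hp
    obtain ⟨hp0, hpL⟩ := hP p hp
    have hp0' : (⟨p, hpL⟩ : L₀) ≠ 0 := fun h => hp0 (congrArg Subtype.val h)
    obtain ⟨f, hf⟩ : ∃ f : Module.Dual k L₀, f ⟨p, hpL⟩ = 1 := by
      by_contra hcf
      push Not at hcf
      refine hp0' ((Module.forall_dual_apply_eq_zero_iff k _).1 fun f => ?_)
      by_contra hf
      exact hcf ((f ⟨p, hpL⟩)⁻¹ • f) (by simp [hf])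
    let F : Fin (P.card + 1) × (L₀ →ₗ[k] L₁) → (L₀ →ₗ[k] L₁) := fun x =>
      x.2 + f.smulRight ⟨φ x.1, hφ x.1⟩
    have hinj : Set.InjOn F (↑(Finset.univ ×ˢ Bad p : Finset (Fin (P.card + 1) × (L₀ →ₗ[k] L₁)))) := by
      rintro ⟨j, v⟩ hv ⟨j', v'⟩ hv' h
      obtain ⟨_, hw⟩ := (Finset.mem_filter.1 (Finset.mem_product.1 (Finset.mem_coe.1 hv)).2).2
      obtain ⟨_, hw'⟩ := (Finset.mem_filter.1 (Finset.mem_product.1 (Finset.mem_coe.1 hv')).2).2
      have h3 : v + f.smulRight ⟨φ j, hφ j⟩ = v' + f.smulRight ⟨φ j', hφ j'⟩ := h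
      have h4 := congrArg (fun w : L₀ →ₗ[k] L₁ => ((w ⟨p, hpL⟩ : L₁) : H')) h3
      simp only [LinearMap.add_apply, LinearMap.smulRight_apply, hf, one_smul,
        Submodule.coe_add] at h4
      have h5 : φ j - φ j' = (p - (v ⟨p, hpL⟩ : H')) - (p - (v' ⟨p, hpL⟩ : H')) := by
        have : φ j - φ j' = (v' ⟨p, hpL⟩ : H') - (v ⟨p, hpL⟩ : H') := by
          rw [sub_eq_sub_iff_add_eq_add, add_comm, h4]
        rw [this]
        abel
      have hz : ∀ w : L₀ →ₗ[k] L₁, β u (p - (w ⟨p, hpL⟩ : H')) = 0 := by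
        intro w
        rw [map_sub, h0 _ hpL, h1 _ (w ⟨p, hpL⟩).2, sub_zero]
      have h6 : T u (φ j - φ j') ∈ 𝒰 := by
        rw [h5, hsub _ _ (hz v) (hz v')]
        exact 𝒰.mul_mem hw (𝒰.inv_mem hw')
      have hjj : j = j' := by
        by_contra hne
        exact hcon j j' hne h6
      subst hjj
      have : v = v' := add_right_cancel h3
      rw [this]
    have hc := Finset.card_le_card_of_injOn (s := Finset.univ ×ˢ Bad p) (t := Finset.univ) F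
      (fun x _ => Finset.mem_univ _) hinj
    rw [Finset.card_product, Finset.card_univ, Fintype.card_fin, Finset.card_univ] at hc
    exact hc
  have hcover : (Finset.univ : Finset (L₀ →ₗ[k] L₁)) ⊆ P.biUnion Bad := by
    intro v _
    obtain ⟨g, hg⟩ := ai_conj β hβ T hT u L₀ L₁ hd h0 h1 v
    obtain ⟨p, hp, hpU⟩ := h𝒰 g
    obtain ⟨hp0, hpL⟩ := hP p hp
    rw [Finset.mem_biUnion]
    refine ⟨p, hp, ?_⟩
    simp only [Bad, Finset.mem_filter, Finset.mem_univ, true_and]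
    refine ⟨hpL, ?_⟩
    have h2 := hg ⟨p, hpL⟩ 0 L₁.zero_mem
    simp only [add_zero] at h2
    rw [← h2]
    exact hpU
  have hcard : Fintype.card (L₀ →ₗ[k] L₁) ≤ ∑ p ∈ P, (Bad p).card := by
    rw [← Finset.card_univ]
    exact (Finset.card_le_card hcover).trans Finset.card_biUnion_le
  have hpos : 0 < Fintype.card (L₀ →ₗ[k] L₁) := Fintype.card_pos
  have h2 : (P.card + 1) * Fintype.card (L₀ →ₗ[k] L₁) ≤ P.card * Fintype.card (L₀ →ₗ[k] L₁) := by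
    calc (P.card + 1) * Fintype.card (L₀ →ₗ[k] L₁) ≤ (P.card + 1) * ∑ p ∈ P, (Bad p).card :=
          Nat.mul_le_mul_left _ hcard
      _ = ∑ p ∈ P, (P.card + 1) * (Bad p).card := Finset.mul_sum _ _ _
      _ ≤ ∑ p ∈ P, Fintype.card (L₀ →ₗ[k] L₁) := Finset.sum_le_sum hBad
      _ = P.card * Fintype.card (L₀ →ₗ[k] L₁) := by rw [Finset.sum_const, smul_eq_mul]
  have h3 := Nat.le_of_mul_le_mul_right h2 hpos
  omega

end H49KC
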