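import Pool.Agent.H49.KC.Defs

namespace H49KC

open H49KA H49KB

universe u v w

variable {k : Type} [Field k] [Finite k] {H H' : Type} [AddCommGroup H] [Module k H]
  [FiniteDimensional k H] [AddCommGroup H'] [Module k H'] [FiniteDimensional k H']
  {A L : Type} [AddCommGroup A] [Module k A] [FiniteDimensional k A] [AddCommGroup L]
  [Module k L] [FiniteDimensional k L] {Γ : Type} [Group Γ]

omit [Finite k] in
private theorem ar_fun {V : Type} [AddCommGroup V] [Module k V] (W : Submodule k V) (v : V)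
    (hv : v ∉ W) : ∃ g : Module.Dual k V, g v = 1 ∧ ∀ w ∈ W, g w = 0 := by
  obtain ⟨f, hf, hf'⟩ := W.exists_dual_map_eq_bot_of_notMem hv inferInstance
  refine ⟨(f v)⁻¹ • f, ?_, ?_⟩
  · simp [inv_mul_cancel₀ hf]
  · intro w hw
    have : f w ∈ W.map f := ⟨w, hw, rfl⟩
    rw [hf', Submodule.mem_bot] at this
    simp [this]

private theorem ar_card {V W : Type} [AddCommGroup V] [Module k V] [AddCommGroup W] [Module k W]
    [FiniteDimensional k W] (f : V →ₗ[k] W) (hf : ∀ v, f v = 0 → v = 0) (S : Submodule k W)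
    (n : ℕ) (hS : Module.finrank k S ≤ n) : {v : V | f v ∈ S}.ncard ≤ Nat.card k ^ n := by
  have hfinS : Finite S := Module.finite_of_finite k
  have hinj : Function.Injective (fun v : {v : V | f v ∈ S} => (⟨f v, v.2⟩ : S)) := by
    intro a b hab
    have h1 : f a = f b := congrArg Subtype.val hab
    have h2 : f ((a : V) - b) = 0 := by rw [map_sub, h1, sub_self]
    exact Subtype.ext (sub_eq_zero.1 (hf _ h2))
  have h1 := Nat.card_le_card_of_injective _ hinj
  rw [Nat.card_coe_set_eq, Module.natCard_eq_pow_finrank (K := k)] at h1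
  refine h1.trans (Nat.pow_le_pow_right ?_ hS)
  have : Nontrivial k := inferInstance
  exact Nat.card_pos

private theorem ar_two : 2 ≤ Nat.card k := by
  have : Nontrivial k := inferInstance
  exact Nat.succ_le_of_lt (Finite.one_lt_card)

/-- greedy choice of elements with differences outside a bad set -/
private theorem ar_greedy {V : Type} [AddCommGroup V] [Finite V] (B : Set V) (h0 : (0 : V) ∈ B)
    (hB : ∀ v ∈ B, -v ∈ B) (n : ℕ) (hn : n * B.ncard < Nat.card V) :
    ∃ b : Fin (n + 1) → V, ∀ j j', j ≠ j' → b j - b j' ∉ B := by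
  have key : ∀ m, m ≤ n + 1 → ∃ S : Finset V, S.card = m ∧ ∀ a ∈ S, ∀ b ∈ S, a ≠ b → a - b ∉ B := by
    intro m
    induction m with
    | zero => intro _; exact ⟨∅, by simp, by simp⟩
    | succ m ih =>
      intro hm
      obtain ⟨S, hS, hS'⟩ := ih (by omega)
      classical
      have hU : (⋃ t ∈ S, (fun v => t + v) '' B).ncard < Nat.card V := by
        refine lt_of_le_of_lt ?_ hn
        have h1 : (⋃ t ∈ S, (fun v => t + v) '' B).ncard ≤ ∑ t ∈ S, ((fun v => t + v) '' B).ncard := by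
          clear hS hS' hn ih hm
          induction S using Finset.induction_on with
          | empty => simp
          | insert a S ha ih =>
            rw [Finset.set_biUnion_insert, Finset.sum_insert ha]
            exact (Set.ncard_union_le _ _).trans (Nat.add_le_add_left ih _)
        refine h1.trans ?_
        have h2 : ∀ t ∈ S, ((fun v => t + v) '' B).ncard ≤ B.ncard := fun t _ =>
          Set.ncard_image_le (Set.toFinite _)
        refine (Finset.sum_le_sum h2).trans ?_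
        rw [Finset.sum_const, hS, smul_eq_mul]
        exact Nat.mul_le_mul_right _ (by omega)
      have hex : ∃ b : V, b ∉ ⋃ t ∈ S, (fun v => t + v) '' B := by
        by_contra hcon
        push Not at hcon
        have : (⋃ t ∈ S, (fun v => t + v) '' B) = Set.univ := Set.eq_univ_of_forall hcon
        rw [this, Set.ncard_univ] at hU
        exact lt_irrefl _ hU
      obtain ⟨b, hb⟩ := hex
      have hb' : ∀ t ∈ S, b - t ∉ B := by
        intro t ht hbt
        exact hb (Set.mem_biUnion ht ⟨b - t, hbt, by simp⟩)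
      have hbS : b ∉ S := fun h => hb' b h (by rw [sub_self]; exact h0)
      refine ⟨insert b S, by rw [Finset.card_insert_of_notMem hbS, hS], ?_⟩
      intro a ha c hc hac
      rcases Finset.mem_insert.1 ha with rfl | ha
      · rcases Finset.mem_insert.1 hc with rfl | hc
        · exact absurd rfl hac
        · exact hb' c hc
      · rcases Finset.mem_insert.1 hc with hcb | hc
        · intro h
          rw [hcb] at h
          apply hb' a ha
          have := hB _ h
          rwa [neg_sub] at this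
        · exact hS' a ha c hc hac
  obtain ⟨S, hS, hS'⟩ := key (n + 1) le_rfl
  let e := S.equivFinOfCardEq hS
  refine ⟨fun j => (e.symm j : V), fun j j' hjj => hS' _ (e.symm j).2 _ (e.symm j').2 ?_⟩
  intro h
  exact hjj (e.symm.injective (Subtype.ext h))

section algebra

variable (β : H →ₗ[k] H' →ₗ[k] k) {T : H → H' → Γ}

omit [Finite k] [FiniteDimensional k H] [FiniteDimensional k H'] in
private theorem ar_zero (hT : TSys β T) (φ : H') : T 0 φ = 1 := by
  have h := hT.add_left 0 0 φ (by simp) (by simp)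
  rw [add_zero] at h
  exact (left_eq_mul.1 h)

omit [Finite k] [FiniteDimensional k H] [FiniteDimensional k H'] in
private theorem ar_inv (hT : TSys β T) (u : H) (φ : H') (h : β u φ = 0) :
    (T u φ)⁻¹ = T (-u) φ := by
  have h1 := hT.add_left u (-u) φ h (by simp [h])
  rw [add_neg_cancel, ar_zero β hT] at h1
  exact inv_eq_of_mul_eq_one_right h1.symm

omit [Finite k] [FiniteDimensional k H] [FiniteDimensional k H'] in
/-- the commutator computation -/
private theorem ar_comm (hT : TSys β T) (a0 a1 c0 c1 e : H) (b0 b1 y0 y1 : H') (t : k)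
    (hab00 : β a0 b0 = 0) (hab11 : β a1 b1 = 0)
    (hay00 : β a0 y0 = 0) (hay01 : β a0 y1 = 0) (hay10 : β a1 y0 = 0) (hay11 : β a1 y1 = 0)
    (hcb00 : β c0 b0 = 0) (hcb01 : β c0 b1 = 0) (hcb10 : β c1 b0 = 0) (hcb11 : β c1 b1 = 0)
    (hcy00 : β c0 y0 = 0) (hcy01 : β c0 y1 = 0) (hcy11 : β c1 y1 = 0)
    (heb0 : β e b0 = 1) (heb1 : β e b1 = 0) (hey0 : β e y0 = 0) (hey1 : β e y1 = 0) :
    (T a0 b0 * (T a1 b1)⁻¹) * (T (c0 + e) y0 * (T (c1 + t • e) y1)⁻¹) *
      (T a0 b0 * (T a1 b1)⁻¹)⁻¹ * (T (c0 + e) y0 * (T (c1 + t • e) y1)⁻¹)⁻¹ =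
      T a0 (y0 - t • y1) := by
  have e1 : (T a1 b1)⁻¹ = T (-a1) b1 := ar_inv β hT _ _ hab11
  -- conjugation by `(T a1 b1)⁻¹`
  have k1 : (T a1 b1)⁻¹ * T (c0 + e) y0 * (T a1 b1) = T (c0 + e) y0 := by
    have h := hT.conj (-a1) b1 (c0 + e) y0 (by simp [hab11]) (by simp [hcy00, hey0])
    rw [← e1, inv_inv] at h
    rw [h]
    simp [hcb01, heb1, hay10]
  have k2 : (T a1 b1)⁻¹ * T (c1 + t • e) y1 * (T a1 b1) = T (c1 + t • e) y1 := by
    have h := hT.conj (-a1) b1 (c1 + t • e) y1 (by simp [hab11]) (by simp [hcy11, hey1])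
    rw [← e1, inv_inv] at h
    rw [h]
    simp [hcb11, heb1, hay11]
  have k3 : T a0 b0 * T (c0 + e) y0 * (T a0 b0)⁻¹ = T (c0 + e) y0 * T a0 y0 := by
    rw [hT.conj a0 b0 (c0 + e) y0 hab00 (by simp [hcy00, hey0]),
      ← hT.add_left _ _ _ (by simp [hcy00, hey0]) hay00]
    simp [hcb00, heb0, hay00]
  have k4 : T a0 b0 * T (c1 + t • e) y1 * (T a0 b0)⁻¹ = T (c1 + t • e) y1 * T a0 (t • y1) := by
    rw [hT.conj a0 b0 (c1 + t • e) y1 hab00 (by simp [hcy11, hey1]), ← hT.smul _ _ _ hay01,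
      ← hT.add_left _ _ _ (by simp [hcy11, hey1]) (by simp [hay01])]
    simp [hcb10, heb0, hay01]
  have k5 : T a0 (t • y1) * T a0 (y0 - t • y1) = T a0 y0 := by
    rw [← hT.add_right _ _ _ (by simp [hay01]) (by simp [hay00, hay01])]
    simp
  have k6 : T (c0 + e) y0 * T a0 (y0 - t • y1) * (T (c0 + e) y0)⁻¹ = T a0 (y0 - t • y1) := by
    rw [hT.conj (c0 + e) y0 a0 (y0 - t • y1) (by simp [hcy00, hey0]) (by simp [hay00, hay01])]
    simp [hay00, hcy00, hcy01, hey0, hey1]
  have k7 : T a0 (t • y1) * T a0 (y0 - t • y1) = T a0 (y0 - t • y1) * T a0 (t • y1) := by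
    rw [← hT.add_right _ _ _ (by simp [hay01]) (by simp [hay00, hay01]),
      ← hT.add_right _ _ _ (by simp [hay00, hay01]) (by simp [hay01]), add_comm]
  -- assemble
  set X := T (c0 + e) y0 with hX
  set Y := T (c1 + t • e) y1 with hY
  set Q := T a0 b0 with hQ
  set P := T a1 b1 with hP
  set R := T a0 (y0 - t • y1) with hR
  set W := T a0 (t • y1) with hW
  have g1 : (Q * P⁻¹) * (X * Y⁻¹) * (Q * P⁻¹)⁻¹ = X * R * Y⁻¹ := by
    have : (Q * P⁻¹) * (X * Y⁻¹) * (Q * P⁻¹)⁻¹ =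
        (Q * (P⁻¹ * X * P) * Q⁻¹) * (Q * (P⁻¹ * Y * P) * Q⁻¹)⁻¹ := by group
    rw [this, k1, k2, k3, k4, ← k5, k7]
    group
  rw [g1]
  have : X * R * Y⁻¹ * (X * Y⁻¹)⁻¹ = X * R * X⁻¹ := by group
  rw [this, k6]

end algebra

theorem asl_root (s : ℕ) (β : H →ₗ[k] H' →ₗ[k] k) (hβ : PerfP β) (T : H → H' → Γ)
    (hT : TSys β T) (α : Fin (s + 1) → A →ₗ[k] H) (ℓ : Fin (s + 1) → L →ₗ[k] H')
    (hc : Cfg s β α ℓ) (hA : s + 3 ≤ Module.finrank k A)
    (hL : 10 * (s + 1) ^ 2 + 10 ≤ Module.finrank k L) (x : A) (hx : x ≠ 0) :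
    ∃ (P : Finset H') (L₀ : Submodule k H'), P.card ≤ s ^ 2 * (s + 1) ^ 2 ∧
      (∀ p ∈ P, p ≠ 0 ∧ p ∈ L₀) ∧ Module.finrank k L₀ ≤ (s + 1) ^ 2 ∧
      L₀ ≤ (⨆ i, LinearMap.range (ℓ i)) ∧
      ∀ 𝒰 : Subgroup Γ, HC s T (fun i a => α i a) (fun i l => ℓ i l) 𝒰 →
        ∀ g : Γ, ∃ p ∈ P, g * T (α 0 x) p * g⁻¹ ∈ 𝒰 := by
  classical
  have hq : 2 ≤ Nat.card k := ar_two
  set q := Nat.card k with hqdef
  have hq0 : 0 < q := by omega
  have hfinA : Finite A := Module.finite_of_finite k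
  have hfinL : Finite L := Module.finite_of_finite k
  have hcardA : Nat.card A = q ^ Module.finrank k A := Module.natCard_eq_pow_finrank
  have hcardL : Nat.card L = q ^ Module.finrank k L := Module.natCard_eq_pow_finrank
  -- Step 1: the element `x'`
  have h1 : ∃ x' : A, ∀ i : Fin s, α 0 x' ∉ Submodule.span k {α 0 x, α i.succ x} := by
    by_contra hcon
    push Not at hcon
    have hcov : (⋃ i ∈ (Finset.univ : Finset (Fin s)),
        {a : A | α 0 a ∈ Submodule.span k {α 0 x, α i.succ x}}) = Set.univ := by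
      refine Set.eq_univ_of_forall fun a => ?_
      obtain ⟨i, hi⟩ := hcon a
      exact Set.mem_biUnion (Finset.mem_coe.2 (Finset.mem_univ i)) hi
    have hbd : ∀ S : Finset (Fin s), (⋃ i ∈ S,
        {a : A | α 0 a ∈ Submodule.span k {α 0 x, α i.succ x}}).ncard ≤ S.card * q ^ 2 := by
      intro S
      induction S using Finset.induction_on with
      | empty => simp
      | insert a S ha ih =>
        rw [Finset.set_biUnion_insert, Finset.card_insert_of_notMem ha]
        refine (Set.ncard_union_le _ _).trans ?_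
        have h2 : {b : A | α 0 b ∈ Submodule.span k {α 0 x, α a.succ x}}.ncard ≤ q ^ 2 := by
          refine ar_card (α 0) hc.injA _ 2 ?_
          have h3 : ({α 0 x, α a.succ x} : Set H) = (({α 0 x, α a.succ x} : Finset H) : Set H) := by
            simp
          rw [h3]
          exact (finrank_span_finset_le_card _).trans Finset.card_le_two
        calc _ ≤ q ^ 2 + S.card * q ^ 2 := Nat.add_le_add h2 ih
          _ = (S.card + 1) * q ^ 2 := by ring
    have h4 := hbd Finset.univ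
    rw [hcov, Set.ncard_univ, hcardA, Finset.card_univ, Fintype.card_fin] at h4
    have h5 : q ^ (s + 3) ≤ q ^ Module.finrank k A := Nat.pow_le_pow_right hq0 hA
    have h6 : s < q ^ (s + 1) := by
      calc s < 2 ^ s := Nat.lt_two_pow_self
        _ ≤ q ^ s := Nat.pow_le_pow_left hq s
        _ ≤ q ^ (s + 1) := Nat.pow_le_pow_right hq0 (Nat.le_succ s)
    have h7 : s * q ^ 2 < q ^ (s + 1) * q ^ 2 := Nat.mul_lt_mul_of_pos_right h6 (by positivity)
    have h8 : q ^ (s + 1) * q ^ 2 = q ^ (s + 3) := by rw [← pow_add]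
    omega
  obtain ⟨x', hx'⟩ := h1
  -- Step 2: the functionals `e'`
  have h2 : ∀ i : Fin s, ∃ f : H', β (α 0 x') f = 1 ∧ β (α 0 x) f = 0 ∧ β (α i.succ x) f = 0 := by
    intro i
    obtain ⟨g, hg, hg'⟩ := ar_fun _ _ (hx' i)
    obtain ⟨f, hf⟩ := hβ.2 g
    refine ⟨f, by rw [hf, hg], by rw [hf]; exact hg' _ (Submodule.subset_span (by simp)), ?_⟩
    rw [hf]
    exact hg' _ (Submodule.subset_span (by simp))
  choose e' he'1 he'2 he'3 using h2
  -- Step 3: the elements `y`
  have h3 : ∃ y : Fin (s + 1) → L, ∀ j j', j ≠ j' → y j - y j' ∉ ({0} : Set L) := by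
    refine ar_greedy _ (by simp) (by simp) s ?_
    rw [Set.ncard_singleton, mul_one, hcardL]
    calc s < 2 ^ s := Nat.lt_two_pow_self
      _ ≤ q ^ s := Nat.pow_le_pow_left hq s
      _ ≤ q ^ Module.finrank k L := Nat.pow_le_pow_right hq0 (by nlinarith)
  obtain ⟨y, hy⟩ := h3
  replace hy : ∀ j j', j ≠ j' → y j - y j' ≠ 0 := fun j j' h => by simpa using hy j j' h
  set L₀ : Submodule k H' := Submodule.span k
    (Set.range fun p : Fin (s + 1) × Fin (s + 1) => ℓ p.1 (y p.2)) with hL₀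
  have hL₀mem : ∀ i j, ℓ i (y j) ∈ L₀ := fun i j => Submodule.subset_span ⟨(i, j), rfl⟩
  have hL₀mem' : ∀ i j j', ℓ i (y j - y j') ∈ L₀ := fun i j j' => by
    rw [map_sub]; exact L₀.sub_mem (hL₀mem i j) (hL₀mem i j')
  have hL₀dim : Module.finrank k L₀ ≤ (s + 1) ^ 2 := by
    refine (finrank_range_le_card _).trans ?_
    simp [sq]
  have hL₀le : L₀ ≤ (⨆ i, LinearMap.range (ℓ i)) := by
    rw [hL₀, Submodule.span_le]
    rintro _ ⟨p, rfl⟩
    exact Submodule.mem_iSup_of_mem p.1 ⟨_, rfl⟩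
  have hL₀orth : ∀ i a, ∀ w ∈ L₀, β (α i a) w = 0 := by
    intro i a w hw
    induction hw using Submodule.span_induction with
    | mem w hw => obtain ⟨p, rfl⟩ := hw; exact hc.orth _ _ _ _
    | zero => simp
    | add u v _ _ hu hv => rw [map_add, hu, hv, add_zero]
    | smul c u _ hu => rw [map_smul, hu, smul_zero]
  -- Step 4: the elements `b`
  set B : Set L := {b | ∃ (i : Fin s) (c : k), ℓ 0 b - c • ℓ i.succ b ∈ L₀} ∪ {0} with hB
  have hBcard : B.ncard ≤ s * q * q ^ ((s + 1) ^ 2) + 1 := by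
    have hBeq : {b : L | ∃ (i : Fin s) (c : k), ℓ 0 b - c • ℓ i.succ b ∈ L₀} =
        ⋃ p : Fin s × k, {b : L | (ℓ 0 - p.2 • ℓ p.1.succ) b ∈ L₀} := by
      ext b
      simp only [Set.mem_ofPred_eq, Set.mem_iUnion, Prod.exists, LinearMap.sub_apply,
        LinearMap.smul_apply]
    have hfk : Fintype k := Fintype.ofFinite k
    have hbd : ∀ S : Finset (Fin s × k), (⋃ p ∈ S,
        {b : L | (ℓ 0 - p.2 • ℓ p.1.succ) b ∈ L₀}).ncard ≤ S.card * q ^ ((s + 1) ^ 2) := by
      intro S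
      induction S using Finset.induction_on with
      | empty => simp
      | insert a S ha ih =>
        rw [Finset.set_biUnion_insert, Finset.card_insert_of_notMem ha]
        refine (Set.ncard_union_le _ _).trans ?_
        have h2 : {b : L | (ℓ 0 - a.2 • ℓ a.1.succ) b ∈ L₀}.ncard ≤ q ^ ((s + 1) ^ 2) := by
          refine ar_card (ℓ 0 - a.2 • ℓ a.1.succ) ?_ _ _ hL₀dim
          intro v hv
          rw [LinearMap.sub_apply, LinearMap.smul_apply, sub_eq_zero] at hv
          by_contra hv0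
          by_cases hc0 : a.2 = 0
          · rw [hc0, zero_smul] at hv
            exact hv0 (hc.injL v hv)
          · refine hc.indL a.1 v hv0 (a.2)⁻¹ ?_
            rw [hv, smul_smul, inv_mul_cancel₀ hc0, one_smul]
        calc _ ≤ q ^ ((s + 1) ^ 2) + S.card * q ^ ((s + 1) ^ 2) := Nat.add_le_add h2 ih
          _ = (S.card + 1) * q ^ ((s + 1) ^ 2) := by ring
    refine (Set.ncard_union_le _ _).trans ?_
    rw [Set.ncard_singleton]
    refine Nat.add_le_add_right ?_ _
    have h5 := hbd Finset.univ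
    rw [Finset.card_univ, Fintype.card_prod, Fintype.card_fin, ← Nat.card_eq_fintype_card] at h5
    rw [hBeq]
    have h6 : (⋃ p ∈ (Finset.univ : Finset (Fin s × k)),
        {b : L | (ℓ 0 - p.2 • ℓ p.1.succ) b ∈ L₀}) =
        ⋃ p : Fin s × k, {b : L | (ℓ 0 - p.2 • ℓ p.1.succ) b ∈ L₀} := by
      ext b
      simp only [Set.mem_iUnion, Finset.mem_univ, exists_const]
    rw [← h6]
    exact h5
  have h4 : ∃ b : Fin (s + 1) → L, ∀ j j', j ≠ j' → b j - b j' ∉ B := by
    refine ar_greedy B (Or.inr rfl) ?_ s ?_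
    · rintro v (⟨i, c, hv⟩ | hv)
      · refine Or.inl ⟨i, c, ?_⟩
        have := L₀.neg_mem hv
        rw [map_neg, map_neg, smul_neg, ← neg_add', ← sub_eq_add_neg]
        exact this
      · rw [Set.mem_singleton_iff] at hv
        exact Or.inr (by simp [hv])
    · rw [hcardL]
      have h5 : q ^ (10 * (s + 1) ^ 2 + 10) ≤ q ^ Module.finrank k L := Nat.pow_le_pow_right hq0 hL
      refine lt_of_lt_of_le ?_ h5
      have hs : s < q ^ s :=
        lt_of_lt_of_le Nat.lt_two_pow_self (Nat.pow_le_pow_left hq s)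
      have h6 : s * B.ncard ≤ q ^ s * (q ^ s * q * q ^ ((s + 1) ^ 2) + 1) := by
        refine Nat.mul_le_mul hs.le (hBcard.trans ?_)
        have := Nat.mul_le_mul_right (q * q ^ ((s + 1) ^ 2)) hs.le
        nlinarith [this]
      refine lt_of_le_of_lt h6 ?_
      have h7 : q ^ s * q * q ^ ((s + 1) ^ 2) + 1 < q ^ (s + (s + 1) ^ 2 + 2) + 1 := by
        have : q ^ s * q * q ^ ((s + 1) ^ 2) = q ^ (s + (s + 1) ^ 2 + 1) := by ring
        rw [this]
        have := Nat.pow_lt_pow_right (show 1 < q by omega)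
          (show s + (s + 1) ^ 2 + 1 < s + (s + 1) ^ 2 + 2 by omega)
        omega
      have h8 : q ^ (s + (s + 1) ^ 2 + 2) + 1 ≤ q ^ (s + (s + 1) ^ 2 + 3) := by
        have h9 : q ^ (s + (s + 1) ^ 2 + 3) = q ^ (s + (s + 1) ^ 2 + 2) * q := by ring
        have h10 : 1 ≤ q ^ (s + (s + 1) ^ 2 + 2) := Nat.one_le_pow _ _ hq0
        nlinarith
      calc q ^ s * (q ^ s * q * q ^ ((s + 1) ^ 2) + 1) < q ^ s * q ^ (s + (s + 1) ^ 2 + 3) :=
            Nat.mul_lt_mul_of_pos_left (lt_of_lt_of_le h7 h8) (by positivity)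
        _ = q ^ (s + (s + (s + 1) ^ 2 + 3)) := by ring
        _ ≤ q ^ (10 * (s + 1) ^ 2 + 10) := Nat.pow_le_pow_right hq0 (by nlinarith)
  obtain ⟨b, hb⟩ := h4
  -- Step 5: the elements `e`
  have h5 : ∀ (i : Fin s) (j j' : Fin (s + 1)), j ≠ j' → ∃ e : H,
      β e (ℓ 0 (b j - b j')) = 1 ∧ β e (ℓ i.succ (b j - b j')) = 0 ∧
      (∀ w ∈ L₀, β e w = 0) ∧ β e (e' i) = 0 := by
    intro i j j' hjj
    have hni : ℓ 0 (b j - b j') ∉
        L₀ ⊔ Submodule.span k {ℓ i.succ (b j - b j')} ⊔ Submodule.span k {e' i} := by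
      intro hmem
      obtain ⟨u, hu, v, hv, huv⟩ := Submodule.mem_sup.1 hmem
      obtain ⟨w, hw, z, hz, hwz⟩ := Submodule.mem_sup.1 hu
      obtain ⟨d, rfl⟩ := Submodule.mem_span_singleton.1 hv
      obtain ⟨c, rfl⟩ := Submodule.mem_span_singleton.1 hz
      have hpair := congrArg (β (α 0 x')) huv
      rw [← hwz, map_add, map_add, map_smul, map_smul, hL₀orth _ _ w hw, hc.orth, hc.orth,
        he'1] at hpair
      have hd : d = 0 := by simpa using hpair
      rw [hd, zero_smul, add_zero, ← hwz] at huv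
      apply hb j j' hjj
      refine Or.inl ⟨i, c, ?_⟩
      rw [← huv, add_sub_cancel_right]
      exact hw
    obtain ⟨g, hg, hg'⟩ := ar_fun _ _ hni
    obtain ⟨e, he⟩ := hβ.1 g
    refine ⟨e, by rw [he, hg], ?_, ?_, ?_⟩
    · rw [he]
      exact hg' _ (Submodule.mem_sup_left (Submodule.mem_sup_right
        (Submodule.mem_span_singleton_self _)))
    · intro w hw
      rw [he]
      exact hg' _ (Submodule.mem_sup_left (Submodule.mem_sup_left hw))
    · rw [he]
      exact hg' _ (Submodule.mem_sup_right (Submodule.mem_span_singleton_self _))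
  -- the finite set `P`
  let F : (Fin s × Fin s) × (Fin (s + 1) × Fin (s + 1)) → H' := fun p =>
    ℓ 0 (y p.2.1 - y p.2.2) - β (α p.1.2.succ x') (e' p.1.1) • ℓ p.1.2.succ (y p.2.1 - y p.2.2)
  let I : Finset ((Fin s × Fin s) × (Fin (s + 1) × Fin (s + 1))) :=
    Finset.univ.filter fun p => p.2.1 ≠ p.2.2
  refine ⟨I.image F, L₀, ?_, ?_, hL₀dim, hL₀le, ?_⟩
  · refine Finset.card_image_le.trans ((Finset.card_filter_le _ _).trans ?_)
    rw [Finset.card_univ, Fintype.card_prod, Fintype.card_prod, Fintype.card_prod,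
      Fintype.card_fin, Fintype.card_fin]
    exact le_of_eq (by ring)
  · intro p hp
    obtain ⟨⟨⟨i, i'⟩, ⟨r, r'⟩⟩, hmem, rfl⟩ := Finset.mem_image.1 hp
    have hrr : r ≠ r' := (Finset.mem_filter.1 hmem).2
    refine ⟨?_, L₀.sub_mem (hL₀mem' _ _ _) (L₀.smul_mem _ (hL₀mem' _ _ _))⟩
    intro h0
    have hyr := hy r r' hrr
    have h0' : ℓ 0 (y r - y r') = β (α i'.succ x') (e' i) • ℓ i'.succ (y r - y r') :=
      sub_eq_zero.1 h0
    by_cases ht : β (α i'.succ x') (e' i) = 0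
    · rw [ht, zero_smul] at h0'
      exact hyr (hc.injL _ h0')
    · refine hc.indL i' _ hyr (β (α i'.succ x') (e' i))⁻¹ ?_
      rw [h0', smul_smul, inv_mul_cancel₀ ht, one_smul]
  · intro 𝒰 hU g
    obtain ⟨i, j, j', hjj, hz1⟩ := hU g x b
    obtain ⟨e, he1, he2, he3, he4⟩ := h5 i j j' hjj
    obtain ⟨i', r, r', hrr, hz2⟩ := hU (g * T e (e' i)) x' y
    refine ⟨F ((i, i'), (r, r')), Finset.mem_image_of_mem _
      (Finset.mem_filter.2 ⟨Finset.mem_univ _, hrr⟩), ?_⟩
    simp only at hz1 hz2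
    set b' := b j - b j' with hb'
    set y' := y r - y r' with hy'
    set t : k := β (α i'.succ x') (e' i) with ht
    have c1 : T e (e' i) * T (α 0 x') (ℓ 0 y') * (T e (e' i))⁻¹ = T (α 0 x' + e) (ℓ 0 y') := by
      rw [hT.conj _ _ _ _ he4 (hc.orth _ _ _ _), he'1, he3 _ (hL₀mem' _ _ _)]
      simp
    have c2 : T e (e' i) * T (α i'.succ x') (ℓ i'.succ y') * (T e (e' i))⁻¹ =
        T (α i'.succ x' + t • e) (ℓ i'.succ y') := by
      rw [hT.conj _ _ _ _ he4 (hc.orth _ _ _ _), he3 _ (hL₀mem' _ _ _)]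
      simp [ht]
    have hz2' : g * (T (α 0 x' + e) (ℓ 0 y') * (T (α i'.succ x' + t • e) (ℓ i'.succ y'))⁻¹) * g⁻¹
        ∈ 𝒰 := by
      rw [← c1, ← c2]
      convert hz2 using 1
      group
    have hcomm := ar_comm β hT (α 0 x) (α i.succ x) (α 0 x') (α i'.succ x') e (ℓ 0 b')
      (ℓ i.succ b') (ℓ 0 y') (ℓ i'.succ y') t (hc.orth _ _ _ _) (hc.orth _ _ _ _)
      (hc.orth _ _ _ _) (hc.orth _ _ _ _) (hc.orth _ _ _ _) (hc.orth _ _ _ _)
      (hc.orth _ _ _ _) (hc.orth _ _ _ _) (hc.orth _ _ _ _) (hc.orth _ _ _ _)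
      (hc.orth _ _ _ _) (hc.orth _ _ _ _) (hc.orth _ _ _ _) he1 he2
      (he3 _ (hL₀mem' _ _ _)) (he3 _ (hL₀mem' _ _ _))
    have hF : F ((i, i'), (r, r')) = ℓ 0 y' - t • ℓ i'.succ y' := rfl
    rw [hF, ← hcomm]
    have hmul := 𝒰.mul_mem (𝒰.mul_mem (𝒰.mul_mem hz1 hz2') (𝒰.inv_mem hz1)) (𝒰.inv_mem hz2')
    convert hmul using 1
    group

end H49KC
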