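import Pool.Agent.H49.KC.Defs

namespace H49KC

open H49KA H49KB

universe u v w

variable {k : Type} [Field k] [Finite k] {H H' : Type} [AddCommGroup H] [Module k H]
  [FiniteDimensional k H] [AddCommGroup H'] [Module k H'] [FiniteDimensional k H']
  {A L : Type} [AddCommGroup A] [Module k A] [FiniteDimensional k A] [AddCommGroup L]
  [Module k L] [FiniteDimensional k L] {Γ : Type} [Group Γ]

/-- multiplication by a scalar -/
private def sm (k : Type) [Field k] {W : Type} [AddCommGroup W] [Module k W] (c : k) : W →+ W :=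
  (LinearMap.lsmul k W c).toAddMonoidHom

omit [Finite k] in
private lemma card_sub (W : Type) [AddCommGroup W] [Module k W] [FiniteDimensional k W] :
    Nat.card W = Nat.card k ^ Module.finrank k W := Module.natCard_eq_pow_finrank

/-- the largest subspace in an additive subgroup -/
private def core (k : Type) [Field k] {W : Type} [AddCommGroup W] [Module k W]
    (P : AddSubgroup W) : Submodule k W where
  carrier := {x | ∀ c : k, c • x ∈ P}
  add_mem' := by
    intro x y hx hy c
    rw [smul_add]
    exact P.add_mem (hx c) (hy c)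
  zero_mem' := by
    intro c
    rw [smul_zero]
    exact P.zero_mem
  smul_mem' := by
    intro a x hx c
    rw [smul_smul]
    exact hx _

private lemma core_codim {W : Type} [AddCommGroup W] [Module k W] [FiniteDimensional k W]
    (P : AddSubgroup W) :
    Module.finrank k W ≤ Module.finrank k (core k P) + P.index := by
  classical
  have hfin : Finite W := Module.finite_of_finite k
  obtain ⟨p, hp⟩ := CharP.exists k
  have hpp : p.Prime := CharP.char_is_prime k p
  have : Fact p.Prime := ⟨hpp⟩
  let _ : Algebra (ZMod p) k := ZMod.algebra k p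
  have : Module.Finite (ZMod p) k := Module.Finite.of_finite
  let b := Module.finBasis (ZMod p) k
  set m := Module.finrank (ZMod p) k with hm
  have hq : Nat.card k = p ^ m := by
    have := Module.natCard_eq_pow_finrank (K := ZMod p) (V := k)
    rw [Nat.card_zmod] at this
    exact this
  have hm0 : m ≠ 0 := Module.finrank_pos.ne'
  have hb0 : ∀ i, b i ≠ 0 := fun i => b.ne_zero i
  -- the intersection
  let Q : Fin m → AddSubgroup W := fun i => P.comap (sm k (b i))
  have hQi : ∀ i, (Q i).index = P.index := by
    intro i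
    apply AddSubgroup.index_comap_of_surjective
    intro y
    refine ⟨(b i)⁻¹ • y, ?_⟩
    change b i • (b i)⁻¹ • y = y
    rw [smul_smul, mul_inv_cancel₀ (hb0 i), one_smul]
  have hle : (⨅ i, Q i) ≤ (core k P).toAddSubgroup := by
    intro x hx
    rw [AddSubgroup.mem_iInf] at hx
    change ∀ c : k, c • x ∈ P
    intro c
    rw [← b.sum_repr c, Finset.sum_smul]
    refine AddSubgroup.sum_mem _ fun i _ => ?_
    have h1 : ((b.repr c) i • b i) • x = ((b.repr c) i).val • (b i • x) := by
      have h2 : ((b.repr c) i • b i : k) = ((b.repr c) i).val • b i := by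
        rw [Algebra.smul_def, nsmul_eq_mul]
        congr 1
        conv_lhs => rw [← ZMod.natCast_zmod_val ((b.repr c) i)]
        rw [map_natCast]
      rw [h2, smul_assoc]
    rw [h1]
    exact P.nsmul_mem (hx i) _
  have hidx : (core k P).toAddSubgroup.index ≤ P.index ^ m := by
    have h1 : (⨅ i, Q i).index ≤ ∏ i, (Q i).index := AddSubgroup.index_iInf_le _
    rw [Finset.prod_congr rfl (fun i _ => hQi i), Finset.prod_const, Finset.card_univ,
      Fintype.card_fin] at h1
    refine le_trans ?_ h1
    have h0 : (⨅ i, Q i).index ≠ 0 := AddSubgroup.index_ne_zero_of_finite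
    exact Nat.le_of_dvd (Nat.pos_of_ne_zero h0) (AddSubgroup.index_dvd_of_le hle)
  have hcard : Nat.card (core k P).toAddSubgroup * (core k P).toAddSubgroup.index = Nat.card W :=
    (core k P).toAddSubgroup.card_mul_index
  have hcc : Nat.card (core k P).toAddSubgroup = Nat.card (core k P) := rfl
  rw [hcc] at hcard
  rw [card_sub (k := k) W, card_sub (k := k) (core k P), hq] at hcard
  have h3 : (p ^ Module.finrank k W) ^ m ≤ (p ^ Module.finrank k (core k P) * P.index) ^ m := by
    rw [mul_pow, ← pow_mul, ← pow_mul, mul_comm _ m, mul_comm _ m, pow_mul, pow_mul, ← hcard]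
    exact Nat.mul_le_mul_left _ hidx
  have h4 : p ^ Module.finrank k W ≤ p ^ Module.finrank k (core k P) * P.index :=
    (Nat.pow_le_pow_iff_left hm0).1 h3
  have h5 : Module.finrank k (core k P) ≤ Module.finrank k W := Submodule.finrank_le _
  obtain ⟨t, ht⟩ := Nat.exists_eq_add_of_le h5
  rw [ht] at h4 ⊢
  rw [pow_add] at h4
  have h6 : p ^ t ≤ P.index := Nat.le_of_mul_le_mul_left h4 (pow_pos hpp.pos _)
  have h7 : t < p ^ t := Nat.lt_pow_self hpp.one_lt
  omega

theorem small_sub (r : ℕ) (L₁ : Submodule k H') (Ψ : AddSubgroup H')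
    (h : SmallIdx r (fun φ => φ ∈ Ψ) L₁) :
    ∃ L₂ ≤ L₁, (∀ φ ∈ L₂, φ ∈ Ψ) ∧ Module.finrank k L₁ ≤ Module.finrank k L₂ + r := by
  classical
  have hfin : Finite L₁ := Module.finite_of_finite k
  let P : AddSubgroup L₁ := Ψ.comap L₁.subtype.toAddMonoidHom
  have hP : P.index ≤ r := by
    by_contra hlt
    push Not at hlt
    have : Fintype (L₁ ⧸ P) := Fintype.ofFinite _
    have h1 : Fintype.card (Fin (r + 1)) ≤ Fintype.card (L₁ ⧸ P) := by
      rw [Fintype.card_fin, ← Nat.card_eq_fintype_card]
      exact hlt
    obtain ⟨e⟩ := Function.Embedding.nonempty_of_card_le h1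
    obtain ⟨j, j', hjj, hj⟩ := h (fun j => ((e j).out : L₁)) (fun j => ((e j).out : L₁).2)
    apply hjj
    apply e.injective
    have h2 : ((e j).out : L₁) - ((e j').out : L₁) ∈ P := hj
    have h3 : (QuotientAddGroup.mk ((e j').out : L₁) : L₁ ⧸ P) = QuotientAddGroup.mk (e j).out := by
      rw [QuotientAddGroup.eq]
      have : -((e j').out : L₁) + (e j).out = ((e j).out : L₁) - (e j').out := by abel
      rw [this]
      exact h2
    rw [QuotientAddGroup.out_eq', QuotientAddGroup.out_eq'] at h3
    exact h3.symm
  refine ⟨(core k P).map L₁.subtype, Submodule.map_subtype_le _ _, ?_, ?_⟩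
  · rintro _ ⟨x, hx, rfl⟩
    have := hx 1
    rw [one_smul] at this
    exact this
  · have h1 := core_codim (k := k) P
    rw [Submodule.finrank_map_subtype_eq]
    omega

end H49KC
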