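import Pool.Agent.H49.KC.Defs

namespace H49KC

open H49KA H49KB

universe u v w

variable {k : Type} [Field k] [Finite k] {H H' : Type} [AddCommGroup H] [Module k H]
  [FiniteDimensional k H] [AddCommGroup H'] [Module k H'] [FiniteDimensional k H']
  {A L : Type} [AddCommGroup A] [Module k A] [FiniteDimensional k A] [AddCommGroup L]
  [Module k L] [FiniteDimensional k L] {Γ : Type} [Group Γ]

theorem tsys_dual (β : H →ₗ[k] H' →ₗ[k] k) (T : H → H' → Γ) (hT : TSys β T) :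
    TSys β.flip (fun φ u => (T u φ)⁻¹) := by
  have h0 : ∀ ψ, T 0 ψ = 1 := by
    intro ψ
    have h := hT.add_left 0 0 ψ (by simp) (by simp)
    rw [add_zero] at h
    exact mul_left_cancel (a := T 0 ψ) (by rw [← h, mul_one])
  have hinv : ∀ v ψ, β v ψ = 0 → (T v ψ)⁻¹ = T (-v) ψ := by
    intro v ψ hv
    have h := hT.add_left (-v) v ψ (by simp [hv]) hv
    rw [neg_add_cancel, h0] at h
    exact inv_eq_of_mul_eq_one_left h.symm
  refine ⟨?_, ?_, ?_, ?_⟩
  · intro φ ψ u h1 h2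
    rw [LinearMap.flip_apply] at h1 h2
    show (T u (φ + ψ))⁻¹ = (T u φ)⁻¹ * (T u ψ)⁻¹
    rw [← mul_inv_rev, add_comm, hT.add_right u ψ φ h2 h1]
  · intro φ u v h1 h2
    rw [LinearMap.flip_apply] at h1 h2
    show (T (u + v) φ)⁻¹ = (T u φ)⁻¹ * (T v φ)⁻¹
    rw [← mul_inv_rev, add_comm, hT.add_left v u φ h2 h1]
  · intro c φ u h1
    rw [LinearMap.flip_apply] at h1
    show (T u (c • φ))⁻¹ = (T (c • u) φ)⁻¹
    rw [hT.smul c u φ h1]
  · intro ψ v φ u h1 h2
    rw [LinearMap.flip_apply] at h1 h2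
    show (T v ψ)⁻¹ * (T u φ)⁻¹ * ((T v ψ)⁻¹)⁻¹ =
      (T (u - β.flip ψ u • v) (φ + β.flip φ v • ψ))⁻¹
    have h3 := hT.conj (-v) ψ u φ (by simp [h1]) h2
    rw [← hinv v ψ h1] at h3
    have h4 : u - β.flip ψ u • v = u + β u ψ • -v := by
      rw [LinearMap.flip_apply, smul_neg, sub_eq_add_neg]
    have h5 : φ + β.flip φ v • ψ = φ - β (-v) φ • ψ := by
      rw [LinearMap.flip_apply, map_neg, LinearMap.neg_apply, neg_smul, sub_neg_eq_add]
    rw [h4, h5, ← h3]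
    group

end H49KC
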