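import Pool.Agent.H49.KC.Defs
import Pool.Agent.H49.KC.AR
import Pool.Agent.H49.KC.AI
import Pool.Agent.H49.KC.SS
import Pool.Agent.H49.KC.TD

namespace H49KC

open H49KA H49KB

universe u v w

variable {k : Type} [Field k] [Finite k] {H H' : Type} [AddCommGroup H] [Module k H]
  [FiniteDimensional k H] [AddCommGroup H'] [Module k H'] [FiniteDimensional k H']
  {A L : Type} [AddCommGroup A] [Module k A] [FiniteDimensional k A] [AddCommGroup L]
  [Module k L] [FiniteDimensional k L] {Γ : Type} [Group Γ]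

/-! ### linear algebra -/

omit [Finite k] in
private theorem AM_ind {V : Type} [AddCommGroup V] [Module k V] [FiniteDimensional k V]
    (R Z : Submodule k V) (m : ℕ) (h : m + Module.finrank k Z ≤ Module.finrank k R) :
    ∃ v : Fin m → V, LinearIndependent k v ∧ (∀ n, v n ∈ R) ∧
      Disjoint (Submodule.span k (Set.range v)) Z := by
  obtain ⟨W, hW⟩ := Submodule.exists_isCompl (R ⊓ Z)
  have h1 := Submodule.finrank_sup_add_finrank_inf_eq R W
  have h2 : Module.finrank k (R ⊔ W : Submodule k V) ≤ Module.finrank k V :=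
    Submodule.finrank_le _
  have h3 := Submodule.finrank_add_eq_of_isCompl hW
  have h4 : Module.finrank k (R ⊓ Z : Submodule k V) ≤ Module.finrank k Z :=
    Submodule.finrank_mono inf_le_right
  have h5 : m ≤ Module.finrank k (R ⊓ W : Submodule k V) := by omega
  obtain ⟨f, hf⟩ := exists_linearIndependent_of_le_finrank h5
  refine ⟨fun n => (f n : V), ?_, fun n => (f n).2.1, ?_⟩
  · exact hf.map' (R ⊓ W).subtype (Submodule.ker_subtype _)
  · have h6 : Submodule.span k (Set.range fun n => (f n : V)) ≤ R ⊓ W := by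
      rw [Submodule.span_le]
      rintro _ ⟨n, rfl⟩
      exact (f n).2
    rw [Submodule.disjoint_def]
    intro x hx hxZ
    have h7 := h6 hx
    have h8 := (Submodule.disjoint_def.1 hW.disjoint) x ⟨h7.1, hxZ⟩ h7.2
    exact h8

omit [Finite k] in
private theorem AM_dual {V : Type} [AddCommGroup V] [Module k V] {m : ℕ} (v : Fin m → V)
    (hv : LinearIndependent k v) (Z : Submodule k V)
    (hd : Disjoint (Submodule.span k (Set.range v)) Z) :
    ∃ g : Fin m → Module.Dual k V, (∀ n n', g n (v n') = if n' = n then 1 else 0) ∧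
      ∀ n, ∀ z ∈ Z, g n z = 0 := by
  classical
  have hw : LinearIndependent k (Z.mkQ ∘ v) := hv.map (by rw [Submodule.ker_mkQ]; exact hd)
  have hex : ∀ n, ∃ g' : (V ⧸ Z) →ₗ[k] k, g' ∘ₗ (Submodule.span k (Set.range (Z.mkQ ∘ v))).subtype =
      (Module.Basis.span hw).coord n := fun n => LinearMap.exists_extend _
  choose g' hg' using hex
  refine ⟨fun n => g' n ∘ₗ Z.mkQ, fun n n' => ?_, fun n z hz => ?_⟩
  · have h1 := congrArg (fun f : (Submodule.span k (Set.range (Z.mkQ ∘ v))) →ₗ[k] k =>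
      f (Module.Basis.span hw n')) (hg' n)
    have h2 : ((Module.Basis.span hw n' : Submodule.span k (Set.range (Z.mkQ ∘ v))) : V ⧸ Z) =
        Z.mkQ (v n') := congrArg Subtype.val (Module.Basis.span_apply hw n')
    have h3 : g' n ((Module.Basis.span hw n' :
        Submodule.span k (Set.range (Z.mkQ ∘ v))) : V ⧸ Z) =
        (Module.Basis.span hw).coord n (Module.Basis.span hw n') := h1
    rw [h2] at h3
    change g' n (Z.mkQ (v n')) = _
    rw [h3, Module.Basis.coord_apply, Module.Basis.repr_self, Finsupp.single_apply]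
  · change g' n (Z.mkQ z) = 0
    rw [Submodule.mkQ_apply, (Submodule.Quotient.mk_eq_zero Z).2 hz, map_zero]

/-! ### the dual configuration -/

omit [Finite k] [FiniteDimensional k H] [FiniteDimensional k H'] in
private theorem AM_perf {β : H →ₗ[k] H' →ₗ[k] k} (hβ : PerfP β) : PerfP β.flip :=
  ⟨fun g => hβ.2 g, fun g => hβ.1 g⟩

omit [Finite k] [FiniteDimensional k H] [FiniteDimensional k H'] [FiniteDimensional k A]
  [FiniteDimensional k L] in
private theorem AM_cfg {s : ℕ} {β : H →ₗ[k] H' →ₗ[k] k} {α : Fin (s + 1) → A →ₗ[k] H}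
    {ℓ : Fin (s + 1) → L →ₗ[k] H'} (hc : Cfg s β α ℓ) : Cfg s β.flip ℓ α where
  orth := fun i j a l => hc.orth j i l a
  injA := hc.injL
  indA := hc.indL
  injL := hc.injA
  indL := hc.indA

/-! ### the subgroups -/

section grp

variable {β : H →ₗ[k] H' →ₗ[k] k} {T : H → H' → Γ}

omit [Finite k] [FiniteDimensional k H] [FiniteDimensional k H'] in
private theorem AM_one (hT : TSys β T) (u : H) : T u 0 = 1 := by
  have h := hT.add_right u 0 0 (map_zero _) (map_zero _)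
  rw [add_zero] at h
  exact (mul_eq_left.1 h.symm)

omit [Finite k] [FiniteDimensional k H] [FiniteDimensional k H'] in
private theorem AM_neg (hT : TSys β T) (u : H) (φ : H') (h : β u φ = 0) :
    T u (-φ) = (T u φ)⁻¹ := by
  have h1 := hT.add_right u (-φ) φ (by rw [map_neg, h, neg_zero]) h
  rw [neg_add_cancel, AM_one hT] at h1
  exact eq_inv_of_mul_eq_one_left h1.symm

/-- the additive group of the `φ` with `T u φ ∈ 𝒰` -/
private def AM_grp (hT : TSys β T) (u : H) (𝒰 : Subgroup Γ) : AddSubgroup H' where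
  carrier := {φ | β u φ = 0 ∧ T u φ ∈ 𝒰}
  zero_mem' := ⟨map_zero _, by rw [AM_one hT]; exact 𝒰.one_mem⟩
  add_mem' := by
    rintro φ ψ ⟨h1, h2⟩ ⟨h3, h4⟩
    refine ⟨by rw [map_add, h1, h3, add_zero], ?_⟩
    rw [hT.add_right u φ ψ h1 h3]
    exact 𝒰.mul_mem h2 h4
  neg_mem' := by
    rintro φ ⟨h1, h2⟩
    refine ⟨by rw [map_neg, h1, neg_zero], ?_⟩
    rw [AM_neg hT u φ h1]
    exact 𝒰.inv_mem h2

private theorem AM_sub (hT : TSys β T) (u : H) (𝒰 : Subgroup Γ) (r : ℕ) (L₁ : Submodule k H')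
    (h1 : ∀ φ ∈ L₁, β u φ = 0) (h : SmallIdx r (fun φ => T u φ ∈ 𝒰) L₁) :
    ∃ L₂ ≤ L₁, (∀ φ ∈ L₂, T u φ ∈ 𝒰) ∧ Module.finrank k L₁ ≤ Module.finrank k L₂ + r := by
  obtain ⟨L₂, h2, h3, h4⟩ := small_sub r L₁ (AM_grp hT u 𝒰) (fun φ hφ => by
    obtain ⟨j, j', hj, hjj⟩ := h φ hφ
    exact ⟨j, j', hj, h1 _ (L₁.sub_mem (hφ j) (hφ j')), hjj⟩)
  exact ⟨L₂, h2, fun φ hφ => (h3 φ hφ).2, h4⟩

omit [Finite k] [FiniteDimensional k H] [FiniteDimensional k H'] in
private theorem AM_prod (hT : TSys β T) {m : ℕ} (e : Fin m → H) (us : Fin m → H')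
    (hes : ∀ n n', β (e n) (us n') = 0) (φ : H') (hφ : ∀ n, β (e n) φ = 0) (ls : List (Fin m))
    (u : H) (hu : β u φ = 0) :
    (ls.map fun n => T (e n) (us n)).prod * T u φ * (ls.map fun n => T (e n) (us n)).prod⁻¹ =
      T (u + (ls.map fun n => β u (us n) • e n).sum) φ ∧
    β (ls.map fun n => β u (us n) • e n).sum φ = 0 ∧
    ∀ n', β (ls.map fun n => β u (us n) • e n).sum (us n') = 0 := by
  induction ls with
  | nil =>
    refine ⟨?_, ?_, fun n' => ?_⟩
    · simp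
    · simp
    · simp
  | cons a ls ih =>
    obtain ⟨h1, h2, h3⟩ := ih
    refine ⟨?_, ?_, fun n' => ?_⟩
    · rw [List.map_cons, List.prod_cons, List.map_cons, List.sum_cons, mul_inv_rev]
      have h4 := hT.conj (e a) (us a) (u + (ls.map fun n => β u (us n) • e n).sum) φ (hes a a)
        (by rw [map_add, LinearMap.add_apply, hu, h2, add_zero])
      rw [← h1, hφ a, zero_smul, sub_zero] at h4
      have h5 : T (e a) (us a) * (ls.map fun n => T (e n) (us n)).prod * T u φ *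
          ((ls.map fun n => T (e n) (us n)).prod⁻¹ * (T (e a) (us a))⁻¹) =
          T (e a) (us a) * ((ls.map fun n => T (e n) (us n)).prod * T u φ *
            (ls.map fun n => T (e n) (us n)).prod⁻¹) * (T (e a) (us a))⁻¹ := by group
      rw [h5, h4, map_add, LinearMap.add_apply, h3 a, add_zero, add_assoc,
        add_comm (ls.map fun n => β u (us n) • e n).sum]
    · rw [List.map_cons, List.sum_cons, map_add, LinearMap.add_apply, h2, map_smul,
        LinearMap.smul_apply, hφ a, smul_zero, add_zero]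
    · rw [List.map_cons, List.sum_cons, map_add, LinearMap.add_apply, h3 n', map_smul,
        LinearMap.smul_apply, hes a n', smul_zero, add_zero]

end grp

omit [Finite k] [FiniteDimensional k H] in
/-- the count at the end -/
private theorem AM_count (β : H →ₗ[k] H' →ₗ[k] k) {m r : ℕ} (hm : 3 * r < m) (l : Fin m → H')
    (e u : Fin m → H) (us : Fin m → H') (hl : LinearIndependent k l) (hu : LinearIndependent k u)
    (hel : ∀ n n', β (e n) (l n') = if n' = n then 1 else 0)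
    (hus : ∀ n n', β (u n') (us n) = if n' = n then 1 else 0)
    (A₃ : Submodule k H) (L₂ : Submodule k H') (hA₃ : A₃ ≤ Submodule.span k (Set.range u))
    (hL₂ : L₂ ≤ Submodule.span k (Set.range l))
    (h1 : m ≤ Module.finrank k A₃ + 2 * r) (h2 : m ≤ Module.finrank k L₂ + r) :
    ∃ v ∈ A₃, ∃ w ∈ L₂, β (∑ n, β v (us n) • e n) w ≠ 0 := by
  classical
  by_contra hcon
  push Not at hcon
  let ν : H →ₗ[k] H := ∑ n, (β.flip (us n)).smulRight (e n)
  have hν : ∀ v, ν v = ∑ n, β v (us n) • e n := by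
    intro v
    simp only [ν, LinearMap.sum_apply, LinearMap.smulRight_apply, LinearMap.flip_apply]
  let A₁ : Submodule k H := Submodule.span k (Set.range u)
  let Θ : A₁ →ₗ[k] Module.Dual k L₂ := (L₂.dualRestrict ∘ₗ β ∘ₗ ν) ∘ₗ A₁.subtype
  have hΘ : ∀ (v : A₁) (w : L₂), Θ v w = β (ν v) w := fun v w => rfl
  have hfd : FiniteDimensional k A₁ := FiniteDimensional.span_of_finite k (Set.finite_range u)
  have hrange : LinearMap.range Θ = ⊤ := by
    rw [LinearMap.range_eq_top]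
    intro h
    obtain ⟨h', hh'⟩ := LinearMap.exists_extend (p := L₂) h
    have hmem : ∑ n, h' (l n) • u n ∈ A₁ :=
      A₁.sum_mem fun n _ => A₁.smul_mem _ (Submodule.subset_span ⟨n, rfl⟩)
    refine ⟨⟨∑ n, h' (l n) • u n, hmem⟩, ?_⟩
    have h3 : ν (∑ n, h' (l n) • u n) = ∑ n, h' (l n) • e n := by
      rw [hν]
      refine Finset.sum_congr rfl fun n _ => ?_
      congr 1
      rw [map_sum, LinearMap.sum_apply]
      have h4 : ∀ n', β (h' (l n') • u n') (us n) = if n' = n then h' (l n) else 0 := by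
        intro n'
        rw [map_smul, LinearMap.smul_apply, hus, smul_eq_mul]
        split_ifs with h5
        · rw [h5, mul_one]
        · rw [mul_zero]
      rw [Finset.sum_congr rfl fun n' _ => h4 n', Finset.sum_ite_eq' Finset.univ n,
        if_pos (Finset.mem_univ n)]
    refine LinearMap.ext fun w => ?_
    rw [hΘ]
    change β (ν (∑ n, h' (l n) • u n)) w = h w
    rw [h3]
    have h5 : h w = h' (w : H') := by
      rw [← hh']
      rfl
    rw [h5]
    have h6 : Set.EqOn (β (∑ n, h' (l n) • e n)) h' (Submodule.span k (Set.range l)) := by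
      refine LinearMap.eqOn_span ?_
      rintro _ ⟨n', rfl⟩
      rw [map_sum, LinearMap.sum_apply]
      have h4 : ∀ n, β (h' (l n) • e n) (l n') = if n = n' then h' (l n') else 0 := by
        intro n
        rw [map_smul, LinearMap.smul_apply, hel, smul_eq_mul]
        by_cases h7 : n' = n
        · rw [if_pos h7, if_pos h7.symm, mul_one, h7]
        · rw [if_neg h7, if_neg (Ne.symm h7), mul_zero]
      rw [Finset.sum_congr rfl fun n _ => h4 n, Finset.sum_ite_eq' Finset.univ n',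
        if_pos (Finset.mem_univ n')]
    exact h6 (hL₂ w.2)
  have hrn := LinearMap.finrank_range_add_finrank_ker Θ
  have h3 : Module.finrank k A₁ = m := by
    rw [finrank_span_eq_card hu, Fintype.card_fin]
  have h4 : Module.finrank k (LinearMap.range Θ) = Module.finrank k L₂ := by
    rw [hrange, finrank_top, Subspace.dual_finrank_eq]
  have h5 : Module.finrank k A₃ ≤ Module.finrank k (LinearMap.ker Θ) := by
    rw [← (Submodule.comapSubtypeEquivOfLe hA₃).finrank_eq]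
    refine Submodule.finrank_mono fun v hv => ?_
    rw [LinearMap.mem_ker]
    refine LinearMap.ext fun w => ?_
    rw [hΘ, hν]
    exact hcon v hv w w.2
  omega

theorem asl_main (s : ℕ) (β : H →ₗ[k] H' →ₗ[k] k) (hβ : PerfP β) (T : H → H' → Γ)
    (hT : TSys β T) (α : Fin (s + 1) → A →ₗ[k] H) (ℓ : Fin (s + 1) → L →ₗ[k] H')
    (hc : Cfg s β α ℓ) (hA : 100 * (s + 1) ^ 6 ≤ Module.finrank k A)
    (hL : 100 * (s + 1) ^ 6 ≤ Module.finrank k L) :
    ∃ (a : A) (l : L), a ≠ 0 ∧ l ≠ 0 ∧ ∀ 𝒰 : Subgroup Γ,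
      HC s T (fun i a => α i a) (fun i l => ℓ i l) 𝒰 →
      HC s (fun φ u => (T u φ)⁻¹) (fun i l => ℓ i l) (fun i a => α i a) 𝒰 →
      T (α 0 a) (ℓ 0 l) ∈ 𝒰 := by
  classical
  have ht1 : 1 ≤ s + 1 := Nat.le_add_left 1 s
  have hp1 : (s + 1) ^ 1 ≤ (s + 1) ^ 6 := Nat.pow_le_pow_right ht1 (by norm_num)
  have hp2 : (s + 1) ^ 2 ≤ (s + 1) ^ 6 := Nat.pow_le_pow_right ht1 (by norm_num)
  have hp4 : (s + 1) ^ 4 ≤ (s + 1) ^ 6 := Nat.pow_le_pow_right ht1 (by norm_num)
  have hp0 : 1 ≤ (s + 1) ^ 6 := Nat.one_le_pow _ _ ht1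
  have hr4 : s ^ 2 * (s + 1) ^ 2 ≤ (s + 1) ^ 4 := by
    calc s ^ 2 * (s + 1) ^ 2 ≤ (s + 1) ^ 2 * (s + 1) ^ 2 :=
          Nat.mul_le_mul_right _ (Nat.pow_le_pow_left (Nat.le_succ s) 2)
      _ = (s + 1) ^ 4 := by ring
  rw [pow_one] at hp1
  obtain ⟨r, hr⟩ : ∃ r : ℕ, r = s ^ 2 * (s + 1) ^ 2 := ⟨_, rfl⟩
  obtain ⟨q, hq⟩ : ∃ q : ℕ, q = (s + 1) ^ 2 := ⟨_, rfl⟩
  obtain ⟨q6, hq6⟩ : ∃ q6 : ℕ, q6 = (s + 1) ^ 6 := ⟨_, rfl⟩
  rw [← hq6] at hA hL hp1 hp2 hp4 hp0
  rw [← hr] at hr4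
  rw [← hq] at hp2
  have hposA : 0 < Module.finrank k A := by omega
  have hposL : 0 < Module.finrank k L := by omega
  obtain ⟨x, hx⟩ : ∃ x : A, x ≠ 0 := by
    have := Module.nontrivial_of_finrank_pos hposA
    exact exists_ne 0
  obtain ⟨y, hy⟩ : ∃ y : L, y ≠ 0 := by
    have := Module.nontrivial_of_finrank_pos hposL
    exact exists_ne 0
  refine ⟨x, y, hx, hy, fun 𝒰 hU1 hU2 => ?_⟩
  have hβ' := AM_perf hβ
  have hT' := tsys_dual β T hT
  have hc' := AM_cfg hc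
  obtain ⟨P, L₀, hP1, hP2, hP3, hP4, hP5⟩ := asl_root s β hβ T hT α ℓ hc (by omega)
    (by rw [← hq]; omega) x hx
  obtain ⟨P', A₀, hP1', hP2', hP3', hP4', hP5'⟩ := asl_root s β.flip hβ' _ hT' ℓ α hc' (by omega)
    (by rw [← hq]; omega) y hy
  have hPr : P.card ≤ r := hr ▸ hP1
  have hPr' : P'.card ≤ r := hr ▸ hP1'
  have hR1 := hP5 𝒰 hU1
  have hR2 := hP5' 𝒰 hU2
  -- orthogonality
  have horL : ∀ a : A, ∀ φ ∈ (⨆ i, LinearMap.range (ℓ i)), β (α 0 a) φ = 0 := by
    intro a φ hφ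
    have h1 : (⨆ i, LinearMap.range (ℓ i)) ≤ LinearMap.ker (β (α 0 a)) := by
      refine iSup_le fun i => ?_
      rintro _ ⟨l, rfl⟩
      exact hc.orth 0 i a l
    exact h1 hφ
  have horA : ∀ l : L, ∀ v ∈ (⨆ i, LinearMap.range (α i)), β v (ℓ 0 l) = 0 := by
    intro l v hv
    have h1 : (⨆ i, LinearMap.range (α i)) ≤ LinearMap.ker (β.flip (ℓ 0 l)) := by
      refine iSup_le fun i => ?_
      rintro _ ⟨a, rfl⟩
      exact hc.orth i 0 a l
    exact h1 hv
  -- the spaces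
  have hrkL : Module.finrank k (LinearMap.range (ℓ 0)) = Module.finrank k L :=
    LinearMap.finrank_range_of_inj ((injective_iff_map_eq_zero _).2 hc.injL)
  have hrkA : Module.finrank k (LinearMap.range (α 0)) = Module.finrank k A :=
    LinearMap.finrank_range_of_inj ((injective_iff_map_eq_zero _).2 hc.injA)
  have hy1 : Module.finrank k (Submodule.span k {ℓ 0 y}) ≤ 1 :=
    (finrank_span_le_card ({ℓ 0 y} : Set H')).trans (by simp)
  have hZ : Module.finrank k (L₀ ⊔ Submodule.span k {ℓ 0 y} : Submodule k H') ≤ q + 1 := by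
    have h1 := Submodule.finrank_add_le_finrank_add_finrank L₀ (Submodule.span k {ℓ 0 y})
    have h2 : Module.finrank k L₀ ≤ q := hq ▸ hP3
    exact h1.trans (by omega)
  have hZ' : Module.finrank k A₀ ≤ q := hq ▸ hP3'
  obtain ⟨l, hl1, hl2, hl3⟩ := AM_ind (LinearMap.range (ℓ 0)) (L₀ ⊔ Submodule.span k {ℓ 0 y})
    (3 * r + 1) (by rw [hrkL]; omega)
  obtain ⟨u, hu1, hu2, hu3⟩ := AM_ind (LinearMap.range (α 0)) A₀ (3 * r + 1)
    (by rw [hrkA]; omega)
  have hul : ∀ v ∈ Submodule.span k (Set.range u), ∀ n, β v (l n) = 0 := by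
    intro v hv n
    obtain ⟨l', hl'⟩ := hl2 n
    have h1 : Submodule.span k (Set.range u) ≤ ⨆ i, LinearMap.range (α i) := by
      rw [Submodule.span_le]
      rintro _ ⟨n', rfl⟩
      exact (le_iSup (fun i => LinearMap.range (α i)) 0) (hu2 n')
    rw [← hl']
    exact horA l' v (h1 hv)
  have hL1 : Submodule.span k (Set.range l) ≤ ⨆ i, LinearMap.range (ℓ i) := by
    rw [Submodule.span_le]
    rintro _ ⟨n', rfl⟩
    exact (le_iSup (fun i => LinearMap.range (ℓ i)) 0) (hl2 n')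
  have hA1 : Submodule.span k (Set.range u) ≤ ⨆ i, LinearMap.range (α i) := by
    rw [Submodule.span_le]
    rintro _ ⟨n', rfl⟩
    exact (le_iSup (fun i => LinearMap.range (α i)) 0) (hu2 n')
  -- the dual vectors
  obtain ⟨g₁, hg₁, hg₁'⟩ := AM_dual l hl1 (Submodule.span k {ℓ 0 y})
    (hl3.mono_right le_sup_right)
  choose e he using fun n => hβ.1 (g₁ n)
  have hel : ∀ n n', β (e n) (l n') = if n' = n then 1 else 0 := fun n n' => by
    rw [he, hg₁]
  have hey : ∀ n, β (e n) (ℓ 0 y) = 0 := fun n => by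
    rw [he]
    exact hg₁' n _ (Submodule.mem_span_singleton_self _)
  have hdis : Disjoint (Submodule.span k (Set.range u)) (Submodule.span k (Set.range e)) := by
    rw [Submodule.disjoint_def]
    intro v hv hv'
    obtain ⟨c, rfl⟩ := (Submodule.mem_span_range_iff_exists_fun k).1 hv'
    have h1 : ∀ n, c n = 0 := by
      intro n
      have h2 := hul _ hv n
      rw [map_sum, LinearMap.sum_apply] at h2
      have h3 : ∀ n', β (c n' • e n') (l n) = if n' = n then c n else 0 := by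
        intro n'
        rw [map_smul, LinearMap.smul_apply, hel, smul_eq_mul]
        by_cases h4 : n = n'
        · rw [if_pos h4, if_pos h4.symm, mul_one, h4]
        · rw [if_neg h4, if_neg (Ne.symm h4), mul_zero]
      rw [Finset.sum_congr rfl fun n' _ => h3 n', Finset.sum_ite_eq' Finset.univ n,
        if_pos (Finset.mem_univ n)] at h2
      exact h2
    exact Finset.sum_eq_zero fun n _ => by rw [h1, zero_smul]
  obtain ⟨g₂, hg₂, hg₂'⟩ := AM_dual u hu1 _ hdis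
  choose us hus using fun n => hβ.2 (g₂ n)
  have husu : ∀ n n', β (u n') (us n) = if n' = n then 1 else 0 := fun n n' => by
    rw [hus, hg₂]
  have hes : ∀ n n', β (e n) (us n') = 0 := fun n n' => by
    rw [hus]
    exact hg₂' n' _ (Submodule.subset_span ⟨n, rfl⟩)
  obtain ⟨g, hg⟩ : ∃ g : Γ, g = ((List.finRange (3 * r + 1)).map fun n => T (e n) (us n)).prod :=
    ⟨_, rfl⟩
  have hconj : ∀ v : H, β v (ℓ 0 y) = 0 →
      g * T v (ℓ 0 y) * g⁻¹ = T (v + ∑ n, β v (us n) • e n) (ℓ 0 y) ∧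
        β (∑ n, β v (us n) • e n) (ℓ 0 y) = 0 := by
    intro v hv
    obtain ⟨h1, h2, -⟩ := AM_prod hT e us hes (ℓ 0 y) hey (List.finRange (3 * r + 1)) v hv
    rw [Fin.sum_univ_def, hg]
    exact ⟨h1, h2⟩
  -- small index
  obtain ⟨L₂, hL₂, hL₂U, hL₂r⟩ := AM_sub hT (α 0 x) 𝒰 P.card (Submodule.span k (Set.range l))
    (fun φ hφ => horL x φ (hL1 hφ))
    (asl_index β hβ T hT (α 0 x) P L₀ _ hP2 (hl3.mono_right le_sup_left).symm
      (fun φ hφ => horL x φ (hP4 hφ)) (fun φ hφ => horL x φ (hL1 hφ)) 𝒰 hR1)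
  obtain ⟨A₂, hA₂, hA₂U, hA₂r⟩ := AM_sub hT' (ℓ 0 y) 𝒰 P'.card (Submodule.span k (Set.range u))
    (fun v hv => horA y v (hA1 hv))
    (asl_index β.flip hβ' _ hT' (ℓ 0 y) P' A₀ _ hP2' hu3.symm
      (fun v hv => horA y v (hP4' hv)) (fun v hv => horA y v (hA1 hv)) 𝒰 hR2)
  have hS3 := asl_index β.flip hβ' _ hT' (ℓ 0 y) P' A₀ _ hP2' hu3.symm
      (fun v hv => horA y v (hP4' hv)) (fun v hv => horA y v (hA1 hv))
      (𝒰.comap (MulAut.conj g).toMonoidHom) (fun g' => by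
        obtain ⟨p, hp, hp'⟩ := hR2 (g * g')
        refine ⟨p, hp, ?_⟩
        change g * (g' * (T p (ℓ 0 y))⁻¹ * g'⁻¹) * g⁻¹ ∈ 𝒰
        have h1 : g * (g' * (T p (ℓ 0 y))⁻¹ * g'⁻¹) * g⁻¹ =
            g * g' * (T p (ℓ 0 y))⁻¹ * (g * g')⁻¹ := by group
        rw [h1]
        exact hp')
  obtain ⟨A₃, hA₃, hA₃U, hA₃r⟩ := AM_sub hT' (ℓ 0 y) (𝒰.comap (MulAut.conj g).toMonoidHom)
    P'.card A₂ (fun v hv => horA y v (hA1 (hA₂ hv)))
    (fun φ hφ => hS3 φ fun j => hA₂ (hφ j))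
  have hfu : Module.finrank k (Submodule.span k (Set.range u)) = 3 * r + 1 := by
    rw [finrank_span_eq_card hu1, Fintype.card_fin]
  have hfl : Module.finrank k (Submodule.span k (Set.range l)) = 3 * r + 1 := by
    rw [finrank_span_eq_card hl1, Fintype.card_fin]
  obtain ⟨v, hv, w, hw, hvw⟩ := AM_count β (m := 3 * r + 1) (r := r) (by omega) l e u us hl1 hu1
    hel husu A₃ L₂ (hA₃.trans hA₂) hL₂ (by omega) (by omega)
  -- the final commutator
  obtain ⟨c, hcdef⟩ : ∃ c : k, c = (β (∑ n, β v (us n) • e n) w)⁻¹ := ⟨_, rfl⟩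
  have hv' : c • v ∈ A₃ := A₃.smul_mem c hv
  obtain ⟨z, hz⟩ : ∃ z : H, z = ∑ n, β (c • v) (us n) • e n := ⟨_, rfl⟩
  have hzw : β z w = 1 := by
    have h1 : z = c • ∑ n, β v (us n) • e n := by
      rw [hz, Finset.smul_sum]
      refine Finset.sum_congr rfl fun n _ => ?_
      rw [map_smul, LinearMap.smul_apply, smul_assoc]
    rw [h1, map_smul, LinearMap.smul_apply, hcdef, smul_eq_mul, inv_mul_cancel₀ hvw]
  have hvy : β (c • v) (ℓ 0 y) = 0 := horA y _ (hA1 (hA₂ (hA₃ hv')))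
  obtain ⟨h1, h2⟩ := hconj (c • v) hvy
  rw [← hz] at h1 h2
  have h3 : T (c • v) (ℓ 0 y) ∈ 𝒰 := by
    have := hA₂U _ (hA₃ hv')
    exact inv_mem_iff.1 this
  have h4 : g * T (c • v) (ℓ 0 y) * g⁻¹ ∈ 𝒰 := by
    have h5 : g * (T (c • v) (ℓ 0 y))⁻¹ * g⁻¹ ∈ 𝒰 := hA₃U _ hv'
    have h6 := 𝒰.inv_mem h5
    have h7 : (g * (T (c • v) (ℓ 0 y))⁻¹ * g⁻¹)⁻¹ = g * T (c • v) (ℓ 0 y) * g⁻¹ := by group
    rwa [h7] at h6
  rw [h1, hT.add_left _ _ _ hvy h2] at h4
  have h5 : T z (ℓ 0 y) ∈ 𝒰 := (𝒰.mul_mem_cancel_left h3).1 h4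
  have hxw : β (α 0 x) w = 0 := horL x w (hL1 (hL₂ hw))
  have hxy : β (α 0 x) (ℓ 0 y) = 0 := hc.orth 0 0 x y
  have h6 : T (α 0 x) w ∈ 𝒰 := hL₂U w hw
  have h7 := hT.conj z (ℓ 0 y) (α 0 x) w h2 hxw
  rw [hxy, zero_smul, add_zero, hzw, one_smul, sub_eq_add_neg,
    hT.add_right _ _ _ hxw (by rw [map_neg, hxy, neg_zero]), AM_neg hT _ _ hxy] at h7
  have h8 : T z (ℓ 0 y) * T (α 0 x) w * (T z (ℓ 0 y))⁻¹ ∈ 𝒰 :=
    𝒰.mul_mem (𝒰.mul_mem h5 h6) (𝒰.inv_mem h5)
  rw [h7] at h8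
  exact inv_mem_iff.1 ((𝒰.mul_mem_cancel_left h6).1 h8)

end H49KC
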