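import Pool.Agent.H49.KC.Defs
import Pool.Agent.H49.KA.D1
import Pool.Agent.H49.KA.D2

namespace H49KC

open H49KA H49KB

universe u v w

open Equiv

private theorem AT_cent {n : ℕ} (hn : 5 ≤ n) (σ : Perm (Fin n))
    (h : ∀ t ∈ alternatingGroup (Fin n), σ * t = t * σ) : σ = 1 := by
  classical
  by_contra hne
  obtain ⟨i, hi⟩ : ∃ i, σ i ≠ i := by
    by_contra hall
    push Not at hall
    exact hne (Equiv.ext hall)
  have hcard : 1 < ((Finset.univ : Finset (Fin n)) \ {i, σ i}).card := by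
    have h1 := Finset.le_card_sdiff {i, σ i} (Finset.univ : Finset (Fin n))
    have h2 : ({i, σ i} : Finset (Fin n)).card ≤ 2 := Finset.card_le_two
    rw [Finset.card_univ, Fintype.card_fin] at h1
    omega
  obtain ⟨a, ha, b, hb, hab⟩ := Finset.one_lt_card.1 hcard
  rw [Finset.mem_sdiff, Finset.mem_insert, Finset.mem_singleton, not_or] at ha hb
  obtain ⟨-, ha1, ha2⟩ := ha
  obtain ⟨-, hb1, hb2⟩ := hb
  have hc : swap (σ i) a * swap a b ∈ alternatingGroup (Fin n) := by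
    rw [Perm.mem_alternatingGroup, map_mul, Perm.sign_swap (Ne.symm ha2), Perm.sign_swap hab]
    rfl
  have h1 := congrArg (fun f : Perm (Fin n) => f i) (h _ hc)
  simp only [Perm.mul_apply] at h1
  rw [swap_apply_of_ne_of_ne (Ne.symm ha1) (Ne.symm hb1),
    swap_apply_of_ne_of_ne (Ne.symm hi) (Ne.symm ha1),
    swap_apply_of_ne_of_ne (Ne.symm ha2) (Ne.symm hb2), swap_apply_left] at h1
  exact ha2 h1.symm

private theorem AT_inj {G : Type u} [Group G] (X T C L : Subgroup G)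
    (h : AlmostSimpleSec X T C) (hLX : L ≤ X)
    (hLC : ∀ y ∈ L, y ∈ C → y = 1) (n : ℕ) (p : T →* Perm (Fin n))
    (hp : ∀ t : T, p t = 1 ↔ (t : G) ∈ C) :
    Nat.card L ≤ (n.factorial) ^ (n.factorial) := by
  classical
  obtain ⟨hTX, hXC, hXT, hsec, hcent⟩ := h
  have hconj : ∀ (x : L) (t : T), (x : G) * (t : G) * (x : G)⁻¹ ∈ T := fun x t =>
    hXT x (hLX x.2) t t.2
  have hCT : C ≤ T := hsec.1
  have key : ∀ (x : L) (t t' : T), p t = p t' →
      p ⟨(x : G) * (t : G) * (x : G)⁻¹, hconj x t⟩ =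
        p ⟨(x : G) * (t' : G) * (x : G)⁻¹, hconj x t'⟩ := by
    intro x t t' htt
    have h1 : ((t'⁻¹ * t : T) : G) ∈ C := by
      rw [← hp, map_mul, map_inv, htt, inv_mul_cancel]
    have h2 : (x : G) * ((t'⁻¹ * t : T) : G) * (x : G)⁻¹ ∈ C := hXC x (hLX x.2) _ h1
    have h3 : (⟨(x : G) * (t : G) * (x : G)⁻¹, hconj x t⟩ : T) =
        ⟨(x : G) * (t' : G) * (x : G)⁻¹, hconj x t'⟩ *
          ⟨(x : G) * ((t'⁻¹ * t : T) : G) * (x : G)⁻¹, hCT h2⟩ := by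
      apply Subtype.ext
      simp only [Subgroup.coe_mul, Subgroup.coe_inv]
      group
    rw [h3, map_mul, (hp ⟨(x : G) * ((t'⁻¹ * t : T) : G) * (x : G)⁻¹, hCT h2⟩).2 h2, mul_one]
  let Φ : L → (Perm (Fin n) → Perm (Fin n)) := fun x s =>
    if hs : ∃ t : T, p t = s then
      p ⟨(x : G) * ((Classical.choose hs : T) : G) * (x : G)⁻¹, hconj x _⟩
    else 1
  have hΦ : ∀ (x : L) (t : T), Φ x (p t) = p ⟨(x : G) * (t : G) * (x : G)⁻¹, hconj x t⟩ := by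
    intro x t
    have hs : ∃ t' : T, p t' = p t := ⟨t, rfl⟩
    simp only [Φ]
    rw [dif_pos hs]
    exact key x _ _ (Classical.choose_spec hs)
  have hinj : Function.Injective Φ := by
    intro x x' hxx
    have h1 : ∀ t ∈ T, ((x' : G)⁻¹ * (x : G)) * t * ((x' : G)⁻¹ * (x : G))⁻¹ * t⁻¹ ∈ C := by
      intro t ht
      have h2 : p ⟨(x : G) * t * (x : G)⁻¹, hconj x ⟨t, ht⟩⟩ =
          p ⟨(x' : G) * t * (x' : G)⁻¹, hconj x' ⟨t, ht⟩⟩ := by
        rw [← hΦ x ⟨t, ht⟩, ← hΦ x' ⟨t, ht⟩, hxx]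
      have h3 : p (⟨(x : G) * t * (x : G)⁻¹, hconj x ⟨t, ht⟩⟩ *
          (⟨(x' : G) * t * (x' : G)⁻¹, hconj x' ⟨t, ht⟩⟩)⁻¹) = 1 := by
        rw [map_mul, map_inv, h2, mul_inv_cancel]
      have h4 := (hp _).1 h3
      have h5 := hXC ((x' : G)⁻¹) (X.inv_mem (hLX x'.2)) _ h4
      have h6 : (x' : G)⁻¹ * (((⟨(x : G) * t * (x : G)⁻¹, hconj x ⟨t, ht⟩⟩ : T) *
          (⟨(x' : G) * t * (x' : G)⁻¹, hconj x' ⟨t, ht⟩⟩ : T)⁻¹ : T) : G) * ((x' : G)⁻¹)⁻¹ =
          ((x' : G)⁻¹ * (x : G)) * t * ((x' : G)⁻¹ * (x : G))⁻¹ * t⁻¹ := by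
        simp only [Subgroup.coe_mul, Subgroup.coe_inv]
        group
      rw [h6] at h5
      exact h5
    have h7 : (x' : G)⁻¹ * (x : G) ∈ C :=
      hcent _ (X.mul_mem (X.inv_mem (hLX x'.2)) (hLX x.2)) h1
    have h8 := hLC _ (L.mul_mem (L.inv_mem x'.2) x.2) h7
    apply Subtype.ext
    exact (inv_mul_eq_one.1 h8).symm
  have h9 := Nat.card_le_card_of_injective Φ hinj
  have h10 : Nat.card (Perm (Fin n) → Perm (Fin n)) = (n.factorial) ^ (n.factorial) := by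
    rw [Nat.card_fun, Nat.card_perm]
    simp
  rw [h10] at h9
  exact h9

/-- almost simple quotients of perfect groups with alternating socle are alternating -/
theorem alt_top : ∃ b₀ : ℕ, ∀ (G : Type u) [Group G] (X T C Y : Subgroup G), Finite X →
    ⁅X, X⁆ = X → AlmostSimpleSec X T C → AltSec T C → Y ≤ X → Y ⊓ C = ⊥ →
    b₀ < Nat.card Y → ∃ (n : ℕ) (p : X →* Equiv.Perm (Fin n)),
      p.range = alternatingGroup (Fin n) ∧ ∀ x : X, p x = 1 → (x : G) ∈ C := by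
  obtain ⟨N, hN5, hN⟩ := aut_alt
  refine ⟨(N.factorial) ^ (N.factorial), ?_⟩
  intro G _ X T C Y _ hXX hsec hAlt hYX hYC hb
  obtain ⟨n, p, hp, hr⟩ := hAlt
  have hn : N ≤ n := by
    by_contra hlt
    push Not at hlt
    have h1 := AT_inj X T C Y hsec hYX
      (fun y hy hyC => by
        have : y ∈ Y ⊓ C := ⟨hy, hyC⟩
        rwa [hYC, Subgroup.mem_bot] at this) n p hp
    have h2 : (n.factorial) ^ (n.factorial) ≤ (N.factorial) ^ (N.factorial) := by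
      have h3 : n.factorial ≤ N.factorial := Nat.factorial_le (le_of_lt hlt)
      calc (n.factorial) ^ (n.factorial) ≤ (N.factorial) ^ (n.factorial) :=
            Nat.pow_le_pow_left h3 _
        _ ≤ (N.factorial) ^ (N.factorial) :=
            Nat.pow_le_pow_right (Nat.factorial_pos N) h3
    omega
  have hn5 : 5 ≤ n := le_trans hN5 hn
  obtain ⟨θ, hθ, hθp⟩ := alt_action X T C hsec n hn5 (hN n hn) p hp hr
  have hTX : T ≤ X := hsec.1
  have hθT : ∀ t : T, θ ⟨(t : G), hTX t.2⟩ = p t := by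
    intro t
    have h1 : ((p t)⁻¹ * θ ⟨(t : G), hTX t.2⟩) = 1 := by
      refine AT_cent hn5 _ fun a ha => ?_
      rw [← hr] at ha
      obtain ⟨s, rfl⟩ := ha
      have h2 := hθp ⟨(t : G), hTX t.2⟩ s (t * s * t⁻¹) rfl
      rw [map_mul, map_mul, map_inv] at h2
      calc (p t)⁻¹ * θ ⟨(t : G), hTX t.2⟩ * p s
          = (p t)⁻¹ * (θ ⟨(t : G), hTX t.2⟩ * p s * (θ ⟨(t : G), hTX t.2⟩)⁻¹) *
            θ ⟨(t : G), hTX t.2⟩ := by group
        _ = p s * ((p t)⁻¹ * θ ⟨(t : G), hTX t.2⟩) := by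
          rw [← h2]
          group
    exact (inv_mul_eq_one.1 h1).symm
  refine ⟨n, θ, ?_, fun x hx => (hθ x).1 hx⟩
  apply le_antisymm
  · rintro _ ⟨x, rfl⟩
    rw [Perm.mem_alternatingGroup]
    have hx : (x : G) ∈ ⁅X, X⁆ := by
      rw [hXX]
      exact x.2
    have h1 : ∀ y ∈ ⁅X, X⁆, ∃ hy : y ∈ X, Perm.sign (θ ⟨y, hy⟩) = 1 := by
      have h2 : ⁅X, X⁆ ≤ ((Perm.sign.comp θ).ker).map X.subtype := by
        rw [Subgroup.commutator_le]
        intro a ha b hb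
        refine ⟨⟨a, ha⟩ * ⟨b, hb⟩ * ⟨a, ha⟩⁻¹ * ⟨b, hb⟩⁻¹, ?_, rfl⟩
        change (Perm.sign.comp θ) _ = 1
        rw [map_mul, map_mul, map_mul, map_inv, map_inv]
        rw [mul_comm ((Perm.sign.comp θ) ⟨a, ha⟩) ((Perm.sign.comp θ) ⟨b, hb⟩)]
        group
      intro y hy
      obtain ⟨z, hz, hzy⟩ := h2 hy
      have h3 : y ∈ X := by
        rw [← hzy]
        exact z.2
      refine ⟨h3, ?_⟩
      have h4 : (⟨y, h3⟩ : X) = z := Subtype.ext hzy.symm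
      rw [h4]
      exact hz
    obtain ⟨_, h5⟩ := h1 x hx
    exact h5
  · intro a ha
    rw [← hr] at ha
    obtain ⟨t, rfl⟩ := ha
    exact ⟨⟨(t : G), hTX t.2⟩, hθT t⟩

end H49KC
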