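import Pool.Agent.H49.KC.Defs

namespace H49KC

open H49KA H49KB

universe u v w

variable {K : Type u} [Group K]

private theorem MS_mem_cj {g x : K} {M : Subgroup K} : x ∈ cj g M ↔ g⁻¹ * x * g ∈ M := by
  constructor
  · rintro ⟨y, hy, rfl⟩
    have : g⁻¹ * ((MulAut.conj g).toMonoidHom y) * g = y := by
      show g⁻¹ * (g * y * g⁻¹) * g = y
      group
    rw [this]
    exact hy
  · intro h
    refine ⟨g⁻¹ * x * g, h, ?_⟩
    show g * (g⁻¹ * x * g) * g⁻¹ = x
    group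

private theorem MS_cj_normal {N : Subgroup K} (hN : N.Normal) (g : K) : cj g N = N := by
  ext x
  rw [MS_mem_cj]
  constructor
  · intro h
    have := hN.conj_mem _ h g
    have e : g * (g⁻¹ * x * g) * g⁻¹ = x := by group
    rwa [e] at this
  · intro h
    have := hN.conj_mem _ h g⁻¹
    rwa [inv_inv] at this

private theorem MS_cj_cj (g h : K) (M : Subgroup K) : cj g (cj h M) = cj (g * h) M := by
  ext x
  rw [MS_mem_cj, MS_mem_cj, MS_mem_cj]
  have : h⁻¹ * (g⁻¹ * x * g) * h = (g * h)⁻¹ * x * (g * h) := by group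
  rw [this]

private theorem MS_cj_one (M : Subgroup K) : cj 1 M = M := by
  ext x
  rw [MS_mem_cj]
  simp

private theorem MS_cj_inv (g : K) (M : Subgroup K) : cj g⁻¹ (cj g M) = M := by
  rw [MS_cj_cj, inv_mul_cancel, MS_cj_one]

private theorem MS_cj_inv' (g : K) (M : Subgroup K) : cj g (cj g⁻¹ M) = M := by
  rw [MS_cj_cj, mul_inv_cancel, MS_cj_one]

private theorem MS_cj_mono (g : K) {A B : Subgroup K} (h : A ≤ B) : cj g A ≤ cj g B :=
  Subgroup.map_mono h

private theorem MS_normIn_cj {N : Subgroup K} (hN : N.Normal) {M : Subgroup K}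
    (h : NormIn N M) (g : K) : NormIn N (cj g M) := by
  intro x hx t ht
  rw [MS_mem_cj] at ht ⊢
  have h1 : g⁻¹ * x * g ∈ N := by
    have := hN.conj_mem _ hx g⁻¹
    rwa [inv_inv] at this
  have h2 := h _ h1 _ ht
  have e : g⁻¹ * x * g * (g⁻¹ * t * g) * (g⁻¹ * x * g)⁻¹ = g⁻¹ * (x * t * x⁻¹) * g := by group
  rwa [e] at h2

private theorem MS_maxN_cj {N N₀ : Subgroup K} (hN : N.Normal) (hN₀ : N₀.Normal)
    {M : Subgroup K} (h : MaxN N N₀ M) (g : K) : MaxN N N₀ (cj g M) := by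
  obtain ⟨h1, h2, h3, h4, h5⟩ := h
  refine ⟨?_, ?_, ?_, MS_normIn_cj hN h4 g, ?_⟩
  · have := MS_cj_mono g h1
    rwa [MS_cj_normal hN₀] at this
  · have := MS_cj_mono g h2
    rwa [MS_cj_normal hN] at this
  · intro h
    apply h3
    have := congrArg (cj g⁻¹) h
    rwa [MS_cj_inv, MS_cj_normal hN] at this
  · intro M' h6 h7 h8
    have h9 : M ≤ cj g⁻¹ M' := by
      have := MS_cj_mono g⁻¹ h6
      rwa [MS_cj_inv] at this
    have h10 : cj g⁻¹ M' ≤ N := by
      have := MS_cj_mono g⁻¹ h7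
      rwa [MS_cj_normal hN] at this
    rcases h5 _ h9 h10 (MS_normIn_cj hN h8 _) with h | h
    · left
      rw [← h, MS_cj_inv']
    · right
      have := congrArg (cj g) h
      rwa [MS_cj_inv', MS_cj_normal hN] at this

private theorem MS_normIn_sup {N A B : Subgroup K} (hA : NormIn N A) (hB : NormIn N B) :
    NormIn N (A ⊔ B) := by
  intro x hx t ht
  have h1 : A ⊔ B ≤ (A ⊔ B).comap (MulAut.conj x).toMonoidHom := by
    apply sup_le
    · intro a ha
      exact (le_sup_left : A ≤ A ⊔ B) (hA x hx a ha)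
    · intro b hb
      exact (le_sup_right : B ≤ A ⊔ B) (hB x hx b hb)
  exact h1 ht

private theorem MS_normIn_inf {N A B : Subgroup K} (hA : NormIn N A) (hB : NormIn N B) :
    NormIn N (A ⊓ B) := fun x hx t ht => ⟨hA x hx t ht.1, hB x hx t ht.2⟩

/-- the centraliser of `b` modulo `M` in `N` -/
private def MS_cen (N M : Subgroup K) (hM : NormIn N M) (b : K) : Subgroup K where
  carrier := {x | x ∈ N ∧ x * b * x⁻¹ * b⁻¹ ∈ M}
  mul_mem' := by
    rintro x y ⟨hx, hx'⟩ ⟨hy, hy'⟩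
    refine ⟨N.mul_mem hx hy, ?_⟩
    have h1 := M.mul_mem (hM x hx _ hy') hx'
    have e : x * (y * b * y⁻¹ * b⁻¹) * x⁻¹ * (x * b * x⁻¹ * b⁻¹) =
      x * y * b * (x * y)⁻¹ * b⁻¹ := by group
    rwa [e] at h1
  one_mem' := ⟨N.one_mem, by simp [M.one_mem]⟩
  inv_mem' := by
    rintro x ⟨hx, hx'⟩
    refine ⟨N.inv_mem hx, ?_⟩
    have h1 := hM _ (N.inv_mem hx) _ (M.inv_mem hx')
    have e : x⁻¹ * (x * b * x⁻¹ * b⁻¹)⁻¹ * x⁻¹⁻¹ = x⁻¹ * b * x⁻¹⁻¹ * b⁻¹ := by group
    rwa [e] at h1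

private theorem MS_le_cen {N M : Subgroup K} (hM : NormIn N M) (hMN : M ≤ N) {b : K}
    (hb : b ∈ N) : M ≤ MS_cen N M hM b := by
  intro m hm
  refine ⟨hMN hm, ?_⟩
  have h1 := M.mul_mem hm (hM b hb _ (M.inv_mem hm))
  have e : m * (b * m⁻¹ * b⁻¹) = m * b * m⁻¹ * b⁻¹ := by group
  rwa [e] at h1

private theorem MS_perf {N N₀ M : Subgroup K} (hN : NAb N N₀) (hM : MaxN N N₀ M) :
    ∃ a ∈ N, ∃ b ∈ N, a * b * a⁻¹ * b⁻¹ ∉ M := by
  by_contra hcon
  push Not at hcon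
  apply hM.2.2.1
  apply le_antisymm hM.2.1
  rw [← hN.perf, Subgroup.commutator_le]
  intro a ha b hb
  exact hcon a ha b hb

private theorem MS_sup_eq {N N₀ M A : Subgroup K} (hM : MaxN N N₀ M) (hA : A ≤ N)
    (hAn : NormIn N A) (h : ¬ A ≤ M) : A ⊔ M = N := by
  rcases hM.2.2.2.2 (A ⊔ M) le_sup_right (sup_le hA hM.2.1) (MS_normIn_sup hAn hM.2.2.2.1) with
    h1 | h1
  · exact absurd (le_sup_left.trans h1.le) h
  · exact h1

private theorem MS_prime {N N₀ M : Subgroup K} (hN : NAb N N₀) (hM : MaxN N N₀ M)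
    {A B : Subgroup K} (hA : A ≤ N) (hB : B ≤ N) (hAn : NormIn N A) (hBn : NormIn N B)
    (hAB : A ⊓ B ≤ M) : A ≤ M ∨ B ≤ M := by
  by_contra hcon
  push Not at hcon
  obtain ⟨h1, h2⟩ := hcon
  have hAM := MS_sup_eq hM hA hAn h1
  have hBM := MS_sup_eq hM hB hBn h2
  obtain ⟨x, hx, y, hy, hxy⟩ := MS_perf hN hM
  apply hxy
  have hMn := hM.2.2.2.1
  have s1 : ∀ b ∈ B, N ≤ MS_cen N M hMn b := by
    intro b hb
    have h3 : A ⊔ M ≤ MS_cen N M hMn b := by
      apply sup_le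
      · intro a ha
        refine ⟨hA ha, hAB ⟨?_, ?_⟩⟩
        · have h3 := A.mul_mem ha (hAn b (hB hb) _ (A.inv_mem ha))
          have e : a * (b * a⁻¹ * b⁻¹) = a * b * a⁻¹ * b⁻¹ := by group
          rwa [e] at h3
        · exact B.mul_mem (hBn a (hA ha) _ hb) (B.inv_mem hb)
      · exact MS_le_cen hMn hM.2.1 (hB hb)
    rwa [hAM] at h3
  have s2 : N ≤ MS_cen N M hMn x := by
    have h3 : B ⊔ M ≤ MS_cen N M hMn x := by
      apply sup_le
      · intro b hb
        refine ⟨hB hb, ?_⟩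
        have h4 := M.inv_mem (s1 b hb hx).2
        have e : (x * b * x⁻¹ * b⁻¹)⁻¹ = b * x * b⁻¹ * x⁻¹ := by group
        rwa [e] at h4
      · exact MS_le_cen hMn hM.2.1 hx
    rwa [hBM] at h3
  have h5 := M.inv_mem (s2 hy).2
  have e : (y * x * y⁻¹ * x⁻¹)⁻¹ = x * y * x⁻¹ * y⁻¹ := by group
  rwa [e] at h5

private theorem MS_prime_fin {N N₀ M : Subgroup K} (hN : NAb N N₀) (hM : MaxN N N₀ M)
    (s : Finset (Subgroup K)) (hs : ∀ A ∈ s, A ≤ N ∧ NormIn N A)
    (h : N ⊓ s.inf id ≤ M) : ∃ A ∈ s, A ≤ M := by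
  classical
  induction s using Finset.induction_on with
  | empty =>
    exfalso
    rw [Finset.inf_empty, inf_top_eq] at h
    exact hM.2.2.1 (le_antisymm hM.2.1 h)
  | insert A s hA ih =>
    have hsn : NormIn N (s.inf id) := by
      have : ∀ t : Finset (Subgroup K), (∀ A ∈ t, NormIn N A) → NormIn N (t.inf id) := by
        intro t
        induction t using Finset.induction_on with
        | empty =>
          intro _ x _ y _
          rw [Finset.inf_empty]
          exact Subgroup.mem_top _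
        | insert B t hB ih' =>
          intro ht
          rw [Finset.inf_insert]
          exact MS_normIn_inf (ht B (Finset.mem_insert_self _ _))
            (ih' fun C hC => ht C (Finset.mem_insert_of_mem hC))
      exact this s fun B hB => (hs B (Finset.mem_insert_of_mem hB)).2
    have hNN : NormIn N N := fun x hx t ht => N.mul_mem (N.mul_mem hx ht) (N.inv_mem hx)
    have h1 : A ⊓ (N ⊓ s.inf id) ≤ M := by
      refine le_trans ?_ h
      rw [Finset.inf_insert]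
      exact le_inf (inf_le_right.trans inf_le_left)
        (le_inf inf_le_left (inf_le_right.trans inf_le_right))
    rcases MS_prime hN hM (hs A (Finset.mem_insert_self _ _)).1 inf_le_left
      (hs A (Finset.mem_insert_self _ _)).2 (MS_normIn_inf hNN hsn) h1 with h2 | h2
    · exact ⟨A, Finset.mem_insert_self _ _, h2⟩
    · obtain ⟨B, hB, hBM⟩ := ih (fun B hB => hs B (Finset.mem_insert_of_mem hB)) h2
      exact ⟨B, Finset.mem_insert_of_mem hB, hBM⟩

private theorem MS_prime_set {N N₀ M : Subgroup K} (hN : NAb N N₀) (hM : MaxN N N₀ M)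
    (S : Set (Subgroup K)) (hs : ∀ A ∈ S, A ≤ N ∧ NormIn N A)
    (h : N ⊓ sInf S ≤ M) : ∃ A ∈ S, A ≤ M := by
  classical
  have := hN.finK
  have hfin : S.Finite := Set.toFinite S
  obtain ⟨A, hA, hAM⟩ := MS_prime_fin hN hM hfin.toFinset
    (fun A hA => hs A (hfin.mem_toFinset.1 hA)) (by
      refine le_trans (inf_le_inf_left _ ?_) h
      apply le_sInf
      intro A hA
      exact Finset.inf_le (f := id) (hfin.mem_toFinset.2 hA))
  exact ⟨A, hfin.mem_toFinset.1 hA, hAM⟩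

private theorem MS_eq_of_le {N N₀ M M' : Subgroup K} (hM : MaxN N N₀ M) (hM' : MaxN N N₀ M')
    (h : M' ≤ M) : M' = M := by
  rcases hM'.2.2.2.2 M h hM.2.1 hM.2.2.2.1 with h1 | h1
  · exact h1.symm
  · exact absurd h1 hM.2.2.1

private theorem MS_mem_coM {N N₀ M : Subgroup K} {x : K} :
    x ∈ coM N N₀ M ↔ x ∈ N ∧ ∀ M', MaxN N N₀ M' → M' ≠ M → x ∈ M' := by
  unfold coM
  rw [Subgroup.mem_inf, Subgroup.mem_sInf]
  refine and_congr_right fun _ => ?_
  constructor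
  · intro h M' h1 h2
    exact h M' ⟨h1, h2⟩
  · rintro h M' ⟨h1, h2⟩
    exact h M' h1 h2

theorem maxN_structure {N N₀ : Subgroup K} (hN : NAb N N₀) :
    (∃ M, MaxN N N₀ M) ∧
    (∀ M, MaxN N N₀ M → ∀ g : K, MaxN N N₀ (cj g M)) ∧
    (∀ M₁ M₂, MaxN N N₀ M₁ → MaxN N N₀ M₂ → ∃ g : K, M₂ = cj g M₁) ∧
    (∀ M, MaxN N N₀ M → ∀ A B : Subgroup K, A ≤ N → B ≤ N → NormIn N A → NormIn N B →
      A ⊓ B ≤ M → A ≤ M ∨ B ≤ M) ∧
    (∀ M, MaxN N N₀ M → coM N N₀ M ⊓ M = N₀ ∧ coM N N₀ M ⊔ M = N ∧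
      NormIn N (coM N N₀ M) ∧ ∀ M', MaxN N N₀ M' → M' ≠ M → coM N N₀ M ≤ M') ∧
    (∀ M, MaxN N N₀ M → ∃ a ∈ N, ∃ b ∈ N, a * b * a⁻¹ * b⁻¹ ∉ M) ∧
    (∀ M, MaxN N N₀ M → ∀ g : K, coM N N₀ (cj g M) = cj g (coM N N₀ M)) := by
  classical
  have hfinK := hN.finK
  have hNN : NormIn N N := fun x hx t ht => N.mul_mem (N.mul_mem hx ht) (N.inv_mem hx)
  refine ⟨?_, fun M hM g => MS_maxN_cj hN.nN hN.nN₀ hM g, ?_,
    fun M hM A B hA hB hAn hBn hAB => MS_prime hN hM hA hB hAn hBn hAB, ?_,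
    fun M hM => MS_perf hN hM, ?_⟩
  · -- existence
    let S : Set (Subgroup K) := {M | N₀ ≤ M ∧ M ≤ N ∧ M ≠ N ∧ NormIn N M}
    have hS : S.Finite := Set.toFinite S
    have hSne : S.Nonempty := ⟨N₀, le_rfl, hN.le, hN.ne.symm,
      fun x _ t ht => hN.nN₀.conj_mem t ht x⟩
    obtain ⟨M, hM⟩ := hS.exists_maximal hSne
    refine ⟨M, hM.1.1, hM.1.2.1, hM.1.2.2.1, hM.1.2.2.2, fun M' h1 h2 h3 => ?_⟩
    by_cases h4 : M' = N
    · exact Or.inr h4
    · left
      have h5 : M' ∈ S := ⟨hM.1.1.trans h1, h2, h4, h3⟩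
      exact le_antisymm (hM.2 h5 h1) h1
  · -- transitivity
    intro M₁ M₂ h1 h2
    let S : Set (Subgroup K) := Set.range fun g : K => cj g M₁
    have hcore : N ⊓ sInf S ≤ M₂ := by
      have hmem : ∀ x, x ∈ N ⊓ sInf S ↔ x ∈ N ∧ ∀ g : K, g⁻¹ * x * g ∈ M₁ := by
        intro x
        rw [Subgroup.mem_inf, Subgroup.mem_sInf]
        refine and_congr_right fun _ => ?_
        constructor
        · intro h g
          exact MS_mem_cj.1 (h _ ⟨g, rfl⟩)
        · rintro h _ ⟨g, rfl⟩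
          exact MS_mem_cj.2 (h g)
      have hnorm : (N ⊓ sInf S).Normal := by
        constructor
        intro x hx y
        rw [hmem] at hx ⊢
        refine ⟨hN.nN.conj_mem _ hx.1 y, fun g => ?_⟩
        have h3 := hx.2 (y⁻¹ * g)
        have e : (y⁻¹ * g)⁻¹ * x * (y⁻¹ * g) = g⁻¹ * (y * x * y⁻¹) * g := by group
        rwa [e] at h3
      rcases hN.min _ hnorm inf_le_left with h3 | h3
      · exfalso
        apply h1.2.2.1
        apply le_antisymm h1.2.1
        rw [← h3]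
        intro x hx
        have h4 := ((hmem x).1 hx).2 1
        simpa using h4
      · exact h3.trans h2.1
    obtain ⟨A, ⟨g, rfl⟩, hA⟩ := MS_prime_set hN h2 S (by
      rintro _ ⟨g, rfl⟩
      have h3 := MS_maxN_cj hN.nN hN.nN₀ h1 g
      exact ⟨h3.2.1, h3.2.2.2.1⟩) hcore
    exact ⟨g, (MS_eq_of_le h2 (MS_maxN_cj hN.nN hN.nN₀ h1 g) hA).symm⟩
  · -- the complement
    intro M hM
    have hd : ∀ M', MaxN N N₀ M' → M' ≠ M → coM N N₀ M ≤ M' := fun M' h1 h2 x hx =>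
      (MS_mem_coM.1 hx).2 M' h1 h2
    have hn : NormIn N (coM N N₀ M) := by
      intro x hx t ht
      rw [MS_mem_coM] at ht ⊢
      exact ⟨hNN x hx t ht.1, fun M' h1 h2 => h1.2.2.2.1 x hx t (ht.2 M' h1 h2)⟩
    have hle : coM N N₀ M ≤ N := inf_le_left
    have hnot : ¬ coM N N₀ M ≤ M := by
      intro h
      obtain ⟨A, hA, hAM⟩ := MS_prime_set hN hM {M' | MaxN N N₀ M' ∧ M' ≠ M} (by
        rintro A ⟨h1, -⟩
        exact ⟨h1.2.1, h1.2.2.2.1⟩) h
      exact hA.2 (MS_eq_of_le hM hA.1 hAM)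
    refine ⟨?_, MS_sup_eq hM hle hn hnot, hn, hd⟩
    have hmem : ∀ x, x ∈ coM N N₀ M ⊓ M ↔ x ∈ N ∧ ∀ M', MaxN N N₀ M' → x ∈ M' := by
      intro x
      rw [Subgroup.mem_inf, MS_mem_coM]
      constructor
      · rintro ⟨⟨h1, h2⟩, h3⟩
        refine ⟨h1, fun M' h4 => ?_⟩
        by_cases h5 : M' = M
        · rw [h5]
          exact h3
        · exact h2 M' h4 h5
      · rintro ⟨h1, h2⟩
        exact ⟨⟨h1, fun M' h4 _ => h2 M' h4⟩, h2 M hM⟩
    have hnorm : (coM N N₀ M ⊓ M).Normal := by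
      constructor
      intro x hx y
      rw [hmem] at hx ⊢
      refine ⟨hN.nN.conj_mem _ hx.1 y, fun M' h1 => ?_⟩
      have h2 := hx.2 _ (MS_maxN_cj hN.nN hN.nN₀ h1 y⁻¹)
      rw [MS_mem_cj, inv_inv] at h2
      exact h2
    apply le_antisymm
    · rcases hN.min _ hnorm (inf_le_left.trans hle) with h1 | h1
      · exfalso
        exact hM.2.2.1 (le_antisymm hM.2.1 (h1.ge.trans inf_le_right))
      · exact h1
    · intro x hx
      rw [hmem]
      exact ⟨hN.le hx, fun M' h1 => h1.1 hx⟩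
  · -- conjugation of the complement
    intro M hM g
    ext x
    rw [MS_mem_cj, MS_mem_coM, MS_mem_coM]
    constructor
    · rintro ⟨h1, h2⟩
      refine ⟨?_, fun M' h3 h4 => ?_⟩
      · have := hN.nN.conj_mem _ h1 g⁻¹
        rwa [inv_inv] at this
      · have h5 := h2 _ (MS_maxN_cj hN.nN hN.nN₀ h3 g) (by
          intro h
          apply h4
          have := congrArg (cj g⁻¹) h
          rwa [MS_cj_inv, MS_cj_inv] at this)
        exact MS_mem_cj.1 h5
    · rintro ⟨h1, h2⟩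
      refine ⟨?_, fun M' h3 h4 => ?_⟩
      · have := hN.nN.conj_mem _ h1 g
        have e : g * (g⁻¹ * x * g) * g⁻¹ = x := by group
        rwa [e] at this
      · have h5 := h2 _ (MS_maxN_cj hN.nN hN.nN₀ h3 g⁻¹) (by
          intro h
          apply h4
          have := congrArg (cj g) h
          rwa [MS_cj_inv'] at this)
        rw [MS_mem_cj, inv_inv] at h5
        have e : g * (g⁻¹ * x * g) * g⁻¹ = x := by group
        rwa [e] at h5

end H49KC
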