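import Pool.Agent.H49.KC.Defs
import Pool.Agent.H49.KC.MS

namespace H49KC

open H49KA H49KB

universe u v w

variable {K : Type u} [Group K]

private theorem S3_mem {X M : Subgroup K} (hfix : ∀ x ∈ X, cj x M = M) {x : K} (hx : x ∈ X)
    {m : K} (hm : m ∈ M) : x * m * x⁻¹ ∈ M := by
  have h : x * m * x⁻¹ ∈ cj x M := ⟨m, hm, by simp [MulAut.conj_apply]⟩
  rwa [hfix x hx] at h

private theorem S3_iff {X M : Subgroup K} (hfix : ∀ x ∈ X, cj x M = M) {x : K} (hx : x ∈ X)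
    (m : K) : m ∈ M ↔ x * m * x⁻¹ ∈ M := by
  refine ⟨S3_mem hfix hx, fun h => ?_⟩
  have h1 := S3_mem hfix (X.inv_mem hx) h
  have h2 : x⁻¹ * (x * m * x⁻¹) * x⁻¹⁻¹ = m := by group
  rwa [h2] at h1

private theorem S3_normC {X N M : Subgroup K} (hNn : N.Normal)
    (hfix : ∀ x ∈ X, cj x M = M) : NormIn X (cMod X N M) := by
  intro x hx c hc
  obtain ⟨hc1, hc2, hc3⟩ := hc
  have hX : x * c * x⁻¹ ∈ X := X.mul_mem (X.mul_mem hx hc1) (X.inv_mem hx)
  refine ⟨hX, S3_iff hfix hX, fun n hn => ?_⟩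
  have h1 : x⁻¹ * n * x ∈ N := by
    have := hNn.conj_mem n hn x⁻¹
    rwa [inv_inv] at this
  have h2 := S3_mem hfix hx (hc3 _ h1)
  have h3 : x * (c * (x⁻¹ * n * x) * c⁻¹ * (x⁻¹ * n * x)⁻¹) * x⁻¹ =
      x * c * x⁻¹ * n * (x * c * x⁻¹)⁻¹ * n⁻¹ := by group
  rwa [h3] at h2

private theorem S3_perf {N M : Subgroup K} (hperf : ⁅N, N⁆ = N)
    (h : ∀ a ∈ N, ∀ b ∈ N, a * b * a⁻¹ * b⁻¹ ∈ M) : N ≤ M := by
  rw [← hperf, Subgroup.commutator_le]
  intro a ha b hb
  rw [commutatorElement_def]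
  exact h a ha b hb

theorem cMod_sec {X N N₀ M : Subgroup K} (hN : NAb N N₀) (hXn : X.Normal) (hNX : N ≤ X)
    (hM : MaxN N N₀ M) (hfix : ∀ x ∈ X, cj x M = M) :
    AlmostSimpleSec X (N ⊔ cMod X N M) (cMod X N M) ∧ cMod X N M ⊓ N = M ∧
      NormIn X (cMod X N M) := by
  obtain ⟨hM0, hMN, hMne, hMn, hMmax⟩ := hM
  haveI : N.Normal := hN.nN
  have hnC : NormIn X (cMod X N M) := S3_normC hN.nN hfix
  have hMC : M ≤ cMod X N M := by
    intro m hm
    have hmX : m ∈ X := hNX (hMN hm)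
    refine ⟨hmX, S3_iff hfix hmX, fun n hn => ?_⟩
    have h1 : n * m⁻¹ * n⁻¹ ∈ M := hMn n hn _ (M.inv_mem hm)
    have h2 : m * (n * m⁻¹ * n⁻¹) = m * n * m⁻¹ * n⁻¹ := by group
    rw [← h2]
    exact M.mul_mem hm h1
  have hCX : cMod X N M ≤ X := fun x hx => hx.1
  -- a subgroup between `M` and `N` that is normalised by `N`
  have hint : cMod X N M ⊓ N = M := by
    rcases hMmax (cMod X N M ⊓ N) (le_inf hMC hMN) inf_le_right
      (fun x hx t ht => ⟨hnC x (hNX hx) t ht.1,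
        N.mul_mem (N.mul_mem hx ht.2) (N.inv_mem hx)⟩) with h | h
    · exact h
    · exfalso
      apply hMne
      apply le_antisymm hMN
      apply S3_perf hN.perf
      intro a ha b hb
      have haC : a ∈ cMod X N M := by
        have : a ∈ cMod X N M ⊓ N := by rw [h]; exact ha
        exact this.1
      exact haC.2.2 b hb
  refine ⟨⟨sup_le hNX hCX, hnC, ?_, ⟨le_sup_right, ?_, ?_, ?_⟩, ?_⟩, hint, hnC⟩
  · -- `N ⊔ C` is normalised by `X`
    intro x hx t ht
    rw [Subgroup.mem_sup_of_normal_left] at ht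
    obtain ⟨n, hn, c, hc, rfl⟩ := ht
    have h1 : x * n * x⁻¹ ∈ N := hN.nN.conj_mem n hn x
    have h2 : x * c * x⁻¹ ∈ cMod X N M := hnC x hx c hc
    have h3 : x * (n * c) * x⁻¹ = (x * n * x⁻¹) * (x * c * x⁻¹) := by group
    rw [h3]
    exact Subgroup.mul_mem_sup h1 h2
  · intro x hx t ht
    exact hnC x ((sup_le hNX hCX) hx) t ht
  · intro R hCR hRT hR
    rcases hMmax (R ⊓ N) (le_inf (hMC.trans hCR) hMN) inf_le_right
      (fun x hx t ht => ⟨hR x (le_sup_left (a := N) hx) t ht.1,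
        N.mul_mem (N.mul_mem hx ht.2) (N.inv_mem hx)⟩) with h | h
    · left
      apply le_antisymm _ hCR
      intro r hr
      have hr2 := hRT hr
      rw [Subgroup.mem_sup_of_normal_left] at hr2
      obtain ⟨n, hn, c, hc, rfl⟩ := hr2
      have h1 : n ∈ R := by
        have := R.mul_mem hr (R.inv_mem (hCR hc))
        rwa [mul_assoc, mul_inv_cancel, mul_one] at this
      have h2 : n ∈ M := by
        rw [← h]
        exact ⟨h1, hn⟩
      exact (cMod X N M).mul_mem (hMC h2) hc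
    · right
      apply le_antisymm hRT
      apply sup_le _ hCR
      intro n hn
      have : n ∈ R ⊓ N := by rw [h]; exact hn
      exact this.1
  · by_contra hcon
    push Not at hcon
    apply hMne
    apply le_antisymm hMN
    apply S3_perf hN.perf
    intro a ha b hb
    have h1 := hcon a (le_sup_left (a := N) ha) b (le_sup_left (a := N) hb)
    rw [← hint]
    refine ⟨h1, ?_⟩
    exact N.mul_mem (N.mul_mem (N.mul_mem ha hb) (N.inv_mem ha)) (N.inv_mem hb)
  · intro x hx h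
    refine ⟨hx, S3_iff hfix hx, fun n hn => ?_⟩
    have h1 := h n (le_sup_left (a := N) hn)
    rw [← hint]
    exact ⟨h1, N.mul_mem (hN.nN.conj_mem n hn x) (N.inv_mem hn)⟩

end H49KC
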