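import Pool.Agent.H49.KC.Defs

namespace H49KC

open H49KA H49KB

universe u v w

theorem greedy {G : Type u} [Group G] [Finite G] (s : ℕ) (C : Fin s → Subgroup G)
    (hC : ∀ i, s ^ 2 < (C i).index) :
    ∃ h : Fin (s + 1) → G, ∀ i j j', j ≠ j' → (h j)⁻¹ * h j' ∉ C i := by
  classical
  have := Fintype.ofFinite G
  have hc : ∀ i, (s ^ 2 + 1) * Nat.card (C i) ≤ Nat.card G := by
    intro i
    rw [← (C i).index_mul_card]
    exact Nat.mul_le_mul_right _ (hC i)
  have key : ∀ m, m ≤ s + 1 → ∃ h : ℕ → G, ∀ i, ∀ j < m, ∀ j' < m, j ≠ j' →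
      (h j)⁻¹ * h j' ∉ C i := by
    intro m
    induction m with
    | zero => exact fun _ => ⟨fun _ => 1, fun i j hj => absurd hj (Nat.not_lt_zero _)⟩
    | succ m ih =>
      intro hm
      obtain ⟨h, hh⟩ := ih (by omega)
      have hx : ∃ x : G, ∀ j < m, ∀ i, (h j)⁻¹ * x ∉ C i := by
        by_contra hcon
        push Not at hcon
        have hcov : (Finset.univ : Finset G) ⊆
            (Finset.range m ×ˢ (Finset.univ : Finset (Fin s))).biUnion
              (fun p => Finset.univ.filter (fun x => (h p.1)⁻¹ * x ∈ C p.2)) := by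
          intro x _
          obtain ⟨j, hj, i, hi⟩ := hcon x
          rw [Finset.mem_biUnion]
          refine ⟨(j, i), ?_, ?_⟩
          · rw [Finset.mem_product]
            exact ⟨Finset.mem_range.2 hj, Finset.mem_univ _⟩
          · rw [Finset.mem_filter]
            exact ⟨Finset.mem_univ _, hi⟩
        have hcard : ∀ p : ℕ × Fin s,
            (Finset.univ.filter (fun x => (h p.1)⁻¹ * x ∈ C p.2)).card = Nat.card (C p.2) := by
          intro p
          rw [← Fintype.card_subtype, ← Nat.card_eq_fintype_card]
          exact Nat.card_congr ((Equiv.mulLeft (h p.1)⁻¹).subtypeEquiv (fun x => Iff.rfl))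
        have h1 : Nat.card G ≤ ∑ p ∈ Finset.range m ×ˢ (Finset.univ : Finset (Fin s)),
            Nat.card (C p.2) := by
          calc Nat.card G = (Finset.univ : Finset G).card := by
                rw [Finset.card_univ, Nat.card_eq_fintype_card]
            _ ≤ _ := Finset.card_le_card hcov
            _ ≤ _ := Finset.card_biUnion_le
            _ = _ := Finset.sum_congr rfl (fun p _ => hcard p)
        have h2 : (s ^ 2 + 1) * Nat.card G ≤ (m * s) * Nat.card G := by
          calc (s ^ 2 + 1) * Nat.card G
              ≤ (s ^ 2 + 1) * ∑ p ∈ Finset.range m ×ˢ (Finset.univ : Finset (Fin s)),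
                  Nat.card (C p.2) := Nat.mul_le_mul_left _ h1
            _ = ∑ p ∈ Finset.range m ×ˢ (Finset.univ : Finset (Fin s)),
                  (s ^ 2 + 1) * Nat.card (C p.2) := Finset.mul_sum _ _ _
            _ ≤ ∑ _p ∈ Finset.range m ×ˢ (Finset.univ : Finset (Fin s)), Nat.card G :=
                Finset.sum_le_sum (fun p _ => hc p.2)
            _ = (m * s) * Nat.card G := by
                rw [Finset.sum_const, Finset.card_product, Finset.card_range, Finset.card_univ,
                  Fintype.card_fin, smul_eq_mul]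
        have h3 : 0 < Nat.card G := Nat.card_pos
        have h4 : s ^ 2 + 1 ≤ m * s := Nat.le_of_mul_le_mul_right h2 h3
        have h5 : m * s ≤ s * s := Nat.mul_le_mul_right s (by omega)
        rw [pow_two] at h4
        omega
      obtain ⟨x, hx⟩ := hx
      refine ⟨Function.update h m x, ?_⟩
      intro i j hj j' hj' hne
      rcases Nat.lt_succ_iff_lt_or_eq.1 hj with h1 | h1
      · rcases Nat.lt_succ_iff_lt_or_eq.1 hj' with h2 | h2
        · rw [Function.update_of_ne h1.ne, Function.update_of_ne h2.ne]
          exact hh i j h1 j' h2 hne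
        · subst h2
          rw [Function.update_of_ne h1.ne, Function.update_self]
          exact hx j h1 i
      · subst h1
        rcases Nat.lt_succ_iff_lt_or_eq.1 hj' with h2 | h2
        · rw [Function.update_of_ne h2.ne, Function.update_self]
          intro h3
          apply hx j' h2 i
          have h4 := (C i).inv_mem h3
          rwa [mul_inv_rev, inv_inv] at h4
        · exact absurd h2.symm hne
  obtain ⟨h, hh⟩ := key (s + 1) le_rfl
  exact ⟨fun j => h j, fun i j j' hne => hh i j j.2 j' j'.2 (fun e => hne (Fin.ext e))⟩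

end H49KC
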