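import Pool.Agent.H49.KC.Defs
import Pool.Agent.H49.KC.MS

namespace H49KC

open H49KA H49KB

universe u v w

variable {K : Type u} [Group K]

private theorem cd_mulSub {N Q D : Subgroup K} (hQN : Q ≤ N) (hD : NormIn N D) :
    ∃ S : Subgroup K, ∀ x, x ∈ S ↔ ∃ q ∈ Q, ∃ d ∈ D, x = q * d := by
  refine ⟨{ carrier := {x | ∃ q ∈ Q, ∃ d ∈ D, x = q * d}
            one_mem' := ⟨1, Q.one_mem, 1, D.one_mem, by simp⟩
            mul_mem' := ?_
            inv_mem' := ?_ }, fun x => Iff.rfl⟩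
  · rintro _ _ ⟨q, hq, d, hd, rfl⟩ ⟨q', hq', d', hd', rfl⟩
    exact ⟨q * q', Q.mul_mem hq hq', q'⁻¹ * d * q'⁻¹⁻¹ * d',
      D.mul_mem (hD _ (N.inv_mem (hQN hq')) _ hd) hd', by group⟩
  · rintro _ ⟨q, hq, d, hd, rfl⟩
    exact ⟨q⁻¹, Q.inv_mem hq, q * d⁻¹ * q⁻¹, hD _ (hQN hq) _ (D.inv_mem hd), by group⟩

private theorem cd_greedy {ι : Type v} {α : Type w} [DecidableEq ι] [DecidableEq α] [Nonempty α]
    (C : ι → α → ι → α → Prop) (c : ℕ) (I : Finset α) (S : ι → Finset α)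
    (hSI : ∀ x, S x ⊆ I) (hsym : ∀ x a y b, C x a y b → C y b x a)
    (B : ι → ι → α → Finset α)
    (hC : ∀ x y, ∀ b ∈ I, (B x y b).card ≤ c)
    (hB : ∀ x y, ∀ b ∈ I, ∀ a ∈ I, C x a y b → a ∈ B x y b) (J : Finset ι) :
    (∀ x ∈ J, c * J.card < (S x).card) → ∃ a : ι → α, (∀ x ∈ J, a x ∈ S x) ∧
      ∀ x ∈ J, ∀ y ∈ J, x ≠ y → ¬ C x (a x) y (a y) := by
  induction J using Finset.induction_on with
  | empty =>
    intro _
    exact ⟨fun _ => Classical.arbitrary α, by simp, by simp⟩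
  | insert x J hx ih =>
    intro hcard
    rw [Finset.card_insert_of_notMem hx] at hcard
    obtain ⟨a, ha, hCa⟩ := ih (fun y hy => lt_of_le_of_lt
      (Nat.mul_le_mul_left c (Nat.le_succ _)) (hcard y (Finset.mem_insert_of_mem hy)))
    have h1 : (J.biUnion (fun y => B x y (a y))).card ≤ J.card * c :=
      Finset.card_biUnion_le_card_mul _ _ _ (fun y hy => hC x y _ (hSI y (ha y hy)))
    have h2 := hcard x (Finset.mem_insert_self x J)
    have hlt : (J.biUnion (fun y => B x y (a y))).card < (S x).card := by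
      have : J.card * c ≤ c * (J.card + 1) := by
        rw [mul_comm]
        exact Nat.mul_le_mul_left c (Nat.le_succ _)
      omega
    obtain ⟨b, hb, hb'⟩ := Finset.exists_mem_notMem_of_card_lt_card hlt
    rw [Finset.mem_biUnion] at hb'
    push Not at hb'
    have hbI := hSI x hb
    refine ⟨Function.update a x b, ?_, ?_⟩
    · intro y hy
      rcases Finset.mem_insert.1 hy with rfl | hy
      · rw [Function.update_self]
        exact hb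
      · have hyx : y ≠ x := fun h => hx (h ▸ hy)
        rw [Function.update_of_ne hyx]
        exact ha y hy
    · intro y hy z hz hyz
      rcases Finset.mem_insert.1 hy with rfl | hyJ
      · rcases Finset.mem_insert.1 hz with rfl | hz
        · exact absurd rfl hyz
        · have hzy : z ≠ y := fun h => hx (h ▸ hz)
          rw [Function.update_self, Function.update_of_ne hzy]
          intro h
          exact hb' z hz (hB _ _ _ (hSI z (ha z hz)) _ hbI h)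
      · have hyx : y ≠ x := fun h => hx (h ▸ hyJ)
        rcases Finset.mem_insert.1 hz with hzx | hz
        · rw [hzx, Function.update_self, Function.update_of_ne hyx]
          intro h
          exact hb' y hyJ (hB _ _ _ (hSI y (ha y hyJ)) _ hbI (hsym _ _ _ _ h))
        · have hzx : z ≠ x := fun h => hx (h ▸ hz)
          rw [Function.update_of_ne hyx, Function.update_of_ne hzx]
          exact hCa y hyJ z hz hyz

private theorem cd_perm {α : Type v} {β : Type w} [DecidableEq α] [DecidableEq β] (I : Finset α)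
    (F : α → β) (h : ∀ x ∈ I, ∃ y ∈ I, y ≠ x ∧ F x = F y) :
    ∃ π : α → α, (∀ x ∈ I, π x ∈ I ∧ π x ≠ x ∧ F (π x) = F x) ∧
      ∀ x ∈ I, ∀ y ∈ I, π x = π y → x = y := by
  have hmem : ∀ x ∈ I, ∀ z, z ∈ (I.filter (fun y => F y = F x)).toList ↔ z ∈ I ∧ F z = F x := by
    intro x _ z
    rw [Finset.mem_toList, Finset.mem_filter]
  have hπ : ∀ x ∈ I, ((I.filter (fun y => F y = F x)).toList.formPerm x ∈ I ∧
      F ((I.filter (fun y => F y = F x)).toList.formPerm x) = F x) := by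
    intro x hx
    have h1 : x ∈ (I.filter (fun y => F y = F x)).toList := (hmem x hx x).2 ⟨hx, rfl⟩
    exact (hmem x hx _).1 (List.formPerm_apply_mem_of_mem h1)
  refine ⟨fun x => (I.filter (fun y => F y = F x)).toList.formPerm x, fun x hx => ⟨(hπ x hx).1,
    ?_, (hπ x hx).2⟩, ?_⟩
  · intro he
    have h1 : x ∈ (I.filter (fun y => F y = F x)).toList := (hmem x hx x).2 ⟨hx, rfl⟩
    rw [List.formPerm_apply_mem_eq_self_iff _ (Finset.nodup_toList _) x h1,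
      Finset.length_toList] at he
    obtain ⟨y, hy, hyx, hF⟩ := h x hx
    rw [Finset.card_le_one] at he
    exact hyx (he y (Finset.mem_filter.2 ⟨hy, hF.symm⟩) x (Finset.mem_filter.2 ⟨hx, rfl⟩))
  · intro x hx y hy hxy
    have hF : F x = F y := by
      rw [← (hπ x hx).2, ← (hπ y hy).2]
      exact congrArg F hxy
    simp only [hF] at hxy
    exact Equiv.injective _ hxy

private theorem cd_prod {N : Subgroup K} : ∀ (s : ℕ) (t : Fin s → K), (∀ i, t i ∈ N) →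
    ∃ h ∈ N, (∀ D : Subgroup K, NormIn N D → (∀ i, t i ∈ D) → h ∈ D) ∧
      (∀ D : Subgroup K, NormIn N D → ∀ i, (∀ i', i' ≠ i → t i' ∈ D) →
        ∃ d ∈ D, h = t i * d) := by
  intro s
  induction s with
  | zero =>
    intro t _
    exact ⟨1, N.one_mem, fun D _ _ => D.one_mem, fun D _ i => i.elim0⟩
  | succ s ih =>
    intro t ht
    obtain ⟨h, hhN, h1, h2⟩ := ih (fun i => t i.succ) (fun i => ht _)
    refine ⟨t 0 * h, N.mul_mem (ht 0) hhN, fun D hD hall => D.mul_mem (hall 0)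
      (h1 D hD (fun i => hall _)), fun D hD i => ?_⟩
    refine Fin.cases ?_ (fun k => ?_) i
    · intro hi
      exact ⟨h, h1 D hD (fun i => hi _ (Fin.succ_ne_zero i)), rfl⟩
    · intro hi
      obtain ⟨d, hd, hd'⟩ := h2 D hD k (fun i' hi' => hi _ (fun he => hi' (Fin.succ_injective _ he)))
      have h0 : t 0 ∈ D := hi 0 (Fin.succ_ne_zero k).symm
      refine ⟨(t k.succ)⁻¹ * t 0 * (t k.succ)⁻¹⁻¹ * d,
        D.mul_mem (hD _ (N.inv_mem (ht _)) _ h0) hd, ?_⟩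
      rw [hd']
      group

private theorem cd_normIn_inf {N M P : Subgroup K} (hM : NormIn N M) (hP : NormIn N P) :
    NormIn N (M ⊓ P) := fun x hx t ht => ⟨hM x hx t ht.1, hP x hx t ht.2⟩

private theorem cd_int {N N₀ Q M P : Subgroup K} (hN : NAb N N₀)
    (hM : MaxN N N₀ M) (hP : MaxN N N₀ P) (hne : P ≠ M)
    (hQ : Q ⊓ P = Q ⊓ M) {t q d : K} (ht : t ∈ coM N N₀ M) (hq : q ∈ Q) (hd : d ∈ M ⊓ P)
    (he : t = q * d) : t ∈ N₀ := by
  obtain ⟨-, -, -, -, hco, -, -⟩ := maxN_structure hN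
  obtain ⟨h1, -, -, h2⟩ := hco M hM
  have h3 : t ∈ P := h2 P hP hne ht
  have h4 : q ∈ P := by
    have : q = t * d⁻¹ := by rw [he]; group
    rw [this]
    exact P.mul_mem h3 (P.inv_mem hd.2)
  have h5 : q ∈ Q ⊓ M := hQ ▸ (⟨hq, h4⟩ : q ∈ Q ⊓ P)
  have h6 : t ∈ M := by
    rw [he]
    exact M.mul_mem h5.2 hd.1
  rw [← h1]
  exact ⟨ht, h6⟩

private theorem cd_case1 {N N₀ M : Subgroup K} (hN : NAb N N₀)
    (hM : MaxN N N₀ M) : ∃ t ∈ coM N N₀ M, t ∉ N₀ := by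
  obtain ⟨-, -, -, -, hco, -, -⟩ := maxN_structure hN
  obtain ⟨h1, h2, -, -⟩ := hco M hM
  by_contra hcon
  push Not at hcon
  have h3 : coM N N₀ M ≤ M := fun t ht => hM.1 (hcon t ht)
  rw [sup_eq_right.2 h3] at h2
  exact hM.2.2.1 h2

private theorem cd_case2 {N N₀ Q M P : Subgroup K} (hN : NAb N N₀) (hNQ : N₀ ≤ Q)
    (hQN : Q ≤ N) (hM : MaxN N N₀ M) (hP : MaxN N N₀ P) (hne : P ≠ M)
    (hQ : Q ⊓ P = Q ⊓ M) (c : K) (hc : cj c M = P) :
    ∃ t ∈ coM N N₀ M, ∀ q ∈ Q, ∀ d ∈ M ⊓ P, t * (c * t⁻¹ * c⁻¹) ≠ q * d := by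
  obtain ⟨-, -, -, -, hco, hnab, hcoj⟩ := maxN_structure hN
  obtain ⟨h1, h2, h3, h4⟩ := hco M hM
  obtain ⟨k1, k2, k3, k4⟩ := hco P hP
  by_contra hcon
  push Not at hcon
  obtain ⟨S, hS⟩ := cd_mulSub (D := M ⊓ P) hQN (cd_normIn_inf hM.2.2.2.1 hP.2.2.2.1)
  have hcS : ∀ t ∈ coM N N₀ M, t * (c * t⁻¹ * c⁻¹) ∈ S := by
    intro t ht
    obtain ⟨q, hq, d, hd, he⟩ := hcon t ht
    exact (hS _).2 ⟨q, hq, d, hd, he⟩
  have hQS : Q ≤ S := fun q hq => (hS _).2 ⟨q, hq, 1, Subgroup.one_mem _, by simp⟩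
  have hcoN : coM N N₀ M ≤ N := fun x hx => hx.1
  have hcoPN : coM N N₀ P ≤ N := fun x hx => hx.1
  have hφ : ∀ t ∈ coM N N₀ M, c * t * c⁻¹ ∈ coM N N₀ P := by
    intro t ht
    rw [← hc, hcoj M hM c]
    exact ⟨t, ht, rfl⟩
  -- commutators of elements of `coM M` lie in `N₀`
  have hcomm : ∀ t ∈ coM N N₀ M, ∀ u ∈ coM N N₀ M, u * t * u⁻¹ * t⁻¹ ∈ N₀ := by
    intro t ht u hu
    have hA := hcS t ht
    have hB := hcS u hu
    have hE := hcS (t * u) (Subgroup.mul_mem _ ht hu)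
    have hn : (c * t * c⁻¹) * u * (c * t * c⁻¹)⁻¹ * u⁻¹ ∈ N₀ := by
      rw [← h1]
      have e1 : (c * t * c⁻¹) * u * (c * t * c⁻¹)⁻¹ * u⁻¹ ∈ coM N N₀ M :=
        Subgroup.mul_mem _ (h3 _ (hcoPN (hφ t ht)) _ hu) (Subgroup.inv_mem _ hu)
      have e2 : (c * t * c⁻¹) * u * (c * t * c⁻¹)⁻¹ * u⁻¹ ∈ coM N N₀ P := by
        have : (c * t * c⁻¹) * u * (c * t * c⁻¹)⁻¹ * u⁻¹ =
          (c * t * c⁻¹) * (u * (c * t * c⁻¹)⁻¹ * u⁻¹) := by group
        rw [this]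
        exact Subgroup.mul_mem _ (hφ t ht)
          (k3 _ (hcoN hu) _ (Subgroup.inv_mem _ (hφ t ht)))
      exact ⟨e1, k4 M hM hne.symm e2⟩
    have hF : (t * (c * t⁻¹ * c⁻¹))⁻¹ * (t * u * (c * (t * u)⁻¹ * c⁻¹)) ∈ S :=
      S.mul_mem (S.inv_mem hA) hE
    have hG : ((c * t * c⁻¹) * u * (c * t * c⁻¹)⁻¹ * u⁻¹)⁻¹ *
        ((t * (c * t⁻¹ * c⁻¹))⁻¹ * (t * u * (c * (t * u)⁻¹ * c⁻¹))) ∈ S :=
      S.mul_mem (S.inv_mem (hQS (hNQ hn))) hF
    have hH : (u * (c * u⁻¹ * c⁻¹))⁻¹ * (((c * t * c⁻¹) * u * (c * t * c⁻¹)⁻¹ * u⁻¹)⁻¹ *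
        ((t * (c * t⁻¹ * c⁻¹))⁻¹ * (t * u * (c * (t * u)⁻¹ * c⁻¹)))) ∈ S :=
      S.mul_mem (S.inv_mem hB) hG
    have hHe : (u * (c * u⁻¹ * c⁻¹))⁻¹ * (((c * t * c⁻¹) * u * (c * t * c⁻¹)⁻¹ * u⁻¹)⁻¹ *
        ((t * (c * t⁻¹ * c⁻¹))⁻¹ * (t * u * (c * (t * u)⁻¹ * c⁻¹)))) =
        c * (u * t * u⁻¹ * t⁻¹) * c⁻¹ := by group
    rw [hHe] at hH
    obtain ⟨q, hq, d, hd, he⟩ := (hS _).1 hH
    have hmem : c * (u * t * u⁻¹ * t⁻¹) * c⁻¹ ∈ coM N N₀ P := by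
      refine hφ _ ?_
      exact Subgroup.mul_mem _ (Subgroup.mul_mem _ (Subgroup.mul_mem _ hu ht)
        (Subgroup.inv_mem _ hu)) (Subgroup.inv_mem _ ht)
    have h0 := cd_int hN hP hM hne.symm hQ.symm hmem hq ⟨hd.2, hd.1⟩ he
    have h5 := hN.nN₀.conj_mem _ h0 c⁻¹
    have h6 : c⁻¹ * (c * (u * t * u⁻¹ * t⁻¹) * c⁻¹) * c⁻¹⁻¹ = u * t * u⁻¹ * t⁻¹ := by group
    rwa [h6] at h5
  -- so `N / M` is abelian
  obtain ⟨a, ha, b, hb, hab⟩ := hnab M hM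
  apply hab
  obtain ⟨S', hS'⟩ := cd_mulSub (D := M) hcoN hM.2.2.2.1
  have hNS : N ≤ S' := by
    rw [← h2]
    refine sup_le (fun x hx => (hS' _).2 ⟨x, hx, 1, M.one_mem, by simp⟩)
      (fun x hx => (hS' _).2 ⟨1, Subgroup.one_mem _, x, hx, by simp⟩)
  obtain ⟨a', ha', m, hm, hae⟩ := (hS' _).1 (hNS ha)
  obtain ⟨b', hb', m', hm', hbe⟩ := (hS' _).1 (hNS hb)
  have hMn : ∀ x ∈ N, ∀ y ∈ M, x * y * x⁻¹ ∈ M := hM.2.2.2.1
  have hc0 : a' * b' * a'⁻¹ * b'⁻¹ ∈ M := hM.1 (hcomm b' hb' a' ha')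
  -- `a b = a' b' m₁`, `b a = b' a' m₂`
  have e1 : a * b = a' * b' * ((b'⁻¹ * m * b'⁻¹⁻¹) * m') := by
    rw [hae, hbe]
    group
  have e2 : b * a = b' * a' * ((a'⁻¹ * m' * a'⁻¹⁻¹) * m) := by
    rw [hae, hbe]
    group
  have hm1 : (b'⁻¹ * m * b'⁻¹⁻¹) * m' ∈ M :=
    M.mul_mem (hMn _ (N.inv_mem (hcoN hb')) _ hm) hm'
  have hm2 : (a'⁻¹ * m' * a'⁻¹⁻¹) * m ∈ M :=
    M.mul_mem (hMn _ (N.inv_mem (hcoN ha')) _ hm') hm
  have e3 : a * b * a⁻¹ * b⁻¹ = (a * b) * (b * a)⁻¹ := by group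
  rw [e3, e1, e2]
  have e4 : a' * b' * ((b'⁻¹ * m * b'⁻¹⁻¹) * m') * (b' * a' * ((a'⁻¹ * m' * a'⁻¹⁻¹) * m))⁻¹ =
      (a' * b' * (((b'⁻¹ * m * b'⁻¹⁻¹) * m') * ((a'⁻¹ * m' * a'⁻¹⁻¹) * m)⁻¹) * (a' * b')⁻¹) *
        (a' * b' * a'⁻¹ * b'⁻¹) := by group
  rw [e4]
  exact M.mul_mem (hMn _ (N.mul_mem (hcoN ha') (hcoN hb')) _ (M.mul_mem hm1 (M.inv_mem hm2))) hc0

private theorem cd_card_or {α : Type v} [DecidableEq α] (I : Finset α) (p q : α → Prop)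
    [DecidablePred p] [DecidablePred q] (m n : ℕ) (hp : (I.filter p).card ≤ m)
    (hq : (I.filter q).card ≤ n) : (I.filter (fun a => p a ∨ q a)).card ≤ m + n := by
  rw [Finset.filter_or]
  exact (Finset.card_union_le _ _).trans (Nat.add_le_add hp hq)

private theorem cd_card_one {α : Type v} (I : Finset α) (p : α → Prop)
    [DecidablePred p] (h : ∀ x ∈ I, ∀ y ∈ I, p x → p y → x = y) : (I.filter p).card ≤ 1 := by
  rw [Finset.card_le_one]
  intro x hx y hy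
  rw [Finset.mem_filter] at hx hy
  exact h x hx.1 y hy.1 hx.2 hy.2

private theorem cd_cj_inj (g : K) {A B : Subgroup K} (h : cj g A = cj g B) : A = B :=
  Subgroup.map_injective (MulAut.conj g).injective h

open Classical in
theorem comb_D {N N₀ : Subgroup K} (hN : NAb N N₀) (Q : Subgroup K) (hNQ : N₀ ≤ Q)
    (hQN : Q ≤ N) (hfull : ∀ M, MaxN N N₀ M → Q ⊔ M = N) (s : ℕ) (f : Fin s → K)
    (I : Finset (Subgroup K))
    (hI : ∀ M ∈ I, MaxN N N₀ M ∧ ∃ M' ∈ I, M' ≠ M ∧ Q ⊓ M = Q ⊓ M')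
    (hinv : ∀ i, ∀ M ∈ I, cj (f i) M ∈ I)
    (hmv : ∀ i, 10 * (s + 1) ^ 2 < (I.filter (fun M => cj (f i) M ≠ M)).card) :
    ∃ h : Fin (s + 1) → K, (∀ j, h j ∈ N) ∧ ∀ i j j', j ≠ j' →
      h j * f i * (h j)⁻¹ * (h j' * f i * (h j')⁻¹)⁻¹ ∉ Q := by
  obtain ⟨-, hcj, -, -, hco, hnab, hcoj⟩ := maxN_structure hN
  obtain ⟨π, hπ, hπi⟩ := cd_perm I (fun M => Q ⊓ M) (fun M hM => (hI M hM).2)
  -- the selection of the factors
  obtain ⟨a, ha, hCa⟩ := cd_greedy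
    (fun (x : Fin s × Fin (s + 1)) (a : Subgroup K) (y : Fin s × Fin (s + 1)) (b : Subgroup K) =>
      a = b ∨ a = cj (f x.1) b ∨ cj (f y.1) a = b ∨ π a = b ∨ a = π b ∨ π a = cj (f x.1) b ∨
        cj (f y.1) a = π b) 7 I (fun x => I.filter (fun M => cj (f x.1) M ≠ M))
    (fun x => Finset.filter_subset _ _)
    (by
      rintro x a y b (h | h | h | h | h | h | h)
      · exact Or.inl h.symm
      · exact Or.inr (Or.inr (Or.inl h.symm))
      · exact Or.inr (Or.inl h.symm)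
      · exact Or.inr (Or.inr (Or.inr (Or.inr (Or.inl h.symm))))
      · exact Or.inr (Or.inr (Or.inr (Or.inl h.symm)))
      · exact Or.inr (Or.inr (Or.inr (Or.inr (Or.inr (Or.inr h.symm)))))
      · exact Or.inr (Or.inr (Or.inr (Or.inr (Or.inr (Or.inl h.symm))))))
    (fun x y b => I.filter (fun a => a = b ∨ a = cj (f x.1) b ∨ cj (f y.1) a = b ∨ π a = b ∨
      a = π b ∨ π a = cj (f x.1) b ∨ cj (f y.1) a = π b))
    (by
      intro x y b hb
      refine cd_card_or I _ _ 1 6 (cd_card_one _ _ ?_) (cd_card_or I _ _ 1 5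
        (cd_card_one _ _ ?_) (cd_card_or I _ _ 1 4 (cd_card_one _ _ ?_) (cd_card_or I _ _ 1 3
        (cd_card_one _ _ ?_) (cd_card_or I _ _ 1 2 (cd_card_one _ _ ?_) (cd_card_or I _ _ 1 1
        (cd_card_one _ _ ?_) (cd_card_one _ _ ?_))))))
      · rintro u - v - rfl rfl
        rfl
      · rintro u - v - rfl rfl
        rfl
      · rintro u - v - h h'
        exact cd_cj_inj _ (h.trans h'.symm)
      · rintro u hu v hv h h'
        exact hπi u hu v hv (h.trans h'.symm)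
      · rintro u - v - rfl rfl
        rfl
      · rintro u hu v hv h h'
        exact hπi u hu v hv (h.trans h'.symm)
      · rintro u - v - h h'
        exact cd_cj_inj _ (h.trans h'.symm))
    (fun x y b hb a ha h => Finset.mem_filter.2 ⟨ha, h⟩)
    Finset.univ (by
      intro x _
      refine lt_of_le_of_lt ?_ (hmv x.1)
      rw [Finset.card_univ, Fintype.card_prod, Fintype.card_fin, Fintype.card_fin]
      nlinarith)
  have haI : ∀ x, a x ∈ I := fun x => (Finset.mem_filter.1 (ha x (Finset.mem_univ x))).1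
  have hamv : ∀ x, cj (f x.1) (a x) ≠ a x :=
    fun x => (Finset.mem_filter.1 (ha x (Finset.mem_univ x))).2
  have haM : ∀ x, MaxN N N₀ (a x) := fun x => (hI _ (haI x)).1
  have hπI : ∀ x, π (a x) ∈ I := fun x => (hπ _ (haI x)).1
  have hπM : ∀ x, MaxN N N₀ (π (a x)) := fun x => (hI _ (hπI x)).1
  have hπne : ∀ x, π (a x) ≠ a x := fun x => (hπ _ (haI x)).2.1
  have hπQ : ∀ x, Q ⊓ π (a x) = Q ⊓ a x := fun x => (hπ _ (haI x)).2.2
  -- the elements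
  have ht : ∀ x : Fin s × Fin (s + 1), ∃ t ∈ coM N N₀ (a x),
      (cj (f x.1) (a x) ≠ π (a x) → t ∉ N₀) ∧
      (cj (f x.1) (a x) = π (a x) → ∀ q ∈ Q, ∀ d ∈ a x ⊓ π (a x),
        t * (f x.1 * t⁻¹ * (f x.1)⁻¹) ≠ q * d) := by
    intro x
    by_cases hx : cj (f x.1) (a x) = π (a x)
    · obtain ⟨t, ht, h⟩ := cd_case2 hN hNQ hQN (haM x) (hπM x) (hπne x) (hπQ x) (f x.1) hx
      exact ⟨t, ht, fun h' => absurd hx h', fun _ => h⟩
    · obtain ⟨t, ht, h⟩ := cd_case1 hN (haM x)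
      exact ⟨t, ht, fun _ => h, fun h' => absurd h' hx⟩
  choose t htco ht1 ht2 using ht
  have htN : ∀ x, t x ∈ N := fun x => (htco x).1
  choose h hhN hall hone using fun j : Fin (s + 1) => cd_prod s (fun i => t (i, j))
    (fun i => htN (i, j))
  refine ⟨h, hhN, fun i j j' hjj' hQm => ?_⟩
  obtain ⟨D, hD⟩ : ∃ D, D = a (i, j) ⊓ π (a (i, j)) := ⟨_, rfl⟩
  have hDN : NormIn N D := by
    rw [hD]
    exact cd_normIn_inf (haM _).2.2.2.1 (hπM _).2.2.2.1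
  have hDNle : D ≤ N := by
    rw [hD]
    exact inf_le_left.trans (haM _).2.1
  -- other factors are in `D`
  have hother : ∀ y, y ≠ (i, j) → t y ∈ D := by
    intro y hy
    have hC := hCa (i, j) (Finset.mem_univ _) y (Finset.mem_univ _) hy.symm
    push Not at hC
    obtain ⟨-, -, -, hco4⟩ := hco _ (haM y)
    rw [hD]
    exact ⟨hco4 _ (haM _) hC.1 (htco y), hco4 _ (hπM _) hC.2.2.2.1 (htco y)⟩
  have hother' : ∀ y, y ≠ (i, j) → f i * t y * (f i)⁻¹ ∈ D := by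
    intro y hy
    have hC := hCa (i, j) (Finset.mem_univ _) y (Finset.mem_univ _) hy.symm
    push Not at hC
    obtain ⟨-, -, -, hco4⟩ := hco _ (hcj _ (haM y) (f i))
    have hmem : f i * t y * (f i)⁻¹ ∈ coM N N₀ (cj (f i) (a y)) := by
      rw [hcoj _ (haM y)]
      exact ⟨t y, htco y, rfl⟩
    rw [hD]
    exact ⟨hco4 _ (haM _) hC.2.1 hmem, hco4 _ (hπM _) hC.2.2.2.2.2.1 hmem⟩
  -- the conjugate of `D`
  obtain ⟨D', hD'⟩ : ∃ D' : Subgroup K, ∀ x, x ∈ D' ↔ f i * x * (f i)⁻¹ ∈ D :=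
    ⟨D.comap (MulAut.conj (f i)).toMonoidHom, fun x => Iff.rfl⟩
  have hD'N : NormIn N D' := by
    intro x hx y hy
    rw [hD'] at hy ⊢
    have h1 := hDN _ (hN.nN.conj_mem x hx (f i)) _ hy
    have h2 : f i * (x * y * x⁻¹) * (f i)⁻¹ =
      f i * x * (f i)⁻¹ * (f i * y * (f i)⁻¹) * (f i * x * (f i)⁻¹)⁻¹ := by group
    rwa [h2]
  have hj'D : h j' ∈ D := hall j' D hDN (fun i' => hother _ (fun he => hjj' (by
    have := congrArg Prod.snd he
    exact this.symm)))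
  have hj'D' : h j' ∈ D' := hall j' D' hD'N (fun i' => (hD' _).2 (hother' _ (fun he => hjj' (by
    have := congrArg Prod.snd he
    exact this.symm))))
  obtain ⟨d₁, hd₁, he₁⟩ := hone j D hDN i (fun i' hi' => hother _ (fun he => hi' (by
    exact congrArg Prod.fst he)))
  obtain ⟨d₂, hd₂, he₂⟩ := hone j D' hD'N i (fun i' hi' => (hD' _).2 (hother' _ (fun he => hi' (by
    exact congrArg Prod.fst he))))
  rw [hD'] at hj'D' hd₂
  by_cases hx : cj (f i) (a (i, j)) = π (a (i, j))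
  · -- second case
    have hconN : f i * (t (i, j))⁻¹ * (f i)⁻¹ ∈ N :=
      hN.nN.conj_mem _ (N.inv_mem (htN _)) (f i)
    refine ht2 (i, j) hx _ hQm
      ((h j' * (f i * h j' * (f i)⁻¹)⁻¹) * ((f i * (t (i, j))⁻¹ * (f i)⁻¹)⁻¹ *
        (d₁ * (f i * d₂ * (f i)⁻¹)⁻¹)⁻¹ * (f i * (t (i, j))⁻¹ * (f i)⁻¹)⁻¹⁻¹)) ?_ ?_
    · rw [← hD]
      exact D.mul_mem (D.mul_mem hj'D (D.inv_mem hj'D'))
        (hDN _ (N.inv_mem hconN) _ (D.inv_mem (D.mul_mem hd₁ (D.inv_mem hd₂))))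
    · have e : h j * f i * (h j)⁻¹ * (h j' * f i * (h j')⁻¹)⁻¹ =
          h j * (f i * (h j)⁻¹ * (f i)⁻¹) * (f i * h j' * (f i)⁻¹) * (h j')⁻¹ := by group
      rw [e]
      have e2 : f i * (h j)⁻¹ * (f i)⁻¹ = f i * (t (i, j) * d₂)⁻¹ * (f i)⁻¹ := by rw [← he₂]
      rw [e2]
      conv_rhs => rw [he₁]
      group
  · -- first case
    have hself : f i * t (i, j) * (f i)⁻¹ ∈ D := by
      obtain ⟨-, -, -, hco4⟩ := hco _ (hcj _ (haM (i, j)) (f i))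
      have hmem : f i * t (i, j) * (f i)⁻¹ ∈ coM N N₀ (cj (f i) (a (i, j))) := by
        rw [hcoj _ (haM (i, j))]
        exact ⟨t (i, j), htco _, rfl⟩
      rw [hD]
      exact ⟨hco4 _ (haM _) (hamv (i, j)).symm hmem, hco4 _ (hπM _) (fun h => hx h.symm) hmem⟩
    have hjD' : f i * h j * (f i)⁻¹ ∈ D := by
      rw [he₂]
      have : f i * (t (i, j) * d₂) * (f i)⁻¹ =
        (f i * t (i, j) * (f i)⁻¹) * (f i * d₂ * (f i)⁻¹) := by group
      rw [this]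
      exact D.mul_mem hself hd₂
    refine ht1 (i, j) hx (cd_int hN (haM _) (hπM _) (hπne _) (hπQ _) (htco (i, j)) hQm
      (d := (h j' * (f i * h j' * (f i)⁻¹)⁻¹) * ((f i * h j * (f i)⁻¹) * d₁⁻¹)) ?_ ?_)
    · rw [← hD]
      exact D.mul_mem (D.mul_mem hj'D (D.inv_mem hj'D')) (D.mul_mem hjD' (D.inv_mem hd₁))
    · have e : t (i, j) = h j * d₁⁻¹ := by
        rw [he₁]
        group
      rw [e]
      group

end H49KC
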