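import Pool.Agent.H49.KC.Defs
import Pool.Agent.H49.KC.MS

namespace H49KC

open H49KA H49KB

universe u v w

variable {K : Type u} [Group K]

private theorem CP_mem_cj {g x : K} {M : Subgroup K} : x ∈ cj g M ↔ g⁻¹ * x * g ∈ M := by
  constructor
  · rintro ⟨y, hy, rfl⟩
    have : g⁻¹ * ((MulAut.conj g).toMonoidHom y) * g = y := by
      show g⁻¹ * (g * y * g⁻¹) * g = y
      group
    rw [this]
    exact hy
  · intro h
    refine ⟨g⁻¹ * x * g, h, ?_⟩
    show g * (g⁻¹ * x * g) * g⁻¹ = x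
    group

private theorem CP_cj_inv (g : K) (M : Subgroup K) : cj g⁻¹ (cj g M) = M := by
  ext x
  rw [CP_mem_cj, CP_mem_cj]
  have : g⁻¹ * (g⁻¹⁻¹ * x * g⁻¹) * g = x := by group
  rw [this]

private theorem CP_cj_inv' (g : K) (M : Subgroup K) : cj g (cj g⁻¹ M) = M := by
  ext x
  rw [CP_mem_cj, CP_mem_cj]
  have : g⁻¹⁻¹ * (g⁻¹ * x * g) * g⁻¹ = x := by group
  rw [this]

open Classical in
private theorem CP_choose (s : ℕ) (f : Fin s → K) (I : Finset (Subgroup K))
    (hmv : ∀ i, 10 * (s + 1) ^ 2 < (I.filter (fun M => cj (f i) M ≠ M)).card)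
    (P : Finset (Fin s × Fin (s + 1))) :
    ∃ a : Fin s × Fin (s + 1) → Subgroup K, (∀ p ∈ P, a p ∈ I) ∧
      (∀ p ∈ P, ∀ q ∈ P, p ≠ q → a p ≠ a q) ∧
      ∀ p ∈ P, ∀ q ∈ P, cj (f p.1)⁻¹ (a p) ≠ a q := by
  induction P using Finset.induction_on with
  | empty =>
    exact ⟨fun _ => ⊥, by simp, by simp, by simp⟩
  | insert p P hp ih =>
    obtain ⟨a, h1, h2, h3⟩ := ih
    have hcard : P.card ≤ (s + 1) ^ 2 := by
      calc P.card ≤ (Finset.univ : Finset (Fin s × Fin (s + 1))).card :=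
            Finset.card_le_card (Finset.subset_univ _)
        _ = s * (s + 1) := by simp
        _ ≤ (s + 1) ^ 2 := by nlinarith
    obtain ⟨M, hM, hM'⟩ : ∃ M ∈ I.filter (fun M => cj (f p.1) M ≠ M),
        M ∉ P.image a ∪ (P.image (fun q => cj (f p.1) (a q)) ∪
          P.image (fun q => cj (f q.1)⁻¹ (a q))) := by
      apply Finset.exists_mem_notMem_of_card_lt_card
      refine lt_of_le_of_lt ?_ (hmv p.1)
      refine (Finset.card_union_le _ _).trans ?_
      have e1 := (Finset.card_image_le (s := P) (f := a)).trans hcard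
      have e2 := (Finset.card_image_le (s := P) (f := fun q => cj (f p.1) (a q))).trans hcard
      have e3 := (Finset.card_image_le (s := P) (f := fun q => cj (f q.1)⁻¹ (a q))).trans hcard
      have e4 := Finset.card_union_le (P.image (fun q => cj (f p.1) (a q)))
        (P.image (fun q => cj (f q.1)⁻¹ (a q)))
      omega
    rw [Finset.mem_filter] at hM
    rw [Finset.mem_union, Finset.mem_union, not_or, not_or, Finset.mem_image, Finset.mem_image,
      Finset.mem_image] at hM'
    obtain ⟨g1, g2, g3⟩ := hM'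
    refine ⟨Function.update a p M, ?_, ?_, ?_⟩
    · intro q hq
      rcases Finset.mem_insert.1 hq with hq' | hq'
      · rw [hq', Function.update_self]
        exact hM.1
      · have hqp : q ≠ p := fun h => hp (h ▸ hq')
        rw [Function.update_of_ne hqp]
        exact h1 q hq'
    · intro q hq r hr hqr
      rcases Finset.mem_insert.1 hq with hq' | hq'
      · rcases Finset.mem_insert.1 hr with hr' | hr'
        · exact absurd (hq'.trans hr'.symm) hqr
        · have hrp : r ≠ p := fun h => hp (h ▸ hr')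
          rw [hq', Function.update_self, Function.update_of_ne hrp]
          exact fun h => g1 ⟨r, hr', h.symm⟩
      · have hqp : q ≠ p := fun h => hp (h ▸ hq')
        rcases Finset.mem_insert.1 hr with hr' | hr'
        · rw [hr', Function.update_self, Function.update_of_ne hqp]
          exact fun h => g1 ⟨q, hq', h⟩
        · have hrp : r ≠ p := fun h => hp (h ▸ hr')
          rw [Function.update_of_ne hqp, Function.update_of_ne hrp]
          exact h2 q hq' r hr' hqr
    · intro q hq r hr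
      rcases Finset.mem_insert.1 hq with hq' | hq'
      · rcases Finset.mem_insert.1 hr with hr' | hr'
        · rw [hq', hr', Function.update_self]
          intro h
          apply hM.2
          have h4 := congrArg (cj (f p.1)) h
          rw [CP_cj_inv'] at h4
          exact h4.symm
        · have hrp : r ≠ p := fun h => hp (h ▸ hr')
          rw [hq', Function.update_self, Function.update_of_ne hrp]
          intro h
          have h4 := congrArg (cj (f p.1)) h
          rw [CP_cj_inv'] at h4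
          exact g2 ⟨r, hr', h4.symm⟩
      · have hqp : q ≠ p := fun h => hp (h ▸ hq')
        rcases Finset.mem_insert.1 hr with hr' | hr'
        · rw [hr', Function.update_self, Function.update_of_ne hqp]
          exact fun h => g3 ⟨q, hq', h⟩
        · have hrp : r ≠ p := fun h => hp (h ▸ hr')
          rw [Function.update_of_ne hqp, Function.update_of_ne hrp]
          exact h3 q hq' r hr'

private theorem CP_prod_mem (S : Subgroup K) {n : ℕ} (t : Fin n → K) (h : ∀ i, t i ∈ S) :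
    (List.ofFn t).prod ∈ S := by
  apply Subgroup.list_prod_mem
  intro x hx
  rw [List.mem_ofFn'] at hx
  obtain ⟨i, rfl⟩ := hx
  exact h i

private theorem CP_prod_rev (S : Subgroup K) : ∀ {n : ℕ} (t : Fin n → K) (i : Fin n),
    (∀ i', i' ≠ i → t i' ∈ S) → (List.ofFn t).prod ∈ S → t i ∈ S := by
  intro n
  induction n with
  | zero => exact fun t i => i.elim0
  | succ n ih =>
    intro t i h1 h2
    rw [List.ofFn_succ, List.prod_cons] at h2
    refine Fin.cases (motive := fun i => (∀ i', i' ≠ i → t i' ∈ S) → t i ∈ S) ?_ ?_ i h1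
    · intro h3
      have h4 : (List.ofFn (fun i : Fin n => t i.succ)).prod ∈ S :=
        CP_prod_mem S _ (fun i => h3 i.succ (Fin.succ_ne_zero i))
      have h5 := S.mul_mem h2 (S.inv_mem h4)
      rwa [mul_inv_cancel_right] at h5
    · intro i h3
      have h4 : t 0 ∈ S := h3 0 (Fin.succ_ne_zero i).symm
      have h5 := S.mul_mem (S.inv_mem h4) h2
      rw [inv_mul_cancel_left] at h5
      exact ih (fun i => t i.succ) i
        (fun i' hi' => h3 i'.succ (fun h => hi' (Fin.succ_injective _ h))) h5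

open Classical in
theorem comb_P {N N₀ : Subgroup K} (hN : NAb N N₀) (Q : Subgroup K) (hNQ : N₀ ≤ Q)
    (hQN : Q ≤ N) (s : ℕ) (f : Fin s → K) (I : Finset (Subgroup K))
    (hI : ∀ M ∈ I, MaxN N N₀ M ∧ Q ⊔ M ≠ N) (hinv : ∀ i, ∀ M ∈ I, cj (f i) M ∈ I)
    (hmv : ∀ i, 10 * (s + 1) ^ 2 < (I.filter (fun M => cj (f i) M ≠ M)).card) :
    ∃ h : Fin (s + 1) → K, (∀ j, h j ∈ N) ∧ ∀ i j j', j ≠ j' →
      h j * f i * (h j)⁻¹ * (h j' * f i * (h j')⁻¹)⁻¹ ∉ Q := by
  obtain ⟨-, hcj, -, -, hco, -, -⟩ := maxN_structure hN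
  obtain ⟨a, ha1, ha2, ha3⟩ := CP_choose s f I hmv Finset.univ
  have hmax : ∀ p, MaxN N N₀ (a p) := fun p => (hI _ (ha1 p (Finset.mem_univ _))).1
  have hex : ∀ p, ∃ t ∈ coM N N₀ (a p), t ∉ Q ⊔ a p := by
    intro p
    by_contra hcon
    push Not at hcon
    apply (hI _ (ha1 p (Finset.mem_univ _))).2
    refine le_antisymm (sup_le hQN (hmax p).2.1) ?_
    rw [← (hco _ (hmax p)).2.1]
    exact sup_le hcon le_sup_right
  choose t ht1 ht2 using hex
  have hcoN : ∀ p, t p ∈ N := fun p => (inf_le_left : coM N N₀ (a p) ≤ N) (ht1 p)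
  have hmem : ∀ p, ∀ M, MaxN N N₀ M → M ≠ a p → t p ∈ M := fun p M h1 h2 =>
    (hco _ (hmax p)).2.2.2 M h1 h2 (ht1 p)
  refine ⟨fun j => (List.ofFn (fun i => t (i, j))).prod, fun j => ?_, ?_⟩
  · exact CP_prod_mem N _ (fun i => hcoN _)
  intro i j j' hj hx
  set A := a (i, j) with hA
  have hAm : MaxN N N₀ A := hmax _
  have h1 : ∀ i' : Fin s, i' ≠ i → t (i', j) ∈ A := fun i' hi' =>
    hmem _ _ hAm (ha2 _ (Finset.mem_univ _) _ (Finset.mem_univ _)
      (fun h => hi' (congrArg Prod.fst h).symm))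
  have h2 : (List.ofFn (fun i => t (i, j'))).prod ∈ A := by
    refine CP_prod_mem A _ (fun i' => ?_)
    exact hmem _ _ hAm (ha2 _ (Finset.mem_univ _) _ (Finset.mem_univ _)
      (fun h => hj (congrArg Prod.snd h)))
  have h3 : ∀ j'' : Fin (s + 1), (List.ofFn (fun i => t (i, j''))).prod ∈ cj (f i)⁻¹ A := by
    intro j''
    refine CP_prod_mem _ _ (fun i' => ?_)
    exact hmem _ _ (hcj _ hAm _) (ha3 _ (Finset.mem_univ _) _ (Finset.mem_univ _))
  set x := (List.ofFn (fun i => t (i, j))).prod with hxd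
  set y := (List.ofFn (fun i => t (i, j'))).prod with hyd
  have h4 : f i * (x⁻¹ * y) * (f i)⁻¹ ∈ A := by
    have h5 := (cj (f i)⁻¹ A).mul_mem ((cj (f i)⁻¹ A).inv_mem (h3 j)) (h3 j')
    rw [CP_mem_cj, inv_inv] at h5
    exact h5
  have h6 : x ∈ Q ⊔ A := by
    have h7 : x * f i * x⁻¹ * (y * f i * y⁻¹)⁻¹ ∈ Q ⊔ A := (le_sup_left : Q ≤ Q ⊔ A) hx
    have h8 : f i * (x⁻¹ * y) * (f i)⁻¹ * y⁻¹ ∈ Q ⊔ A :=
      (le_sup_right : A ≤ Q ⊔ A) (A.mul_mem h4 (A.inv_mem h2))
    have h9 := (Q ⊔ A).mul_mem h7 ((Q ⊔ A).inv_mem h8)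
    have e : x * f i * x⁻¹ * (y * f i * y⁻¹)⁻¹ * (f i * (x⁻¹ * y) * (f i)⁻¹ * y⁻¹)⁻¹ = x := by
      group
    rwa [e] at h9
  exact ht2 (i, j) (CP_prod_rev (Q ⊔ A) (fun i => t (i, j)) i
    (fun i' hi' => (le_sup_right : A ≤ Q ⊔ A) (h1 i' hi')) h6)

end H49KC
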