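import Pool.Agent.H49.KC.Defs
import Pool.Agent.H49.KC.MS

namespace H49KC

open H49KA H49KB

universe u v w

variable {K : Type u} [Group K]

private theorem DI_mem_sup {A M : Subgroup K} (h : ∀ a ∈ A, ∀ m ∈ M, a * m * a⁻¹ ∈ M) {x : K}
    (hx : x ∈ A ⊔ M) : ∃ a ∈ A, ∃ m ∈ M, x = a * m := by
  rw [Subgroup.sup_eq_closure] at hx
  refine Subgroup.closure_induction (p := fun x _ => ∃ a ∈ A, ∃ m ∈ M, x = a * m)
    ?_ ?_ ?_ ?_ hx
  · rintro x (hx | hx)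
    · exact ⟨x, hx, 1, M.one_mem, (mul_one x).symm⟩
    · exact ⟨1, A.one_mem, x, hx, (one_mul x).symm⟩
  · exact ⟨1, A.one_mem, 1, M.one_mem, (mul_one 1).symm⟩
  · rintro _ _ _ _ ⟨a, ha, m, hm, rfl⟩ ⟨a', ha', m', hm', rfl⟩
    refine ⟨a * a', A.mul_mem ha ha', a'⁻¹ * m * a'⁻¹⁻¹ * m',
      M.mul_mem (h _ (A.inv_mem ha') _ hm) hm', ?_⟩
    group
  · rintro _ _ ⟨a, ha, m, hm, rfl⟩
    refine ⟨a⁻¹, A.inv_mem ha, a * m⁻¹ * a⁻¹, h _ ha _ (M.inv_mem hm), ?_⟩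
    group

/-- a subgroup normalised by `Q` together with `M` is normalised by `N = Q M`. -/
private theorem DI_normIn {N N₀ Q M A : Subgroup K} (hM : MaxN N N₀ M) (hQM : Q ⊔ M = N)
    (hA : NormIn Q A) (hAQ : A ≤ Q) : NormIn N (A ⊔ M) := by
  have hQN : Q ≤ N := hQM ▸ le_sup_left
  have hMn : NormIn N M := hM.2.2.2.1
  intro x hx t ht
  rw [← hQM] at hx
  obtain ⟨q, hq, m, hm, rfl⟩ := DI_mem_sup (fun a ha m hm => hMn a (hQN ha) m hm) hx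
  obtain ⟨a, ha, m', hm', rfl⟩ :=
    DI_mem_sup (fun a ha m hm => hMn a (hQN (hAQ ha)) m hm) ht
  have h1 : q * m * (a * m') * (q * m)⁻¹ =
      (q * m * q⁻¹) * ((q * a * q⁻¹) * (q * m' * q⁻¹)) * (q * m * q⁻¹)⁻¹ := by group
  rw [h1]
  have hqm : q * m * q⁻¹ ∈ A ⊔ M := Subgroup.mem_sup_right (hMn q (hQN hq) m hm)
  exact (A ⊔ M).mul_mem ((A ⊔ M).mul_mem hqm ((A ⊔ M).mul_mem
    (Subgroup.mem_sup_left (hA q hq a ha)) (Subgroup.mem_sup_right (hMn q (hQN hq) m' hm'))))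
    ((A ⊔ M).inv_mem hqm)

private theorem DI_sup_eq {N N₀ Q M A : Subgroup K} (hM : MaxN N N₀ M) (hQM : Q ⊔ M = N)
    (hA : NormIn Q A) (hAQ : A ≤ Q) (hAM : ¬ A ≤ M) : A ⊔ M = N := by
  have hQN : Q ≤ N := hQM ▸ le_sup_left
  rcases hM.2.2.2.2 (A ⊔ M) le_sup_right (sup_le (hAQ.trans hQN) hM.2.1)
    (DI_normIn hM hQM hA hAQ) with h | h
  · exact absurd (le_sup_left.trans h.le) hAM
  · exact h

private theorem DI_comm {N M : Subgroup K} (hMn : NormIn N M) (hMN : M ≤ N) {a b m m' : K}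
    (ha : a ∈ N) (hb : b ∈ N) (hm : m ∈ M) (hm' : m' ∈ M) (h : a * b * a⁻¹ * b⁻¹ ∈ M) :
    (a * m) * (b * m') * (a * m)⁻¹ * (b * m')⁻¹ ∈ M := by
  have h1 : (a * m) * (b * m') * (a * m)⁻¹ * (b * m')⁻¹ =
      (a * m * a⁻¹) * ((a * b) * m' * (a * b)⁻¹) * ((a * b) * m⁻¹ * (a * b)⁻¹) *
        (a * b * a⁻¹ * b⁻¹) * (b * m'⁻¹ * b⁻¹) := by group
  rw [h1]
  have hab : a * b ∈ N := N.mul_mem ha hb
  exact M.mul_mem (M.mul_mem (M.mul_mem (M.mul_mem (hMn a ha m hm) (hMn _ hab m' hm'))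
    (hMn _ hab _ (M.inv_mem hm))) h) (hMn b hb _ (M.inv_mem hm'))

/-- primeness in `Q` -/
private theorem DI_prime {N N₀ Q M A B : Subgroup K} (hM : MaxN N N₀ M) (hQM : Q ⊔ M = N)
    (hc : ∃ a ∈ N, ∃ b ∈ N, a * b * a⁻¹ * b⁻¹ ∉ M)
    (hA : NormIn Q A) (hAQ : A ≤ Q) (hB : NormIn Q B) (hBQ : B ≤ Q) (hAB : A ⊓ B ≤ M) :
    A ≤ M ∨ B ≤ M := by
  by_contra hcon
  rw [not_or] at hcon
  have hQN : Q ≤ N := hQM ▸ le_sup_left
  have hMn : NormIn N M := hM.2.2.2.1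
  have h1 := DI_sup_eq hM hQM hA hAQ hcon.1
  have h2 := DI_sup_eq hM hQM hB hBQ hcon.2
  obtain ⟨a, ha, b, hb, hab⟩ := hc
  apply hab
  rw [← h1] at ha
  rw [← h2] at hb
  obtain ⟨a', ha', m, hm, rfl⟩ :=
    DI_mem_sup (fun a ha m hm => hMn a (hQN (hAQ ha)) m hm) ha
  obtain ⟨b', hb', m', hm', rfl⟩ :=
    DI_mem_sup (fun a ha m hm => hMn a (hQN (hBQ ha)) m hm) hb
  refine DI_comm hMn hM.2.1 (hQN (hAQ ha')) (hQN (hBQ hb')) hm hm' (hAB ⟨?_, ?_⟩)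
  · have h3 : a' * b' * a'⁻¹ * b'⁻¹ = a' * (b' * a'⁻¹ * b'⁻¹) := by group
    rw [h3]
    exact A.mul_mem ha' (hA _ (hBQ hb') _ (A.inv_mem ha'))
  · exact B.mul_mem (hB _ (hAQ ha') _ hb') (B.inv_mem hb')

private theorem DI_prime_fin {N N₀ Q M : Subgroup K} (hM : MaxN N N₀ M) (hQM : Q ⊔ M = N)
    (hc : ∃ a ∈ N, ∃ b ∈ N, a * b * a⁻¹ * b⁻¹ ∉ M) (S : Finset (Subgroup K)) :
    (∀ M' ∈ S, NormIn N M') → Q ⊓ S.inf id ≤ M → ∃ M' ∈ S, Q ⊓ M' ≤ M := by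
  classical
  have hQN : Q ≤ N := hQM ▸ le_sup_left
  induction S using Finset.induction_on with
  | empty =>
    intro _ h
    exfalso
    rw [Finset.inf_empty, inf_top_eq] at h
    rw [sup_eq_right.2 h] at hQM
    exact hM.2.2.1 hQM
  | insert M₁ S hMS ih =>
    intro hS h
    rw [Finset.inf_insert] at h
    have h1 : NormIn Q (Q ⊓ M₁) := fun x hx t ht =>
      ⟨Q.mul_mem (Q.mul_mem hx ht.1) (Q.inv_mem hx),
        hS M₁ (Finset.mem_insert_self _ _) x (hQN hx) t ht.2⟩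
    have h2 : NormIn Q (Q ⊓ S.inf id) := by
      intro x hx t ht
      refine ⟨Q.mul_mem (Q.mul_mem hx ht.1) (Q.inv_mem hx), ?_⟩
      have h3 := ht.2
      rw [Finset.inf_id_eq_sInf] at h3 ⊢
      change t ∈ sInf (S : Set (Subgroup K)) at h3
      change x * t * x⁻¹ ∈ sInf (S : Set (Subgroup K))
      rw [Subgroup.mem_sInf] at h3 ⊢
      intro M' hM'
      exact hS M' (Finset.mem_insert_of_mem hM') x (hQN hx) t (h3 M' hM')
    rcases DI_prime hM hQM hc h1 inf_le_left h2 inf_le_left (by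
      refine le_trans ?_ h
      exact le_inf (inf_le_left.trans inf_le_left)
        (le_inf (inf_le_left.trans inf_le_right) (inf_le_right.trans inf_le_right))) with h3 | h3
    · exact ⟨M₁, Finset.mem_insert_self _ _, h3⟩
    · obtain ⟨M', hM', h4⟩ := ih (fun M' hM' => hS M' (Finset.mem_insert_of_mem hM')) h3
      exact ⟨M', Finset.mem_insert_of_mem hM', h4⟩

theorem dichotomy {N N₀ : Subgroup K} (hN : NAb N N₀) (Q : Subgroup K) (hNQ : N₀ ≤ Q)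
    (hQN : Q ≤ N) (hQ : Q ≠ N) :
    (∃ M, MaxN N N₀ M ∧ Q ⊔ M ≠ N) ∨
    ((∀ M, MaxN N N₀ M → Q ⊔ M = N) ∧
      ∃ M M', MaxN N N₀ M ∧ MaxN N N₀ M' ∧ M' ≠ M ∧ Q ⊓ M = Q ⊓ M') := by
  classical
  by_contra hcon
  rw [not_or] at hcon
  obtain ⟨hc1, hc2⟩ := hcon
  push Not at hc1
  have hc3 : ∀ M M', MaxN N N₀ M → MaxN N N₀ M' → M' ≠ M → Q ⊓ M ≠ Q ⊓ M' := by
    intro M M' hM hM' hne h
    exact hc2 ⟨hc1, M, M', hM, hM', hne, h⟩
  obtain ⟨s1, s2, _, _, s5, s6, s7⟩ := maxN_structure hN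
  have hfin := hN.finK
  -- the traces of the other subgroups
  have key : ∀ M, MaxN N N₀ M → ¬ (Q ⊓ coM N N₀ M ≤ M) := by
    intro M hM hle
    let S : Finset (Subgroup K) := (Set.toFinite {M' | MaxN N N₀ M' ∧ M' ≠ M}).toFinset
    have hS : ∀ M' ∈ S, MaxN N N₀ M' ∧ M' ≠ M := fun M' hM' => by
      simpa [S] using hM'
    have hSinf : S.inf id = sInf {M' | MaxN N N₀ M' ∧ M' ≠ M} := by
      rw [Finset.inf_id_eq_sInf]
      congr 1
      simp [S]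
    obtain ⟨M', hM', h1⟩ := DI_prime_fin hM (hc1 M hM) (s6 M hM) S
      (fun M' hM' => (hS M' hM').1.2.2.2.1) (by
        refine le_trans ?_ hle
        refine le_inf inf_le_left ?_
        rw [coM, hSinf]
        exact le_inf (inf_le_left.trans hQN) inf_le_right)
    obtain ⟨hM'1, hM'2⟩ := hS M' hM'
    refine hc3 M M' hM hM'1 hM'2 (le_antisymm ?_ ?_)
    · refine le_inf inf_le_left ?_
      by_contra h2
      have h3 : NormIn Q (Q ⊓ M) := fun x hx t ht =>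
        ⟨Q.mul_mem (Q.mul_mem hx ht.1) (Q.inv_mem hx), hM.2.2.2.1 x (hQN hx) t ht.2⟩
      have h4 := DI_sup_eq hM'1 (hc1 M' hM'1) h3 inf_le_left h2
      have h5 : Q ≤ M := by
        intro q hq
        have h6 : q ∈ (Q ⊓ M) ⊔ M' := by
          rw [h4]
          exact hQN hq
        obtain ⟨a, ha, m, hm, rfl⟩ := DI_mem_sup
          (fun a (ha : a ∈ Q ⊓ M) m hm => hM'1.2.2.2.1 a (hQN ha.1) m hm) h6
        have h7 : m ∈ Q := by
          have := Q.mul_mem (Q.inv_mem ha.1) hq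
          rwa [inv_mul_cancel_left] at this
        exact M.mul_mem ha.2 (h1 ⟨h7, hm⟩)
      have h6 := hc1 M hM
      rw [sup_eq_right.2 h5] at h6
      exact hM.2.2.1 h6
    · exact le_inf inf_le_left h1
  have hco : ∀ M, MaxN N N₀ M → coM N N₀ M ≤ Q := by
    intro M hM t ht
    obtain ⟨h1, h2, h3, h4⟩ := s5 M hM
    have hcoN : coM N N₀ M ≤ N := inf_le_left
    have h5 : NormIn Q (Q ⊓ coM N N₀ M) := fun x hx t ht =>
      ⟨Q.mul_mem (Q.mul_mem hx ht.1) (Q.inv_mem hx), h3 x (hQN hx) t ht.2⟩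
    have h6 := DI_sup_eq hM (hc1 M hM) h5 inf_le_left (key M hM)
    have h7 : t ∈ (Q ⊓ coM N N₀ M) ⊔ M := by
      rw [h6]
      exact hcoN ht
    obtain ⟨a, ha, m, hm, rfl⟩ := DI_mem_sup
      (fun a (ha : a ∈ Q ⊓ coM N N₀ M) m hm => hM.2.2.2.1 a (hQN ha.1) m hm) h7
    have h8 : m ∈ coM N N₀ M := by
      have := (coM N N₀ M).mul_mem ((coM N N₀ M).inv_mem ha.2) ht
      rwa [inv_mul_cancel_left] at this
    have h9 : m ∈ N₀ := by
      rw [← h1]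
      exact ⟨h8, hm⟩
    exact Q.mul_mem ha.1 (hNQ h9)
  -- the join
  let J : Subgroup K := sSup {C | ∃ M, MaxN N N₀ M ∧ coM N N₀ M = C}
  have hJQ : J ≤ Q := by
    refine sSup_le ?_
    rintro _ ⟨M, hM, rfl⟩
    exact hco M hM
  have hJn : J.Normal := by
    constructor
    intro n hn g
    have h1 : cj g J ≤ J := by
      rw [Subgroup.map_le_iff_le_comap]
      refine sSup_le ?_
      rintro _ ⟨M, hM, rfl⟩
      rw [← Subgroup.map_le_iff_le_comap]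
      have h2 := s7 M hM g
      change cj g (coM N N₀ M) ≤ J
      rw [← h2]
      exact le_sSup ⟨cj g M, s2 M hM g, rfl⟩
    exact h1 ⟨n, hn, rfl⟩
  rcases hN.min J hJn (hJQ.trans hQN) with h | h
  · exact hQ (le_antisymm hQN (h ▸ hJQ))
  · obtain ⟨M, hM⟩ := s1
    obtain ⟨_, h2, _, _⟩ := s5 M hM
    have h3 : coM N N₀ M ≤ M := (le_sSup ⟨M, hM, rfl⟩ : coM N N₀ M ≤ J).trans (h.trans hM.1)
    rw [sup_eq_right.2 h3] at h2
    exact hM.2.2.1 h2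

end H49KC
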