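import Pool.Agent.H49.KC.Defs

namespace H49KC

open H49KA H49KB

universe u v w

variable {K : Type u} [Group K]

private lemma mm_cj_mul (g h : K) (M : Subgroup K) : cj (g * h) M = cj g (cj h M) := by
  ext x
  simp only [cj, Subgroup.mem_map]
  constructor
  · rintro ⟨m, hm, rfl⟩
    refine ⟨h * m * h⁻¹, ⟨m, hm, by simp⟩, by simp [mul_assoc]⟩
  · rintro ⟨y, ⟨m, hm, rfl⟩, rfl⟩
    exact ⟨m, hm, by simp [mul_assoc]⟩

private lemma mm_cj_one (M : Subgroup K) : cj 1 M = M := by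
  ext x
  simp [cj]

/-- the permutation of an invariant set -/
private def mmPerm {X : Subgroup K} (I : Finset (Subgroup K))
    (hinv : ∀ x ∈ X, ∀ M ∈ I, cj x M ∈ I) : X →* Equiv.Perm {M // M ∈ I} where
  toFun x :=
    { toFun := fun M => ⟨cj (x : K) M.1, hinv x x.2 M.1 M.2⟩
      invFun := fun M => ⟨cj ((x⁻¹ : X) : K) M.1, hinv _ (x⁻¹).2 M.1 M.2⟩
      left_inv := fun M => by
        apply Subtype.ext
        show cj ((x⁻¹ : X) : K) (cj (x : K) M.1) = M.1
        rw [← mm_cj_mul]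
        simp [mm_cj_one]
      right_inv := fun M => by
        apply Subtype.ext
        show cj (x : K) (cj ((x⁻¹ : X) : K) M.1) = M.1
        rw [← mm_cj_mul]
        simp [mm_cj_one] }
  map_one' := by
    ext1 M
    apply Subtype.ext
    exact mm_cj_one M.1
  map_mul' x y := by
    ext1 M
    apply Subtype.ext
    exact mm_cj_mul (x : K) (y : K) M.1

/-- permutation matrices -/
private def mmLin (n : ℕ) : Equiv.Perm (Fin n) →* ((Fin n → ℚ) ≃ₗ[ℚ] (Fin n → ℚ)) where
  toFun σ := LinearEquiv.funCongrLeft ℚ ℚ σ⁻¹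
  map_one' := by
    ext v j
    rfl
  map_mul' σ τ := by
    apply LinearEquiv.ext
    intro v
    funext j
    simp [LinearEquiv.mul_apply, LinearEquiv.funCongrLeft_apply, LinearMap.funLeft_apply]

private lemma mmLin_apply {n : ℕ} (σ : Equiv.Perm (Fin n)) (v : Fin n → ℚ) (j : Fin n) :
    mmLin n σ v j = v (σ⁻¹ j) := rfl

private lemma mm_notScal {n : ℕ} (σ : Equiv.Perm (Fin n)) (hσ : σ ≠ 1) :
    mmLin n σ ∉ Scal ℚ (Fin n → ℚ) := by
  rintro ⟨c, hc⟩
  have h1 : ∃ j, σ j ≠ j := by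
    by_contra h
    push Not at h
    exact hσ (Equiv.ext h)
  obtain ⟨j, hj⟩ := h1
  have h2 := congrFun (hc (Pi.single j 1)) (σ j)
  rw [mmLin_apply] at h2
  simp [hj] at h2

private lemma mm_small {n c : ℕ} (σ : Equiv.Perm (Fin n)) (J : Finset (Fin n)) (hJ : J.card ≤ c)
    (hσ : ∀ j, j ∉ J → σ⁻¹ j = j) : SmallRank c (mmLin n σ) (1 : ℚ) := by
  classical
  let ι : J → Fin c := fun j => Fin.castLE hJ (J.equivFin j)
  have hι : Function.Injective ι := fun a b h =>
    J.equivFin.injective (Fin.castLE_injective hJ h)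
  refine ⟨fun i => if h : ∃ j : J, ι j = i then Pi.single (h.choose : Fin n) 1 else 0, ?_⟩
  intro v
  refine ⟨fun i => if h : ∃ j : J, ι j = i then (mmLin n σ v - v) (h.choose : Fin n) else 0, ?_⟩
  rw [one_smul]
  have h0 : ∀ i : Fin c, (¬ ∃ j : J, ι j = i) →
      (if h : ∃ j : J, ι j = i then (mmLin n σ v - v) (h.choose : Fin n) else 0) •
      (if h : ∃ j : J, ι j = i then (Pi.single (h.choose : Fin n) 1 : Fin n → ℚ) else 0) = 0 := by
    intro i hi
    rw [dif_neg hi, zero_smul]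
  have h1 : ∀ j : J,
      (if h : ∃ j' : J, ι j' = ι j then (mmLin n σ v - v) (h.choose : Fin n) else 0) •
      (if h : ∃ j' : J, ι j' = ι j then (Pi.single (h.choose : Fin n) 1 : Fin n → ℚ) else 0) =
      (mmLin n σ v - v) (j : Fin n) • (Pi.single (j : Fin n) 1 : Fin n → ℚ) := by
    intro j
    have hex : ∃ j' : J, ι j' = ι j := ⟨j, rfl⟩
    rw [dif_pos hex, dif_pos hex]
    have h2 : hex.choose = j := hι hex.choose_spec
    rw [h2]
  have h3 : ∑ i : Fin c,
      (if h : ∃ j : J, ι j = i then (mmLin n σ v - v) (h.choose : Fin n) else 0) •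
      (if h : ∃ j : J, ι j = i then (Pi.single (h.choose : Fin n) 1 : Fin n → ℚ) else 0) =
      ∑ j : J, (mmLin n σ v - v) (j : Fin n) • (Pi.single (j : Fin n) 1 : Fin n → ℚ) := by
    rw [← Finset.sum_subset (Finset.subset_univ (Finset.univ.image ι)), Finset.sum_image]
    · exact Finset.sum_congr rfl fun j _ => h1 j
    · intro a _ b _ h
      exact hι h
    · intro i _ hi
      refine h0 i ?_
      rintro ⟨j, hj⟩
      exact hi (Finset.mem_image.2 ⟨j, Finset.mem_univ _, hj⟩)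
  refine Eq.trans ?_ h3.symm
  rw [Finset.sum_coe_sort J (fun j => (mmLin n σ v - v) j • (Pi.single j 1 : Fin n → ℚ))]
  funext l
  rw [Finset.sum_apply]
  simp only [Pi.smul_apply, smul_eq_mul]
  by_cases hl : l ∈ J
  · rw [Finset.sum_eq_single l]
    · simp
    · intro b _ hb
      simp [Ne.symm hb]
    · intro h
      exact absurd hl h
  · rw [Finset.sum_eq_zero]
    · show mmLin n σ v l - v l = 0
      rw [mmLin_apply, hσ l hl, sub_self]
    · intro b hb
      have : b ≠ l := fun h => hl (h ▸ hb)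
      simp [Ne.symm this]

open Classical in
/-- an element acting nontrivially on an invariant set moves many points -/
theorem moves_many {s b c : ℕ} {f : Fin s → K} {Y X U : Subgroup K}
    (hd : CData s b c f Y X U) (I : Finset (Subgroup K)) (hinv : ∀ x ∈ X, ∀ M ∈ I, cj x M ∈ I)
    (hY : ∃ y ∈ Y, ∃ M ∈ I, cj y M ≠ M) (i : Fin s) :
    c < (I.filter (fun M => cj (f i) M ≠ M)).card := by
  -- the kernel
  let N : Subgroup K :=
    { carrier := {x | x ∈ X ∧ ∀ M ∈ I, cj x M = M}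
      mul_mem' := by
        rintro a b ⟨ha, ha'⟩ ⟨hb, hb'⟩
        exact ⟨X.mul_mem ha hb, fun M hM => by rw [mm_cj_mul, hb' M hM, ha' M hM]⟩
      one_mem' := ⟨X.one_mem, fun M _ => mm_cj_one M⟩
      inv_mem' := by
        rintro a ⟨ha, ha'⟩
        refine ⟨X.inv_mem ha, fun M hM => ?_⟩
        have h1 : cj (a⁻¹ * a) M = cj a⁻¹ M := by rw [mm_cj_mul, ha' M hM]
        rw [← h1, inv_mul_cancel, mm_cj_one] }
  have hN : NormIn X N := by
    rintro x hx t ⟨ht, ht'⟩
    refine ⟨X.mul_mem (X.mul_mem hx ht) (X.inv_mem hx), fun M hM => ?_⟩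
    rw [mm_cj_mul, mm_cj_mul, ht' _ (hinv _ (X.inv_mem hx) M hM), ← mm_cj_mul, mul_inv_cancel,
      mm_cj_one]
  have hfX : f i ∈ X := hd.hYX (hd.hfY i)
  have hfN : f i ∉ N := by
    intro h
    obtain ⟨y, hy, M, hM, hne⟩ := hY
    exact hne ((hd.tY N hN ⟨f i, hd.hfY i, hd.hf1 i, h⟩ hy).2 M hM)
  -- the permutation
  let e : {M // M ∈ I} ≃ Fin I.card := I.equivFin
  let θ : X →* Equiv.Perm (Fin I.card) := e.permCongrHom.toMonoidHom.comp (mmPerm I hinv)
  let x : X := ⟨f i, hfX⟩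
  have hθ : ∀ (z : X) (j : Fin I.card), θ z j = e (mmPerm I hinv z (e.symm j)) := fun z j => rfl
  have hθ1 : θ x ≠ 1 := by
    intro h
    refine hfN ⟨hfX, fun M hM => ?_⟩
    have h1 : θ x (e ⟨M, hM⟩) = e ⟨M, hM⟩ := by rw [h]; rfl
    rw [hθ, Equiv.symm_apply_apply] at h1
    exact congrArg Subtype.val (e.injective h1)
  let p : X →* PGrp ℚ (Fin I.card → ℚ) :=
    (QuotientGroup.mk' (Scal ℚ (Fin I.card → ℚ))).comp ((mmLin I.card).comp θ)
  have hp : p x ≠ 1 := by
    intro h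
    exact mm_notScal (θ x) hθ1 ((QuotientGroup.eq_one_iff _).1 h)
  by_contra hcon
  push Not at hcon
  refine hd.rk ℚ (Fin I.card → ℚ) p x i rfl hp (mmLin I.card (θ x)) 1 rfl ?_
  let J : Finset (Fin I.card) := Finset.univ.filter (fun j => θ x j ≠ j)
  refine mm_small (θ x) J ?_ ?_
  · refine le_trans ?_ hcon
    refine Finset.card_le_card_of_injOn (fun j => (e.symm j).1) ?_ ?_
    · intro j hj
      have hj' : θ x j ≠ j := (Finset.mem_filter.1 hj).2
      refine Finset.mem_coe.2 (Finset.mem_filter.2 ⟨(e.symm j).2, ?_⟩)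
      intro h
      apply hj'
      rw [hθ]
      have h2 : mmPerm I hinv x (e.symm j) = e.symm j := Subtype.ext h
      rw [h2, Equiv.apply_symm_apply]
    · intro a _ b _ h
      exact e.symm.injective (Subtype.ext h)
  · intro j hj
    have hj' : θ x j = j := by
      by_contra h
      exact hj (Finset.mem_filter.2 ⟨Finset.mem_univ _, h⟩)
    rw [Equiv.Perm.inv_eq_iff_eq]
    exact hj'.symm

end H49KC
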