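import Pool.Agent.H49.KC.Defs
import Pool.Agent.H49.KC.MS

namespace H49KC

open H49KA H49KB

universe u v w

variable {K : Type u} [Group K]

private theorem core_index {P : Type u} [Group P] [Finite P] (C : Subgroup P) :
    C.normalCore.index ≤ C.index.factorial := by
  rw [Subgroup.normalCore_eq_ker, Subgroup.index_ker]
  have h1 : Nat.card (Equiv.Perm (P ⧸ C)) = C.index.factorial := by
    rw [Nat.card_perm]
    rfl
  rw [← h1]
  exact Nat.card_le_card_of_injective _ Subtype.val_injective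

theorem idx_bound {N N₀ M : Subgroup K} (hN : NAb N N₀) (hM : MaxN N N₀ M)
    (C : Subgroup K) (hC1 : N₀ ≤ C) (hC2 : C ≤ coM N N₀ M) (hC3 : C ≠ coM N N₀ M) (m : ℕ)
    (hm : C.relIndex (coM N N₀ M) ≤ m) : M.relIndex N ≤ m.factorial := by
  classical
  haveI := hN.finK
  obtain ⟨-, -, -, -, h5, -, -⟩ := maxN_structure hN
  obtain ⟨hPM, hPN, hPn, -⟩ := h5 M hM
  obtain ⟨hN₀M, hMN, hMne, hMn, hMmax⟩ := hM
  set P := coM N N₀ M with hP
  have hPleN : P ≤ N := hPN ▸ le_sup_left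
  have hN₀n := hN.nN₀
  -- the index of `M` in `N`
  have e1 : M.relIndex N = N₀.relIndex P := by
    haveI : (M.subgroupOf N).Normal := by
      refine ⟨fun x hx g => ?_⟩
      rw [Subgroup.mem_subgroupOf] at hx ⊢
      exact hMn g g.2 x hx
    have h1 : P.subgroupOf N ⊔ M.subgroupOf N = ⊤ := by
      rw [← Subgroup.subgroupOf_sup hPleN hMN, hPN, Subgroup.subgroupOf_self]
    calc M.relIndex N = (M.subgroupOf N).index := rfl
      _ = (M.subgroupOf N).relIndex ⊤ := by rw [Subgroup.relIndex_top_right]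
      _ = (M.subgroupOf N).relIndex (P.subgroupOf N ⊔ M.subgroupOf N) := by rw [h1]
      _ = (M.subgroupOf N).relIndex (P.subgroupOf N) := Subgroup.relIndex_sup_right _ _
      _ = M.relIndex P := Subgroup.relIndex_subgroupOf hPleN
      _ = (M ⊓ P).relIndex P := (Subgroup.inf_relIndex_right _ _).symm
      _ = N₀.relIndex P := by rw [inf_comm, hPM]
  -- the core of `C` in `P`
  set D : Subgroup K := (C.subgroupOf P).normalCore.map P.subtype with hD
  have hDP : D ≤ P := by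
    rintro _ ⟨x, -, rfl⟩
    exact x.2
  have hDC : D ≤ C := by
    rintro _ ⟨x, hx, rfl⟩
    exact Subgroup.mem_subgroupOf.1 (Subgroup.normalCore_le _ hx)
  have hDnP : ∀ p ∈ P, ∀ d ∈ D, p * d * p⁻¹ ∈ D := by
    rintro p hp _ ⟨x, hx, rfl⟩
    exact ⟨⟨p, hp⟩ * x * ⟨p, hp⟩⁻¹,
      (Subgroup.normalCore_normal (C.subgroupOf P)).conj_mem x hx ⟨p, hp⟩, rfl⟩
  have hN₀P : N₀ ≤ P := hC1.trans hC2
  have hN₀D : N₀ ≤ D := by
    haveI : (N₀.subgroupOf P).Normal := by
      refine ⟨fun x hx g => ?_⟩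
      rw [Subgroup.mem_subgroupOf] at hx ⊢
      exact hN₀n.conj_mem x hx g
    have h1 : N₀.subgroupOf P ≤ (C.subgroupOf P).normalCore :=
      Subgroup.normal_le_normalCore.2 fun x hx =>
        Subgroup.mem_subgroupOf.2 (hC1 (Subgroup.mem_subgroupOf.1 hx))
    intro x hx
    exact ⟨⟨x, hN₀P hx⟩, h1 (Subgroup.mem_subgroupOf.2 hx), rfl⟩
  have hcomm : ∀ y ∈ M, ∀ p ∈ P, y * p * y⁻¹ * p⁻¹ ∈ N₀ := by
    intro y hy p hp
    rw [← hPM]
    refine ⟨P.mul_mem (hPn y (hMN hy) p hp) (P.inv_mem hp), ?_⟩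
    have h1 : y * p * y⁻¹ * p⁻¹ = y * (p * y⁻¹ * p⁻¹) := by group
    rw [h1]
    exact M.mul_mem hy (hMn p (hPleN hp) _ (M.inv_mem hy))
  have hDnM : ∀ y ∈ M, ∀ d ∈ D, y * d * y⁻¹ ∈ D := by
    intro y hy d hd
    have h1 : y * d * y⁻¹ = (y * d * y⁻¹ * d⁻¹) * d := by group
    rw [h1]
    exact D.mul_mem (hN₀D (hcomm y hy d (hDP hd))) hd
  -- the product `D M`
  let E : Subgroup K :=
    { carrier := {x | ∃ d ∈ D, ∃ y ∈ M, x = d * y}
      mul_mem' := by
        rintro _ _ ⟨d, hd, y, hy, rfl⟩ ⟨d', hd', y', hy', rfl⟩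
        exact ⟨d * (y * d' * y⁻¹), D.mul_mem hd (hDnM y hy d' hd'), y * y', M.mul_mem hy hy',
          by group⟩
      one_mem' := ⟨1, D.one_mem, 1, M.one_mem, by simp⟩
      inv_mem' := by
        rintro _ ⟨d, hd, y, hy, rfl⟩
        exact ⟨y⁻¹ * d⁻¹ * y⁻¹⁻¹, hDnM _ (M.inv_mem hy) _ (D.inv_mem hd), y⁻¹, M.inv_mem hy,
          by group⟩ }
  have hDM : D ≤ M := by
    by_contra hcon
    have hEN : E ≤ N := by
      rintro _ ⟨d, hd, y, hy, rfl⟩
      exact N.mul_mem (hPleN (hDP hd)) (hMN hy)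
    have hME : M ≤ E := fun y hy => ⟨1, D.one_mem, y, hy, by simp⟩
    have hDE : D ≤ E := fun d hd => ⟨d, hd, 1, M.one_mem, by simp⟩
    have hEn : NormIn N E := by
      have key : ∀ x ∈ N, ∀ d ∈ D, x * d * x⁻¹ ∈ D := by
        let Q : Subgroup K :=
          { carrier := {x | (∀ d ∈ D, x * d * x⁻¹ ∈ D) ∧ ∀ d ∈ D, x⁻¹ * d * x ∈ D}
            mul_mem' := by
              rintro x y ⟨hx, hx'⟩ ⟨hy, hy'⟩
              refine ⟨fun d hd => ?_, fun d hd => ?_⟩
              · have h1 : x * y * d * (x * y)⁻¹ = x * (y * d * y⁻¹) * x⁻¹ := by group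
                rw [h1]
                exact hx _ (hy d hd)
              · have h1 : (x * y)⁻¹ * d * (x * y) = y⁻¹ * (x⁻¹ * d * x) * y := by group
                rw [h1]
                exact hy' _ (hx' d hd)
            one_mem' := ⟨fun d hd => by simpa using hd, fun d hd => by simpa using hd⟩
            inv_mem' := by
              rintro x ⟨hx, hx'⟩
              exact ⟨fun d hd => by simpa using hx' d hd, fun d hd => by simpa using hx d hd⟩ }
        have hPQ : P ≤ Q := fun p hp => ⟨hDnP p hp, fun d hd => by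
          simpa using hDnP p⁻¹ (P.inv_mem hp) d hd⟩
        have hMQ : M ≤ Q := fun p hp => ⟨hDnM p hp, fun d hd => by
          simpa using hDnM p⁻¹ (M.inv_mem hp) d hd⟩
        intro x hx d hd
        have h1 : N ≤ Q := hPN ▸ sup_le hPQ hMQ
        exact (h1 hx).1 d hd
      rintro x hx _ ⟨d, hd, y, hy, rfl⟩
      exact ⟨x * d * x⁻¹, key x hx d hd, x * y * x⁻¹, hMn x hx y hy, by group⟩
    rcases hMmax E hME hEN hEn with h | h
    · exact hcon (h ▸ hDE)
    · apply hC3
      refine le_antisymm hC2 ?_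
      intro p hp
      have h1 : p ∈ E := by
        rw [h]
        exact hPleN hp
      obtain ⟨d, hd, y, hy, rfl⟩ := h1
      have h2 : y ∈ N₀ := by
        rw [← hPM]
        refine ⟨?_, hy⟩
        have h3 := P.mul_mem (P.inv_mem (hDP hd)) hp
        rwa [inv_mul_cancel_left] at h3
      exact C.mul_mem (hDC hd) (hC1 h2)
  have hDN₀ : D ≤ N₀ := by
    rw [← hPM]
    exact le_inf hDP hDM
  have hcore : (C.subgroupOf P).normalCore ≤ N₀.subgroupOf P := by
    intro x hx
    rw [Subgroup.mem_subgroupOf]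
    exact hDN₀ ⟨x, hx, rfl⟩
  rw [e1]
  calc N₀.relIndex P = (N₀.subgroupOf P).index := rfl
    _ ≤ (C.subgroupOf P).normalCore.index := Subgroup.index_antitone hcore
    _ ≤ (C.subgroupOf P).index.factorial := core_index _
    _ ≤ m.factorial := Nat.factorial_le hm

end H49KC
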