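import Pool.Agent.H49.KC.Defs
import Pool.Agent.H49.KC.GR
import Pool.Agent.H49.KC.PI
import Pool.Agent.H49.KC.MS
import Pool.Agent.H49.KC.DI
import Pool.Agent.H49.KC.S3
import Pool.Agent.H49.KC.B3
import Pool.Agent.H49.KC.I3

namespace H49KC

open H49KA H49KB

universe u v w

variable {K : Type u} [Group K]

private theorem c3_mem_cj {g x : K} {M : Subgroup K} : x ∈ cj g M ↔ g⁻¹ * x * g ∈ M := by
  constructor
  · rintro ⟨y, hy, rfl⟩
    have h : g⁻¹ * (g * y * g⁻¹) * g = y := by group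
    change g⁻¹ * (g * y * g⁻¹) * g ∈ M
    rw [h]
    exact hy
  · intro h
    refine ⟨g⁻¹ * x * g, h, ?_⟩
    change g * (g⁻¹ * x * g) * g⁻¹ = x
    group

private theorem c3_cj_normal {g : K} {N : Subgroup K} (hN : N.Normal) : cj g N = N := by
  ext x
  rw [c3_mem_cj]
  constructor
  · intro h
    have h2 := hN.conj_mem _ h g
    have h3 : g * (g⁻¹ * x * g) * g⁻¹ = x := by group
    rwa [h3] at h2
  · intro h
    have h2 := hN.conj_mem _ h g⁻¹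
    rwa [inv_inv] at h2

private theorem c3_cj_inf (g : K) (A B : Subgroup K) : cj g (A ⊓ B) = cj g A ⊓ cj g B := by
  ext x
  simp only [c3_mem_cj, Subgroup.mem_inf]

private theorem c3_cj_sup (g : K) (A B : Subgroup K) : cj g (A ⊔ B) = cj g A ⊔ cj g B :=
  Subgroup.map_sup _ _ _

private theorem c3_cj_inj {g : K} {A B : Subgroup K} (h : cj g A = cj g B) : A = B := by
  ext x
  have h1 : g * x * g⁻¹ ∈ cj g A ↔ g * x * g⁻¹ ∈ cj g B := by rw [h]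
  rw [c3_mem_cj, c3_mem_cj] at h1
  have h2 : g⁻¹ * (g * x * g⁻¹) * g = x := by group
  rwa [h2] at h1

/-- conjugation by an element which fixes `M` -/
private theorem c3_fix {x : K} {M : Subgroup K} (h : cj x M = M) (m : K) :
    m ∈ M ↔ x * m * x⁻¹ ∈ M := by
  constructor
  · intro hm
    rw [← h, c3_mem_cj]
    have h2 : x⁻¹ * (x * m * x⁻¹) * x = m := by group
    rwa [h2]
  · intro hm
    rw [← h, c3_mem_cj] at hm
    have h2 : x⁻¹ * (x * m * x⁻¹) * x = m := by group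
    rwa [h2] at hm

/-- the centraliser of `f` modulo `N₀` in `D` -/
private def c3C (N₀ D : Subgroup K) (hN₀ : NormIn D N₀) (f : K) : Subgroup K where
  carrier := {t | t ∈ D ∧ f * t * f⁻¹ * t⁻¹ ∈ N₀}
  mul_mem' := by
    rintro x y ⟨hx1, hx2⟩ ⟨hy1, hy2⟩
    refine ⟨D.mul_mem hx1 hy1, ?_⟩
    have h1 : f * (x * y) * f⁻¹ * (x * y)⁻¹ =
        (f * x * f⁻¹ * x⁻¹) * (x * (f * y * f⁻¹ * y⁻¹) * x⁻¹) := by group
    rw [h1]
    exact N₀.mul_mem hx2 (hN₀ x hx1 _ hy2)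
  one_mem' := ⟨D.one_mem, by simp [N₀.one_mem]⟩
  inv_mem' := by
    rintro x ⟨hx1, hx2⟩
    refine ⟨D.inv_mem hx1, ?_⟩
    have h1 : f * x⁻¹ * f⁻¹ * x⁻¹⁻¹ = x⁻¹ * (f * x * f⁻¹ * x⁻¹)⁻¹ * x⁻¹⁻¹ := by group
    rw [h1]
    exact hN₀ _ (D.inv_mem hx1) _ (N₀.inv_mem hx2)

private theorem c3_memC {N₀ D : Subgroup K} {hN₀ : NormIn D N₀} {f t : K} :
    t ∈ c3C N₀ D hN₀ f ↔ t ∈ D ∧ f * t * f⁻¹ * t⁻¹ ∈ N₀ := Iff.rfl

/-- the maximal normal subgroup `Q ⊔ M` -/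
private theorem c3_alt {s b c : ℕ} {f : Fin s → K} {Y X U : Subgroup K}
    (hd : CData s b c f Y X U)
    {N N₀ : Subgroup K} (hN : Chf X U N N₀)
    (hfix : ∀ M, MaxN N N₀ M → ∀ x ∈ X, cj x M = M)
    (htop : ∀ C U' : Subgroup K, SimpleSec X C → ClassSec X C → (∀ i, f i ∉ C) → C ≤ U' →
      U' ≤ X → (∀ x ∈ X, ∃ i, x * f i * x⁻¹ ∈ U') → U' = X)
    {M : Subgroup K} (hM : MaxN N N₀ M) (hsimp : SimpleSec X (cMod X N M))
    (hcl : ClassSec X (cMod X N M)) (hfC : ∀ i, f i ∉ cMod X N M)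
    (hA : (U ⊓ N) ⊔ M ≠ N) : U ⊓ N ≤ M := by
  have hCX : cMod X N M ≤ X := fun x hx => hx.1
  have hU' := htop (cMod X N M) ((U ⊓ X) ⊔ cMod X N M) hsimp hcl hfC le_sup_right
    (sup_le inf_le_right hCX) (by
      intro x hx
      obtain ⟨i, hi⟩ := hd.conf x
      refine ⟨i, Subgroup.mem_sup_left ⟨hi, ?_⟩⟩
      exact X.mul_mem (X.mul_mem hx (hd.hYX (hd.hfY i))) (X.inv_mem hx))
  have hQMN : (U ⊓ N) ⊔ M ≤ N := sup_le inf_le_right hM.2.1
  -- the normaliser of `(U ⊓ N) ⊔ M` contains `X`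
  have hgen : ∀ x : K, (∀ q ∈ U ⊓ N, x * q * x⁻¹ ∈ (U ⊓ N) ⊔ M) →
      (∀ m ∈ M, x * m * x⁻¹ ∈ (U ⊓ N) ⊔ M) →
      ∀ q ∈ (U ⊓ N) ⊔ M, x * q * x⁻¹ ∈ (U ⊓ N) ⊔ M := by
    intro x h1 h2 q hq
    have h3 : (U ⊓ N) ⊔ M ≤ ((U ⊓ N) ⊔ M).comap (MulAut.conj x).toMonoidHom := by
      refine sup_le ?_ ?_
      · intro q hq
        exact h1 q hq
      · intro m hm
        exact h2 m hm
    exact h3 hq
  have hX : ∀ x ∈ X, ∀ q ∈ (U ⊓ N) ⊔ M, x * q * x⁻¹ ∈ (U ⊓ N) ⊔ M := by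
    intro x hx
    rw [← hU'] at hx
    -- the set of such `x` is closed under products and inverses
    let R : Subgroup K := Subgroup.closure {x | x ∈ X ∧ ∀ q ∈ (U ⊓ N) ⊔ M,
      x * q * x⁻¹ ∈ (U ⊓ N) ⊔ M}
    have hR : (U ⊓ X) ⊔ cMod X N M ≤ R := by
      refine sup_le ?_ ?_
      · rintro x ⟨hxU, hxX⟩
        refine Subgroup.subset_closure ⟨hxX, hgen x ?_ ?_⟩
        · rintro q ⟨hqU, hqN⟩
          exact Subgroup.mem_sup_left ⟨U.mul_mem (U.mul_mem hxU hqU) (U.inv_mem hxU),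
            hN.nN.conj_mem _ hqN x⟩
        · intro m hm
          exact Subgroup.mem_sup_right ((c3_fix (hfix M hM x hxX) m).1 hm)
      · intro x hx
        refine Subgroup.subset_closure ⟨hx.1, hgen x ?_ ?_⟩
        · rintro q ⟨hqU, hqN⟩
          have h4 := hx.2.2 q hqN
          have h5 : x * q * x⁻¹ = (x * q * x⁻¹ * q⁻¹) * q := by group
          rw [h5]
          exact ((U ⊓ N) ⊔ M).mul_mem (Subgroup.mem_sup_right h4) (Subgroup.mem_sup_left ⟨hqU, hqN⟩)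
        · intro m hm
          exact Subgroup.mem_sup_right ((hx.2.1 m).1 hm)
    have hxR := hR hx
    refine Subgroup.closure_induction (p := fun x _ => ∀ q ∈ (U ⊓ N) ⊔ M,
      x * q * x⁻¹ ∈ (U ⊓ N) ⊔ M) ?_ ?_ ?_ ?_ hxR
    · intro y hy
      exact hy.2
    · intro q hq
      simpa using hq
    · intro y z _ _ hy hz q hq
      have h6 : y * z * q * (y * z)⁻¹ = y * (z * q * z⁻¹) * y⁻¹ := by group
      rw [h6]
      exact hy _ (hz q hq)
    · intro y _ hy q hq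
      have hfin := hd.finK
      -- conjugation by `y` is an injective map of a finite set into itself
      let W : Subgroup K := (U ⊓ N) ⊔ M
      let φ : W → W := fun q => ⟨y * q * y⁻¹, hy q q.2⟩
      have hφ : Function.Injective φ := by
        intro q q' h
        have h7 : y * (q : K) * y⁻¹ = y * (q' : K) * y⁻¹ := congrArg Subtype.val h
        apply Subtype.ext
        simpa using h7
      obtain ⟨q', hq'⟩ := (Finite.injective_iff_surjective.1 hφ) ⟨q, hq⟩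
      have h8 : y * (q' : K) * y⁻¹ = q := congrArg Subtype.val hq'
      rw [← h8]
      have h9 : y⁻¹ * (y * (q' : K) * y⁻¹) * y⁻¹⁻¹ = q' := by group
      rw [h9]
      exact q'.2
  rcases hM.2.2.2.2 ((U ⊓ N) ⊔ M) le_sup_right hQMN
    (fun x hx q hq => hX x (hN.NX hx) q hq) with h | h
  · rw [← h]
    exact le_sup_left
  · exact absurd h hA

private theorem c3_fin {s b c : ℕ} {f : Fin s → K} {Y X U : Subgroup K}
    (hd : CData s b c f Y X U) (hb : ((s ^ 2).factorial) ^ ((s ^ 2).factorial) ≤ b)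
    {N N₀ : Subgroup K} (hN : Chf X U N N₀) (hperf : ⁅N, N⁆ = N)
    (hfix : ∀ M, MaxN N N₀ M → ∀ x ∈ X, cj x M = M)
    (htop : ∀ C U' : Subgroup K, SimpleSec X C → ClassSec X C → (∀ i, f i ∉ C) → C ≤ U' →
      U' ≤ X → (∀ x ∈ X, ∃ i, x * f i * x⁻¹ ∈ U') → U' = X)
    {M : Subgroup K} (hM : MaxN N N₀ M) (hYC : Y ⊓ cMod X N M = ⊥)
    (halt : (U ⊓ N) ⊔ M ≠ N ∨ ∃ M', MaxN N N₀ M' ∧ M' ≠ M ∧ U ⊓ N ⊓ M = U ⊓ N ⊓ M') :
    False := by
  have hfin := hd.finK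
  have hNA := nab_of_chf hd hN hperf
  obtain ⟨hAS, hCN, hXC⟩ := cMod_sec hNA hd.hXn hN.NX hM (hfix M hM)
  obtain ⟨hTX, hcl⟩ := hd.tops _ _ hAS hYC
  have hsimp : SimpleSec X (cMod X N M) := by
    have h := hAS.2.2.2.1
    rwa [hTX] at h
  have hfC : ∀ i, f i ∉ cMod X N M := by
    intro i hi
    have h : f i ∈ Y ⊓ cMod X N M := ⟨hd.hfY i, hi⟩
    rw [hYC, Subgroup.mem_bot] at h
    exact hd.hf1 i h
  obtain ⟨hco1, hco2, hco3, hco4⟩ := (maxN_structure hNA).2.2.2.2.1 M hM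
  have hcoj := (maxN_structure hNA).2.2.2.2.2.2 M hM
  have hcoN : coM N N₀ M ≤ N := inf_le_left
  have hcoU : ∀ t, t ∈ coM N N₀ M → t ∈ U → t ∈ N₀ := by
    intro t ht htU
    have htM : t ∈ M := by
      rcases halt with hA | ⟨M', hM', hne, heq⟩
      · exact c3_alt hd hN hfix htop hM hsimp hcl hfC hA ⟨htU, hcoN ht⟩
      · have h1 : t ∈ U ⊓ N ⊓ M' := ⟨⟨htU, hcoN ht⟩, hco4 M' hM' hne ht⟩
        rw [← heq] at h1
        exact h1.2
    rw [← hco1]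
    exact ⟨ht, htM⟩
  have hN₀co : N₀ ≤ coM N N₀ M := le_of_eq_of_le hco1.symm inf_le_left
  have hcoX : ∀ x ∈ X, ∀ t ∈ coM N N₀ M, x * t * x⁻¹ ∈ coM N N₀ M := by
    intro x hx t ht
    have h1 : cj x (coM N N₀ M) = coM N N₀ M := by
      rw [← hcoj x, hfix M hM x hx]
    exact (c3_fix h1 t).1 ht
  let C : Fin s → Subgroup K := fun i => c3C N₀ (coM N N₀ M)
    (fun x _ t ht => hN.nN₀.conj_mem t ht x) (f i)
  -- some `C i` has small index
  obtain ⟨i, hi⟩ : ∃ i, (C i).relIndex (coM N N₀ M) ≤ s ^ 2 := by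
    by_contra hcon
    push Not at hcon
    obtain ⟨h, hh⟩ := greedy s (fun i => (C i).subgroupOf (coM N N₀ M)) hcon
    obtain ⟨i, j, j', hjj, hU⟩ := pigeon s f U hd.conf (fun j => (h j : K))
    apply hh i j j' hjj
    rw [Subgroup.mem_subgroupOf]
    have hfX : f i ∈ X := hd.hYX (hd.hfY i)
    have ht : ((h j)⁻¹ * h j' : coM N N₀ M).1 = (h j : K)⁻¹ * (h j' : K) := rfl
    rw [ht]
    have h1 : (h j : K) * f i * (h j : K)⁻¹ * ((h j' : K) * f i * (h j' : K)⁻¹)⁻¹ =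
        (h j : K) * (f i * ((h j : K)⁻¹ * (h j' : K)) * (f i)⁻¹) * (h j' : K)⁻¹ := by group
    have h2 : (h j : K) * (f i * ((h j : K)⁻¹ * (h j' : K)) * (f i)⁻¹) * (h j' : K)⁻¹ ∈
        coM N N₀ M :=
      Subgroup.mul_mem _ (Subgroup.mul_mem _ (h j).2 (hcoX _ hfX _
        (Subgroup.mul_mem _ (Subgroup.inv_mem _ (h j).2) (h j').2)))
        (Subgroup.inv_mem _ (h j').2)
    rw [h1] at hU
    have h3 := hN.nN₀.conj_mem _ (hcoU _ h2 hU) (h j : K)⁻¹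
    refine c3_memC.2 ⟨Subgroup.mul_mem _ (Subgroup.inv_mem _ (h j).2) (h j').2, ?_⟩
    have h4 : (h j : K)⁻¹ * ((h j : K) * (f i * ((h j : K)⁻¹ * (h j' : K)) * (f i)⁻¹) *
        (h j' : K)⁻¹) * (h j : K)⁻¹⁻¹ =
        f i * ((h j : K)⁻¹ * (h j' : K)) * (f i)⁻¹ * ((h j : K)⁻¹ * (h j' : K))⁻¹ := by group
    rwa [h4] at h3
  have hfX : f i ∈ X := hd.hYX (hd.hfY i)
  have hC1 : N₀ ≤ C i := by
    intro t ht
    refine c3_memC.2 ⟨hN₀co ht, ?_⟩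
    exact N₀.mul_mem (hN.nN₀.conj_mem _ ht (f i)) (N₀.inv_mem ht)
  have hC2 : C i ≤ coM N N₀ M := fun t ht => (c3_memC.1 ht).1
  have hC3 : C i ≠ coM N N₀ M := by
    intro heq
    apply hfC i
    refine ⟨hfX, fun m => c3_fix (hfix M hM _ hfX) m, fun n hn => ?_⟩
    have h5 : N ≤ c3C M N hM.2.2.2.1 (f i) := by
      refine le_of_eq_of_le hco2.symm (sup_le ?_ ?_)
      · intro t ht
        have htC : t ∈ C i := by
          rw [heq]
          exact ht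
        exact c3_memC.2 ⟨hcoN ht, hM.1 (c3_memC.1 htC).2⟩
      · intro m hm
        exact c3_memC.2 ⟨hM.2.1 hm, M.mul_mem ((c3_fix (hfix M hM _ hfX) m).1 hm)
          (M.inv_mem hm)⟩
    exact (c3_memC.1 (h5 hn)).2
  have h6 := idx_bound hNA hM (C i) hC1 hC2 hC3 (s ^ 2) hi
  have h7 := cMod_card hNA hd.hXn hN.NX hM (hfix M hM) Y hd.hYX hYC _ h6
  exact absurd (lt_of_lt_of_le hd.big (h7.trans hb)) (lt_irrefl _)

theorem case3 {s b c : ℕ} {f : Fin s → K} {Y X U : Subgroup K}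
    (hd : CData s b c f Y X U) (hb : ((s ^ 2).factorial) ^ ((s ^ 2).factorial) ≤ b)
    {N N₀ : Subgroup K} (hN : Chf X U N N₀) (hperf : ⁅N, N⁆ = N)
    (hfix : ∀ M, MaxN N N₀ M → ∀ x ∈ X, cj x M = M)
    (htop : ∀ C U' : Subgroup K, SimpleSec X C → ClassSec X C → (∀ i, f i ∉ C) → C ≤ U' →
      U' ≤ X → (∀ x ∈ X, ∃ i, x * f i * x⁻¹ ∈ U') → U' = X) : False := by
  have hNA := nab_of_chf hd hN hperf
  obtain ⟨M₁, hM₁, hYC⟩ := exists_M hd hN hperf hfix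
  have hst := maxN_structure hNA
  rcases dichotomy hNA (U ⊓ N) (le_inf hN.N₀U hN.le) inf_le_right (fun h => hN.NU (by
    rw [← h]
    exact inf_le_left)) with ⟨M, hM, hne⟩ | ⟨_, M, M', hM, hM', hne, heq⟩
  · obtain ⟨g, hg⟩ := hst.2.2.1 M M₁ hM hM₁
    refine c3_fin (cdata_conj hd g) hb (chf_conj hd.hXn hN g) hperf hfix htop hM₁ hYC (Or.inl ?_)
    intro h
    apply hne
    apply c3_cj_inj (g := g)
    rw [c3_cj_sup, c3_cj_inf, c3_cj_normal hN.nN, ← hg]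
    exact h
  · obtain ⟨g, hg⟩ := hst.2.2.1 M M₁ hM hM₁
    refine c3_fin (cdata_conj hd g) hb (chf_conj hd.hXn hN g) hperf hfix htop hM₁ hYC
      (Or.inr ⟨cj g M', hst.2.1 M' hM' g, ?_, ?_⟩)
    · intro h
      apply hne
      apply c3_cj_inj (g := g)
      rw [← hg]
      exact h
    · have h1 : cj g (U ⊓ N ⊓ M) = cj g (U ⊓ N ⊓ M') := by rw [heq]
      rw [c3_cj_inf, c3_cj_inf, c3_cj_inf, c3_cj_inf, c3_cj_normal hN.nN, ← hg] at h1
      exact h1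

end H49KC
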