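import Pool.Agent.H49.KC.Defs
import Pool.Agent.H49.KC.AM

namespace H49KC

open H49KA H49KB

universe u v w

private theorem CG_pig {G : Type*} [Group G] {s : ℕ} (Γ 𝒰 : Subgroup G) (f : Fin s → G)
    (H : ∀ g ∈ Γ, ∃ i, g * f i * g⁻¹ ∈ 𝒰) (h : Fin (s + 1) → G) (hh : ∀ j, h j ∈ Γ)
    (h' : Fin s → Fin (s + 1) → G) (hf : ∀ i j, f i * h j * (f i)⁻¹ = h' i j)
    (hc : ∀ i j j', Commute (h j) (h' i j')) (hc' : ∀ i j j', Commute (h' i j) (h' i j'))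
    (g : G) (hg : g ∈ Γ) :
    ∃ (i : Fin s) (j j' : Fin (s + 1)), j ≠ j' ∧
      g * ((h j * (h j')⁻¹) * (h' i j * (h' i j')⁻¹)⁻¹) * g⁻¹ ∈ 𝒰 := by
  have h1 : ∀ j, ∃ i, (g * h j) * f i * (g * h j)⁻¹ ∈ 𝒰 := fun j => H _ (Γ.mul_mem hg (hh j))
  choose c hc1 using h1
  obtain ⟨j, j', hne, he⟩ := Fintype.exists_ne_map_eq_of_card_lt c (by simp)
  refine ⟨c j, j, j', hne, ?_⟩
  have h2 := hc1 j
  have h3 := hc1 j'
  rw [← he] at h3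
  have h4 := 𝒰.mul_mem h2 (𝒰.inv_mem h3)
  have h5 : (g * h j) * f (c j) * (g * h j)⁻¹ * ((g * h j') * f (c j) * (g * h j')⁻¹)⁻¹ =
      g * (h j * (f (c j) * h j * (f (c j))⁻¹)⁻¹ * (f (c j) * h j' * (f (c j))⁻¹) * (h j')⁻¹) *
        g⁻¹ := by group
  rw [h5, hf, hf] at h4
  have h6 : h j * (h' (c j) j)⁻¹ * h' (c j) j' * (h j')⁻¹ =
      (h j * (h j')⁻¹) * (h' (c j) j * (h' (c j) j')⁻¹)⁻¹ := by
    have e1 : Commute (h' (c j) j') (h j')⁻¹ := (hc (c j) j' j').symm.inv_right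
    have e2 : Commute (h' (c j) j)⁻¹ (h j')⁻¹ := (hc (c j) j' j).symm.inv_left.inv_right
    have e3 : Commute (h' (c j) j)⁻¹ (h' (c j) j') := (hc' (c j) j j').inv_left
    rw [mul_inv_rev, inv_inv, mul_assoc (h j * (h' (c j) j)⁻¹), e1.eq, mul_assoc (h j),
      ← mul_assoc (h' (c j) j)⁻¹, e2.eq, mul_assoc (h j')⁻¹, e3.eq]
    group
  rwa [h6] at h4

variable {k : Type} [Field k] [Finite k] {V : Type} [AddCommGroup V] [Module k V]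
  [FiniteDimensional k V]

theorem conf_of_geo (s : ℕ) (Γ : Subgroup (V ≃ₗ[k] V)) (f : Fin s → V ≃ₗ[k] V)
    (hf : ∀ i, f i ∈ Γ) (hgeo : Geo s (100 * (s + 1) ^ 6) Γ f) :
    ∃ x ∈ Γ, x ∉ Scal k V ∧ ∀ 𝒰 : Subgroup (V ≃ₗ[k] V),
      (∀ g ∈ Γ, ∃ i, g * f i * g⁻¹ ∈ 𝒰) → x ∈ 𝒰 := by
  obtain ⟨H, _, _, _, H', _, _, _, A, _, _, _, L, _, _, _, β, T, α, ℓ, hβ, hT, hcfg, hA, hL,
    hsc, hconj⟩ := hgeo
  obtain ⟨a, l, ha, hl, hmain⟩ := asl_main s β hβ T hT α ℓ hcfg hA hL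
  have hα : α 0 a ≠ 0 := fun h => ha (hcfg.injA a h)
  have hℓ : ℓ 0 l ≠ 0 := fun h => hl (hcfg.injL l h)
  refine ⟨T (α 0 a) (ℓ 0 l), (T (α 0 a) (ℓ 0 l)).2, hsc _ _ (hcfg.orth 0 0 a l) hα hℓ,
    fun 𝒰 h𝒰 => ?_⟩
  -- relations
  have hone : ∀ u, T u 0 = 1 := by
    intro u
    have h := hT.add_right u 0 0 (by rw [map_zero]) (by rw [map_zero])
    rw [add_zero] at h
    exact left_eq_mul.1 h
  have hone' : ∀ φ, T 0 φ = 1 := by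
    intro φ
    have h := hT.add_left 0 0 φ (by simp) (by simp)
    rw [add_zero] at h
    exact left_eq_mul.1 h
  have hsubR : ∀ u φ ψ, β u φ = 0 → β u ψ = 0 → T u (φ - ψ) = T u φ * (T u ψ)⁻¹ := by
    intro u φ ψ h1 h2
    have h := hT.add_right u (φ - ψ) ψ (by rw [map_sub, h1, h2, sub_zero]) h2
    rw [sub_add_cancel] at h
    rw [h, mul_inv_cancel_right]
  have hsubL : ∀ u v φ, β u φ = 0 → β v φ = 0 → T (u - v) φ = T u φ * (T v φ)⁻¹ := by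
    intro u v φ h1 h2
    have h := hT.add_left (u - v) v φ (by rw [map_sub, LinearMap.sub_apply, h1, h2, sub_zero]) h2
    rw [sub_add_cancel] at h
    rw [h, mul_inv_cancel_right]
  have hcomm : ∀ v ψ u φ, β v ψ = 0 → β u φ = 0 → β u ψ = 0 → β v φ = 0 →
      Commute (T v ψ) (T u φ) := by
    intro v ψ u φ h1 h2 h3 h4
    have h := hT.conj v ψ u φ h1 h2
    rw [h3, h4, zero_smul, zero_smul, add_zero, sub_zero, mul_inv_eq_iff_eq_mul] at h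
    exact h
  have hcommV : ∀ x y : Γ, Commute x y → Commute (x : V ≃ₗ[k] V) (y : V ≃ₗ[k] V) := by
    intro x y h
    exact congrArg Subtype.val h.eq
  have hO := hcfg.orth
  suffices hfin : T (α 0 a) (ℓ 0 l) ∈ 𝒰.subgroupOf Γ from hfin
  refine hmain (𝒰.subgroupOf Γ) ?_ ?_
  · intro g a l
    obtain ⟨i, j, j', hne, hmem⟩ := CG_pig Γ 𝒰 f h𝒰 (fun j => (T (α 0 a) (ℓ 0 (l j)) : V ≃ₗ[k] V))
      (fun j => (T (α 0 a) (ℓ 0 (l j))).2)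
      (fun i j => (T (α i.succ a) (ℓ i.succ (l j)) : V ≃ₗ[k] V))
      (fun i j => hconj i a (l j))
      (fun i j j' => hcommV _ _ (hcomm _ _ _ _ (hO _ _ _ _) (hO _ _ _ _) (hO _ _ _ _)
        (hO _ _ _ _)))
      (fun i j j' => hcommV _ _ (hcomm _ _ _ _ (hO _ _ _ _) (hO _ _ _ _) (hO _ _ _ _)
        (hO _ _ _ _))) g g.2
    refine ⟨i, j, j', hne, ?_⟩
    dsimp only
    rw [map_sub, map_sub, hsubR _ _ _ (hO _ _ _ _) (hO _ _ _ _),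
      hsubR _ _ _ (hO _ _ _ _) (hO _ _ _ _)]
    exact hmem
  · intro g l a
    obtain ⟨i, j, j', hne, hmem⟩ := CG_pig Γ 𝒰 f h𝒰 (fun j => (T (α 0 (a j)) (ℓ 0 l) : V ≃ₗ[k] V))
      (fun j => (T (α 0 (a j)) (ℓ 0 l)).2)
      (fun i j => (T (α i.succ (a j)) (ℓ i.succ l) : V ≃ₗ[k] V))
      (fun i j => hconj i (a j) l)
      (fun i j j' => hcommV _ _ (hcomm _ _ _ _ (hO _ _ _ _) (hO _ _ _ _) (hO _ _ _ _)
        (hO _ _ _ _)))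
      (fun i j j' => hcommV _ _ (hcomm _ _ _ _ (hO _ _ _ _) (hO _ _ _ _) (hO _ _ _ _)
        (hO _ _ _ _))) g g.2
    refine ⟨i, j', j, hne.symm, ?_⟩
    dsimp only
    rw [map_sub, map_sub, hsubL _ _ _ (hO _ _ _ _) (hO _ _ _ _),
      hsubL _ _ _ (hO _ _ _ _) (hO _ _ _ _), mul_inv_rev, inv_inv, inv_inv]
    have e : (T (α i.succ (a j')) (ℓ i.succ l)) * (T (α i.succ (a j)) (ℓ i.succ l))⁻¹ =
        ((T (α i.succ (a j)) (ℓ i.succ l)) * (T (α i.succ (a j')) (ℓ i.succ l))⁻¹)⁻¹ := by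
      rw [mul_inv_rev, inv_inv]
    rw [e]
    exact hmem

end H49KC
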