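import Pool.Agent.H49.KC.Defs

namespace H49KC

open H49KA H49KB

universe u v w

variable {k : Type} [Field k] [Finite k] {V : Type} [AddCommGroup V] [Module k V]
  [FiniteDimensional k V]

theorem hyp_Om (Q : QuadraticForm k V)
    (hQ : ∀ x, (∀ y, QuadraticMap.polar Q x y = 0) → x = 0) (P : Submodule k V)
    (hP : ∀ x ∈ P, Q x = 0) :
    ∃ w : Module.Dual k P →ₗ[k] V, (∀ φ (u : P), QuadraticMap.polar Q (u : V) (w φ) = φ u) ∧
      ∀ φ, Q (w φ) = 0 := by
  classical
  -- the polar form as a linear map into the dual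
  have hinj : Function.Injective (QuadraticMap.polarBilin Q : V →ₗ[k] V →ₗ[k] k) := by
    rw [injective_iff_map_eq_zero]
    intro x hx
    refine hQ x fun y => ?_
    have := LinearMap.congr_fun hx y
    simpa using this
  have hsurj : Function.Surjective (QuadraticMap.polarBilin Q : V →ₗ[k] V →ₗ[k] k) := by
    have hfr : Module.finrank k V = Module.finrank k (Module.Dual k V) :=
      (Subspace.dual_finrank_eq).symm
    exact (LinearMap.injective_iff_surjective_of_finrank_eq_finrank hfr).1 hinj
  -- restriction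
  let R : V →ₗ[k] Module.Dual k P :=
    P.dualRestrict.comp (QuadraticMap.polarBilin Q : V →ₗ[k] V →ₗ[k] k)
  have hR : ∀ y (u : P), R y u = QuadraticMap.polar Q (u : V) y := by
    intro y u
    change QuadraticMap.polar Q y (u : V) = _
    exact QuadraticMap.polar_comm Q y u
  have hRs : Function.Surjective R := by
    intro φ
    obtain ⟨g, hg⟩ := LinearMap.exists_extend φ
    obtain ⟨y, hy⟩ := hsurj g
    refine ⟨y, ?_⟩
    ext u
    have h1 : R y u = (QuadraticMap.polarBilin Q y) (u : V) := rfl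
    rw [h1, hy, ← hg]
    rfl
  obtain ⟨w0, hw0⟩ := R.exists_rightInverse_of_surjective (LinearMap.range_eq_top.2 hRs)
  have hw0' : ∀ φ (u : P), QuadraticMap.polar Q (u : V) (w0 φ) = φ u := by
    intro φ u
    rw [← hR]
    exact LinearMap.congr_fun (LinearMap.congr_fun hw0 φ) u
  obtain ⟨b, hb⟩ := LinearMap.BilinMap.toQuadraticMap_surjective (R := k) (M := Module.Dual k P)
    (N := k) (Q.comp w0)
  have hb' : ∀ φ, b φ φ = Q (w0 φ) := by
    intro φ
    have := DFunLike.congr_fun hb φ
    simpa using this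
  let c : Module.Dual k P →ₗ[k] P := (Module.evalEquiv k P).symm.toLinearMap.comp b
  have hc : ∀ φ ψ : Module.Dual k P, ψ (c φ) = b φ ψ := by
    intro φ ψ
    have h1 : Module.evalEquiv k P (c φ) = b φ := by
      change Module.evalEquiv k P ((Module.evalEquiv k P).symm (b φ)) = b φ
      exact LinearEquiv.apply_symm_apply _ _
    have h2 : (Module.evalEquiv k P (c φ)) ψ = ψ (c φ) := rfl
    rw [← h2, h1]
  have hPP : ∀ x ∈ P, ∀ y ∈ P, QuadraticMap.polar Q x y = 0 := by
    intro x hx y hy
    unfold QuadraticMap.polar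
    rw [hP _ (P.add_mem hx hy), hP _ hx, hP _ hy]
    simp
  refine ⟨w0 - P.subtype.comp c, fun φ u => ?_, fun φ => ?_⟩
  · change QuadraticMap.polar Q (u : V) (w0 φ - (c φ : V)) = φ u
    rw [sub_eq_add_neg, QuadraticMap.polar_add_right, QuadraticMap.polar_neg_right,
      hPP _ u.2 _ (c φ).2, hw0']
    simp
  · change Q (w0 φ - (c φ : V)) = 0
    have h1 : Q (w0 φ + -(c φ : V)) = Q (w0 φ) + Q (-(c φ : V))
        + QuadraticMap.polar Q (w0 φ) (-(c φ : V)) := by
      unfold QuadraticMap.polar
      ring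
    rw [sub_eq_add_neg, h1, QuadraticMap.map_neg, hP _ (c φ).2, QuadraticMap.polar_neg_right,
      QuadraticMap.polar_comm, hw0', hc, hb']
    ring

end H49KC
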