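import Pool.Agent.H49.KC.Defs
import Pool.Agent.H49.KB.CW
import Pool.Agent.H49.KB.SE
import Pool.Agent.H49.KB.SC
import Pool.Agent.H49.KC.HO

namespace H49KC

open H49KA H49KB

universe u v w

variable {k : Type} [Field k] [Finite k] {V : Type} [AddCommGroup V] [Module k V]
  [FiniteDimensional k V]

private theorem fo_sieg (Q : QuadraticForm k V)
    (hQ : ∀ x, (∀ y, QuadraticMap.polar Q x y = 0) → x = 0) (hdim : 7 ≤ Module.finrank k V)
    (u w : V) (hu : Q u = 0) (hw : Q w = 0) (huw : QuadraticMap.polar Q u w = 0) :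
    ∃ x ∈ ⁅OGrp Q, OGrp Q⁆, ∀ y, x y = y + QuadraticMap.polar Q y u • w -
      (1 * QuadraticMap.polar Q y w) • u := by
  by_cases hli : LinearIndependent k ![u, w]
  · obtain ⟨x, hx, hx'⟩ := siegel_exists Q u w hu hw huw
    refine ⟨x, siegel_comm Q hQ hdim u w hli hu hw huw x hx', fun y => ?_⟩
    rw [hx', one_mul]
  · refine ⟨1, Subgroup.one_mem _, fun y => ?_⟩
    rw [LinearIndependent.pair_iff] at hli
    push Not at hli
    obtain ⟨s, t, hst, hne⟩ := hli
    have key : QuadraticMap.polar Q y u • w = QuadraticMap.polar Q y w • u := by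
      have h1 : s * QuadraticMap.polar Q y u + t * QuadraticMap.polar Q y w = 0 := by
        have h := congrArg (fun z => QuadraticMap.polar Q y z) hst
        simp only [QuadraticMap.polar_add_right, QuadraticMap.polar_smul_right,
          QuadraticMap.polar_zero_right, smul_eq_mul] at h
        exact h
      by_cases hs : s = 0
      · have ht : t ≠ 0 := hne hs
        subst hs
        rw [zero_smul, zero_add] at hst
        have hw0 : w = 0 := (smul_eq_zero.1 hst).resolve_left ht
        rw [hw0]
        simp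
      · have hu' : u = (-(s⁻¹ * t)) • w := by
          have h2 : s • u = (-t) • w := by
            rw [neg_smul]
            exact eq_neg_of_add_eq_zero_left hst
          calc u = s⁻¹ • (s • u) := by rw [smul_smul, inv_mul_cancel₀ hs, one_smul]
            _ = s⁻¹ • ((-t) • w) := by rw [h2]
            _ = (-(s⁻¹ * t)) • w := by rw [smul_smul]; congr 1; ring
        rw [hu', QuadraticMap.polar_smul_right, smul_smul, smul_eq_mul]
        congr 1
        ring
    rw [one_mul, key]
    simp

theorem fsp_Om (Γ : Subgroup (V ≃ₗ[k] V)) (hΓ : IsOm Γ) :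
    ∃ (σ : k →+* k) (ε : k) (B : V →ₗ[k] V →ₛₗ[σ] k) (sing : V → Prop),
      FSp Γ σ ε B sing := by
  obtain ⟨Q, hQ, rfl⟩ := hΓ
  have hle : ⁅OGrp Q, OGrp Q⁆ ≤ OGrp Q := Subgroup.commutator_le.2 fun a ha b hb =>
    (OGrp Q).mul_mem ((OGrp Q).mul_mem ((OGrp Q).mul_mem ha hb) ((OGrp Q).inv_mem ha))
      ((OGrp Q).inv_mem hb)
  refine ⟨RingHom.id k, 1, QuadraticMap.polarBilin Q, fun x => Q x = 0, ?_⟩
  refine
    { hσ := fun a => rfl
      hε := Or.inl rfl
      symm := ?_
      nondeg := hQ
      sing_iso := ?_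
      sing_smul := ?_
      sing_add := ?_
      presB := ?_
      presS := ?_
      cw := ?_
      hyp := ?_
      sieg := ?_ }
  · intro x y
    rw [QuadraticMap.polarBilin_apply_apply, QuadraticMap.polarBilin_apply_apply,
      QuadraticMap.polar_comm, one_mul]
    rfl
  · intro x hx
    rw [QuadraticMap.polarBilin_apply_apply, QuadraticMap.polar_self, hx, smul_zero]
  · intro c x hx
    show Q (c • x) = 0
    rw [QuadraticMap.map_smul, hx, smul_zero]
  · intro x y hx hy hxy
    show Q (x + y) = 0
    rw [QuadraticMap.map_add Q, hx, hy]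
    rw [QuadraticMap.polarBilin_apply_apply] at hxy
    rw [hxy]
    simp
  · intro g hg x y
    have hg' : ∀ x, Q (g x) = Q x := hle hg
    rw [QuadraticMap.polarBilin_apply_apply, QuadraticMap.polarBilin_apply_apply,
      QuadraticMap.polar, QuadraticMap.polar, ← map_add, hg', hg', hg']
  · intro g hg x hx
    have hg' : ∀ x, Q (g x) = Q x := hle hg
    show Q (g x) = 0
    rw [hg']
    exact hx
  · intro Λ A hA
    classical
    let F : Option Λ → QuadraticForm k A := fun o => match o with
      | none => Q.comp A.subtype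
      | some l => (LinearMap.BilinMap.toQuadraticMap
          ((QuadraticMap.polarBilin Q).compl₂ ((l : V ≃ₗ[k] V) : V →ₗ[k] V))).comp A.subtype
    obtain ⟨v, hv0, hv⟩ := chev_warn (k := k) A F (by
      rw [Nat.card_eq_fintype_card, Fintype.card_option, Fintype.card_coe]
      exact hA)
    refine ⟨v, v.2, ?_, ?_, ?_⟩
    · intro h
      exact hv0 (Subtype.ext h)
    · exact hv none
    · intro l hl
      exact hv (some ⟨l, hl⟩)
  · intro P hP1 hP2
    obtain ⟨w, hw1, hw2⟩ := hyp_Om Q hQ P hP1
    refine ⟨w, fun φ ψ => map_add w φ ψ, fun c φ => map_smul w c φ, ?_, hw2, ?_⟩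
    · intro φ u
      rw [QuadraticMap.polarBilin_apply_apply]
      exact hw1 φ u
    · intro φ ψ
      rw [QuadraticMap.polarBilin_apply_apply, QuadraticMap.polar, ← map_add, hw2, hw2, hw2]
      simp
  · intro hdim u w hu hw huw
    rw [QuadraticMap.polarBilin_apply_apply] at huw
    exact fo_sieg Q hQ hdim u w hu hw huw

end H49KC
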