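import Pool.Agent.H49.KC.Defs

namespace H49KC

open H49KA H49KB

universe u v w

variable {k : Type} [Field k] [Finite k] {V : Type} [AddCommGroup V] [Module k V]
  [FiniteDimensional k V]

omit [Finite k] [FiniteDimensional k V] in
private lemma hs_skew (B : V →ₗ[k] V →ₗ[k] k) (hB : ∀ x, B x x = 0) (x y : V) :
    B x y = - B y x := by
  have h := hB (x + y)
  simp only [map_add, LinearMap.add_apply, hB, zero_add, add_zero] at h
  exact eq_neg_of_add_eq_zero_left (by rw [add_comm]; exact h)

omit [Finite k] in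
private lemma hs_rep (B : V →ₗ[k] V →ₗ[k] k) (hB : ∀ x, B x x = 0)
    (hn : ∀ x, (∀ y, B x y = 0) → x = 0) (P : Submodule k V) (g : Module.Dual k P) :
    ∃ v : V, ∀ u : P, B (u : V) v = g u := by
  obtain ⟨g', hg'⟩ := LinearMap.exists_extend g
  have hinj : Function.Injective B.flip := by
    rw [← LinearMap.ker_eq_bot, LinearMap.ker_eq_bot']
    intro v hv
    refine hn v fun y => ?_
    rw [hs_skew B hB]
    have h := congrArg (fun f : V →ₗ[k] k => f y) hv
    simp only [LinearMap.flip_apply, LinearMap.zero_apply] at h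
    rw [h, neg_zero]
  have hfr : Module.finrank k V = Module.finrank k (V →ₗ[k] k) :=
    (Subspace.dual_finrank_eq (K := k) (V := V)).symm
  have hsur := (LinearMap.injective_iff_surjective_of_finrank_eq_finrank hfr).1 hinj
  obtain ⟨v, hv⟩ := hsur g'
  refine ⟨v, fun u => ?_⟩
  have h1 : B.flip v (u : V) = g' (u : V) := by rw [hv]
  rw [LinearMap.flip_apply] at h1
  rw [h1, ← hg']
  rfl

theorem hyp_Sp (B : V →ₗ[k] V →ₗ[k] k) (hB : ∀ x, B x x = 0)
    (hn : ∀ x, (∀ y, B x y = 0) → x = 0) (P : Submodule k V)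
    (hP : ∀ x ∈ P, ∀ y ∈ P, B x y = 0) :
    ∃ w : Module.Dual k P →ₗ[k] V, (∀ φ (u : P), B (u : V) (w φ) = φ u) ∧
      ∀ φ ψ, B (w φ) (w ψ) = 0 := by
  classical
  obtain ⟨n, hn'⟩ : ∃ n, n = Module.finrank k P := ⟨_, rfl⟩
  let e : Module.Basis (Fin n) k P := Module.finBasisOfFinrankEq k P hn'.symm
  have hv : ∀ i : Fin n, ∃ v : V, ∀ u : P, B (u : V) v = e.coord i u := fun i =>
    hs_rep B hB hn P (e.coord i)
  choose v hv using hv
  have hev : ∀ i j, B (e i : V) (v j) = if i = j then 1 else 0 := by
    intro i j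
    rw [hv j (e i), Module.Basis.coord_apply, Module.Basis.repr_self, Finsupp.single_apply]
  obtain ⟨a, ha⟩ : ∃ a : Fin n → Fin n → k, a = fun i j => if j < i then B (v j) (v i) else 0 :=
    ⟨_, rfl⟩
  obtain ⟨w, hw⟩ : ∃ w : Fin n → V, w = fun i => v i + ∑ j, a i j • (e j : V) := ⟨_, rfl⟩
  have hPw : ∀ i (u : P), B (u : V) (w i) = e.coord i u := by
    intro i u
    rw [hw]
    simp only [map_add, map_sum, map_smul]
    rw [hv i u]
    have : ∑ j, a i j • B (u : V) (e j : V) = 0 :=
      Finset.sum_eq_zero fun j _ => by rw [hP _ u.2 _ (e j).2, smul_zero]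
    rw [this, add_zero]
  have hww : ∀ i j, B (w i) (w j) = 0 := by
    intro i j
    have h1 : B (w i) (w j) = B (v i) (w j) + ∑ l, a i l • B (e l : V) (w j) := by
      conv_lhs => rw [show w i = v i + ∑ j, a i j • (e j : V) by rw [hw]]
      simp only [map_add, map_sum, map_smul, LinearMap.add_apply, LinearMap.sum_apply,
        LinearMap.smul_apply]
    have h2 : ∑ l, a i l • B (e l : V) (w j) = a i j := by
      rw [Finset.sum_eq_single j]
      · rw [hPw, Module.Basis.coord_apply, Module.Basis.repr_self, Finsupp.single_eq_same,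
          smul_eq_mul, mul_one]
      · intro l _ hl
        rw [hPw, Module.Basis.coord_apply, Module.Basis.repr_self,
          Finsupp.single_apply, if_neg hl, smul_zero]
      · intro h; exact absurd (Finset.mem_univ _) h
    have h3 : B (v i) (w j) = B (v i) (v j) - a j i := by
      rw [hw]
      simp only [map_add, map_sum, map_smul]
      rw [sub_eq_add_neg]
      congr 1
      rw [Finset.sum_eq_single i]
      · rw [hs_skew B hB, hev, if_pos rfl, smul_neg, smul_eq_mul, mul_one]
      · intro l _ hl
        rw [hs_skew B hB, hev, if_neg hl, neg_zero, smul_zero]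
      · intro h; exact absurd (Finset.mem_univ _) h
    rw [h1, h2, h3, ha]
    simp only
    rcases lt_trichotomy i j with h | h | h
    · rw [if_pos h, if_neg (not_lt.2 h.le)]; ring
    · subst h
      simp [hB]
    · rw [if_neg (not_lt.2 h.le), if_pos h, hs_skew B hB (v j)]; ring
  refine ⟨{ toFun := fun φ => ∑ i, φ (e i) • w i
            map_add' := fun φ ψ => by
              simp only [LinearMap.add_apply, add_smul, Finset.sum_add_distrib]
            map_smul' := fun c φ => by
              simp only [LinearMap.smul_apply, smul_eq_mul, mul_smul, Finset.smul_sum,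
                RingHom.id_apply] }, ?_, ?_⟩
  · intro φ u
    simp only [LinearMap.coe_mk, AddHom.coe_mk, map_sum, map_smul]
    conv_rhs => rw [← e.sum_repr u, map_sum]
    refine Finset.sum_congr rfl fun i _ => ?_
    rw [hPw, map_smul, Module.Basis.coord_apply, smul_eq_mul, smul_eq_mul, mul_comm]
  · intro φ ψ
    simp only [LinearMap.coe_mk, AddHom.coe_mk, map_sum, map_smul, LinearMap.sum_apply,
      LinearMap.smul_apply, hww, smul_zero, Finset.sum_const_zero]

end H49KC
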