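import Pool.Agent.H49.KC.Defs
import Pool.Agent.H49.KB.CW
import Pool.Agent.H49.KC.HS

namespace H49KC

open H49KA H49KB

universe u v w

variable {k : Type} [Field k] [Finite k] {V : Type} [AddCommGroup V] [Module k V]
  [FiniteDimensional k V]

omit [Finite k] [FiniteDimensional k V] in
private theorem FS_skew (B : V →ₗ[k] V →ₗ[k] k) (hB : ∀ x, B x x = 0) (x y : V) :
    B y x = - B x y := by
  have h := hB (x + y)
  simp only [map_add, LinearMap.add_apply, hB, zero_add, add_zero] at h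
  exact eq_neg_of_add_eq_zero_left h

omit [Finite k] [FiniteDimensional k V] in
private theorem FS_sieg (B : V →ₗ[k] V →ₗ[k] k) (hB : ∀ x, B x x = 0) (u w : V)
    (huw : B u w = 0) :
    ∃ x : V ≃ₗ[k] V, (∀ y, x y = y + B y u • w + B y w • u) ∧
      ∀ y z, B (x y) (x z) = B y z := by
  have hwu : B w u = 0 := by rw [FS_skew B hB, huw, neg_zero]
  set N : V →ₗ[k] V := (B.flip u).smulRight w + (B.flip w).smulRight u with hN
  have hNa : ∀ y, N y = B y u • w + B y w • u := fun y => rfl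
  have hNN : ∀ y, N (N y) = 0 := by
    intro y
    rw [hNa (N y), hNa y]
    simp [hB, huw, hwu]
  refine ⟨LinearEquiv.ofLinearMap (LinearMap.id + N) (LinearMap.id - N) ?_ ?_, fun y => ?_,
    fun y z => ?_⟩
  · ext y
    simp [hNN]
  · ext y
    simp [hNN]
  · change y + N y = _
    rw [hNa, add_assoc]
  · change B (y + N y) (z + N z) = _
    rw [hNa, hNa]
    have h1 := FS_skew B hB z w
    have h2 := FS_skew B hB z u
    simp only [map_add, map_smul, LinearMap.add_apply, LinearMap.smul_apply, smul_eq_mul, hB, huw,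
      hwu, h1, h2]
    ring

theorem fsp_Sp (Γ : Subgroup (V ≃ₗ[k] V)) (hΓ : IsSp Γ) :
    ∃ (σ : k →+* k) (ε : k) (B : V →ₗ[k] V →ₛₗ[σ] k) (sing : V → Prop),
      FSp Γ σ ε B sing := by
  obtain ⟨B, hB, hn, hg⟩ := hΓ
  refine ⟨RingHom.id k, -1, B, fun _ => True, ?_⟩
  refine
    { hσ := fun _ => rfl
      hε := Or.inr rfl
      symm := fun x y => ?_
      nondeg := hn
      sing_iso := fun x _ => hB x
      sing_smul := fun _ _ _ => trivial
      sing_add := fun _ _ _ _ _ => trivial
      presB := fun g h => (hg g).1 h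
      presS := fun _ _ _ _ => trivial
      cw := fun Λ A hA => ?_
      hyp := fun P _ hP => ?_
      sieg := fun _ u w _ _ huw => ?_ }
  · rw [FS_skew B hB x y, RingHom.id_apply, neg_one_mul]
  · obtain ⟨v, hv, h⟩ := chev_warn A (ι := {l // l ∈ Λ})
      (fun l => LinearMap.BilinMap.toQuadraticMap
        (B.compl₁₂ A.subtype ((l.1 : V →ₗ[k] V).comp A.subtype)))
      (by
        rw [Nat.card_eq_fintype_card, Fintype.card_coe]
        omega)
    refine ⟨v, v.2, fun h0 => hv (Subtype.ext h0), trivial, fun l hl => ?_⟩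
    exact h ⟨l, hl⟩
  · obtain ⟨w, h1, h2⟩ := hyp_Sp B hB hn P hP
    exact ⟨w, fun φ ψ => map_add w φ ψ, fun c φ => map_smul w c φ, h1, fun _ => trivial, h2⟩
  · obtain ⟨x, h1, h2⟩ := FS_sieg B hB u w huw
    refine ⟨x, (hg x).2 h2, fun y => ?_⟩
    rw [h1 y, neg_one_mul, neg_smul, sub_neg_eq_add]

end H49KC
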