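import Pool.Agent.H49.KC.Defs

namespace H49KC

open H49KA H49KB

universe u v w

variable {k : Type} [Field k] [Finite k] {V : Type} [AddCommGroup V] [Module k V]
  [FiniteDimensional k V]

private lemma exists_rep_SU (σ : k →+* k) (h : V →ₗ[k] V →ₛₗ[σ] k)
    (hs : ∀ x y, h y x = σ (h x y))
    (hn : ∀ x, (∀ y, h x y = 0) → x = 0) (f : Module.Dual k V) :
    ∃ y, ∀ x, h x y = f x := by
  have inj : Function.Injective (fun x : V => (h.flip x : Module.Dual k V)) := by
    intro x x' hx
    have h0 : x - x' = 0 := by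
      apply hn
      intro y
      have h1 : h y x = h y x' := LinearMap.congr_fun hx y
      rw [hs y (x - x'), map_sub, h1, sub_self, map_zero]
    exact sub_eq_zero.1 h0
  have : Finite V := Module.finite_of_finite k
  have E : V ≃ₗ[k] Module.Dual k V := LinearEquiv.ofFinrankEq _ _ (Subspace.dual_finrank_eq).symm
  have sur := (Finite.injective_iff_surjective_of_equiv E.toEquiv).1 inj
  obtain ⟨y, hy⟩ := sur f
  exact ⟨y, fun x => LinearMap.congr_fun hy x⟩

omit [Finite k] in
private lemma exists_tr_SU (σ : k →+* k) (hσ1 : ∃ a, σ a ≠ a) (hσ : ∀ a, σ (σ a) = a)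
    (t : k) (ht : σ t = t) : ∃ c, c + σ c = t := by
  have hz : ∃ z, z + σ z ≠ 0 := by
    by_contra hcon
    push Not at hcon
    obtain ⟨a, ha⟩ := hσ1
    apply ha
    have h1 := hcon 1
    rw [map_one] at h1
    have h2 := hcon a
    have h3 : a + a = 0 := by
      have : a + a = a * (1 + 1) := by ring
      rw [this, h1, mul_zero]
    have : a + σ a = a + a := by rw [h2, h3]
    exact add_left_cancel this
  obtain ⟨z, hz⟩ := hz
  refine ⟨t * z / (z + σ z), ?_⟩
  have h1 : σ (z + σ z) = z + σ z := by rw [map_add, hσ, add_comm]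
  rw [map_div₀, map_mul, ht, h1]
  field_simp

theorem hyp_SU (σ : k →+* k) (h : V →ₗ[k] V →ₛₗ[σ] k) (hσ1 : ∃ a, σ a ≠ a)
    (hσ : ∀ a, σ (σ a) = a) (hs : ∀ x y, h y x = σ (h x y))
    (hn : ∀ x, (∀ y, h x y = 0) → x = 0) (P : Submodule k V)
    (hP : ∀ x ∈ P, ∀ y ∈ P, h x y = 0) :
    ∃ w : Module.Dual k P → V, (∀ φ ψ, w (φ + ψ) = w φ + w ψ) ∧
      (∀ (c : k) φ, w (c • φ) = σ c • w φ) ∧ (∀ φ (u : P), h (u : V) (w φ) = φ u) ∧
      ∀ φ ψ, h (w φ) (w ψ) = 0 := by
  classical
  let a := Module.finBasis k P
  have he : ∀ n, ∃ y, ∀ u : P, h (u : V) y = a.coord n u := by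
    intro n
    obtain ⟨g, hg⟩ := LinearMap.exists_extend (a.coord n)
    obtain ⟨y, hy⟩ := exists_rep_SU σ h hs hn g
    refine ⟨y, fun u => ?_⟩
    rw [hy, ← hg]
    rfl
  choose e he using he
  have hc : ∀ n, ∃ c, c + σ c = - h (e n) (e n) := by
    intro n
    apply exists_tr_SU σ hσ1 hσ
    rw [map_neg, ← hs]
  choose d hd using hc
  let c : Fin (Module.finrank k P) → Fin (Module.finrank k P) → k := fun n m =>
    if n < m then - h (e n) (e m) else if m < n then 0 else d n
  have hc : ∀ n m, c n m + σ (c m n) = - h (e n) (e m) := by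
    intro n m
    rcases lt_trichotomy n m with hnm | hnm | hnm
    · simp only [c, hnm, if_true, not_lt_of_gt hnm, if_false, map_zero, add_zero]
    · subst hnm
      simp only [c, lt_irrefl, if_false, hd]
    · simp only [c, hnm, if_true, not_lt_of_gt hnm, if_false, zero_add, map_neg]
      rw [← hs]
  let e' : Fin (Module.finrank k P) → V := fun n => e n + ∑ m, c n m • (a m : V)
  have hae : ∀ (u : P) n, h (u : V) (e' n) = a.coord n u := by
    intro u n
    simp only [e', map_add, map_sum, LinearMap.map_smulₛₗ, he]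
    rw [Finset.sum_eq_zero, add_zero]
    intro m _
    rw [hP u u.2 _ (a m).2, smul_zero]
  have hee : ∀ n m, h (e' n) (e' m) = 0 := by
    intro n m
    have h1' : ∀ y, h (e' n) y = h (e n) y + ∑ l, c n l • h (a l : V) y := by
      intro y
      simp only [e', map_add, map_sum, map_smul, LinearMap.add_apply, LinearMap.sum_apply,
        LinearMap.smul_apply]
    have h1 := h1' (e' m)
    have h2 : ∀ l, c n l • h (a l : V) (e' m) = if l = m then c n m else 0 := by
      intro l
      rw [hae, Module.Basis.coord_apply, Module.Basis.repr_self, Finsupp.single_apply]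
      split_ifs with hlm
      · rw [hlm, smul_eq_mul, mul_one]
      · rw [smul_zero]
    have h3 : h (e n) (e' m) = h (e n) (e m) + σ (c m n) := by
      simp only [e', map_add, map_sum, LinearMap.map_smulₛₗ]
      congr 1
      have h4 : ∀ l, σ (c m l) • h (e n) (a l : V) = if l = n then σ (c m n) else 0 := by
        intro l
        rw [hs (a l : V) (e n), he, Module.Basis.coord_apply, Module.Basis.repr_self,
          Finsupp.single_apply]
        split_ifs with hln
        · rw [hln, map_one, smul_eq_mul, mul_one]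
        · rw [map_zero, smul_zero]
      rw [Finset.sum_congr rfl (fun l _ => h4 l)]
      simp
    rw [h1, Finset.sum_congr rfl (fun l _ => h2 l), h3]
    simp only [Finset.sum_ite_eq', Finset.mem_univ, if_true]
    have := hc n m
    linear_combination this
  refine ⟨fun φ => ∑ n, σ (φ (a n)) • e' n, ?_, ?_, ?_, ?_⟩
  · intro φ ψ
    simp only [LinearMap.add_apply, map_add, add_smul, Finset.sum_add_distrib]
  · intro c φ
    simp only [LinearMap.smul_apply, smul_eq_mul, map_mul, mul_smul, Finset.smul_sum]
  · intro φ u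
    simp only [map_sum, LinearMap.map_smulₛₗ, hσ, hae]
    conv_rhs => rw [← a.sum_repr u]
    simp only [map_sum, map_smul, smul_eq_mul, Module.Basis.coord_apply]
    exact Finset.sum_congr rfl (fun n _ => mul_comm _ _)
  · intro φ ψ
    simp only [map_sum, LinearMap.map_smulₛₗ, LinearMap.sum_apply, LinearMap.smul_apply, hee,
      smul_zero, Finset.sum_const_zero]

end H49KC
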