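import Pool.Agent.H49.KC.Defs
import Pool.Agent.H49.KB.HZ
import Pool.Agent.H49.KC.HU

namespace H49KC

open H49KA H49KB

universe u v w

variable {k : Type} [Field k] [Finite k] {V : Type} [AddCommGroup V] [Module k V]
  [FiniteDimensional k V]

omit [Finite k] in
private theorem FU_sieg (σ : k →+* k) (h : V →ₗ[k] V →ₛₗ[σ] k)
    (hs : ∀ x y, h y x = σ (h x y)) (u w : V) (hu : h u u = 0) (hw : h w w = 0)
    (huw : h u w = 0) : ∃ x : V ≃ₗ[k] V, LinearMap.det (x : V →ₗ[k] V) = 1 ∧
      (∀ y, x y = y + h y u • w - h y w • u) ∧ ∀ y z, h (x y) (x z) = h y z := by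
  have hwu : h w u = 0 := by rw [hs u w, huw, map_zero]
  have e1 : (h.flip u) w = 0 := by rw [LinearMap.flip_apply]; exact hwu
  have e2 : (h.flip w) (-u) = 0 := by rw [LinearMap.flip_apply, map_neg, LinearMap.neg_apply, huw, neg_zero]
  have hx : ∀ y, (LinearEquiv.transvection e1 * LinearEquiv.transvection e2 : V ≃ₗ[k] V) y =
      y + h y u • w - h y w • u := by
    intro y
    rw [LinearEquiv.mul_apply, LinearEquiv.transvection.apply, LinearEquiv.transvection.apply,
      LinearMap.flip_apply, LinearMap.flip_apply, map_add, LinearMap.add_apply, map_smul,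
      LinearMap.smul_apply, map_neg, LinearMap.neg_apply, hu, neg_zero, smul_zero, add_zero,
      smul_neg]
    abel
  refine ⟨LinearEquiv.transvection e1 * LinearEquiv.transvection e2, ?_, hx, ?_⟩
  · have h1 : ((LinearEquiv.transvection e1 * LinearEquiv.transvection e2 : V ≃ₗ[k] V) :
        V →ₗ[k] V) = LinearMap.transvection (h.flip u) w ∘ₗ
          LinearMap.transvection (h.flip w) (-u) := rfl
    rw [h1, LinearMap.det_comp, LinearMap.transvection.det, LinearMap.transvection.det, e1, e2]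
    ring
  · intro y z
    rw [hx, hx]
    simp only [map_add, map_sub, map_smul, LinearMap.map_smulₛₗ, LinearMap.add_apply,
      LinearMap.sub_apply, LinearMap.smul_apply, smul_eq_mul, hu, hw, huw, hwu]
    rw [hs z w, hs z u]
    ring

theorem fsp_SU (Γ : Subgroup (V ≃ₗ[k] V)) (hΓ : IsSU Γ) :
    ∃ (σ : k →+* k) (ε : k) (B : V →ₗ[k] V →ₛₗ[σ] k) (sing : V → Prop),
      FSp Γ σ ε B sing := by
  classical
  obtain ⟨σ, h, hσ1, hσ, hs, hn, hmem⟩ := hΓ
  have hpres : ∀ g ∈ Γ, ∀ x y, h (g x) (g y) = h x y := fun g hg => ((hmem g).1 hg).2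
  refine ⟨σ, 1, h, fun x => h x x = 0, ?_⟩
  refine
    { hσ := hσ
      hε := Or.inl rfl
      symm := fun x y => by rw [one_mul]; exact hs x y
      nondeg := hn
      sing_iso := fun x hx => hx
      sing_smul := ?_
      sing_add := ?_
      presB := hpres
      presS := fun g hg x hx => by rw [hpres g hg]; exact hx
      cw := ?_
      hyp := ?_
      sieg := ?_ }
  · intro c x hx
    change h (c • x) (c • x) = 0
    simp only [map_smul, LinearMap.smul_apply, LinearMap.map_smulₛₗ, smul_eq_mul]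
    have hx' : h x x = 0 := hx
    rw [hx', mul_zero, mul_zero]
  · intro x y hx hy hxy
    have hyx : h y x = 0 := by rw [hs x y, hxy, map_zero]
    have hx' : h x x = 0 := hx
    have hy' : h y y = 0 := hy
    change h (x + y) (x + y) = 0
    simp only [map_add, LinearMap.add_apply, hx', hy', hxy, hyx, add_zero]
  · intro Λ A hA
    have hc : (insert (1 : V ≃ₗ[k] V) Λ).card ≤ Λ.card + 1 := Finset.card_insert_le _ _
    obtain ⟨v, hvA, hv0, hv⟩ := herm_zero σ h hσ1 hσ (insert 1 Λ) A (by omega)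
    refine ⟨v, hvA, hv0, hv 1 (Finset.mem_insert_self _ _), fun l hl => ?_⟩
    exact hv l (Finset.mem_insert_of_mem hl)
  · intro P _ hP
    obtain ⟨w, h1, h2, h3, h4⟩ := hyp_SU σ h hσ1 hσ hs hn P hP
    exact ⟨w, h1, h2, h3, fun φ => h4 φ φ, h4⟩
  · intro _ u w hu hw huw
    obtain ⟨x, h1, h2, h3⟩ := FU_sieg σ h hs u w hu hw huw
    refine ⟨x, (hmem x).2 ⟨h1, h3⟩, fun y => ?_⟩
    rw [one_mul]
    exact h2 y

end H49KC
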