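import Pool.Agent.H49.KC.Defs
import Pool.Agent.H49.KB.SR

namespace H49KC

open H49KA H49KB

universe u v w

section aux

variable {k : Type} [Field k] {V : Type} [AddCommGroup V] [Module k V]

private theorem FE_smallRank [FiniteDimensional k V] (c : ℕ) (g : V ≃ₗ[k] V) (a : k)
    (h : Module.finrank k (LinearMap.range ((g : V →ₗ[k] V) - a • LinearMap.id)) ≤ c) :
    SmallRank c g a := by
  classical
  let R := LinearMap.range ((g : V →ₗ[k] V) - a • LinearMap.id)
  let b := Module.finBasis k R
  let w : Fin c → V := fun i =>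
    if hi : i.1 < Module.finrank k R then (b ⟨i.1, hi⟩ : V) else 0
  refine ⟨w, fun v => ?_⟩
  have hR : R ≤ Submodule.span k (Set.range w) := by
    intro x hx
    have h1 := b.sum_repr ⟨x, hx⟩
    have h2 : x = ∑ i, (b.repr ⟨x, hx⟩ i) • (b i : V) := by
      have h3 := congrArg (fun y : R => (y : V)) h1
      simp only [Submodule.coe_sum, Submodule.coe_smul] at h3
      exact h3.symm
    rw [h2]
    refine Submodule.sum_mem _ fun i _ => Submodule.smul_mem _ _ ?_
    refine Submodule.subset_span ⟨⟨i.1, lt_of_lt_of_le i.2 h⟩, ?_⟩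
    simp only [w]
    rw [dif_pos i.2]
  have hv : g v - a • v ∈ R := ⟨v, by simp⟩
  obtain ⟨d, hd⟩ := (Submodule.mem_span_range_iff_exists_fun k).1 (hR hv)
  exact ⟨d, hd.symm⟩

private theorem FE_comap [FiniteDimensional k V] (φ : V →ₗ[k] V) (W : Submodule k V) :
    Module.finrank k (W.comap φ) + Module.finrank k (LinearMap.range φ) ≤
      Module.finrank k V + Module.finrank k W := by
  have h1 := LinearMap.finrank_range_add_finrank_ker φ
  let ψ : (W.comap φ) →ₗ[k] V := φ.domRestrict (W.comap φ)
  have h3 := LinearMap.finrank_range_add_finrank_ker ψ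
  have h4 : Module.finrank k (LinearMap.range ψ) ≤ Module.finrank k W := by
    apply Submodule.finrank_mono
    rintro _ ⟨x, rfl⟩
    exact x.2
  have h5 : Module.finrank k (LinearMap.ker ψ) ≤ Module.finrank k (LinearMap.ker φ) := by
    let ι : LinearMap.ker ψ →ₗ[k] LinearMap.ker φ :=
      LinearMap.codRestrict _ ((W.comap φ).subtype.comp (LinearMap.ker ψ).subtype)
        (fun x => by
          have := x.2
          rw [LinearMap.mem_ker] at this ⊢
          exact this)
    apply LinearMap.finrank_le_finrank_of_injective (f := ι)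
    intro x y hxy
    have := congrArg (fun z : LinearMap.ker φ => (z : V)) hxy
    exact Subtype.ext (Subtype.ext this)
  omega

private theorem FE_inf_ker [FiniteDimensional k V] (A : Submodule k V) (φ : V →ₗ[k] V) :
    Module.finrank k A ≤
      Module.finrank k (A ⊓ LinearMap.ker φ : Submodule k V) +
        Module.finrank k (LinearMap.range φ) := by
  have h1 := Submodule.finrank_sup_add_finrank_inf_eq A (LinearMap.ker φ)
  have h2 := LinearMap.finrank_range_add_finrank_ker φ
  have h3 := Submodule.finrank_le (A ⊔ LinearMap.ker φ)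
  omega

private theorem FE_inf [FiniteDimensional k V] {ι : Type} (s : Finset ι) (φ : ι → V →ₗ[k] V)
    (r : ℕ) (h : ∀ i ∈ s, Module.finrank k (LinearMap.range (φ i)) ≤ r) :
    Module.finrank k V ≤
      Module.finrank k (s.inf (fun i => LinearMap.ker (φ i)) : Submodule k V) + s.card * r := by
  classical
  induction s using Finset.induction_on with
  | empty =>
    rw [Finset.inf_empty, finrank_top]
    omega
  | insert i s hi ih =>
    rw [Finset.inf_insert, Finset.card_insert_of_notMem hi]
    have h1 := ih (fun j hj => h j (Finset.mem_insert_of_mem hj))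
    have h2 := FE_inf_ker (s.inf (fun i => LinearMap.ker (φ i))) (φ i)
    have h3 := h i (Finset.mem_insert_self i s)
    rw [inf_comm] at h2
    rw [Nat.succ_mul]
    omega

private def FE_R (D M : ℕ) : ℕ → ℕ
  | 0 => 0
  | j + 1 => D * FE_R D M j + D * M + D

private theorem FE_R_succ (D M j : ℕ) : FE_R D M (j + 1) = D * FE_R D M j + D * M + D := rfl

private theorem FE_R_mono (D M : ℕ) (hD : 0 < D) : Monotone (FE_R D M) := by
  refine monotone_nat_of_le_succ fun j => ?_
  rw [FE_R_succ]
  have := Nat.le_mul_of_pos_left (FE_R D M j) hD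
  omega

private theorem FE_stab (D : ℕ) (S : ℕ → Submodule k (Fin D → k)) (hS : Monotone S) :
    ∃ j ≤ D, S (j + 1) = S j := by
  by_contra h
  have key : ∀ j ≤ D + 1, j ≤ Module.finrank k (S j) := by
    intro j
    induction j with
    | zero => intro _; exact Nat.zero_le _
    | succ j ih =>
      intro hj
      have h1 : S j < S (j + 1) := by
        refine lt_of_le_of_ne (hS (Nat.le_succ j)) ?_
        intro h2
        exact h ⟨j, by omega, h2.symm⟩
      have h2 := Submodule.finrank_lt_finrank_of_lt h1
      have := ih (by omega)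
      omega
  have h1 := key (D + 1) le_rfl
  have h2 := Submodule.finrank_le (S (D + 1))
  rw [Module.finrank_fin_fun] at h2
  omega

private theorem FE_struct [FiniteDimensional k V] (D M : ℕ) (hD : 0 < D)
    (T : Fin D → V →ₗ[k] V) :
    ∃ (t : ℕ) (E₀ : Submodule k (Fin D → k)) (V₁ : Submodule k V),
      t ≤ FE_R D M (D + 1) ∧
      (∀ e ∈ E₀, ∀ v ∈ V₁, Fintype.linearCombination k T e v = 0) ∧
      Module.finrank k V ≤ Module.finrank k V₁ + t ∧
      ∀ e, e ∉ E₀ → t + D * M + D <
        Module.finrank k (LinearMap.range (Fintype.linearCombination k T e)) := by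
  classical
  let X : ℕ → Set (Fin D → k) := fun j =>
    {e | Module.finrank k (LinearMap.range (Fintype.linearCombination k T e)) ≤ FE_R D M j}
  let S : ℕ → Submodule k (Fin D → k) := fun j => Submodule.span k (X j)
  have hmono : Monotone S := by
    intro i j hij
    refine Submodule.span_mono ?_
    intro e he
    exact le_trans he (FE_R_mono D M hD hij)
  obtain ⟨j, hj, hSj⟩ := FE_stab D S hmono
  obtain ⟨b, hb1, hb2, hb3⟩ := exists_linearIndependent k (X j)
  have hfin : b.Finite := hb3.setFinite
  have hcard : hfin.toFinset.card ≤ D := by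
    have : Fintype b := hfin.fintype
    have h1 := hb3.fintype_card_le_finrank
    rw [Module.finrank_fin_fun] at h1
    rw [Set.Finite.card_toFinset]
    exact h1
  refine ⟨D * FE_R D M j, S j,
    hfin.toFinset.inf (fun e => LinearMap.ker (Fintype.linearCombination k T e)), ?_, ?_, ?_, ?_⟩
  · refine le_trans ?_ (FE_R_mono D M hD (Nat.succ_le_succ hj))
    rw [FE_R_succ]
    omega
  · intro e he v hv
    have he' : e ∈ Submodule.span k b := by
      rw [hb2]
      exact he
    induction he' using Submodule.span_induction with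
    | mem x hx =>
      have h1 : hfin.toFinset.inf (fun e => LinearMap.ker (Fintype.linearCombination k T e)) ≤
          LinearMap.ker (Fintype.linearCombination k T x) :=
        Finset.inf_le (hfin.mem_toFinset.2 hx)
      exact h1 hv
    | zero => rw [map_zero]; rfl
    | add x y hx hy hx' hy' =>
      rw [map_add, LinearMap.add_apply, hx' (by rw [hb2] at hx; exact hx),
        hy' (by rw [hb2] at hy; exact hy), add_zero]
    | smul a x hx hx' =>
      rw [map_smul, LinearMap.smul_apply, hx' (by rw [hb2] at hx; exact hx), smul_zero]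
  · have h1 := FE_inf hfin.toFinset (fun e => Fintype.linearCombination k T e) (FE_R D M j)
      (fun e he => hb1 (hfin.mem_toFinset.1 he))
    have h2 := Nat.mul_le_mul_right (FE_R D M j) hcard
    exact h1.trans (Nat.add_le_add_left h2 _)
  · intro e he
    by_contra h1
    apply he
    rw [← hSj]
    refine Submodule.subset_span ?_
    change _ ≤ FE_R D M (j + 1)
    rw [FE_R_succ]
    exact not_lt.1 h1

private theorem FE_vector [Finite k] [FiniteDimensional k V] (D : ℕ)
    (F : (Fin D → k) → Submodule k V) (V₁ : Submodule k V) (Bad : (Fin D → k) → Prop)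
    (h1 : ∀ e, Bad e → Module.finrank k (F e) + D < Module.finrank k V₁) :
    ∃ a ∈ V₁, ∀ e, Bad e → a ∉ F e := by
  classical
  by_contra hcon
  have hcon' : ∀ a : V₁, ∃ e, Bad e ∧ (a : V) ∈ F e := by
    intro a
    by_contra h2
    apply hcon
    refine ⟨a, a.2, fun e he hae => h2 ⟨e, he, hae⟩⟩
  have : Finite V := Module.finite_of_finite k
  have : Fintype k := Fintype.ofFinite k
  let q := Nat.card k
  have hq : 2 ≤ q := by
    have : 1 < Nat.card k := Finite.one_lt_card
    exact this
  obtain ⟨e₀, he₀, -⟩ := hcon' 0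
  have h2 := h1 e₀ he₀
  let F' : (Fin D → k) → Submodule k V := fun e => if Bad e then F e else ⊥
  have hF' : ∀ e, Module.finrank k (F' e) ≤ Module.finrank k V₁ - D - 1 := by
    intro e
    by_cases he : Bad e
    · have h3 := h1 e he
      have h4 : F' e = F e := if_pos he
      rw [h4]
      omega
    · have h4 : F' e = ⊥ := if_neg he
      rw [h4, finrank_bot]
      omega
  have hcard : ∀ e, Nat.card (F' e) ≤ q ^ (Module.finrank k V₁ - D - 1) := by
    intro e
    rw [Module.natCard_eq_pow_finrank (K := k)]
    exact Nat.pow_le_pow_right (by omega) (hF' e)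
  have hinj : ∃ j : V₁ → Σ e, F' e, Function.Injective j := by
    choose e he1 he2 using hcon'
    refine ⟨fun a => ⟨e a, ⟨(a : V), ?_⟩⟩, ?_⟩
    · have h4 : F' (e a) = F (e a) := if_pos (he1 a)
      rw [h4]
      exact he2 a
    · intro a b hab
      have h5 : ∀ x y : (Σ e, F' e), x = y → (x.2 : V) = (y.2 : V) := by
        rintro x y rfl
        rfl
      exact Subtype.ext (h5 _ _ hab)
  obtain ⟨j, hj⟩ := hinj
  have h6 := Nat.card_le_card_of_injective j hj
  rw [Nat.card_sigma] at h6
  have h7 : ∑ e, Nat.card (F' e) ≤ q ^ D * q ^ (Module.finrank k V₁ - D - 1) := by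
    calc ∑ e, Nat.card (F' e) ≤ ∑ _e : Fin D → k, q ^ (Module.finrank k V₁ - D - 1) :=
          Finset.sum_le_sum fun e _ => hcard e
      _ = q ^ D * q ^ (Module.finrank k V₁ - D - 1) := by
          rw [Finset.sum_const, Finset.card_univ, smul_eq_mul]
          congr 1
          rw [Fintype.card_fun, Fintype.card_fin, ← Nat.card_eq_fintype_card]
  have h8 : Nat.card V₁ = q ^ (Module.finrank k V₁) :=
    Module.natCard_eq_pow_finrank (K := k)
  have h9 : q ^ D * q ^ (Module.finrank k V₁ - D - 1) < q ^ (Module.finrank k V₁) := by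
    rw [← pow_add]
    exact Nat.pow_lt_pow_right (by omega) (by omega)
  omega

/-- sums of the images of elements of `A` -/
private def FE_comb {D : ℕ} (T : Fin D → V →ₗ[k] V) (A : Submodule k V) :
    (Fin D → A) →ₗ[k] V :=
  ∑ i, (T i) ∘ₗ A.subtype ∘ₗ LinearMap.proj i

private theorem FE_comb_apply {D : ℕ} (T : Fin D → V →ₗ[k] V) (A : Submodule k V)
    (b : Fin D → A) : FE_comb T A b = ∑ i, T i (b i) := by
  simp [FE_comb, LinearMap.sum_apply]

private theorem FE_lc_apply {D : ℕ} (T : Fin D → V →ₗ[k] V) (e : Fin D → k) (v : V) :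
    Fintype.linearCombination k T e v = ∑ i, e i • T i v := by
  rw [Fintype.linearCombination_apply, LinearMap.sum_apply]
  rfl

/-- the property of the subspaces constructed by induction -/
private def FE_Q {D : ℕ} (T : Fin D → V →ₗ[k] V) (P : (Fin D → k) →ₗ[k] (Fin D → k))
    (A : Submodule k V) : Prop :=
  ∀ b : Fin D → V, (∀ i, b i ∈ A) → ∑ i, T i (b i) = 0 →
    ∀ i, ∑ j, P (Pi.single j 1) i • b j = 0

private theorem FE_P_apply {D : ℕ} (P : (Fin D → k) →ₗ[k] (Fin D → k)) (e : Fin D → k)
    (i : Fin D) : P e i = ∑ j, e j * P (Pi.single j 1) i := by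
  have h1 : e = ∑ j, e j • (Pi.single j 1 : Fin D → k) := by
    funext i
    rw [Finset.sum_apply]
    simp [Pi.single_apply]
  conv_lhs => rw [h1]
  rw [map_sum, Finset.sum_apply]
  refine Finset.sum_congr rfl fun j _ => ?_
  rw [map_smul, Pi.smul_apply, smul_eq_mul]

private theorem FE_greedy [Finite k] [FiniteDimensional k V] {D M t : ℕ} (i₀ : Fin D)
    (T : Fin D → V →ₗ[k] V) (hT : T i₀ = LinearMap.id) (E₀ : Submodule k (Fin D → k))
    (V₁ : Submodule k V)
    (hk : ∀ e ∈ E₀, ∀ v ∈ V₁, Fintype.linearCombination k T e v = 0)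
    (hV : Module.finrank k V ≤ Module.finrank k V₁ + t)
    (hr : ∀ e, e ∉ E₀ → t + D * M + D <
        Module.finrank k (LinearMap.range (Fintype.linearCombination k T e)))
    (hi₀ : (Pi.single i₀ 1 : Fin D → k) ∉ E₀)
    (P : (Fin D → k) →ₗ[k] (Fin D → k)) (hP : ∀ e ∈ E₀, P e = 0) :
    ∀ m ≤ M, ∃ A ≤ V₁, Module.finrank k A = m ∧ FE_Q T P A := by
  classical
  intro m
  induction m with
  | zero =>
    intro _
    refine ⟨⊥, bot_le, finrank_bot k V, ?_⟩
    intro b hb _ i
    refine Finset.sum_eq_zero fun j _ => ?_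
    rw [(Submodule.mem_bot k).1 (hb j), smul_zero]
  | succ m ih =>
    intro hm
    obtain ⟨A, hA1, hA2, hA3⟩ := ih (by omega)
    let W := LinearMap.range (FE_comb T A)
    have hW : Module.finrank k W ≤ D * m := by
      refine (LinearMap.finrank_range_le _).trans ?_
      rw [Module.finrank_pi_fintype]
      simp [hA2]
    have hAW : A ≤ W := by
      intro x hx
      refine ⟨Pi.single i₀ ⟨x, hx⟩, ?_⟩
      rw [FE_comb_apply, Finset.sum_eq_single i₀]
      · rw [hT]
        simp
      · intro j _ hj
        simp [hj]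
      · intro h
        exact absurd (Finset.mem_univ _) h
    obtain ⟨a, ha1, ha2⟩ := FE_vector D
      (fun e => W.comap (Fintype.linearCombination k T e)) V₁ (fun e => e ∉ E₀) (by
        intro e he
        have h1 := FE_comap (Fintype.linearCombination k T e) W
        have h2 := hr e he
        have h3 : D * m + D ≤ D * M := by
          calc D * m + D = D * (m + 1) := by ring
            _ ≤ D * M := Nat.mul_le_mul_left D hm
        change Module.finrank k (W.comap (Fintype.linearCombination k T e)) + D < _
        omega)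
    have haA : a ∉ A := by
      intro h
      apply ha2 _ hi₀
      rw [Submodule.mem_comap, FE_lc_apply, Finset.sum_eq_single i₀]
      · rw [hT]
        simpa using hAW h
      · intro j _ hj
        simp [hj]
      · intro h
        exact absurd (Finset.mem_univ _) h
    have ha0 : a ≠ 0 := by
      rintro rfl
      exact haA (Submodule.zero_mem _)
    refine ⟨A ⊔ Submodule.span k {a}, ?_, ?_, ?_⟩
    · refine sup_le hA1 ?_
      rw [Submodule.span_singleton_le_iff_mem]
      exact ha1
    · have hd : A ⊓ Submodule.span k {a} = ⊥ := by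
        rw [eq_bot_iff]
        rintro x ⟨hx1, hx2⟩
        obtain ⟨s, rfl⟩ := Submodule.mem_span_singleton.1 hx2
        by_cases hs : s = 0
        · rw [hs, zero_smul]
          exact Submodule.zero_mem _
        · exfalso
          apply haA
          have := A.smul_mem s⁻¹ hx1
          rwa [smul_smul, inv_mul_cancel₀ hs, one_smul] at this
      have h1 := Submodule.finrank_sup_add_finrank_inf_eq A (Submodule.span k {a})
      rw [hd, finrank_bot, finrank_span_singleton ha0, hA2] at h1
      omega
    · intro b hb hsum i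
      have hdec : ∀ j, ∃ c : V, ∃ x : k, c ∈ A ∧ b j = c + x • a := by
        intro j
        obtain ⟨c, hc, y, hy, hcy⟩ := Submodule.mem_sup.1 (hb j)
        obtain ⟨x, rfl⟩ := Submodule.mem_span_singleton.1 hy
        exact ⟨c, x, hc, hcy.symm⟩
      choose c x hc hbx using hdec
      have h1 : ∑ j, T j (c j) + Fintype.linearCombination k T x a = 0 := by
        rw [FE_lc_apply, ← Finset.sum_add_distrib, ← hsum]
        refine Finset.sum_congr rfl fun j _ => ?_
        rw [hbx j, map_add, map_smul]
      have h2 : ∑ j, T j (c j) ∈ W := ⟨fun j => ⟨c j, hc j⟩, by rw [FE_comb_apply]⟩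
      have hx : x ∈ E₀ := by
        by_contra hx
        apply ha2 x hx
        rw [Submodule.mem_comap]
        have h3 : Fintype.linearCombination k T x a = -∑ j, T j (c j) := by
          rw [← add_eq_zero_iff_neg_eq.1 h1]
        rw [h3]
        exact W.neg_mem h2
      have h4 : ∑ j, T j (c j) = 0 := by
        rw [hk x hx a ha1, add_zero] at h1
        exact h1
      have h5 := hA3 c hc h4 i
      have h6 : ∑ j, x j * P (Pi.single j 1) i = 0 := by
        rw [← FE_P_apply, hP x hx]
        rfl
      have h7 : ∑ j, P (Pi.single j 1) i • b j =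
          ∑ j, P (Pi.single j 1) i • c j + (∑ j, x j * P (Pi.single j 1) i) • a := by
        rw [Finset.sum_smul, ← Finset.sum_add_distrib]
        refine Finset.sum_congr rfl fun j _ => ?_
        rw [hbx j, smul_add, smul_smul, mul_comm (x j)]
      rw [h7, h5, h6, zero_smul, add_zero]

end aux

theorem free_exists (s M : ℕ) (hs : 0 < s) : ∃ c : ℕ, ∀ (k : Type) [Field k] [Finite k]
    (V : Type) [AddCommGroup V] [Module k V] [FiniteDimensional k V]
    (f : Fin s → V ≃ₗ[k] V), (∀ i a, ¬ SmallRank c (f i) a) →
    ∃ A' : Submodule k V, Module.finrank k A' = M ∧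
      (∀ i, Disjoint A' (A'.map (f i : V →ₗ[k] V))) ∧
      ∀ B₁ ≤ A', ∀ B₂ ≤ A', Disjoint B₁ B₂ → Disjoint (PSp f B₁) (PSp f B₂) := by
  classical
  refine ⟨FE_R (s + 1) M (s + 2), ?_⟩
  intro k _ _ V _ _ _ f hf
  let T : Fin (s + 1) → V →ₗ[k] V := Fin.cons LinearMap.id (fun i => (f i : V →ₗ[k] V))
  have hT0 : T 0 = LinearMap.id := rfl
  have hTs : ∀ i : Fin s, T i.succ = (f i : V →ₗ[k] V) := fun i => rfl
  obtain ⟨t, E₀, V₁, ht, hk, hV, hr⟩ := FE_struct (s + 1) M (Nat.succ_pos s) T
  have ht' : t ≤ FE_R (s + 1) M (s + 2) := ht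
  -- ranks
  have hrk : ∀ (i : Fin s) (a : k), FE_R (s + 1) M (s + 2) <
      Module.finrank k (LinearMap.range ((f i : V →ₗ[k] V) - a • LinearMap.id)) := by
    intro i a
    by_contra h
    exact hf i a (FE_smallRank _ _ _ (not_lt.1 h))
  have hlc : ∀ (i : Fin s) (a : k) (v : V), Fintype.linearCombination k T
      (Pi.single i.succ 1 - a • Pi.single 0 1) v = f i v - a • v := by
    intro i a v
    rw [map_sub, map_smul, LinearMap.sub_apply, LinearMap.smul_apply,
      Fintype.linearCombination_apply_single, Fintype.linearCombination_apply_single,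
      one_smul, one_smul, hT0, hTs]
    rfl
  have hn1 : ∀ (i : Fin s) (a : k),
      (Pi.single i.succ 1 - a • Pi.single 0 1 : Fin (s + 1) → k) ∉ E₀ := by
    intro i a h
    have h1 : V₁ ≤ LinearMap.ker ((f i : V →ₗ[k] V) - a • LinearMap.id) := by
      intro v hv
      rw [LinearMap.mem_ker]
      have h2 := hk _ h v hv
      rw [hlc] at h2
      exact h2
    have h2 := Submodule.finrank_mono h1
    have h3 := LinearMap.finrank_range_add_finrank_ker ((f i : V →ₗ[k] V) - a • LinearMap.id)
    have h4 := hrk i a
    omega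
  have hn0 : (Pi.single 0 1 : Fin (s + 1) → k) ∉ E₀ := by
    intro h
    have h1 : V₁ ≤ ⊥ := by
      intro v hv
      have h2 := hk _ h v hv
      rw [Fintype.linearCombination_apply_single, one_smul, hT0] at h2
      exact (Submodule.mem_bot k).2 h2
    have h2 := Submodule.finrank_mono h1
    rw [finrank_bot] at h2
    have h4 := hrk ⟨0, hs⟩ 0
    have h5 := Submodule.finrank_le
      (LinearMap.range ((f ⟨0, hs⟩ : V →ₗ[k] V) - (0 : k) • LinearMap.id))
    omega
  -- the projection
  obtain ⟨P, hP0, hP1⟩ : ∃ P : (Fin (s + 1) → k) →ₗ[k] (Fin (s + 1) → k),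
      (∀ e, P e = 0 ↔ e ∈ E₀) ∧ ∀ e, e - P e ∈ E₀ := by
    obtain ⟨E₁, hE⟩ := Submodule.exists_isCompl E₀
    refine ⟨E₁.subtype ∘ₗ Submodule.projectionOnto E₁ E₀ hE.symm, ?_, ?_⟩
    · intro e
      rw [LinearMap.comp_apply, Submodule.subtype_apply, ZeroMemClass.coe_eq_zero,
        Submodule.projectionOnto_apply_eq_zero_iff]
    · intro e
      rw [← Submodule.projectionOnto_apply_eq_zero_iff hE.symm, map_sub,
        LinearMap.comp_apply, Submodule.subtype_apply,
        Submodule.projectionOnto_apply_left, sub_self]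
  obtain ⟨A', hA1, hA2, hA3⟩ := FE_greedy (M := M) (t := t) 0 T hT0 E₀ V₁ hk hV hr hn0 P
    (fun e he => (hP0 e).2 he) M le_rfl
  refine ⟨A', hA2, ?_, ?_⟩
  · intro i
    rw [Submodule.disjoint_def]
    intro x hx hx'
    obtain ⟨y, hy, hyx⟩ := Submodule.mem_map.1 hx'
    let b : Fin (s + 1) → V := fun j => if j = 0 then x else if j = i.succ then -y else 0
    have hb : ∀ j, b j ∈ A' := by
      intro j
      change (if j = 0 then x else if j = i.succ then -y else 0) ∈ A'
      split_ifs
      · exact hx
      · exact A'.neg_mem hy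
      · exact A'.zero_mem
    have hne : i.succ ≠ 0 := Fin.succ_ne_zero i
    have hsum : ∀ g : Fin (s + 1) → V → V, (∀ j, g j 0 = 0) →
        ∑ j, g j (b j) = g 0 x + g i.succ (-y) := by
      intro g hg
      rw [← Finset.sum_subset (Finset.subset_univ ({0, i.succ} : Finset (Fin (s + 1)))),
        Finset.sum_pair hne.symm]
      · simp [b, hne]
      · intro j _ hj
        simp only [Finset.mem_insert, Finset.mem_singleton, not_or] at hj
        have : b j = 0 := by simp [b, hj.1, hj.2]
        rw [this, hg]
    have h0 : ∑ j, T j (b j) = 0 := by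
      rw [hsum (fun j v => T j v) (fun j => map_zero _), hT0, hTs, map_neg]
      have : (f i : V →ₗ[k] V) y = x := hyx
      rw [this]
      simp
    have h1 := hA3 b hb h0
    have h2 : ∀ r, P (Pi.single 0 1) r • x = P (Pi.single i.succ 1) r • y := by
      intro r
      have h3 := h1 r
      rw [hsum (fun j v => P (Pi.single j 1) r • v) (fun j => smul_zero _), smul_neg,
        ← sub_eq_add_neg, sub_eq_zero] at h3
      exact h3
    have h3 : P (Pi.single 0 1) ≠ 0 := fun h => hn0 ((hP0 _).1 h)
    obtain ⟨r₀, hr₀⟩ := Function.ne_iff.1 h3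
    rw [Pi.zero_apply] at hr₀
    set c := (P (Pi.single 0 1) r₀)⁻¹ * P (Pi.single i.succ 1) r₀ with hc
    have h4 : x = c • y := by
      have h5 := congrArg (fun v => (P (Pi.single 0 1) r₀)⁻¹ • v) (h2 r₀)
      simp only [smul_smul] at h5
      rw [inv_mul_cancel₀ hr₀, one_smul] at h5
      exact h5
    have hy0 : y = 0 := by
      by_contra hy0
      apply hn1 i c
      rw [← hP0, map_sub, map_smul]
      funext r
      rw [Pi.sub_apply, Pi.smul_apply, Pi.zero_apply, smul_eq_mul]
      have h5 := h2 r
      rw [h4, smul_smul] at h5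
      have h6 : (P (Pi.single i.succ 1) r - c * P (Pi.single 0 1) r) • y = 0 := by
        rw [sub_smul, ← h5, mul_comm, sub_self]
      exact (smul_eq_zero.1 h6).resolve_right hy0
    rw [h4, hy0, smul_zero]
  · intro B₁ hB₁ B₂ hB₂ hdis
    have hPSp : ∀ B : Submodule k V, PSp f B ≤ LinearMap.range (FE_comb T B) := by
      intro B
      have h1 : ∀ (j : Fin (s + 1)) (x : V), x ∈ B → T j x ∈ LinearMap.range (FE_comb T B) := by
        intro j x hx
        refine ⟨Pi.single j ⟨x, hx⟩, ?_⟩
        rw [FE_comb_apply, Finset.sum_eq_single j]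
        · simp
        · intro j' _ hj'
          simp [hj']
        · intro h
          exact absurd (Finset.mem_univ _) h
      refine sup_le ?_ (iSup_le fun i => ?_)
      · intro x hx
        exact h1 0 x hx
      · rintro _ ⟨x, hx, rfl⟩
        exact h1 i.succ x hx
    rw [Submodule.disjoint_def] at hdis ⊢
    intro x hx1 hx2
    obtain ⟨b, hb⟩ := hPSp B₁ hx1
    obtain ⟨b', hb'⟩ := hPSp B₂ hx2
    rw [FE_comb_apply] at hb hb'
    have h1 := hA3 (fun j => (b j : V) - b' j)
      (fun j => A'.sub_mem (hB₁ (b j).2) (hB₂ (b' j).2)) (by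
        simp only [map_sub]
        rw [Finset.sum_sub_distrib, hb, hb', sub_self])
    have h2 : ∀ i, ∑ j, P (Pi.single j 1) i • (b j : V) = 0 := by
      intro i
      have h3 := h1 i
      simp only [smul_sub] at h3
      rw [Finset.sum_sub_distrib, sub_eq_zero] at h3
      refine hdis _ (B₁.sum_mem fun j _ => B₁.smul_mem _ (b j).2) ?_
      rw [h3]
      exact B₂.sum_mem fun j _ => B₂.smul_mem _ (b' j).2
    have h4 : ∀ j, T j (b j) = ∑ i, P (Pi.single j 1) i • T i (b j) := by
      intro j
      have h5 := hk _ (hP1 (Pi.single j 1)) (b j) (hA1 (hB₁ (b j).2))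
      rw [map_sub, LinearMap.sub_apply, Fintype.linearCombination_apply_single, one_smul,
        FE_lc_apply, sub_eq_zero] at h5
      exact h5
    rw [← hb]
    calc ∑ j, T j (b j) = ∑ j, ∑ i, P (Pi.single j 1) i • T i (b j) :=
          Finset.sum_congr rfl fun j _ => h4 j
      _ = ∑ i, T i (∑ j, P (Pi.single j 1) i • (b j : V)) := by
          rw [Finset.sum_comm]
          refine Finset.sum_congr rfl fun i _ => ?_
          rw [map_sum]
          refine Finset.sum_congr rfl fun j _ => ?_
          rw [map_smul]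
      _ = 0 := by
          refine Finset.sum_eq_zero fun i _ => ?_
          rw [h2 i, map_zero]

end H49KC
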