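import Pool.Agent.H49.KC.Defs

namespace H49KC

open H49KA H49KB

universe u v w

variable {k : Type} [Field k] [Finite k] {V : Type} [AddCommGroup V] [Module k V]
  [FiniteDimensional k V]

private lemma sg_se {σ : k →+* k} {ε : k} (hε : ε = 1 ∨ ε = -1) : σ ε = ε := by
  rcases hε with h | h <;> simp [h]

private lemma sg_ee {ε : k} (hε : ε = 1 ∨ ε = -1) : ε * ε = 1 := by
  rcases hε with h | h <;> simp [h]

theorem siegel_sys {Γ : Subgroup (V ≃ₗ[k] V)} {σ : k →+* k} {ε : k}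
    {B : V →ₗ[k] V →ₛₗ[σ] k} {sing : V → Prop} (hF : FSp Γ σ ε B sing)
    (hdim : 7 ≤ Module.finrank k V) (HV HW : Submodule k V) (h1 : ∀ x ∈ HV, sing x)
    (h2 : ∀ x ∈ HW, sing x) (h3 : ∀ x ∈ HV, ∀ y ∈ HV, B x y = 0)
    (h4 : ∀ x ∈ HW, ∀ y ∈ HW, B x y = 0)
    (h5 : ∀ φ : Module.Dual k HV, ∃ y ∈ HW, ∀ u : HV, B (u : V) y = φ u)
    (h6 : ∀ y ∈ HW, (∀ u ∈ HV, B u y = 0) → y = 0) :
    ∃ (w : Module.Dual k HV → V) (T : HV → Module.Dual k HV → Γ),
      (∀ φ, w φ ∈ HW) ∧ (∀ φ (u : HV), B (u : V) (w φ) = φ u) ∧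
      (∀ y ∈ HW, ∃ φ, w φ = y) ∧ (∀ φ ψ, w (φ + ψ) = w φ + w ψ) ∧
      (∀ (c : k) φ, w (c • φ) = σ c • w φ) ∧
      (∀ (u : HV) φ, φ u = 0 → ∀ y : V, (T u φ : V ≃ₗ[k] V) y =
        y + B y (u : V) • (-ε • w φ) - (ε * B y (-ε • w φ)) • (u : V)) ∧
      TSys (Module.Dual.eval k HV) T ∧
      ∀ (u : HV) φ, φ u = 0 → u ≠ 0 → φ ≠ 0 → (T u φ : V ≃ₗ[k] V) ∉ Scal k V := by
  classical
  have hσε : σ ε = ε := sg_se hF.hε
  have hεε : ε * ε = 1 := sg_ee hF.hε
  choose w hw1 hw2 using h5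
  -- uniqueness
  have huniq : ∀ y ∈ HW, ∀ y' ∈ HW, (∀ u : HV, B (u : V) y = B (u : V) y') → y = y' := by
    intro y hy y' hy' h
    have h0 : y - y' = 0 := by
      apply h6 _ (HW.sub_mem hy hy')
      intro u hu
      have := h ⟨u, hu⟩
      simp only at this
      rw [map_sub, this, sub_self]
    exact sub_eq_zero.1 h0
  have hwsurj : ∀ y ∈ HW, ∃ φ, w φ = y := by
    intro y hy
    -- need a linear functional u ↦ B u y
    let φ : Module.Dual k HV :=
      { toFun := fun u => B (u : V) y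
        map_add' := fun a b => by simp
        map_smul' := fun c a => by simp }
    refine ⟨φ, huniq _ (hw1 φ) _ hy fun u => ?_⟩
    rw [hw2 φ u]
    rfl
  have hwadd : ∀ φ ψ, w (φ + ψ) = w φ + w ψ := by
    intro φ ψ
    refine huniq _ (hw1 _) _ (HW.add_mem (hw1 _) (hw1 _)) fun u => ?_
    rw [hw2, map_add, hw2, hw2]
    rfl
  have hwsmul : ∀ (c : k) φ, w (c • φ) = σ c • w φ := by
    intro c φ
    refine huniq _ (hw1 _) _ (HW.smul_mem _ (hw1 _)) fun u => ?_
    rw [hw2, LinearMap.map_smulₛₗ, hw2, hF.hσ]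
    rfl
  have hex : ∀ (u : HV) (φ : Module.Dual k HV), ∃ x : Γ, φ u = 0 → ∀ y : V,
      (x : V ≃ₗ[k] V) y =
        y + B y (u : V) • (-ε • w φ) - (ε * B y (-ε • w φ)) • (u : V) := by
    intro u φ
    by_cases h : φ u = 0
    · obtain ⟨x, hx, hx2⟩ := hF.sieg hdim (u : V) (-ε • w φ) (h1 _ u.2)
        (h2 _ (HW.smul_mem _ (hw1 _))) (by rw [LinearMap.map_smulₛₗ, hw2, h, smul_zero])
      exact ⟨⟨x, hx⟩, fun _ => hx2⟩
    · exact ⟨1, fun h' => absurd h' h⟩
  choose T hT using hex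
  -- basic values
  have bVV : ∀ u v : HV, B (u : V) (v : V) = 0 := fun u v => h3 _ u.2 _ v.2
  have bWW : ∀ φ ψ, B (w φ) (w ψ) = 0 := fun φ ψ => h4 _ (hw1 _) _ (hw1 _)
  have bWV : ∀ φ (u : HV), B (w φ) (u : V) = ε * σ (φ u) := by
    intro φ u
    rw [hF.symm (u : V) (w φ), hw2]
  refine ⟨w, T, hw1, hw2, hwsurj, hwadd, hwsmul, hT, ?_, ?_⟩
  · refine ⟨?_, ?_, ?_, ?_⟩
    · intro u v φ hu hv
      have hu' : φ u = 0 := hu
      have hv' : φ v = 0 := hv
      have huv : φ (u + v) = 0 := by rw [map_add, hu', hv', add_zero]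
      apply Subtype.ext
      apply LinearEquiv.ext
      intro z
      rw [hT (u + v) φ huv z]
      show _ = (T u φ : V ≃ₗ[k] V) ((T v φ : V ≃ₗ[k] V) z)
      rw [hT v φ hv' z, hT u φ hu' _]
      simp only [map_add, map_sub, LinearMap.add_apply, LinearMap.sub_apply, map_smul,
        LinearMap.smul_apply, LinearMap.map_smulₛₗ, bVV, bWW, bWV, hw2, hu', hv', map_zero,
        mul_zero, smul_zero, sub_zero, add_zero, Submodule.coe_add, map_neg, hσε, smul_eq_mul]
      module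
    · intro u φ ψ hφ hψ
      have hφ' : φ u = 0 := hφ
      have hψ' : ψ u = 0 := hψ
      have h0 : (φ + ψ) u = 0 := by rw [LinearMap.add_apply, hφ', hψ', add_zero]
      apply Subtype.ext
      apply LinearEquiv.ext
      intro z
      rw [hT u (φ + ψ) h0 z]
      show _ = (T u φ : V ≃ₗ[k] V) ((T u ψ : V ≃ₗ[k] V) z)
      rw [hT u ψ hψ' z, hT u φ hφ' _]
      simp only [hwadd, map_add, map_sub, LinearMap.add_apply, LinearMap.sub_apply, map_smul,
        LinearMap.smul_apply, LinearMap.map_smulₛₗ, bVV, bWW, bWV, hw2, hφ', hψ', map_zero,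
        mul_zero, smul_zero, sub_zero, add_zero, map_neg, hσε, smul_eq_mul]
      module
    · intro c u φ hφ
      have hφ' : φ u = 0 := hφ
      have ha : φ (c • u) = 0 := by rw [map_smul, hφ', smul_zero]
      have hb : (c • φ) u = 0 := by rw [LinearMap.smul_apply, hφ', smul_zero]
      apply Subtype.ext
      apply LinearEquiv.ext
      intro z
      rw [hT (c • u) φ ha z, hT u (c • φ) hb z]
      simp only [hwsmul, LinearMap.map_smulₛₗ, Submodule.coe_smul, hF.hσ, smul_eq_mul, map_neg,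
        hσε]
      module
    · intro v ψ u φ hψ hφ
      have hψ' : ψ v = 0 := hψ
      have hφ' : φ u = 0 := hφ
      have e1 : Module.Dual.eval k HV u ψ = ψ u := rfl
      have e2 : Module.Dual.eval k HV v φ = φ v := rfl
      rw [e1, e2]
      have h0 : (φ - φ v • ψ) (u + ψ u • v) = 0 := by
        simp only [LinearMap.sub_apply, LinearMap.smul_apply, map_add, map_smul, hψ', hφ',
          smul_eq_mul]
        ring
      rw [mul_inv_eq_iff_eq_mul]
      apply Subtype.ext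
      apply LinearEquiv.ext
      intro z
      show (T v ψ : V ≃ₗ[k] V) ((T u φ : V ≃ₗ[k] V) z) =
        (T (u + ψ u • v) (φ - φ v • ψ) : V ≃ₗ[k] V) ((T v ψ : V ≃ₗ[k] V) z)
      have hwsub : w (φ - φ v • ψ) = w φ - σ (φ v) • w ψ := by
        have h := hwadd (φ - φ v • ψ) (φ v • ψ)
        rw [sub_add_cancel, hwsmul] at h
        rw [h]
        abel
      rw [hT u φ hφ' z, hT _ _ h0 _, hT v ψ hψ' z, hT v ψ hψ' _]
      simp only [hwsub, map_add, map_sub, LinearMap.add_apply, LinearMap.sub_apply, map_smul,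
        LinearMap.smul_apply, LinearMap.map_smulₛₗ, bVV, bWW, bWV, hw2, hφ', hψ', map_zero,
        mul_zero, smul_zero, sub_zero, add_zero, map_neg, hσε, smul_eq_mul, Submodule.coe_add,
        Submodule.coe_smul, hF.hσ]
      rcases hF.hε with he | he
      · subst he
        module
      · subst he
        module
  · intro u φ hφ hu hφ0 hsc
    obtain ⟨a, ha⟩ := hsc
    have hua := ha (u : V)
    rw [hT u φ hφ (u : V)] at hua
    have hu' : (u : V) ≠ 0 := fun h => hu (Subtype.ext h)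
    simp only [bVV, LinearMap.map_smulₛₗ, hw2, hφ, smul_zero, mul_zero, zero_smul, add_zero,
      sub_zero] at hua
    have ha1 : a = 1 := by
      have : (a - 1) • (u : V) = 0 := by rw [sub_smul, one_smul, ← hua, sub_self]
      rcases smul_eq_zero.1 this with h | h
      · exact sub_eq_zero.1 h
      · exact absurd h hu'
    apply hφ0
    ext v
    have hva := ha (v : V)
    rw [hT u φ hφ (v : V), ha1, one_smul] at hva
    simp only [bVV, LinearMap.map_smulₛₗ, hw2, zero_smul, add_zero, map_neg, hσε] at hva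
    have h7 : (ε * (-ε • φ v)) • (u : V) = 0 := by
      have := sub_eq_self.1 hva
      exact this
    rcases smul_eq_zero.1 h7 with h | h
    · simp only [smul_eq_mul, neg_mul, mul_neg, neg_eq_zero, ← mul_assoc, hεε, one_mul] at h
      simpa using h
    · exact absurd h hu'

end H49KC
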