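import Pool.Agent.H49.KC.Defs

namespace H49KC

open H49KA H49KB

universe u v w

variable {k : Type} [Field k] [Finite k] {V : Type} [AddCommGroup V] [Module k V]
  [FiniteDimensional k V]

/-- The projection onto `PL` killing `PA`. -/
private theorem SP_proj (PA PL : Submodule k V) (hd : Disjoint PA PL) :
    ∃ f : V →ₗ[k] PL, (∀ x ∈ PA, f x = 0) ∧ ∀ x : PL, f x = x := by
  have hinj : LinearMap.ker (PA.mkQ ∘ₗ PL.subtype) = ⊥ := by
    rw [LinearMap.ker_eq_bot']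
    intro m hm
    rw [LinearMap.comp_apply, Submodule.mkQ_apply, Submodule.Quotient.mk_eq_zero] at hm
    exact Subtype.ext (Submodule.disjoint_def.1 hd _ hm m.2)
  obtain ⟨g, hg⟩ := LinearMap.exists_leftInverse_of_injective _ hinj
  refine ⟨g ∘ₗ PA.mkQ, fun x hx => ?_, fun x => ?_⟩
  · rw [LinearMap.comp_apply, Submodule.mkQ_apply, (Submodule.Quotient.mk_eq_zero _).2 hx,
      map_zero]
  · exact congrArg (fun h : PL →ₗ[k] PL => h x) hg

theorem split_ts {Γ : Subgroup (V ≃ₗ[k] V)} {σ : k →+* k} {ε : k} {B : V →ₗ[k] V →ₛₗ[σ] k}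
    {sing : V → Prop} (hF : FSp Γ σ ε B sing) (PA PL : Submodule k V) (hd : Disjoint PA PL)
    (h1 : ∀ x ∈ PA ⊔ PL, sing x) (h2 : ∀ x ∈ PA ⊔ PL, ∀ y ∈ PA ⊔ PL, B x y = 0) :
    ∃ HV HW : Submodule k V, PA ≤ HV ∧ PL ≤ HW ∧ (∀ x ∈ HV, sing x) ∧ (∀ x ∈ HW, sing x) ∧
      (∀ x ∈ HV, ∀ y ∈ HV, B x y = 0) ∧ (∀ x ∈ HW, ∀ y ∈ HW, B x y = 0) ∧
      (∀ φ : Module.Dual k HV, ∃ y ∈ HW, ∀ u : HV, B (u : V) y = φ u) ∧
      ∀ y ∈ HW, (∀ u ∈ HV, B u y = 0) → y = 0 := by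
  classical
  obtain ⟨w, wadd, wsmul, wB, wsing, wiso⟩ := hF.hyp (PA ⊔ PL) h1 h2
  have w0 : w 0 = 0 := by
    have h := wadd 0 0
    rw [add_zero] at h
    exact left_eq_add.1 h
  have hσ0 : ∀ c, σ c = 0 → c = 0 := by
    intro c hc
    have h := hF.hσ c
    rw [hc, map_zero] at h
    exact h.symm
  have hσε : σ ε = ε := by
    rcases hF.hε with h | h
    · rw [h, map_one]
    · rw [h, map_neg, map_one]
  have hεε : ε * ε = 1 := by
    rcases hF.hε with h | h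
    · rw [h, mul_one]
    · rw [h]; ring
  have hleA : ∀ x ∈ PA, x ∈ PA ⊔ PL := fun x hx => Submodule.mem_sup_left hx
  have hleL : ∀ x ∈ PL, x ∈ PA ⊔ PL := fun x hx => Submodule.mem_sup_right hx
  -- the images of the functionals vanishing on `Q`
  let W : Submodule k V → Submodule k V := fun Q =>
    { carrier := {v | ∃ φ : Module.Dual k (PA ⊔ PL : Submodule k V),
        (∀ u : (PA ⊔ PL : Submodule k V), (u : V) ∈ Q → φ u = 0) ∧ v = w φ}
      add_mem' := by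
        rintro _ _ ⟨φ, hφ, rfl⟩ ⟨ψ, hψ, rfl⟩
        exact ⟨φ + ψ, fun u hu => by rw [LinearMap.add_apply, hφ u hu, hψ u hu, add_zero],
          (wadd φ ψ).symm⟩
      zero_mem' := ⟨0, fun u _ => rfl, w0.symm⟩
      smul_mem' := by
        rintro c _ ⟨φ, hφ, rfl⟩
        exact ⟨σ c • φ, fun u hu => by rw [LinearMap.smul_apply, hφ u hu, smul_zero],
          by rw [wsmul, hF.hσ]⟩ }
  have hW : ∀ Q v, v ∈ W Q ↔ ∃ φ : Module.Dual k (PA ⊔ PL : Submodule k V),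
      (∀ u : (PA ⊔ PL : Submodule k V), (u : V) ∈ Q → φ u = 0) ∧ v = w φ := fun Q v => Iff.rfl
  -- `Q + W Q` is totally singular
  have key : ∀ Q : Submodule k V, Q ≤ PA ⊔ PL → ∀ x ∈ Q ⊔ W Q, ∃ a ∈ Q,
      ∃ φ : Module.Dual k (PA ⊔ PL : Submodule k V),
      (∀ u : (PA ⊔ PL : Submodule k V), (u : V) ∈ Q → φ u = 0) ∧ x = a + w φ := by
    intro Q _ x hx
    obtain ⟨a, ha, v, ⟨φ, hφ, rfl⟩, rfl⟩ := Submodule.mem_sup.1 hx
    exact ⟨a, ha, φ, hφ, rfl⟩
  have hBw : ∀ (Q : Submodule k V) (hQ : Q ≤ PA ⊔ PL) (φ : Module.Dual k (PA ⊔ PL : Submodule k V)),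
      (∀ u : (PA ⊔ PL : Submodule k V), (u : V) ∈ Q → φ u = 0) → ∀ a ∈ Q, B a (w φ) = 0 := by
    intro Q hQ φ hφ a ha
    have h := wB φ ⟨a, hQ ha⟩
    rw [hφ ⟨a, hQ ha⟩ ha] at h
    exact h
  have hts : ∀ Q : Submodule k V, Q ≤ PA ⊔ PL → ∀ x ∈ Q ⊔ W Q, sing x := by
    intro Q hQ x hx
    obtain ⟨a, ha, φ, hφ, rfl⟩ := key Q hQ x hx
    exact hF.sing_add _ _ (h1 a (hQ ha)) (wsing φ) (hBw Q hQ φ hφ a ha)
  have hexp : ∀ a c b d : V, B (a + c) (b + d) = B a b + B a d + B c b + B c d := by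
    intro a c b d
    simp only [map_add, LinearMap.add_apply]
    ring
  have hti : ∀ Q : Submodule k V, Q ≤ PA ⊔ PL → ∀ x ∈ Q ⊔ W Q, ∀ y ∈ Q ⊔ W Q, B x y = 0 := by
    intro Q hQ x hx y hy
    obtain ⟨a, ha, φ, hφ, rfl⟩ := key Q hQ x hx
    obtain ⟨b, hb, ψ, hψ, rfl⟩ := key Q hQ y hy
    have e1 : B (w φ) b = 0 := by
      rw [hF.symm b (w φ), hBw Q hQ φ hφ b hb, map_zero, mul_zero]
    rw [hexp, h2 a (hQ ha) b (hQ hb), hBw Q hQ ψ hψ a ha, e1, wiso]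
    simp
  have hPA : PA ≤ PA ⊔ PL := le_sup_left
  have hPL : PL ≤ PA ⊔ PL := le_sup_right
  obtain ⟨f, hf0, hf1⟩ := SP_proj PA PL hd
  obtain ⟨f', hf0', hf1'⟩ := SP_proj PL PA hd.symm
  -- functionals vanishing on `PA` factor through the projection
  have hfac : ∀ (χ : Module.Dual k (PA ⊔ PL : Submodule k V)),
      (∀ u : (PA ⊔ PL : Submodule k V), (u : V) ∈ PA → χ u = 0) →
      ∀ u : (PA ⊔ PL : Submodule k V), χ u = χ ⟨f u, hPL (f u).2⟩ := by
    intro χ hχ u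
    obtain ⟨a, ha, l, hl, hu⟩ := Submodule.mem_sup.1 u.2
    have hfu : (f u : V) = l := by
      have h3 : f (u : V) = ⟨l, hl⟩ := by
        rw [← hu, map_add, hf0 a ha, zero_add]
        exact hf1 ⟨l, hl⟩
      rw [h3]
    have hsum : u = ⟨a, hPA ha⟩ + ⟨f u, hPL (f u).2⟩ := by
      apply Subtype.ext
      change (u : V) = a + (f u : V)
      rw [hfu, hu]
    conv_lhs => rw [hsum]
    rw [map_add, hχ ⟨a, hPA ha⟩ ha, zero_add]
  -- the functional `χ'` of `PL` extended by zero on `PA`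
  let ext : Module.Dual k PL → Module.Dual k (PA ⊔ PL : Submodule k V) := fun χ =>
    χ ∘ₗ f ∘ₗ (PA ⊔ PL : Submodule k V).subtype
  have hext0 : ∀ χ, ∀ u : (PA ⊔ PL : Submodule k V), (u : V) ∈ PA → ext χ u = 0 := by
    intro χ u hu
    change χ (f (u : V)) = 0
    rw [hf0 _ hu, map_zero]
  have hext1 : ∀ χ (l : PL), ext χ ⟨l, hPL l.2⟩ = χ l := by
    intro χ l
    change χ (f (l : V)) = χ l
    rw [hf1]
  have hmem : ∀ χ, w (ext χ) ∈ PA ⊔ W PA := fun χ =>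
    Submodule.mem_sup_right ((hW _ _).2 ⟨ext χ, hext0 χ, rfl⟩)
  refine ⟨PA ⊔ W PA, PL ⊔ W PL, le_sup_left, le_sup_left, hts PA hPA, hts PL hPL, hti PA hPA,
    hti PL hPL, ?_, ?_⟩
  · intro φ
    -- the double dual element
    let g : Module.Dual k (Module.Dual k PL) :=
      { toFun := fun χ => σ (ε * φ ⟨w (ext χ), hmem χ⟩)
        map_add' := by
          intro χ χ'
          have h3 : (⟨w (ext (χ + χ')), hmem _⟩ : (PA ⊔ W PA : Submodule k V)) =
              ⟨w (ext χ), hmem χ⟩ + ⟨w (ext χ'), hmem χ'⟩ := by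
            apply Subtype.ext
            change w (ext (χ + χ')) = w (ext χ) + w (ext χ')
            rw [← wadd]
            rfl
          rw [h3, map_add, mul_add, map_add]
        map_smul' := by
          intro c χ
          have h3 : (⟨w (ext (c • χ)), hmem _⟩ : (PA ⊔ W PA : Submodule k V)) =
              σ c • ⟨w (ext χ), hmem χ⟩ := by
            apply Subtype.ext
            change w (ext (c • χ)) = σ c • w (ext χ)
            rw [← wsmul]
            rfl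
          rw [h3, map_smul, smul_eq_mul, mul_left_comm, map_mul, hF.hσ]
          rfl }
    obtain ⟨y2, hy2⟩ : ∃ y2 : PL, ∀ χ : Module.Dual k PL, χ y2 = g χ := by
      refine ⟨(Module.evalEquiv k PL).symm g, fun χ => ?_⟩
      have h3 := congrArg (fun G : Module.Dual k (Module.Dual k PL) => G χ)
        ((Module.evalEquiv k PL).apply_symm_apply g)
      exact h3
    let ψ : Module.Dual k (PA ⊔ PL : Submodule k V) :=
      φ ∘ₗ Submodule.inclusion (le_sup_left : PA ≤ PA ⊔ W PA) ∘ₗ f' ∘ₗ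
        (PA ⊔ PL : Submodule k V).subtype
    have hψ0 : ∀ u : (PA ⊔ PL : Submodule k V), (u : V) ∈ PL → ψ u = 0 := by
      intro u hu
      change φ (Submodule.inclusion le_sup_left (f' (u : V))) = 0
      rw [hf0' _ hu, map_zero, map_zero]
    have hψ1 : ∀ (a : V) (ha : a ∈ PA), ψ ⟨a, hPA ha⟩ = φ ⟨a, Submodule.mem_sup_left ha⟩ := by
      intro a ha
      change φ (Submodule.inclusion le_sup_left (f' a)) = _
      have h3 : f' a = ⟨a, ha⟩ := hf1' ⟨a, ha⟩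
      rw [h3]
      rfl
    refine ⟨y2 + w ψ, Submodule.add_mem_sup y2.2 ((hW _ _).2 ⟨ψ, hψ0, rfl⟩), ?_⟩
    intro u
    obtain ⟨a, ha, χ, hχ, hu⟩ := key PA hPA u u.2
    have hχmem : w χ ∈ PA ⊔ W PA := Submodule.mem_sup_right ((hW _ _).2 ⟨χ, hχ, rfl⟩)
    have hu' : u = ⟨a, Submodule.mem_sup_left ha⟩ + ⟨w χ, hχmem⟩ := Subtype.ext hu
    have e1 : B a (w ψ) = φ ⟨a, Submodule.mem_sup_left ha⟩ := by
      have h3 := wB ψ ⟨a, hPA ha⟩
      rw [hψ1 a ha] at h3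
      exact h3
    have e2 : B (w χ) (y2 : V) = φ ⟨w χ, hχmem⟩ := by
      have hχe : χ = ext (χ ∘ₗ Submodule.inclusion hPL) := by
        refine LinearMap.ext fun u => ?_
        rw [hfac χ hχ u]
        rfl
      have h3 : B (y2 : V) (w χ) = χ ⟨y2, hPL y2.2⟩ := wB χ ⟨y2, hPL y2.2⟩
      have h4 : χ ⟨y2, hPL y2.2⟩ = σ (ε * φ ⟨w χ, hχmem⟩) := by
        have h5 := hy2 (χ ∘ₗ Submodule.inclusion hPL)
        have h6 : g (χ ∘ₗ Submodule.inclusion hPL) = σ (ε * φ ⟨w χ, hχmem⟩) := by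
          change σ (ε * φ ⟨w (ext (χ ∘ₗ Submodule.inclusion hPL)), hmem _⟩) = _
          congr 3
          apply Subtype.ext
          change w (ext (χ ∘ₗ Submodule.inclusion hPL)) = w χ
          rw [← hχe]
        rw [h6] at h5
        exact h5
      rw [hF.symm (y2 : V) (w χ), h3, h4, hF.hσ, ← mul_assoc, hεε, one_mul]
    have e3 : φ u = φ ⟨a, Submodule.mem_sup_left ha⟩ + φ ⟨w χ, hχmem⟩ := by
      rw [hu', map_add]
    rw [e3, hu, hexp, e1, e2, h2 a (hPA ha) y2 (hPL y2.2), wiso]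
    ring
  · intro y hy hyu
    obtain ⟨l, hl, ψ, hψ, rfl⟩ := key PL hPL y hy
    have hψA : ∀ u : (PA ⊔ PL : Submodule k V), (u : V) ∈ PA → ψ u = 0 := by
      intro u hu
      have h3 := hyu u (Submodule.mem_sup_left hu)
      rw [map_add, h2 _ (hPA hu) l (hPL hl), zero_add, wB] at h3
      exact h3
    have hψz : ψ = 0 := by
      refine LinearMap.ext fun u => ?_
      rw [hfac ψ hψA u, hψ _ (f u).2]
      rfl
    rw [hψz, w0, add_zero] at hyu ⊢
    by_contra hne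
    have hl0 : (⟨l, hl⟩ : PL) ≠ 0 := fun h => hne (congrArg Subtype.val h)
    obtain ⟨χ, hχ⟩ : ∃ χ : Module.Dual k PL, χ ⟨l, hl⟩ ≠ 0 := by
      by_contra hcon
      push Not at hcon
      exact hl0 ((Module.forall_dual_apply_eq_zero_iff k _).1 hcon)
    have h3 := hyu (w (ext χ)) (hmem χ)
    have h4 : B l (w (ext χ)) = χ ⟨l, hl⟩ := by
      have h5 := wB (ext χ) ⟨l, hPL hl⟩
      rw [h5]
      exact hext1 χ ⟨l, hl⟩
    rw [hF.symm l, h4] at h3
    apply hχ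
    apply hσ0
    have h6 : ε * (ε * σ (χ ⟨l, hl⟩)) = 0 := by rw [h3, mul_zero]
    rwa [← mul_assoc, hεε, one_mul] at h6

end H49KC
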