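import Pool.Agent.H49.KC.Defs

namespace H49KC

open H49KA H49KB

universe u v w

variable {k : Type} [Field k] [Finite k] {V : Type} [AddCommGroup V] [Module k V]
  [FiniteDimensional k V]

private theorem TS_zero {Γ : Subgroup (V ≃ₗ[k] V)} {σ : k →+* k} {ε : k}
    {B : V →ₗ[k] V →ₛₗ[σ] k} {sing : V → Prop} (hF : FSp Γ σ ε B sing) (v : V) (hv : sing v) :
    sing 0 := by
  have h := hF.sing_smul 0 v hv
  rwa [zero_smul] at h

/-- the family `1, f_0, f_1, …` -/
private def TS_T {s : ℕ} (f : Fin s → V ≃ₗ[k] V) : Fin (s + 1) → V ≃ₗ[k] V :=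
  Fin.cons (1 : V ≃ₗ[k] V) f

private theorem TS_T_mem {Γ : Subgroup (V ≃ₗ[k] V)} {s : ℕ} (f : Fin s → V ≃ₗ[k] V)
    (hf : ∀ i, f i ∈ Γ) (i : Fin (s + 1)) : TS_T f i ∈ Γ := by
  refine Fin.cases ?_ (fun i => ?_) i
  · exact Γ.one_mem
  · exact hf i

/-- criterion for `PSp f A` to be totally singular -/
private theorem TS_crit {Γ : Subgroup (V ≃ₗ[k] V)} {σ : k →+* k} {ε : k}
    {B : V →ₗ[k] V →ₛₗ[σ] k} {sing : V → Prop} (hF : FSp Γ σ ε B sing) {s : ℕ}
    (f : Fin s → V ≃ₗ[k] V) (hf : ∀ i, f i ∈ Γ) (A : Submodule k V) (h0 : sing 0)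
    (hs : ∀ a ∈ A, sing a)
    (hB : ∀ i j, ∀ a ∈ A, ∀ a' ∈ A, B (TS_T f i a) (TS_T f j a') = 0) :
    (∀ x ∈ PSp f A, sing x) ∧ ∀ x ∈ PSp f A, ∀ y ∈ PSp f A, B x y = 0 := by
  let S : Set V := {x | ∃ i, ∃ a ∈ A, TS_T f i a = x}
  have hle : PSp f A ≤ Submodule.span k S := by
    refine sup_le ?_ (iSup_le fun i => ?_)
    · intro a ha
      exact Submodule.subset_span ⟨0, a, ha, rfl⟩
    · rintro _ ⟨a, ha, rfl⟩
      exact Submodule.subset_span ⟨i.succ, a, ha, rfl⟩
  have h1 : ∀ x ∈ S, ∀ y ∈ Submodule.span k S, B x y = 0 := by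
    rintro _ ⟨i, a, ha, rfl⟩ y hy
    induction hy using Submodule.span_induction with
    | mem y hy =>
      obtain ⟨j, a', ha', rfl⟩ := hy
      exact hB i j a ha a' ha'
    | zero => exact map_zero _
    | add y z _ _ hy hz => rw [map_add, hy, hz, add_zero]
    | smul c y _ hy => rw [LinearMap.map_smulₛₗ, hy, smul_zero]
  have h2 : ∀ x ∈ Submodule.span k S, ∀ y ∈ Submodule.span k S, B x y = 0 := by
    intro x hx y hy
    induction hx using Submodule.span_induction with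
    | mem x hx => exact h1 x hx y hy
    | zero => rw [map_zero]; rfl
    | add x z _ _ hx hz => rw [map_add, LinearMap.add_apply, hx, hz, add_zero]
    | smul c x _ hx => rw [map_smul, LinearMap.smul_apply, hx, smul_zero]
  have h3 : ∀ x ∈ Submodule.span k S, sing x := by
    intro x hx
    induction hx using Submodule.span_induction with
    | mem x hx =>
      obtain ⟨j, a', ha', rfl⟩ := hx
      exact hF.presS _ (TS_T_mem f hf j) _ (hs a' ha')
    | zero => exact h0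
    | add x z hx' hz' hx hz => exact hF.sing_add _ _ hx hz (h2 x hx' z hz')
    | smul c x _ hx => exact hF.sing_smul c x hx
  exact ⟨fun x hx => h3 x (hle hx), fun x hx y hy => h2 x (hle hx) y (hle hy)⟩

private theorem TS_step {Γ : Subgroup (V ≃ₗ[k] V)} {σ : k →+* k} {ε : k}
    {B : V →ₗ[k] V →ₛₗ[σ] k} {sing : V → Prop} (hF : FSp Γ σ ε B sing) {s : ℕ}
    (f : Fin s → V ≃ₗ[k] V) (hf : ∀ i, f i ∈ Γ) (A' A : Submodule k V) (hAA' : A ≤ A')
    (hs : ∀ a ∈ A, sing a)
    (hB : ∀ i j, ∀ a ∈ A, ∀ a' ∈ A, B (TS_T f i a) (TS_T f j a') = 0)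
    (hdim : Module.finrank k A + (s + 1) ^ 2 * Module.finrank k A + 2 * ((s + 1) ^ 2 + 1) <
      Module.finrank k A') :
    ∃ A₁ ≤ A', Module.finrank k A₁ = Module.finrank k A + 1 ∧ (∀ a ∈ A₁, sing a) ∧
      ∀ i j, ∀ a ∈ A₁, ∀ a' ∈ A₁, B (TS_T f i a) (TS_T f j a') = 0 := by
  classical
  obtain ⟨C, hC⟩ := exists_isCompl A
  let A'' : Submodule k V := C ⊓ A'
  have hdisj : A ⊓ A'' = ⊥ := by
    rw [eq_bot_iff, ← hC.inf_eq_bot]
    exact inf_le_inf_left A inf_le_left
  have hsup : A ⊔ A'' = A' := by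
    change A ⊔ C ⊓ A' = A'
    rw [← sup_inf_assoc_of_le C hAA', hC.sup_eq_top, top_inf_eq]
  have hfr : Module.finrank k A + Module.finrank k A'' = Module.finrank k A' := by
    have h := Submodule.finrank_sup_add_finrank_inf_eq A A''
    rw [hdisj, hsup, finrank_bot, add_zero] at h
    exact h.symm
  let bb := Module.finBasis k A
  let Φ : A'' →ₗ[k] (Fin (s + 1) × Fin (s + 1) × Fin (Module.finrank k A) → k) :=
    LinearMap.pi fun p =>
      (B.flip (((TS_T f p.1)⁻¹ * TS_T f p.2.1) (bb p.2.2 : V))) ∘ₗ A''.subtype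
  let W : Submodule k V := (LinearMap.ker Φ).map A''.subtype
  have hWfr : Module.finrank k W = Module.finrank k (LinearMap.ker Φ) :=
    LinearEquiv.finrank_eq
      (Submodule.equivMapOfInjective A''.subtype (Submodule.injective_subtype _) _).symm
  have hrk := LinearMap.finrank_range_add_finrank_ker Φ
  have hrle : Module.finrank k (LinearMap.range Φ) ≤ (s + 1) ^ 2 * Module.finrank k A := by
    refine (Submodule.finrank_le _).trans ?_
    rw [Module.finrank_fintype_fun_eq_card]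
    simp only [Fintype.card_prod, Fintype.card_fin]
    apply le_of_eq
    ring
  let Λ : Finset (V ≃ₗ[k] V) :=
    (Finset.univ : Finset (Fin (s + 1) × Fin (s + 1))).image fun p =>
      (TS_T f p.1)⁻¹ * TS_T f p.2
  have hΛ : Λ.card ≤ (s + 1) ^ 2 := by
    refine Finset.card_image_le.trans ?_
    rw [Finset.card_univ, Fintype.card_prod, Fintype.card_fin]
    apply le_of_eq
    ring
  have hlt : 2 * (Λ.card + 1) < Module.finrank k W := by
    have h1 : 2 * (Λ.card + 1) ≤ 2 * ((s + 1) ^ 2 + 1) := by omega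
    omega
  obtain ⟨v, hvW, hv0, hvs, hvB⟩ := hF.cw Λ W hlt
  obtain ⟨v', hv'k, hv'⟩ := hvW
  have hvA'' : v ∈ A'' := by
    rw [← hv']
    exact v'.2
  have hvA : v ∉ A := by
    intro h
    apply hv0
    have h1 : v ∈ A ⊓ A'' := ⟨h, hvA''⟩
    rw [hdisj] at h1
    exact (Submodule.mem_bot k).1 h1
  have hT : ∀ i, TS_T f i ∈ Γ := TS_T_mem f hf
  have hvv : ∀ i j, B (TS_T f i v) (TS_T f j v) = 0 := by
    intro i j
    have h1 := hF.presB _ (Γ.inv_mem (hT i)) (TS_T f i v) (TS_T f j v)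
    have h2 : (TS_T f i)⁻¹ (TS_T f i v) = v := (TS_T f i).symm_apply_apply v
    rw [h2] at h1
    rw [← h1]
    exact hvB ((TS_T f i)⁻¹ * TS_T f j)
      (Finset.mem_image.2 ⟨(i, j), Finset.mem_univ _, rfl⟩)
  have hvb : ∀ i j, ∀ b ∈ A, B (TS_T f i v) (TS_T f j b) = 0 := by
    intro i j b hb
    have h1 := hF.presB _ (Γ.inv_mem (hT i)) (TS_T f i v) (TS_T f j b)
    have h2 : (TS_T f i)⁻¹ (TS_T f i v) = v := (TS_T f i).symm_apply_apply v
    rw [h2] at h1
    rw [← h1]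
    have h3 : ∀ n, B v ((TS_T f i)⁻¹ (TS_T f j (bb n : V))) = 0 := by
      intro n
      have h4 : Φ v' = 0 := hv'k
      have h5 : Φ v' (i, j, n) = 0 := by rw [h4]; rfl
      rw [← hv']
      exact h5
    have h6 : ∀ b' : A, B v ((TS_T f i)⁻¹ (TS_T f j (b' : V))) = 0 := by
      intro b'
      have h7 : b' ∈ Submodule.span k (Set.range bb) := by
        rw [bb.span_eq]
        exact Submodule.mem_top
      induction h7 using Submodule.span_induction with
      | mem y hy =>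
        obtain ⟨n, rfl⟩ := hy
        exact h3 n
      | zero =>
        rw [Submodule.coe_zero, map_zero, map_zero, map_zero]
      | add y z _ _ hy hz =>
        rw [Submodule.coe_add, map_add, map_add, map_add, hy, hz, add_zero]
      | smul c y _ hy =>
        rw [Submodule.coe_smul, map_smul, map_smul, LinearMap.map_smulₛₗ, hy, smul_zero]
    exact h6 ⟨b, hb⟩
  have hbv : ∀ i j, ∀ b ∈ A, B (TS_T f i b) (TS_T f j v) = 0 := by
    intro i j b hb
    rw [hF.symm, hvb j i b hb, map_zero, mul_zero]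
  have hspan : A ⊓ Submodule.span k {v} = ⊥ := by
    rw [eq_bot_iff]
    rintro x ⟨hxA, hxv⟩
    obtain ⟨c, rfl⟩ := Submodule.mem_span_singleton.1 hxv
    by_cases hc : c = 0
    · rw [hc, zero_smul]
      exact Submodule.zero_mem _
    · exfalso
      apply hvA
      have h1 := A.smul_mem c⁻¹ hxA
      rwa [smul_smul, inv_mul_cancel₀ hc, one_smul] at h1
  refine ⟨A ⊔ Submodule.span k {v}, ?_, ?_, ?_, ?_⟩
  · refine sup_le hAA' ?_
    rw [Submodule.span_singleton_le_iff_mem]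
    exact hvA''.2
  · have h := Submodule.finrank_sup_add_finrank_inf_eq A (Submodule.span k {v})
    rw [hspan, finrank_bot, add_zero, finrank_span_singleton hv0] at h
    exact h
  · intro a ha
    obtain ⟨b, hb, y, hy, rfl⟩ := Submodule.mem_sup.1 ha
    obtain ⟨c, rfl⟩ := Submodule.mem_span_singleton.1 hy
    refine hF.sing_add _ _ (hs b hb) (hF.sing_smul c v hvs) ?_
    rw [LinearMap.map_smulₛₗ]
    have h1 : B b v = 0 := hbv 0 0 b hb
    rw [h1, smul_zero]
  · intro i j a ha a' ha'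
    obtain ⟨b, hb, y, hy, rfl⟩ := Submodule.mem_sup.1 ha
    obtain ⟨c, rfl⟩ := Submodule.mem_span_singleton.1 hy
    obtain ⟨b', hb', y', hy', rfl⟩ := Submodule.mem_sup.1 ha'
    obtain ⟨c', rfl⟩ := Submodule.mem_span_singleton.1 hy'
    have e1 : TS_T f i (b + c • v) = TS_T f i b + c • TS_T f i v := by rw [map_add, map_smul]
    have e2 : TS_T f j (b' + c' • v) = TS_T f j b' + c' • TS_T f j v := by rw [map_add, map_smul]
    rw [e1, e2]
    simp only [map_add, LinearMap.add_apply, map_smul, LinearMap.smul_apply,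
      LinearMap.map_smulₛₗ, hB i j b hb b' hb', hvb i j b' hb', hbv i j b hb, hvv i j,
      smul_zero, add_zero]

theorem tsel {Γ : Subgroup (V ≃ₗ[k] V)} {σ : k →+* k} {ε : k} {B : V →ₗ[k] V →ₛₗ[σ] k}
    {sing : V → Prop} (hF : FSp Γ σ ε B sing) (s N : ℕ) (f : Fin s → V ≃ₗ[k] V)
    (hf : ∀ i, f i ∈ Γ) (A' : Submodule k V)
    (hA' : (s + 2) ^ 2 * (N + 3) ≤ Module.finrank k A') :
    ∃ A₀ ≤ A', Module.finrank k A₀ = N ∧ (∀ x ∈ PSp f A₀, sing x) ∧
      ∀ x ∈ PSp f A₀, ∀ y ∈ PSp f A₀, B x y = 0 := by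
  have h0 : sing 0 := by
    obtain ⟨v, _, _, hv, _⟩ := hF.cw ∅ A' (by
      rw [Finset.card_empty]
      nlinarith [hA', Nat.zero_le s, Nat.zero_le N, Nat.zero_le (s * N),
        Nat.zero_le (s * s * N), Nat.zero_le (s * s)])
    exact TS_zero hF v hv
  have key : ∀ m ≤ N, ∃ A₀ ≤ A', Module.finrank k A₀ = m ∧ (∀ a ∈ A₀, sing a) ∧
      ∀ i j, ∀ a ∈ A₀, ∀ a' ∈ A₀, B (TS_T f i a) (TS_T f j a') = 0 := by
    intro m
    induction m with
    | zero =>
      intro _
      refine ⟨⊥, bot_le, finrank_bot k V, ?_, ?_⟩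
      · intro a ha
        rw [(Submodule.mem_bot k).1 ha]
        exact h0
      · intro i j a ha a' _
        rw [(Submodule.mem_bot k).1 ha, map_zero, map_zero]
        rfl
    | succ m ih =>
      intro hm
      obtain ⟨A, hA, hAm, hs, hB⟩ := ih (by omega)
      obtain ⟨A₁, h1, h2, h3, h4⟩ := TS_step hF f hf A' A hA hs hB (by
        rw [hAm]
        nlinarith [hA', Nat.zero_le s, Nat.zero_le N, Nat.zero_le (s * m),
          Nat.zero_le (s * s * m), Nat.zero_le (s * s),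
          Nat.mul_le_mul_left ((s + 2) ^ 2) (Nat.add_le_add_right hm 3)])
      exact ⟨A₁, h1, by rw [h2, hAm], h3, h4⟩
  obtain ⟨A₀, h1, h2, h3, h4⟩ := key N le_rfl
  exact ⟨A₀, h1, h2, TS_crit hF f hf A₀ h0 h3 h4⟩

end H49KC
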