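import Pool.Agent.H49.KC.Defs
import Pool.Agent.H49.KB.SR
import Pool.Agent.H49.KC.FE
import Pool.Agent.H49.KC.TS
import Pool.Agent.H49.KC.SP
import Pool.Agent.H49.KC.SG

namespace H49KC

open H49KA H49KB

universe u v w

section

variable {k : Type} [Field k] {V : Type} [AddCommGroup V] [Module k V] [FiniteDimensional k V]

/-- splitting a subspace of dimension `2 D` -/
private theorem GF_split (D : ℕ) (A₀ : Submodule k V) (h : Module.finrank k A₀ = 2 * D) :
    ∃ A ≤ A₀, ∃ L ≤ A₀, Disjoint A L ∧ Module.finrank k A = D ∧ Module.finrank k L = D := by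
  have h' : Module.finrank k A₀ = D + D := by omega
  let b := Module.finBasisOfFinrankEq k A₀ h'
  let v : Fin (D + D) → V := fun i => (b i : V)
  have hv : LinearIndependent k v := by
    have h1 := b.linearIndependent
    exact h1.map' A₀.subtype (Submodule.ker_subtype A₀)
  have hmem : ∀ i, v i ∈ A₀ := fun i => (b i).2
  refine ⟨Submodule.span k (v '' Set.range (Fin.castAdd D)), ?_,
    Submodule.span k (v '' Set.range (Fin.natAdd D)), ?_, ?_, ?_, ?_⟩
  · rw [Submodule.span_le]
    rintro _ ⟨i, -, rfl⟩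
    exact hmem i
  · rw [Submodule.span_le]
    rintro _ ⟨i, -, rfl⟩
    exact hmem i
  · refine hv.disjoint_span_image ?_
    rw [Set.disjoint_left]
    rintro _ ⟨i, rfl⟩ ⟨j, hj⟩
    have := congrArg Fin.val hj
    simp at this
    omega
  · rw [← Set.range_comp, finrank_span_eq_card (hv.comp _ (Fin.castAdd_injective D D)),
      Fintype.card_fin]
  · rw [← Set.range_comp, finrank_span_eq_card (hv.comp _ (Fin.natAdd_injective D D)),
      Fintype.card_fin]

omit [FiniteDimensional k V] in
private theorem GF_one (x : V) : (1 : V ≃ₗ[k] V) x = x := rfl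

/-- the identity and the given maps -/
private def GF_F {s : ℕ} (f : Fin s → V ≃ₗ[k] V) : Fin (s + 1) → V ≃ₗ[k] V := Fin.cases 1 f

omit [FiniteDimensional k V] in
private theorem GF_F_mem {s : ℕ} (f : Fin s → V ≃ₗ[k] V) (A : Submodule k V) (j : Fin (s + 1))
    (a : V) (ha : a ∈ A) : GF_F f j a ∈ PSp f A := by
  refine Fin.cases ?_ (fun i => ?_) j
  · exact Submodule.mem_sup_left ha
  · refine Submodule.mem_sup_right ?_
    exact Submodule.mem_iSup_of_mem i (Submodule.mem_map_of_mem ha)

omit [FiniteDimensional k V] in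
private theorem GF_PSp_mono {s : ℕ} (f : Fin s → V ≃ₗ[k] V) {A A₀ : Submodule k V} (h : A ≤ A₀) :
    PSp f A ≤ PSp f A₀ :=
  sup_le_sup h (iSup_mono fun _ => Submodule.map_mono h)

end

theorem geo_formed (s D : ℕ) (hs : 0 < s) : ∃ c : ℕ, ∀ (k : Type) [Field k] [Finite k]
    (V : Type) [AddCommGroup V] [Module k V] [FiniteDimensional k V]
    (Γ : Subgroup (V ≃ₗ[k] V)) (σ : k →+* k) (ε : k) (B : V →ₗ[k] V →ₛₗ[σ] k)
    (sing : V → Prop) (f : Fin s → V ≃ₗ[k] V), FSp Γ σ ε B sing → (∀ i, f i ∈ Γ) →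
    (∀ i a, ¬ SmallRank c (f i) a) → Geo s D Γ f := by
  classical
  obtain ⟨c₁, hc₁⟩ := free_exists s ((s + 2) ^ 2 * (2 * D + 3)) hs
  refine ⟨c₁ + 7, ?_⟩
  intro k _ _ V _ _ _ Γ σ ε B sing f hF hf hr
  obtain ⟨A', hA', hdis, hP⟩ := hc₁ k V f fun i a h =>
    hr i a (smallRank_mono (by omega) h)
  have hdim : 7 ≤ Module.finrank k V := by
    by_contra hcon
    exact hr ⟨0, hs⟩ 0 (smallRank_of_finrank (by omega) _ _)
  obtain ⟨A₀, hA₀, hA₀d, hsing, hiso⟩ := tsel hF s (2 * D) f hf A' hA'.ge
  obtain ⟨A, hAA, L, hLL, hAL, hAd, hLd⟩ := GF_split D A₀ hA₀d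
  have hPA : PSp f A ≤ PSp f A₀ := GF_PSp_mono f hAA
  have hPL : PSp f L ≤ PSp f A₀ := GF_PSp_mono f hLL
  obtain ⟨HV, HW, hV, hW, hVs, hWs, hVi, hWi, h5, h6⟩ := split_ts hF (PSp f A) (PSp f L)
    (hP A (hAA.trans hA₀) L (hLL.trans hA₀) hAL)
    (fun x hx => hsing x (sup_le hPA hPL hx))
    (fun x hx y hy => hiso x (sup_le hPA hPL hx) y (sup_le hPA hPL hy))
  obtain ⟨w, T, hw1, hw2, hw3, hw4, hw5, hT, hTS, hTn⟩ :=
    siegel_sys hF hdim HV HW hVs hWs hVi hWi h5 h6
  let F := GF_F f
  have hF0 : F 0 = 1 := rfl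
  have hFs : ∀ i : Fin s, F i.succ = f i := fun i => rfl
  have hFA : ∀ j a, a ∈ A → F j a ∈ PSp f A := fun j a ha => GF_F_mem f A j a ha
  have hFL : ∀ j a, a ∈ L → F j a ∈ PSp f L := fun j a ha => GF_F_mem f L j a ha
  -- the functionals belonging to `L`
  let L' : Submodule k (Module.Dual k HV) :=
    { carrier := {φ | w φ ∈ L}
      add_mem' := by
        intro φ ψ hφ hψ
        change w (φ + ψ) ∈ L
        rw [hw4]
        exact L.add_mem hφ hψ
      zero_mem' := by
        change w 0 ∈ L
        have h := hw4 0 0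
        rw [add_zero] at h
        rw [left_eq_add.1 h]
        exact L.zero_mem
      smul_mem' := by
        intro c φ hφ
        change w (c • φ) ∈ L
        rw [hw5]
        exact L.smul_mem _ hφ }
  have hL' : ∀ l : L', w (l : Module.Dual k HV) ∈ L := fun l => l.2
  -- the maps
  let α : Fin (s + 1) → A →ₗ[k] HV := fun j =>
    { toFun := fun a => ⟨F j (a : V), hV (hFA j a a.2)⟩
      map_add' := by
        intro a b
        ext
        simp
      map_smul' := by
        intro c a
        ext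
        simp }
  have hα : ∀ j (a : A), ((α j a : HV) : V) = F j (a : V) := fun j a => rfl
  let ℓ : Fin (s + 1) → L' →ₗ[k] Module.Dual k HV := fun j =>
    { toFun := fun l =>
        { toFun := fun u => B (u : V) (F j (w (l : Module.Dual k HV)))
          map_add' := by
            intro u v
            rw [Submodule.coe_add, map_add]
            rfl
          map_smul' := by
            intro c u
            rw [Submodule.coe_smul, map_smul]
            rfl }
      map_add' := by
        intro l l'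
        ext u
        change B (u : V) (F j (w ((l : Module.Dual k HV) + (l' : Module.Dual k HV)))) =
          B (u : V) (F j (w (l : Module.Dual k HV))) + B (u : V) (F j (w (l' : Module.Dual k HV)))
        rw [hw4, map_add, map_add]
      map_smul' := by
        intro c l
        ext u
        change B (u : V) (F j (w (c • (l : Module.Dual k HV)))) =
          c * B (u : V) (F j (w (l : Module.Dual k HV)))
        rw [hw5, map_smul, LinearMap.map_smulₛₗ, hF.hσ, smul_eq_mul] }
  have hℓ : ∀ j (l : L') (u : HV), ℓ j l u = B (u : V) (F j (w (l : Module.Dual k HV))) :=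
    fun j l u => rfl
  have hwℓ : ∀ j (l : L'), w (ℓ j l) = F j (w (l : Module.Dual k HV)) := by
    intro j l
    have h1 : w (ℓ j l) - F j (w (l : Module.Dual k HV)) = 0 := by
      refine h6 _ (HW.sub_mem (hw1 _) (hW (hFL j _ (hL' l)))) fun u hu => ?_
      rw [map_sub, hw2 (ℓ j l) ⟨u, hu⟩, hℓ, sub_self]
    exact sub_eq_zero.1 h1
  have hℓ0 : ∀ l : L', ℓ 0 l = (l : Module.Dual k HV) := by
    intro l
    ext u
    rw [hℓ, hF0, GF_one, hw2]
  have hw0 : ∀ φ, w φ = 0 → φ = 0 := by
    intro φ h
    ext u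
    rw [← hw2 φ u, h, map_zero]
    rfl
  have hnot : ∀ (i : Fin s) (a : V), a ∈ A' → ∀ c : k, f i a = c • a → a = 0 := by
    intro i a ha c h
    have h1 : f i a ∈ A' := by rw [h]; exact A'.smul_mem _ ha
    have h2 : f i a ∈ A'.map (f i : V →ₗ[k] V) := Submodule.mem_map_of_mem ha
    have h3 : f i a = 0 := by
      have := (Submodule.disjoint_def.1 (hdis i)) _ h1 h2
      exact this
    exact (LinearEquiv.map_eq_zero_iff _).1 h3
  refine ⟨HV, inferInstance, inferInstance, inferInstance, Module.Dual k HV, inferInstance,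
    inferInstance, inferInstance, A, inferInstance, inferInstance, inferInstance, L',
    inferInstance, inferInstance, inferInstance, Module.Dual.eval k HV, T, α, ℓ, ⟨?_, ?_⟩, hTS,
    ?_, hAd.ge, ?_, fun u φ h => hTn u φ h, ?_⟩
  · intro g
    refine ⟨(Module.evalEquiv k HV).symm g, fun φ => ?_⟩
    have h1 : Module.Dual.eval k HV ((Module.evalEquiv k HV).symm g) = g := by
      have := (Module.evalEquiv k HV).apply_symm_apply g
      exact this
    rw [h1]
  · intro g
    exact ⟨g, fun u => rfl⟩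
  · refine ⟨?_, ?_, ?_, ?_, ?_⟩
    · intro i j a l
      change ℓ j l (α i a) = 0
      rw [hℓ, hα]
      exact hiso _ (hPA (hFA i a a.2)) _ (hPL (hFL j _ (hL' l)))
    · intro a h
      have h1 := congrArg (fun x : HV => (x : V)) h
      change F 0 (a : V) = 0 at h1
      rw [hF0, GF_one] at h1
      exact Subtype.ext h1
    · intro i a ha c h
      have h1 := congrArg (fun x : HV => (x : V)) h
      change F i.succ (a : V) = c • F 0 (a : V) at h1
      rw [hF0, GF_one, hFs] at h1
      exact ha (Subtype.ext (hnot i a (hA₀ (hAA a.2)) c h1))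
    · intro l h
      rw [hℓ0] at h
      exact Subtype.ext h
    · intro i l hl c h
      have h1 := congrArg w h
      rw [hwℓ, hw5, hwℓ, hF0, GF_one, hFs] at h1
      have h2 := hnot i _ (hA₀ (hLL (hL' l))) _ h1
      exact hl (Subtype.ext (hw0 _ h2))
  · have hfin : Finite V := Module.finite_of_finite k
    have h1 : Nat.card L' = Nat.card L := by
      refine Nat.card_congr (Equiv.ofBijective (fun l : L' => (⟨w l, hL' l⟩ : L)) ⟨?_, ?_⟩)
      · intro l l' h
        have h2 : w (l : Module.Dual k HV) = w (l' : Module.Dual k HV) :=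
          congrArg (fun x : L => (x : V)) h
        refine Subtype.ext ?_
        ext u
        rw [← hw2, ← hw2, h2]
      · intro y
        obtain ⟨φ, hφ⟩ := hw3 (y : V) (hW (hFL 0 _ y.2))
        exact ⟨⟨φ, by change w φ ∈ L; rw [hφ]; exact y.2⟩, Subtype.ext hφ⟩
    rw [Module.natCard_eq_pow_finrank (K := k) (V := L'),
      Module.natCard_eq_pow_finrank (K := k) (V := L)] at h1
    have h3 := Nat.pow_right_injective (Finite.one_lt_card (α := k)) h1
    rw [h3, hLd]
  · intro i a l
    have hor : (ℓ 0 l) (α 0 a) = 0 := by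
      rw [hℓ, hα]
      exact hiso _ (hPA (hFA 0 a a.2)) _ (hPL (hFL 0 _ (hL' l)))
    have hor' : (ℓ i.succ l) (α i.succ a) = 0 := by
      rw [hℓ, hα]
      exact hiso _ (hPA (hFA i.succ a a.2)) _ (hPL (hFL i.succ _ (hL' l)))
    have hinv : ∀ y x : V, B ((f i)⁻¹ y) x = B y (f i x) := by
      intro y x
      rw [← hF.presB (f i) (hf i)]
      congr 2
      rw [← LinearEquiv.mul_apply, mul_inv_cancel, GF_one]
    have hid : ∀ y : V, f i ((f i)⁻¹ y) = y := fun y => by
      rw [← LinearEquiv.mul_apply, mul_inv_cancel, GF_one]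
    ext y
    rw [LinearEquiv.mul_apply, LinearEquiv.mul_apply, hT _ _ hor, hT _ _ hor', hwℓ, hwℓ, hα, hα,
      hF0, hFs, GF_one, GF_one, map_sub, map_add, map_smul,
      map_smul, map_smul, hinv, hinv, hid, map_smul]

end H49KC
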