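import Pool.Agent.H49.KC.Defs
import Pool.Agent.H49.KB.SR

namespace H49KC

open H49KA H49KB

universe u v w

variable {k : Type} [Field k] [Finite k] {V : Type} [AddCommGroup V] [Module k V]
  [FiniteDimensional k V]

theorem smallRank_dual (c : ℕ) (g : V ≃ₗ[k] V) (a : k) (h : SmallRank c g.dualMap a) :
    SmallRank c g a := by
  obtain ⟨w, hw⟩ := h
  obtain ⟨f, hf⟩ : ∃ f : V →ₗ[k] V, f = (g : V →ₗ[k] V) - a • LinearMap.id := ⟨_, rfl⟩
  have hfv : ∀ v, f v = g v - a • v := fun v => by rw [hf]; simp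
  have h1 : LinearMap.range f.dualMap ≤ Submodule.span k (Set.range w) := by
    rintro _ ⟨φ, rfl⟩
    obtain ⟨b, hb⟩ := hw φ
    have h3 : f.dualMap φ = g.dualMap φ - a • φ := by
      ext v
      simp [hfv]
    rw [h3, hb]
    exact Submodule.sum_mem _ fun i _ => Submodule.smul_mem _ _ (Submodule.subset_span ⟨i, rfl⟩)
  have h2 : Module.finrank k (LinearMap.range f.dualMap) ≤ c := by
    refine (Submodule.finrank_mono h1).trans ?_
    exact (finrank_range_le_card (R := k) w).trans (by simp)
  rw [LinearMap.finrank_range_dualMap_eq_finrank_range] at h2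
  refine smallRank_mono h2 ⟨fun i => ((Module.finBasis k (LinearMap.range f)) i : V),
    fun v => ?_⟩
  refine ⟨fun i => (Module.finBasis k (LinearMap.range f)).repr ⟨f v, v, rfl⟩ i, ?_⟩
  have h4 := (Module.finBasis k (LinearMap.range f)).sum_repr ⟨f v, v, rfl⟩
  have h5 := congrArg (fun x : LinearMap.range f => (x : V)) h4
  simp only [Submodule.coe_sum, Submodule.coe_smul] at h5
  rw [h5, hfv]

end H49KC
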