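import Pool.Agent.H49.KC.Defs

namespace H49KC

open H49KA H49KB

universe u v w

variable {k : Type} [Field k] [Finite k] {V : Type} [AddCommGroup V] [Module k V]
  [FiniteDimensional k V]

omit [Finite k] in
private theorem SM_smallRank (c : ℕ) (g : V ≃ₗ[k] V) (a : k)
    (h : Module.finrank k (LinearMap.range ((g : V →ₗ[k] V) - a • LinearMap.id)) ≤ c) :
    SmallRank c g a := by
  classical
  let R := LinearMap.range ((g : V →ₗ[k] V) - a • LinearMap.id)
  let b := Module.finBasis k R
  let w : Fin c → V := fun i =>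
    if hi : i.1 < Module.finrank k R then (b ⟨i.1, hi⟩ : V) else 0
  refine ⟨w, fun v => ?_⟩
  have hR : R ≤ Submodule.span k (Set.range w) := by
    intro x hx
    have h1 := b.sum_repr ⟨x, hx⟩
    have h2 : x = ∑ i, (b.repr ⟨x, hx⟩ i) • (b i : V) := by
      have h3 := congrArg (fun y : R => (y : V)) h1
      simp only [Submodule.coe_sum, Submodule.coe_smul] at h3
      exact h3.symm
    rw [h2]
    refine Submodule.sum_mem _ fun i _ => Submodule.smul_mem _ _ ?_
    refine Submodule.subset_span ⟨⟨i.1, lt_of_lt_of_le i.2 h⟩, ?_⟩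
    simp only [w]
    rw [dif_pos i.2]
  have hv : g v - a • v ∈ R := ⟨v, by simp⟩
  obtain ⟨d, hd⟩ := (Submodule.mem_span_range_iff_exists_fun k).1 (hR hv)
  exact ⟨d, hd.symm⟩

omit [Finite k] in
private theorem SM_comap (r d : ℕ) (φ : V →ₗ[k] V)
    (hφ : r ≤ Module.finrank k (LinearMap.range φ)) (B : Submodule k V)
    (hB : Module.finrank k B ≤ d) :
    Module.finrank k (B.comap φ) + r ≤ Module.finrank k V + d := by
  have h1 := LinearMap.finrank_range_add_finrank_ker φ
  let ψ : (B.comap φ) →ₗ[k] V := φ.domRestrict (B.comap φ)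
  have h3 := LinearMap.finrank_range_add_finrank_ker ψ
  have h4 : Module.finrank k (LinearMap.range ψ) ≤ Module.finrank k B := by
    apply Submodule.finrank_mono
    rintro _ ⟨x, rfl⟩
    exact x.2
  have h5 : Module.finrank k (LinearMap.ker ψ) ≤ Module.finrank k (LinearMap.ker φ) := by
    let ι : LinearMap.ker ψ →ₗ[k] LinearMap.ker φ :=
      LinearMap.codRestrict _ ((B.comap φ).subtype.comp (LinearMap.ker ψ).subtype)
        (fun x => by
          have := x.2
          rw [LinearMap.mem_ker] at this ⊢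
          exact this)
    apply LinearMap.finrank_le_finrank_of_injective (f := ι)
    intro x y hxy
    have := congrArg (fun z : LinearMap.ker φ => (z : V)) hxy
    exact Subtype.ext (Subtype.ext this)
  omega

private theorem SM_vector (s m t j : ℕ) (hs : 0 < s) (hj : j < m) (f : Fin s → V ≃ₗ[k] V)
    (hf : ∀ i a, ¬ SmallRank (2 * m + t + s + 2) (f i) a) (V₁ : Submodule k V)
    (hV₁ : Module.finrank k V ≤ Module.finrank k V₁ + t) (B : Fin s → Submodule k V)
    (hB : ∀ i, Module.finrank k (B i) ≤ 2 * j) :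
    ∃ a ∈ V₁, ∀ i, a ∉ B i ∧ ∀ c : k, f i a - c • a ∉ B i := by
  classical
  by_contra hcon
  push Not at hcon
  have : Finite V := Module.finite_of_finite k
  have : Fintype k := Fintype.ofFinite k
  let n := Module.finrank k V
  let q := Nat.card k
  have hq : 2 ≤ q := by
    have : 1 < Nat.card k := Finite.one_lt_card
    exact this
  have hrk : ∀ (i : Fin s) (a : k), 2 * m + t + s + 2 < Module.finrank k
      (LinearMap.range ((f i : V →ₗ[k] V) - a • LinearMap.id)) := by
    intro i a
    by_contra h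
    exact hf i a (SM_smallRank _ (f i) a (not_lt.1 h))
  have hn : 2 * m + t + s + 3 ≤ n := by
    have h1 := hrk ⟨0, hs⟩ 0
    have h2 : Module.finrank k (LinearMap.range
        ((f ⟨0, hs⟩ : V →ₗ[k] V) - (0 : k) • LinearMap.id)) ≤ n :=
      Submodule.finrank_le _
    omega
  let S : Fin s × Option k → Submodule k V := fun p =>
    match p.2 with
    | none => B p.1
    | some c => (B p.1).comap ((f p.1 : V →ₗ[k] V) - c • LinearMap.id)
  have hS : ∀ p, Module.finrank k (S p) ≤ n - t - s - 5 := by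
    rintro ⟨i, _ | c⟩
    · change Module.finrank k (B i) ≤ n - t - s - 5
      have := hB i
      omega
    · change Module.finrank k ((B i).comap ((f i : V →ₗ[k] V) - c • LinearMap.id)) ≤
        n - t - s - 5
      have := SM_comap (2 * m + t + s + 3) (2 * j) _ (hrk i c) (B i) (hB i)
      change _ ≤ n + _ at this
      omega
  have hcard : ∀ p, Nat.card (S p) ≤ q ^ (n - t - s - 5) := by
    intro p
    rw [Module.natCard_eq_pow_finrank (K := k)]
    exact Nat.pow_le_pow_right (by omega) (hS p)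
  have hcov : ∀ v : V₁, ∃ p, (v : V) ∈ S p := by
    intro v
    obtain ⟨i, hi⟩ := hcon v v.2
    by_cases hv : (v : V) ∈ B i
    · exact ⟨(i, none), hv⟩
    · obtain ⟨c, hc⟩ := hi hv
      refine ⟨(i, some c), ?_⟩
      change (v : V) ∈ (B i).comap ((f i : V →ₗ[k] V) - c • LinearMap.id)
      rw [Submodule.mem_comap]
      simpa using hc
  choose p hp using hcov
  have hinj : Function.Injective (fun v : V₁ => (⟨p v, ⟨v, hp v⟩⟩ : Σ p, S p)) := by
    intro v w hvw
    have := congrArg (fun x : (Σ p, S p) => (x.2 : V)) hvw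
    exact Subtype.ext this
  have h6 := Nat.card_le_card_of_injective _ hinj
  rw [Nat.card_sigma] at h6
  have h7 : ∑ p, Nat.card (S p) ≤ (s * (q + 1)) * q ^ (n - t - s - 5) := by
    calc ∑ p, Nat.card (S p) ≤ ∑ _p : Fin s × Option k, q ^ (n - t - s - 5) :=
          Finset.sum_le_sum fun p _ => hcard p
      _ = (s * (q + 1)) * q ^ (n - t - s - 5) := by
          rw [Finset.sum_const, Finset.card_univ, Fintype.card_prod, Fintype.card_fin,
            Fintype.card_option, smul_eq_mul, ← Nat.card_eq_fintype_card]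
  have h8 : q ^ (n - t) ≤ Nat.card V₁ := by
    rw [Module.natCard_eq_pow_finrank (K := k)]
    exact Nat.pow_le_pow_right (by omega) (by omega)
  have h9 : q ^ (n - t) = q ^ (s + 5) * q ^ (n - t - s - 5) := by
    rw [← pow_add]
    congr 1
    omega
  have h10 : s * (q + 1) < q ^ (s + 5) := by
    have h1 : s < q ^ s := lt_of_lt_of_le Nat.lt_two_pow_self (Nat.pow_le_pow_left hq s)
    have h2 : q + 1 ≤ q ^ 5 := by
      have h3 : q ^ 2 ≤ q ^ 5 := Nat.pow_le_pow_right (by omega) (by omega)
      nlinarith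
    calc s * (q + 1) < q ^ s * (q + 1) := Nat.mul_lt_mul_of_pos_right h1 (by omega)
      _ ≤ q ^ s * q ^ 5 := Nat.mul_le_mul_left _ h2
      _ = q ^ (s + 5) := (pow_add _ _ _).symm
  have h11 : 0 < q ^ (n - t - s - 5) := Nat.pos_of_ne_zero (pow_ne_zero _ (by omega))
  have h12 : (s * (q + 1)) * q ^ (n - t - s - 5) < q ^ (s + 5) * q ^ (n - t - s - 5) :=
    Nat.mul_lt_mul_of_pos_right h10 h11
  omega

omit [Finite k] [FiniteDimensional k V] in
private theorem SM_disj (g : V ≃ₗ[k] V) (A : Submodule k V) (a : V)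
    (hdis : Disjoint A (A.map (g : V →ₗ[k] V)))
    (ha : a ∉ A ⊔ A.map (g : V →ₗ[k] V))
    (hga : ∀ c : k, g a - c • a ∉ A ⊔ A.map (g : V →ₗ[k] V)) :
    Disjoint (A ⊔ Submodule.span k {a}) ((A ⊔ Submodule.span k {a}).map (g : V →ₗ[k] V)) := by
  have key : ∀ s t : k, s • a - t • g a ∈ A ⊔ A.map (g : V →ₗ[k] V) → s = 0 ∧ t = 0 := by
    intro s t hst
    have ht : t = 0 := by
      by_contra ht
      apply hga (t⁻¹ * s)
      have h1 := Submodule.smul_mem _ (-t⁻¹) hst
      have h2 : (-t⁻¹) • (s • a - t • g a) = g a - (t⁻¹ * s) • a := by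
        rw [smul_sub, smul_smul, smul_smul, neg_mul, neg_mul, inv_mul_cancel₀ ht, neg_smul,
          neg_smul, one_smul]
        abel
      rwa [h2] at h1
    refine ⟨?_, ht⟩
    by_contra hs
    apply ha
    have h1 := Submodule.smul_mem _ s⁻¹ hst
    rw [ht, zero_smul, sub_zero, smul_smul, inv_mul_cancel₀ hs, one_smul] at h1
    exact h1
  rw [Submodule.disjoint_def]
  intro x hx hx'
  obtain ⟨u, hu, y, hy, rfl⟩ := Submodule.mem_sup.1 hx
  obtain ⟨s, rfl⟩ := Submodule.mem_span_singleton.1 hy
  obtain ⟨z, hz, hzx⟩ := Submodule.mem_map.1 hx'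
  obtain ⟨u', hu', y', hy', rfl⟩ := Submodule.mem_sup.1 hz
  obtain ⟨t, rfl⟩ := Submodule.mem_span_singleton.1 hy'
  have h1 : g (u' + t • a) = u + s • a := hzx
  rw [map_add, map_smul] at h1
  have h2 : s • a - t • g a = g u' - u := by
    rw [sub_eq_sub_iff_add_eq_add, add_comm (s • a) u, ← h1]
  have h3 := key s t (by
    rw [h2]
    exact Submodule.sub_mem _
      (Submodule.mem_sup_right (Submodule.mem_map_of_mem (f := (g : V →ₗ[k] V)) hu'))
      (Submodule.mem_sup_left hu))
  obtain ⟨rfl, rfl⟩ := h3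
  rw [zero_smul, add_zero] at h1 ⊢
  rw [zero_smul, add_zero] at h1
  rw [Submodule.disjoint_def] at hdis
  apply hdis u hu
  rw [← h1]
  exact Submodule.mem_map_of_mem (f := (g : V →ₗ[k] V)) hu'

theorem subspace_many (s m t : ℕ) (hs : 0 < s) (f : Fin s → V ≃ₗ[k] V)
    (hf : ∀ i a, ¬ SmallRank (2 * m + t + s + 2) (f i) a) (V₁ : Submodule k V)
    (hV₁ : Module.finrank k V ≤ Module.finrank k V₁ + t) :
    ∃ A ≤ V₁, Module.finrank k A = m ∧ ∀ i, Disjoint A (A.map (f i : V →ₗ[k] V)) := by
  suffices h : ∀ j ≤ m, ∃ A ≤ V₁,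
      Module.finrank k A = j ∧ ∀ i, Disjoint A (A.map (f i : V →ₗ[k] V)) from h m le_rfl
  intro j
  induction j with
  | zero =>
    intro _
    exact ⟨⊥, bot_le, by simp, fun i => disjoint_bot_left⟩
  | succ j ih =>
    intro hj
    obtain ⟨A, hAV, hA, hdis⟩ := ih (by omega)
    have hmap : ∀ i, Module.finrank k (A.map (f i : V →ₗ[k] V)) = j := by
      intro i
      rw [← hA]
      exact LinearEquiv.finrank_map_eq (f i) A
    obtain ⟨a, haV, hga⟩ := SM_vector s m t j hs (by omega) f hf V₁ hV₁
      (fun i => A ⊔ A.map (f i : V →ₗ[k] V)) (by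
      intro i
      have := Submodule.finrank_add_le_finrank_add_finrank A (A.map (f i : V →ₗ[k] V))
      have := hmap i
      omega)
    have haA : a ∉ A := fun h => (hga ⟨0, hs⟩).1 (Submodule.mem_sup_left h)
    refine ⟨A ⊔ Submodule.span k {a}, ?_, ?_, ?_⟩
    · exact sup_le hAV ((Submodule.span_singleton_le_iff_mem _ _).2 haV)
    · have ha0 : a ≠ 0 := by
        rintro rfl
        exact haA (Submodule.zero_mem _)
      have hd : A ⊓ Submodule.span k {a} = ⊥ := by
        rw [eq_bot_iff]
        rintro x ⟨hx1, hx2⟩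
        obtain ⟨c, rfl⟩ := Submodule.mem_span_singleton.1 hx2
        have hc : c = 0 := by
          by_contra hc
          apply haA
          have h1 := Submodule.smul_mem _ c⁻¹ hx1
          rwa [smul_smul, inv_mul_cancel₀ hc, one_smul] at h1
        rw [hc, zero_smul]
        exact Submodule.zero_mem _
      have h1 := Submodule.finrank_sup_add_finrank_inf_eq A (Submodule.span k {a})
      rw [hd, finrank_bot, finrank_span_singleton ha0, hA] at h1
      omega
    · intro i
      exact SM_disj (f i) A a (hdis i) (hga i).1 (hga i).2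

end H49KC
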