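import Pool.Agent.H49.KC.Defs
import Pool.Agent.H49.KB.SR
import Pool.Agent.H49.KC.SM
import Pool.Agent.H49.KC.SD

namespace H49KC

open H49KA H49KB

universe u v w

section
variable {k : Type} [Field k] {V : Type} [AddCommGroup V] [Module k V]

private theorem smallRank_of_inv (c : ℕ) (g : V ≃ₗ[k] V) (a : k) (h : SmallRank c g⁻¹ a) :
    ∃ a', SmallRank c g a' := by
  obtain ⟨w, hw⟩ := h
  have hgi : ∀ x : V, g⁻¹ (g x) = x := fun x => by
    rw [← LinearEquiv.mul_apply, inv_mul_cancel]; rfl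
  by_cases ha : a = 0
  · refine ⟨0, w, fun v => ?_⟩
    obtain ⟨b, hb⟩ := hw (g (g v))
    refine ⟨b, ?_⟩
    rw [hgi, ha, zero_smul, sub_zero] at hb
    rw [zero_smul, sub_zero]
    exact hb
  · refine ⟨a⁻¹, fun i => g (w i), fun v => ?_⟩
    obtain ⟨b, hb⟩ := hw v
    refine ⟨fun i => -a⁻¹ * b i, ?_⟩
    have hgg : g (g⁻¹ v) = v := by
      rw [← LinearEquiv.mul_apply, mul_inv_cancel]; rfl
    have h1 : g (g⁻¹ v - a • v) = ∑ i, b i • g (w i) := by
      rw [hb, map_sum]
      exact Finset.sum_congr rfl fun i _ => map_smul _ _ _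
    rw [map_sub, hgg, map_smul] at h1
    have h2 : g v - a⁻¹ • v = (-a⁻¹) • (v - a • g v) := by
      rw [smul_sub, smul_smul, neg_mul, inv_mul_cancel₀ ha]
      simp only [neg_smul, one_smul]
      abel
    rw [h2, h1, Finset.smul_sum]
    exact Finset.sum_congr rfl fun i _ => by rw [smul_smul]

end

section
variable {k : Type} [Field k] {V : Type} [AddCommGroup V] [Module k V] [FiniteDimensional k V]

open Classical in
/-- the transvections as elements of the special linear group -/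
private noncomputable def TT (Γ : Subgroup (V ≃ₗ[k] V)) (hΓ : IsSL Γ) (u : V)
    (φ : Module.Dual k V) : Γ :=
  if h : φ u = 0 then ⟨LinearEquiv.transvection h, (hΓ _).2 (by
    rw [LinearEquiv.transvection.coe_toLinearMap, LinearMap.transvection.det, h, add_zero])⟩
  else 1

private theorem TT_apply (Γ : Subgroup (V ≃ₗ[k] V)) (hΓ : IsSL Γ) (u : V)
    (φ : Module.Dual k V) (h : φ u = 0) (x : V) :
    (TT Γ hΓ u φ : V ≃ₗ[k] V) x = x + φ x • u := by
  rw [TT, dif_pos h]
  exact LinearEquiv.transvection.apply h x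

private theorem TT_inv (Γ : Subgroup (V ≃ₗ[k] V)) (hΓ : IsSL Γ) (u : V)
    (φ : Module.Dual k V) (h : φ u = 0) (x : V) :
    ((TT Γ hΓ u φ)⁻¹ : V ≃ₗ[k] V) x = x - φ x • u := by
  have h1 : (TT Γ hΓ u φ : V ≃ₗ[k] V) (x - φ x • u) = x := by
    rw [TT_apply Γ hΓ u φ h, map_sub, map_smul, h, smul_zero, sub_zero, sub_add_cancel]
  have h2 : ((TT Γ hΓ u φ)⁻¹ : V ≃ₗ[k] V) ((TT Γ hΓ u φ : V ≃ₗ[k] V) (x - φ x • u)) =
      x - φ x • u := by
    rw [← LinearEquiv.mul_apply, inv_mul_cancel]; rfl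
  rw [h1] at h2
  exact h2

end

private theorem finrank_sup_le' {k : Type} [Field k] {V : Type} [AddCommGroup V] [Module k V]
    [FiniteDimensional k V] {ι : Type} [DecidableEq ι] (t : Finset ι) (g : ι → Submodule k V) :
    Module.finrank k ↥(t.sup g) ≤ ∑ i ∈ t, Module.finrank k (g i) := by
  induction t using Finset.induction_on with
  | empty => simp
  | insert a t ha ih =>
    rw [Finset.sup_insert, Finset.sum_insert ha]
    exact (Submodule.finrank_add_le_finrank_add_finrank _ _).trans (Nat.add_le_add_left ih _)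

theorem geo_SL (s D : ℕ) (hs : 0 < s) : ∃ c : ℕ, ∀ (k : Type) [Field k] [Finite k]
    (V : Type) [AddCommGroup V] [Module k V] [FiniteDimensional k V]
    (Γ : Subgroup (V ≃ₗ[k] V)) (f : Fin s → V ≃ₗ[k] V), IsSL Γ → (∀ i, f i ∈ Γ) →
    (∀ i a, ¬ SmallRank c (f i) a) → Geo s D Γ f := by
  classical
  refine ⟨2 * D + (s + 1) * (s + 1) * D + s + 2, ?_⟩
  intro k _ _ V _ _ _ Γ f hΓ hf hr
  -- the space `A`
  obtain ⟨A, -, hA, hAd⟩ := subspace_many s D 0 hs f (fun i a h =>
    hr i a (smallRank_mono (by nlinarith) h)) ⊤ (by simp)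
  -- the maps
  let F : Fin (s + 1) → V ≃ₗ[k] V := Fin.cases 1 f
  have hF0 : F 0 = 1 := rfl
  have hFs : ∀ i : Fin s, F i.succ = f i := fun i => rfl
  let f' : Fin s → Module.Dual k V ≃ₗ[k] Module.Dual k V := fun i => (f i)⁻¹.dualMap
  -- the subspace to be avoided
  let W : Submodule k V := (Finset.univ : Finset (Fin (s + 1) × Fin (s + 1))).sup fun p =>
    A.map (((F p.1)⁻¹ * F p.2 : V ≃ₗ[k] V) : V →ₗ[k] V)
  have hW : Module.finrank k W ≤ (s + 1) * (s + 1) * D := by
    have h1 : Module.finrank k W ≤ ∑ p : Fin (s + 1) × Fin (s + 1),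
        Module.finrank k (A.map (((F p.1)⁻¹ * F p.2 : V ≃ₗ[k] V) : V →ₗ[k] V)) :=
      finrank_sup_le' _ _
    refine h1.trans ?_
    calc ∑ p : Fin (s + 1) × Fin (s + 1),
        Module.finrank k (A.map (((F p.1)⁻¹ * F p.2 : V ≃ₗ[k] V) : V →ₗ[k] V))
        ≤ ∑ _p : Fin (s + 1) × Fin (s + 1), D := by
          refine Finset.sum_le_sum fun p _ => ?_
          rw [← hA]
          exact Submodule.finrank_map_le _ _
      _ = (s + 1) * (s + 1) * D := by simp
  -- the annihilator
  have hV₁ : Module.finrank k (Module.Dual k V) ≤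
      Module.finrank k W.dualAnnihilator + (s + 1) * (s + 1) * D := by
    have h1 := Subspace.finrank_add_finrank_dualAnnihilator_eq W
    rw [Subspace.dual_finrank_eq]
    omega
  obtain ⟨L, hL₁, hL, hLd⟩ := subspace_many (V := Module.Dual k V) s D ((s + 1) * (s + 1) * D)
    hs f' (fun i a h => by
      obtain ⟨a', ha'⟩ := smallRank_of_inv _ _ _ (smallRank_dual _ _ _ h)
      exact hr i a' ha') W.dualAnnihilator hV₁
  have hFi : ∀ (g : V ≃ₗ[k] V) (x : V), g⁻¹ (g x) = x := fun g x => by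
    rw [← LinearEquiv.mul_apply, inv_mul_cancel]; rfl
  have hFi' : ∀ (g : V ≃ₗ[k] V) (x : V), g (g⁻¹ x) = x := fun g x => by
    rw [← LinearEquiv.mul_apply, mul_inv_cancel]; rfl
  have hann : ∀ (i j : Fin (s + 1)) (a : V) (l : Module.Dual k V), a ∈ A → l ∈ L →
      l ((F j)⁻¹ (F i a)) = 0 := by
    intro i j a l ha hl
    have h1 := (Submodule.mem_dualAnnihilator l).1 (hL₁ hl)
    refine h1 _ (Finset.le_sup (f := fun p : Fin (s + 1) × Fin (s + 1) =>
      A.map (((F p.1)⁻¹ * F p.2 : V ≃ₗ[k] V) : V →ₗ[k] V)) (Finset.mem_univ (j, i)) ?_)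
    exact Submodule.mem_map_of_mem (f := (((F j)⁻¹ * F i : V ≃ₗ[k] V) : V →ₗ[k] V)) ha
  let α : Fin (s + 1) → A →ₗ[k] V := fun i => (F i : V →ₗ[k] V) ∘ₗ A.subtype
  let ℓ : Fin (s + 1) → L →ₗ[k] Module.Dual k V := fun j =>
    ((F j)⁻¹.dualMap : Module.Dual k V →ₗ[k] Module.Dual k V) ∘ₗ L.subtype
  have hα : ∀ i (a : A), α i a = F i (a : V) := fun i a => rfl
  have hℓ : ∀ j (l : L) (x : V), ℓ j l x = (l : Module.Dual k V) ((F j)⁻¹ x) := fun j l x => rfl
  have horth : ∀ i j (a : A) (l : L), ℓ j l (α i a) = 0 := fun i j a l =>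
    hann i j a l a.2 l.2
  refine ⟨V, inferInstance, inferInstance, inferInstance, Module.Dual k V, inferInstance,
    inferInstance, inferInstance, A, inferInstance, inferInstance, inferInstance, L,
    inferInstance, inferInstance, inferInstance, Module.Dual.eval k V, TT Γ hΓ, α, ℓ,
    ⟨?_, ?_⟩, ⟨?_, ?_, ?_, ?_⟩, ⟨?_, ?_, ?_, ?_, ?_⟩, hA.ge, hL.ge, ?_, ?_⟩
  · intro g
    refine ⟨(Module.evalEquiv k V).symm g, fun φ => ?_⟩
    have h1 := (Module.evalEquiv k V).apply_symm_apply g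
    exact congrArg (fun z : Module.Dual k (Module.Dual k V) => z φ) h1
  · intro g
    exact ⟨g, fun u => rfl⟩
  · intro u v φ hu hv
    simp only [Module.Dual.eval_apply] at hu hv
    refine Subtype.ext (LinearEquiv.ext fun x => ?_)
    have huv : φ (u + v) = 0 := by rw [map_add, hu, hv, add_zero]
    rw [Subgroup.coe_mul, LinearEquiv.mul_apply, TT_apply Γ hΓ _ _ huv, TT_apply Γ hΓ _ _ hv,
      TT_apply Γ hΓ _ _ hu, map_add, map_smul, hv, smul_zero, add_zero, smul_add]
    abel
  · intro u φ ψ hu hv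
    simp only [Module.Dual.eval_apply] at hu hv
    refine Subtype.ext (LinearEquiv.ext fun x => ?_)
    have huv : (φ + ψ) u = 0 := by rw [LinearMap.add_apply, hu, hv, add_zero]
    rw [Subgroup.coe_mul, LinearEquiv.mul_apply, TT_apply Γ hΓ _ _ huv, TT_apply Γ hΓ _ _ hv,
      TT_apply Γ hΓ _ _ hu, map_add, map_smul, hu, smul_zero, add_zero, LinearMap.add_apply,
      add_smul]
    abel
  · intro c u φ hu
    simp only [Module.Dual.eval_apply] at hu
    refine Subtype.ext (LinearEquiv.ext fun x => ?_)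
    have h1 : φ (c • u) = 0 := by rw [map_smul, hu, smul_zero]
    have h2 : (c • φ) u = 0 := by rw [LinearMap.smul_apply, hu, smul_zero]
    rw [TT_apply Γ hΓ _ _ h1, TT_apply Γ hΓ _ _ h2, LinearMap.smul_apply, smul_smul,
      smul_eq_mul, mul_comm]
  · intro v ψ u φ hv hu
    simp only [Module.Dual.eval_apply] at hu hv ⊢
    refine Subtype.ext (LinearEquiv.ext fun x => ?_)
    have h1 : (φ - φ v • ψ) (u + ψ u • v) = 0 := by
      simp only [LinearMap.sub_apply, LinearMap.smul_apply, map_add, map_smul, smul_eq_mul,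
        hu, hv]
      ring
    rw [Subgroup.coe_mul, Subgroup.coe_mul, LinearEquiv.mul_apply, LinearEquiv.mul_apply,
      Subgroup.coe_inv, TT_inv Γ hΓ _ _ hv, TT_apply Γ hΓ _ _ hu, TT_apply Γ hΓ _ _ hv,
      TT_apply Γ hΓ _ _ h1]
    simp only [LinearMap.sub_apply, LinearMap.smul_apply, map_add, map_sub, map_smul,
      smul_eq_mul, hv, hu]
    module
  · intro i j a l
    exact horth i j a l
  · intro a ha
    exact Subtype.ext ha
  · intro i a ha c hc
    rw [hα, hα, hFs, hF0] at hc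
    have h1 : f i (a : V) ∈ A := by
      rw [hc]
      exact A.smul_mem c a.2
    have h2 : f i (a : V) ∈ A.map (f i : V →ₗ[k] V) := Submodule.mem_map_of_mem a.2
    have h3 : f i (a : V) = 0 := Submodule.disjoint_def.1 (hAd i) _ h1 h2
    exact ha (Subtype.ext ((f i).map_eq_zero_iff.1 h3))
  · intro l hl
    refine Subtype.ext (LinearMap.ext fun x => ?_)
    exact congrArg (fun z : Module.Dual k V => z x) hl
  · intro i l hl c hc
    have hc0 : f' i (l : Module.Dual k V) = c • (l : Module.Dual k V) := hc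
    have h1 : f' i (l : Module.Dual k V) ∈ L := by
      rw [hc0]
      exact L.smul_mem c l.2
    have h2 : f' i (l : Module.Dual k V) ∈
        L.map (f' i : Module.Dual k V →ₗ[k] Module.Dual k V) := Submodule.mem_map_of_mem l.2
    have h3 : f' i (l : Module.Dual k V) = 0 := Submodule.disjoint_def.1 (hLd i) _ h1 h2
    exact hl (Subtype.ext ((f' i).map_eq_zero_iff.1 h3))
  · rintro u φ h0 hu hφ ⟨c, hc⟩
    simp only [Module.Dual.eval_apply] at h0
    have h1 := hc u
    rw [TT_apply Γ hΓ _ _ h0, h0, zero_smul, add_zero] at h1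
    have hc1 : c = 1 := by
      have h2 : (c - 1) • u = 0 := by rw [sub_smul, one_smul, ← h1, sub_self]
      rcases smul_eq_zero.1 h2 with h3 | h3
      · exact sub_eq_zero.1 h3
      · exact absurd h3 hu
    refine hφ (LinearMap.ext fun x => ?_)
    have h2 := hc x
    rw [TT_apply Γ hΓ _ _ h0, hc1, one_smul] at h2
    have h3 : φ x • u = 0 := by simpa using h2
    rcases smul_eq_zero.1 h3 with h4 | h4
    · exact h4
    · exact absurd h4 hu
  · intro i a l
    refine LinearEquiv.ext fun x => ?_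
    rw [LinearEquiv.mul_apply, LinearEquiv.mul_apply, TT_apply Γ hΓ _ _ (horth _ _ a l),
      TT_apply Γ hΓ _ _ (horth _ _ a l), map_add, hFi', map_smul]
    rfl

end H49KC
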