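import Pool.Agent.H49.KC.Defs
import Pool.Agent.H49.KB.SR
import Pool.Agent.H49.KC.GL
import Pool.Agent.H49.KC.GF
import Pool.Agent.H49.KC.FO
import Pool.Agent.H49.KC.FS
import Pool.Agent.H49.KC.FU
import Pool.Agent.H49.KC.CG

namespace H49KC

open H49KA H49KB

universe u v w

theorem conf_classical (s : ℕ) (hs : 0 < s) : ∃ c : ℕ, ∀ (k : Type) [Field k] [Finite k]
    (V : Type) [AddCommGroup V] [Module k V] [FiniteDimensional k V]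
    (Γ : Subgroup (V ≃ₗ[k] V)) (f : Fin s → V ≃ₗ[k] V), Classical Γ → (∀ i, f i ∈ Γ) →
    (∀ i a, ¬ SmallRank c (f i) a) →
    ∃ x ∈ Γ, x ∉ Scal k V ∧ ∀ 𝒰 : Subgroup (V ≃ₗ[k] V),
      (∀ g ∈ Γ, ∃ i, g * f i * g⁻¹ ∈ 𝒰) → x ∈ 𝒰 := by
  obtain ⟨c₁, h₁⟩ := geo_SL s (100 * (s + 1) ^ 6) hs
  obtain ⟨c₂, h₂⟩ := geo_formed s (100 * (s + 1) ^ 6) hs
  refine ⟨max c₁ c₂, ?_⟩
  intro k _ _ V _ _ _ Γ f hΓ hf hr
  have hr₁ : ∀ i a, ¬ SmallRank c₁ (f i) a := fun i a h =>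
    hr i a (smallRank_mono (le_max_left _ _) h)
  have hr₂ : ∀ i a, ¬ SmallRank c₂ (f i) a := fun i a h =>
    hr i a (smallRank_mono (le_max_right _ _) h)
  have hgeo : Geo s (100 * (s + 1) ^ 6) Γ f := by
    rcases hΓ with h | h | h | h
    · exact h₁ k V Γ f h hf hr₁
    · obtain ⟨σ, ε, B, sing, hF⟩ := fsp_Sp Γ h
      exact h₂ k V Γ σ ε B sing f hF hf hr₂
    · obtain ⟨σ, ε, B, sing, hF⟩ := fsp_SU Γ h
      exact h₂ k V Γ σ ε B sing f hF hf hr₂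
    · obtain ⟨σ, ε, B, sing, hF⟩ := fsp_Om Γ h
      exact h₂ k V Γ σ ε B sing f hF hf hr₂
  exact conf_of_geo s Γ f hf hgeo

end H49KC
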