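import Pool.Agent.H49.KA.Defs
import Pool.Agent.H49.KB.Defs

/-!
Definitions for project KC (no proper confined subgroups in non-finitary groups that are not
of alternating type).
-/

namespace H49KC

open H49KA H49KB

universe u v w

section pairing

variable {k : Type} [Field k] {H H' : Type} [AddCommGroup H] [Module k H] [AddCommGroup H']
  [Module k H'] {Γ : Type} [Group Γ]

/-- the pairing is perfect: all linear functionals are represented -/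
def PerfP (β : H →ₗ[k] H' →ₗ[k] k) : Prop :=
  (∀ g : Module.Dual k H', ∃ u : H, ∀ φ, β u φ = g φ) ∧
  (∀ g : Module.Dual k H, ∃ φ : H', ∀ u, β u φ = g u)

/-- a system of elements multiplying and conjugating each other like the transvections
`u ↦ u + φ u • v` of a vector space `H` with dual `H'` -/
structure TSys (β : H →ₗ[k] H' →ₗ[k] k) (T : H → H' → Γ) : Prop where
  add_left : ∀ u v φ, β u φ = 0 → β v φ = 0 → T (u + v) φ = T u φ * T v φ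
  add_right : ∀ u φ ψ, β u φ = 0 → β u ψ = 0 → T u (φ + ψ) = T u φ * T u ψ
  smul : ∀ (c : k) u φ, β u φ = 0 → T (c • u) φ = T u (c • φ)
  conj : ∀ v ψ u φ, β v ψ = 0 → β u φ = 0 →
    T v ψ * T u φ * (T v ψ)⁻¹ = T (u + β u ψ • v) (φ - β v φ • ψ)

variable {A L : Type} [AddCommGroup A] [Module k A] [AddCommGroup L] [Module k L]

/-- the maps `α 0` and `α i.succ` play the role of an inclusion and of the restriction of the
`i`-th given linear map, in the same way `ℓ` on the dual side -/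
structure Cfg (s : ℕ) (β : H →ₗ[k] H' →ₗ[k] k) (α : Fin (s + 1) → A →ₗ[k] H)
    (ℓ : Fin (s + 1) → L →ₗ[k] H') : Prop where
  orth : ∀ i j a l, β (α i a) (ℓ j l) = 0
  injA : ∀ a, α 0 a = 0 → a = 0
  indA : ∀ (i : Fin s) (a : A), a ≠ 0 → ∀ c : k, α i.succ a ≠ c • α 0 a
  injL : ∀ l, ℓ 0 l = 0 → l = 0
  indL : ∀ (i : Fin s) (l : L), l ≠ 0 → ∀ c : k, ℓ i.succ l ≠ c • ℓ 0 l

/-- what the pigeonhole principle gives for a confined subgroup `𝒰` -/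
def HC (s : ℕ) (T : H → H' → Γ) (α : Fin (s + 1) → A → H) (ℓ : Fin (s + 1) → L → H')
    (𝒰 : Subgroup Γ) : Prop :=
  ∀ (g : Γ) (a : A) (l : Fin (s + 1) → L), ∃ (i : Fin s) (j j' : Fin (s + 1)), j ≠ j' ∧
    g * (T (α 0 a) (ℓ 0 (l j - l j')) * (T (α i.succ a) (ℓ i.succ (l j - l j')))⁻¹) * g⁻¹ ∈ 𝒰

/-- among `r + 1` elements of `L₁` there are two whose difference satisfies `Ψ` -/
def SmallIdx (r : ℕ) (Ψ : H' → Prop) (L₁ : Submodule k H') : Prop :=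
  ∀ φ : Fin (r + 1) → H', (∀ j, φ j ∈ L₁) → ∃ j j', j ≠ j' ∧ Ψ (φ j - φ j')

end pairing

section geo

variable {k : Type} [Field k] {V : Type} [AddCommGroup V] [Module k V]

/-- The geometric configuration on which the group theoretic argument runs. -/
def Geo (s D : ℕ) (Γ : Subgroup (V ≃ₗ[k] V)) (f : Fin s → V ≃ₗ[k] V) : Prop :=
  ∃ (H : Type) (_ : AddCommGroup H) (_ : Module k H) (_ : FiniteDimensional k H)
    (H' : Type) (_ : AddCommGroup H') (_ : Module k H') (_ : FiniteDimensional k H')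
    (A : Type) (_ : AddCommGroup A) (_ : Module k A) (_ : FiniteDimensional k A)
    (L : Type) (_ : AddCommGroup L) (_ : Module k L) (_ : FiniteDimensional k L)
    (β : H →ₗ[k] H' →ₗ[k] k) (T : H → H' → Γ) (α : Fin (s + 1) → A →ₗ[k] H)
    (ℓ : Fin (s + 1) → L →ₗ[k] H'),
    PerfP β ∧ TSys β T ∧ Cfg s β α ℓ ∧ D ≤ Module.finrank k A ∧ D ≤ Module.finrank k L ∧
    (∀ u φ, β u φ = 0 → u ≠ 0 → φ ≠ 0 → (T u φ : V ≃ₗ[k] V) ∉ Scal k V) ∧
    ∀ (i : Fin s) (a : A) (l : L),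
      f i * (T (α 0 a) (ℓ 0 l) : V ≃ₗ[k] V) * (f i)⁻¹ =
        (T (α i.succ a) (ℓ i.succ l) : V ≃ₗ[k] V)

/-- the sum of `A` and its images -/
def PSp {s : ℕ} (f : Fin s → V ≃ₗ[k] V) (A : Submodule k V) : Submodule k V :=
  A ⊔ ⨆ i, A.map (f i : V →ₗ[k] V)

/-- the geometry of a symplectic, unitary or orthogonal group -/
structure FSp (Γ : Subgroup (V ≃ₗ[k] V)) (σ : k →+* k) (ε : k) (B : V →ₗ[k] V →ₛₗ[σ] k)
    (sing : V → Prop) : Prop where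
  hσ : ∀ a, σ (σ a) = a
  hε : ε = 1 ∨ ε = -1
  symm : ∀ x y, B y x = ε * σ (B x y)
  nondeg : ∀ x, (∀ y, B x y = 0) → x = 0
  sing_iso : ∀ x, sing x → B x x = 0
  sing_smul : ∀ (c : k) x, sing x → sing (c • x)
  sing_add : ∀ x y, sing x → sing y → B x y = 0 → sing (x + y)
  presB : ∀ g ∈ Γ, ∀ x y, B (g x) (g y) = B x y
  presS : ∀ g ∈ Γ, ∀ x, sing x → sing (g x)
  cw : ∀ (Λ : Finset (V ≃ₗ[k] V)) (A : Submodule k V), 2 * (Λ.card + 1) < Module.finrank k A →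
    ∃ v ∈ A, v ≠ 0 ∧ sing v ∧ ∀ l ∈ Λ, B v (l v) = 0
  hyp : ∀ P : Submodule k V, (∀ x ∈ P, sing x) → (∀ x ∈ P, ∀ y ∈ P, B x y = 0) →
    ∃ w : Module.Dual k P → V, (∀ φ ψ, w (φ + ψ) = w φ + w ψ) ∧
      (∀ (c : k) φ, w (c • φ) = σ c • w φ) ∧ (∀ φ (u : P), B (u : V) (w φ) = φ u) ∧
      (∀ φ, sing (w φ)) ∧ ∀ φ ψ, B (w φ) (w ψ) = 0
  sieg : 7 ≤ Module.finrank k V → ∀ u w, sing u → sing w → B u w = 0 →
    ∃ x ∈ Γ, ∀ y, x y = y + B y u • w - (ε * B y w) • u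

end geo

section fin

variable {K : Type u} [Group K]

/-- the finite situation coming from a proper confined subgroup -/
structure CData (s b c : ℕ) (f : Fin s → K) (Y X U : Subgroup K) : Prop where
  finK : Finite K
  hs : 0 < s
  hfY : ∀ i, f i ∈ Y
  hf1 : ∀ i, f i ≠ 1
  hYX : Y ≤ X
  hXn : X.Normal
  hX : ⁅X, X⁆ = X
  tY : ∀ N : Subgroup K, NormIn X N → (∃ y ∈ Y, y ≠ 1 ∧ y ∈ N) → Y ≤ N
  d1 : ∀ N : Subgroup K, N.Normal → (∃ y ∈ Y, y ≠ 1 ∧ y ∈ N) → X ≤ N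
  nab : ∃ a ∈ Y, ∃ b ∈ Y, a * b ≠ b * a
  big : b < Nat.card Y
  hXU : ¬ X ≤ U
  maxU : ∀ U' : Subgroup K, U ≤ U' → U' ≠ U → X ≤ U'
  conf : ∀ g : K, ∃ i, g * f i * g⁻¹ ∈ U
  rk : ∀ (k : Type) [Field k] (V : Type) [AddCommGroup V] [Module k V] (p : X →* PGrp k V)
    (x : X) (i : Fin s), (x : K) = f i → p x ≠ 1 →
    ∀ (g : V ≃ₗ[k] V) (a : k), p x = (g : PGrp k V) → ¬ SmallRank c g a
  tops : ∀ T C : Subgroup K, AlmostSimpleSec X T C → Y ⊓ C = ⊥ → T = X ∧ ClassSec X C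

/-- the chief factor of `K` used in the proof -/
structure Chf (X U N N₀ : Subgroup K) : Prop where
  nN : N.Normal
  nN₀ : N₀.Normal
  le : N₀ ≤ N
  NX : N ≤ X
  NU : ¬ N ≤ U
  N₀U : N₀ ≤ U
  min : ∀ M : Subgroup K, M.Normal → M ≤ N → M = N ∨ M ≤ N₀
  comm : ⁅N, X⁆ = N
  XUN : X ≤ U ⊔ N

/-- the maximal normal subgroups of `N` containing `N₀` -/
def MaxN (N N₀ M : Subgroup K) : Prop :=
  N₀ ≤ M ∧ M ≤ N ∧ M ≠ N ∧ NormIn N M ∧
    ∀ M' : Subgroup K, M ≤ M' → M' ≤ N → NormIn N M' → M' = M ∨ M' = N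

/-- the intersection of the other maximal normal subgroups -/
def coM (N N₀ M : Subgroup K) : Subgroup K :=
  N ⊓ sInf {M' | MaxN N N₀ M' ∧ M' ≠ M}

/-- conjugate subgroup -/
abbrev cj (g : K) (M : Subgroup K) : Subgroup K := M.map (MulAut.conj g).toMonoidHom

/-- the hypotheses on a nonabelian chief factor `N / N₀` -/
structure NAb (N N₀ : Subgroup K) : Prop where
  finK : Finite K
  nN : N.Normal
  nN₀ : N₀.Normal
  le : N₀ ≤ N
  ne : N ≠ N₀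
  min : ∀ M : Subgroup K, M.Normal → M ≤ N → M = N ∨ M ≤ N₀
  perf : ⁅N, N⁆ = N

/-- the elements of `X` that normalise `M` and centralise `N` modulo `M` -/
def cMod (X N M : Subgroup K) : Subgroup K where
  carrier := {x | x ∈ X ∧ (∀ m, m ∈ M ↔ x * m * x⁻¹ ∈ M) ∧ ∀ n ∈ N, x * n * x⁻¹ * n⁻¹ ∈ M}
  mul_mem' := by
    rintro x y ⟨hx1, hx2, hx3⟩ ⟨hy1, hy2, hy3⟩
    refine ⟨X.mul_mem hx1 hy1, fun m => ?_, fun n hn => ?_⟩
    · rw [hy2 m, hx2 (y * m * y⁻¹)]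
      have : x * (y * m * y⁻¹) * x⁻¹ = x * y * m * (x * y)⁻¹ := by group
      rw [this]
    · have h := M.mul_mem ((hx2 _).1 (hy3 n hn)) (hx3 n hn)
      have : x * (y * n * y⁻¹ * n⁻¹) * x⁻¹ * (x * n * x⁻¹ * n⁻¹) =
        x * y * n * (x * y)⁻¹ * n⁻¹ := by group
      rwa [this] at h
  one_mem' := ⟨X.one_mem, fun m => by simp, fun n hn => by simp [M.one_mem]⟩
  inv_mem' := by
    rintro x ⟨hx1, hx2, hx3⟩
    refine ⟨X.inv_mem hx1, fun m => ?_, fun n hn => ?_⟩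
    · rw [hx2 (x⁻¹ * m * x⁻¹⁻¹)]
      have : x * (x⁻¹ * m * x⁻¹⁻¹) * x⁻¹ = m := by group
      rw [this]
    · rw [hx2]
      have h := M.inv_mem (hx3 n hn)
      have : x * (x⁻¹ * n * x⁻¹⁻¹ * n⁻¹) * x⁻¹ = (x * n * x⁻¹ * n⁻¹)⁻¹ := by group
      rwa [this]

end fin

end H49KC
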