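import Pool.Agent.H49.KC.Defs
import Pool.Agent.H49.KC.CC

namespace H49KC

open H49KA H49KB

universe u v w

/-- no proper confined subgroups in the top -/
theorem top_conf (s : ℕ) (hs : 0 < s) : ∃ c : ℕ, ∀ (K : Type u) [Group K]
    (X C U : Subgroup K) (f : Fin s → K), SimpleSec X C → ClassSec X C → (∀ i, f i ∈ X) →
    (∀ i, f i ∉ C) →
    (∀ (k : Type) [Field k] (V : Type) [AddCommGroup V] [Module k V] (p : X →* PGrp k V)
      (x : X) (i : Fin s), (x : K) = f i → p x ≠ 1 →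
      ∀ (g : V ≃ₗ[k] V) (a : k), p x = (g : PGrp k V) → ¬ SmallRank c g a) →
    C ≤ U → U ≤ X → (∀ x ∈ X, ∃ i, x * f i * x⁻¹ ∈ U) → U = X := by
  obtain ⟨c, hc⟩ := conf_classical s hs
  refine ⟨c, ?_⟩
  intro K _ X C U f hS hCl hfX hfC hrk hCU hUX hconf
  obtain ⟨k, _, _, V, _, _, _, Γ, p, hΓ, hker, hrange⟩ := hCl
  have hlift : ∀ i, ∃ g ∈ Γ, (QuotientGroup.mk' (Scal k V)) g = p ⟨f i, hfX i⟩ := by
    intro i
    have h1 : p ⟨f i, hfX i⟩ ∈ p.range := ⟨_, rfl⟩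
    rw [hrange] at h1
    obtain ⟨g, hg, hg'⟩ := h1
    exact ⟨g, hg, hg'⟩
  choose F hFΓ hFp using hlift
  have hne : ∀ i, p ⟨f i, hfX i⟩ ≠ 1 := by
    intro i h
    exact hfC i ((hker ⟨f i, hfX i⟩).1 h)
  have hns : ∀ i a, ¬ SmallRank c (F i) a := by
    intro i a
    exact hrk k V p ⟨f i, hfX i⟩ i rfl (hne i) (F i) a (hFp i).symm
  obtain ⟨x, hxΓ, hxS, hx⟩ := hc k V Γ F hΓ hFΓ hns
  have hx0 : (QuotientGroup.mk' (Scal k V)) x ∈ p.range := by
    rw [hrange]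
    exact ⟨x, hxΓ, rfl⟩
  obtain ⟨x₀, hx₀⟩ := hx0
  -- all conjugates of `x₀` lie in `U`
  have key : ∀ y ∈ X, y * (x₀ : K) * y⁻¹ ∈ U := by
    intro y hy
    have hmem : x ∈ ((U.comap (MulAut.conj y).toMonoidHom).comap X.subtype |>.map p).comap
        (QuotientGroup.mk' (Scal k V)) := by
      apply hx
      intro g hg
      have h1 : (QuotientGroup.mk' (Scal k V)) g ∈ p.range := by
        rw [hrange]
        exact ⟨g, hg, rfl⟩
      obtain ⟨z, hz⟩ := h1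
      obtain ⟨i, hi⟩ := hconf (y * z) (X.mul_mem hy z.2)
      refine ⟨i, ?_⟩
      rw [Subgroup.mem_comap]
      refine ⟨z * ⟨f i, hfX i⟩ * z⁻¹, ?_, ?_⟩
      · show y * ((z : K) * f i * (z : K)⁻¹) * y⁻¹ ∈ U
        have h2 : y * ((z : K) * f i * (z : K)⁻¹) * y⁻¹ = y * z * f i * (y * z)⁻¹ := by group
        rw [h2]
        exact hi
      · rw [map_mul, map_mul, map_inv, map_mul, map_mul, map_inv, hz, hFp]
    rw [Subgroup.mem_comap] at hmem
    obtain ⟨t, ht, ht'⟩ := hmem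
    have ht2 : y * (t : K) * y⁻¹ ∈ U := ht
    have h3 : p (t⁻¹ * x₀) = 1 := by
      rw [map_mul, map_inv, ht', hx₀, inv_mul_cancel]
    have h4 : ((t⁻¹ * x₀ : X) : K) ∈ C := (hker _).1 h3
    have h5 : y * ((t⁻¹ * x₀ : X) : K) * y⁻¹ ∈ U := hCU (hS.2.1 y hy _ h4)
    have h6 := U.mul_mem ht2 h5
    have h7 : y * (t : K) * y⁻¹ * (y * ((t⁻¹ * x₀ : X) : K) * y⁻¹) = y * (x₀ : K) * y⁻¹ := by
      push_cast
      group
    rwa [h7] at h6
  let N : Subgroup K :=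
    { carrier := {n | n ∈ X ∧ ∀ y ∈ X, y * n * y⁻¹ ∈ U}
      mul_mem' := by
        rintro a b ⟨ha, ha'⟩ ⟨hb, hb'⟩
        refine ⟨X.mul_mem ha hb, fun y hy => ?_⟩
        have h := U.mul_mem (ha' y hy) (hb' y hy)
        have h2 : y * a * y⁻¹ * (y * b * y⁻¹) = y * (a * b) * y⁻¹ := by group
        rwa [h2] at h
      one_mem' := ⟨X.one_mem, fun y hy => by simp [U.one_mem]⟩
      inv_mem' := by
        rintro a ⟨ha, ha'⟩
        refine ⟨X.inv_mem ha, fun y hy => ?_⟩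
        have h := U.inv_mem (ha' y hy)
        have h2 : (y * a * y⁻¹)⁻¹ = y * a⁻¹ * y⁻¹ := by group
        rwa [h2] at h }
  have hCN : C ≤ N := fun d hd => ⟨hS.1 hd, fun y hy => hCU (hS.2.1 y hy d hd)⟩
  have hNX : N ≤ X := fun n hn => hn.1
  have hnorm : NormIn X N := by
    intro z hz n hn
    refine ⟨X.mul_mem (X.mul_mem hz hn.1) (X.inv_mem hz), fun y hy => ?_⟩
    have h := hn.2 (y * z) (X.mul_mem hy hz)
    have h2 : y * z * n * (y * z)⁻¹ = y * (z * n * z⁻¹) * y⁻¹ := by group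
    rwa [h2] at h
  rcases hS.2.2.1 N hCN hNX hnorm with h | h
  · exfalso
    have h1 : (x₀ : K) ∈ N := ⟨x₀.2, key⟩
    rw [h] at h1
    have h2 : p x₀ = 1 := (hker x₀).2 h1
    rw [hx₀] at h2
    apply hxS
    exact (QuotientGroup.eq_one_iff x).1 h2
  · apply le_antisymm hUX
    intro z hz
    have h1 : z ∈ N := by rw [h]; exact hz
    have h2 := h1.2 1 X.one_mem
    simpa using h2

end H49KC
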