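import Pool.Agent.H49.KC.Defs
import Pool.Agent.H49.KA.Main
import Pool.Agent.H49.KA.SN
import Pool.Agent.H49.KB.Main
import Pool.Agent.H49.KC.TC
import Pool.Agent.H49.KC.CE
import Pool.Agent.H49.KC.C1
import Pool.Agent.H49.KC.C2
import Pool.Agent.H49.KC.C3
import Pool.Agent.H49.KC.XC

namespace H49KC

open H49KA H49KB

universe u v w

variable {G : Type u} [Group G]

theorem noConf_of_notAlt (hG : LocFin G) [IsSimpleGroup G] [Infinite G] (hn : ¬ Finitary G)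
    (hQ : ¬ AltQuot G) (d : ℕ) (𝓛 : Set (Subgroup G)) (h𝓛 : LocalSystem 𝓛)
    (hT : Tops d 𝓛) : NoConf G := by
  intro H hH
  by_contra hH1
  obtain ⟨s, hs, hex⟩ := exists_cdata hG hn hQ d 𝓛 h𝓛 hT H hH hH1
  obtain ⟨c₁, htop⟩ := top_conf.{u} s hs
  obtain ⟨K, f, Y, X, U, hd⟩ := hex (max ((s ^ 2) ^ (s ^ 2))
    (((s ^ 2).factorial) ^ ((s ^ 2).factorial))) (max c₁ (max (s ^ 2) (10 * (s + 1) ^ 2)))
  obtain ⟨N, N₀, hN⟩ := chf_exists hd
  have hperf := case1 hd (le_max_left _ _)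
    (le_trans (le_max_left _ _) (le_max_right _ _)) hN
  have hfix := case2 hd (le_trans (le_max_right _ _) (le_max_right _ _)) hN hperf
  refine case3 hd (le_max_right _ _) hN hperf hfix ?_
  intro C U' hs1 hs2 hf hCU hUX hconf
  refine htop K X C U' f hs1 hs2 (fun i => hd.hYX (hd.hfY i)) hf ?_ hCU hUX hconf
  intro k _ V _ _ p x i hx hp g a hg hsm
  exact hd.rk k V p x i hx hp g a hg (smallRank_mono (le_max_left _ _) hsm)

theorem mainC (G : Type u) [Group G] [Infinite G] (hG : LocFin G) (hn : ¬ Finitary G)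
    (d : ℕ) (𝓛 : Set (Subgroup G)) (h𝓛 : LocalSystem 𝓛) (hT : Tops d 𝓛) :
    (AugSimple G ↔ NoConf G) ∧ (¬ AltQuot G → (AugSimple G ↔ IsSimpleGroup G)) := by
  have hsn : AugSimple G → IsSimpleGroup G := fun h => simple_of_augSimple h
  have h1 : ¬ AltQuot G → IsSimpleGroup G → NoConf G := fun hQ hs =>
    noConf_of_notAlt hG hn hQ d 𝓛 h𝓛 hT
  refine ⟨⟨?_, ?_⟩, ?_⟩
  · intro hA
    by_cases hQ : AltQuot G
    · exact noConf_of_augSimple hG hQ hA
    · exact h1 hQ (hsn hA)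
  · exact mainB G hG hn d 𝓛 h𝓛 hT
  · intro hQ
    exact ⟨hsn, fun hs => mainB G hG hn d 𝓛 h𝓛 hT (h1 hQ hs)⟩

end H49KC
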